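import Pool.Agent.Q218.WE.LatA
import Mathlib.Algebra.MonoidAlgebra.Basic
import Mathlib.Algebra.Polynomial.AlgebraMap
import Mathlib.Algebra.Polynomial.Module.AEval

/-! The symbol `(e^{ip·z} - P(2 ∑ cos p_i)) / 3`. -/

set_option autoImplicit false
set_option linter.unusedSectionVars false

open scoped BigOperators Polynomial

namespace Pool.Agent.Q218.WE

open Pool.Agent.TH794.HK (ph)
open Pool.Agent.W788.LD.Spec (S)
open Pool.Agent.W788.MFP.Four (T NN adj e)
open Pool.Agent.W788.MFP.Site (z)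
open Pool.Agent.H4R2.LO (Zd)

variable {d : ℕ}

/-- the adjacency element -/
noncomputable def Sh (d : ℕ) : AddMonoidAlgebra ℝ (Zd d) :=
  ∑ i : Fin d, (AddMonoidAlgebra.single (Pi.single i 1 : Zd d) (1 : ℝ) +
    AddMonoidAlgebra.single (-(Pi.single i 1 : Zd d)) (1 : ℝ))

/-- the symbol -/
noncomputable def sO (v : Zd d) (P : ℝ[X]) : AddMonoidAlgebra ℝ (Zd d) :=
  (1 / 3 : ℝ) • (AddMonoidAlgebra.single v (1 : ℝ) - Polynomial.aeval (Sh d) P)

/-- its support -/
noncomputable def ZO (v : Zd d) (P : ℝ[X]) : Finset (Zd d) := (sO v P).coeff.support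

/-- its coefficients -/
noncomputable def oO (v : Zd d) (P : ℝ[X]) (w : Zd d) : ℂ := (((sO v P).coeff w : ℝ) : ℂ)

theorem oO_conj (v : Zd d) (P : ℝ[X]) : (fun w => (starRingEnd ℂ) (oO v P w)) = oO v P := by
  funext w
  unfold oO
  exact Complex.conj_ofReal _

theorem ev_gen {A : Type*} [Ring A] [Algebra ℝ A] (F : Multiplicative (Zd d) →* A) (v : Zd d)
    (P : ℝ[X]) : ∑ w ∈ ZO v P, (sO v P).coeff w • F (.ofAdd w) =
      (1 / 3 : ℝ) • (F (.ofAdd v) - Polynomial.aeval (∑ i : Fin d,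
        (F (.ofAdd (Pi.single i 1 : Zd d)) + F (.ofAdd (-(Pi.single i 1 : Zd d))))) P) := by
  have h1 := AddMonoidAlgebra.lift_apply (R := ℝ) (A := A) (M := Zd d) F (sO v P)
  unfold ZO
  rw [Finsupp.sum] at h1
  rw [← h1]
  have h2 : AddMonoidAlgebra.lift ℝ A (Zd d) F (Sh d) = ∑ i : Fin d,
        (F (.ofAdd (Pi.single i 1 : Zd d)) + F (.ofAdd (-(Pi.single i 1 : Zd d)))) := by
    unfold Sh
    rw [map_sum]
    refine Finset.sum_congr rfl fun i _ => ?_
    rw [map_add, AddMonoidAlgebra.lift_single, AddMonoidAlgebra.lift_single, one_smul, one_smul]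
  conv_lhs => unfold sO
  rw [map_smul, map_sub, AddMonoidAlgebra.lift_single, one_smul, ← Polynomial.aeval_algHom_apply,
    h2]

theorem ph_add (p : Fin d → ℝ) (x y : Zd d) : ph p (x + y) = ph p x * ph p y := by
  unfold ph
  rw [← Complex.exp_add]
  congr 1
  rw [← mul_add, ← Complex.ofReal_add, ← Finset.sum_add_distrib]
  congr 2
  refine Finset.sum_congr rfl fun i _ => ?_
  simp only [Pi.add_apply]
  push_cast
  ring

theorem ph_zero (p : Fin d → ℝ) : ph p (0 : Zd d) = 1 := by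
  unfold ph
  simp

/-- the character -/
noncomputable def chP (p : Fin d → ℝ) : Multiplicative (Zd d) →* ℂ where
  toFun w := ph p (Multiplicative.toAdd w)
  map_one' := ph_zero p
  map_mul' _ _ := ph_add p _ _

theorem ph_single (p : Fin d → ℝ) (i : Fin d) :
    ph p (Pi.single i 1 : Zd d) + ph p (-(Pi.single i 1 : Zd d)) = ((2 * Real.cos (p i) : ℝ) : ℂ) := by
  have h1 : ∑ j, p j * (((Pi.single i 1 : Zd d) j : ℤ) : ℝ) = p i := by
    rw [Finset.sum_eq_single i]
    · simp
    · intro j _ hj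
      rw [Pi.single_eq_of_ne hj]
      simp
    · intro h
      exact absurd (Finset.mem_univ i) h
  have h2 : ∑ j, p j * (((-(Pi.single i 1 : Zd d)) j : ℤ) : ℝ) = -p i := by
    rw [← h1, ← Finset.sum_neg_distrib]
    refine Finset.sum_congr rfl fun j _ => ?_
    simp only [Pi.neg_apply]
    push_cast
    ring
  unfold ph
  rw [h1, h2]
  push_cast
  rw [Complex.cos]
  rw [mul_comm Complex.I, mul_comm Complex.I]
  ring

theorem sym_ph (v : Zd d) (P : ℝ[X]) (p : Fin d → ℝ) :
    ∑ w ∈ ZO v P, oO v P w * ph p w =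
      (1 / 3 : ℂ) * (ph p v - ((P.eval (∑ i, 2 * Real.cos (p i)) : ℝ) : ℂ)) := by
  have h1 := ev_gen (chP p) v P
  have h2 : ∑ i : Fin d, (chP p (.ofAdd (Pi.single i 1 : Zd d)) +
      chP p (.ofAdd (-(Pi.single i 1 : Zd d)))) = ((∑ i, 2 * Real.cos (p i) : ℝ) : ℂ) := by
    rw [Complex.ofReal_sum]
    exact Finset.sum_congr rfl fun i _ => ph_single p i
  rw [h2] at h1
  have h3 : Polynomial.aeval ((∑ i, 2 * Real.cos (p i) : ℝ) : ℂ) P =
      ((P.eval (∑ i, 2 * Real.cos (p i)) : ℝ) : ℂ) := by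
    exact Polynomial.aeval_algebraMap_apply_eq_algebraMap_eval _ P
  rw [h3] at h1
  have h4 : ∀ w, (sO v P).coeff w • chP p (.ofAdd w) = oO v P w * ph p w := by
    intro w
    rw [Complex.real_smul]
    rfl
  simp only [h4] at h1
  rw [h1, Complex.real_smul]
  push_cast
  rfl

theorem sym_le (v : Zd d) (P : ℝ[X]) (hP : ∀ x : ℝ, |x| ≤ 2 * d → |P.eval x| ≤ 2)
    (p : Fin d → ℝ) : ‖∑ w ∈ ZO v P, oO v P w * ph p w‖ ≤ 1 := by
  rw [sym_ph, norm_mul]
  have h1 : |∑ i, 2 * Real.cos (p i)| ≤ 2 * d := by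
    refine (Finset.abs_sum_le_sum_abs _ _).trans ?_
    have h2 : ∀ i ∈ (Finset.univ : Finset (Fin d)), |2 * Real.cos (p i)| ≤ 2 := by
      intro i _
      rw [abs_mul, abs_two]
      have := Real.abs_cos_le_one (p i)
      linarith
    refine (Finset.sum_le_sum h2).trans (le_of_eq ?_)
    rw [Finset.sum_const, Finset.card_univ, Fintype.card_fin, nsmul_eq_mul, mul_comm]
  have h3 := hP _ h1
  have h4 := norm_sub_le (ph p v) ((P.eval (∑ i, 2 * Real.cos (p i)) : ℝ) : ℂ)
  rw [Pool.Agent.TH794.HK.ph_norm, Complex.norm_real, Real.norm_eq_abs] at h4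
  have h5 : ‖(1 / 3 : ℂ)‖ = 1 / 3 := by
    rw [norm_div, norm_one]
    norm_num
  rw [h5]
  linarith

section torus

variable {L : ℕ} [NeZero L]

/-- the conjugate character on the torus -/
noncomputable def chT (k : T d L) : Multiplicative (Zd d) →* ℂ where
  toFun w := (starRingEnd ℂ) (e k (z L (Multiplicative.toAdd w)))
  map_one' := by
    have h1 : z L (0 : Zd d) = 0 := by
      funext i
      simp [z]
    change (starRingEnd ℂ) (e k (z L (0 : Zd d))) = 1
    rw [h1]
    unfold e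
    simp
  map_mul' x y := by
    change (starRingEnd ℂ) (e k (z L (Multiplicative.toAdd x + Multiplicative.toAdd y))) = _
    rw [z_add, Pool.Agent.W788.MFP.Four.e_add, map_mul]

theorem sym_T (v : Zd d) (P : ℝ[X]) (k : T d L) :
    osym (ZO v P) (oO v P) k =
      (1 / 3 : ℂ) * ((starRingEnd ℂ) (e k (z L v)) - ((P.eval (adj k) : ℝ) : ℂ)) := by
  have h1 := ev_gen (chT k) v P
  have h2 : ∑ i : Fin d, (chT k (.ofAdd (Pi.single i 1 : Zd d)) +
      chT k (.ofAdd (-(Pi.single i 1 : Zd d)))) = ((adj k : ℝ) : ℂ) := by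
    unfold adj
    rw [Complex.ofReal_sum]
    refine Finset.sum_congr rfl fun i _ => ?_
    have h3 : e k (z L (Pi.single i 1 : Zd d)) = (ZMod.stdAddChar (k i) : ℂ) := by
      unfold e
      congr 1
      rw [Finset.sum_eq_single i]
      · unfold z
        simp
      · intro j _ hj
        unfold z
        rw [Pi.single_eq_of_ne hj]
        simp
      · intro h
        exact absurd (Finset.mem_univ i) h
    have h4 : z L (-(Pi.single i 1 : Zd d)) = -z L (Pi.single i 1 : Zd d) := by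
      funext j
      simp [z]
    have h5 : e k (z L (-(Pi.single i 1 : Zd d))) =
        (starRingEnd ℂ) (ZMod.stdAddChar (k i) : ℂ) := by
      rw [h4, ← h3]
      exact Pool.Agent.W788.MFP.Four.e_neg k _
    change (starRingEnd ℂ) (e k (z L (Pi.single i 1 : Zd d))) +
      (starRingEnd ℂ) (e k (z L (-(Pi.single i 1 : Zd d)))) = _
    rw [h3, h5, Complex.conj_conj]
    apply Complex.ext <;> simp <;> ring
  rw [h2] at h1
  have h3 : Polynomial.aeval ((adj k : ℝ) : ℂ) P = ((P.eval (adj k) : ℝ) : ℂ) := by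
    exact Polynomial.aeval_algebraMap_apply_eq_algebraMap_eval _ P
  rw [h3] at h1
  have h4 : ∀ w, (sO v P).coeff w • chT k (.ofAdd w) =
      oO v P w * (starRingEnd ℂ) (e k (z L w)) := by
    intro w
    rw [Complex.real_smul]
    rfl
  simp only [h4] at h1
  unfold osym
  rw [h1, Complex.real_smul]
  push_cast
  rfl

end torus

/-- the translations -/
noncomputable def chS (d : ℕ) : Multiplicative (Zd d) →* Module.End ℝ (Zd d → ℂ) where
  toFun w := LinearMap.funLeft ℝ ℂ fun x => x + Multiplicative.toAdd w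
  map_one' := by
    ext f x
    simp [LinearMap.funLeft]
  map_mul' x y := by
    ext f w
    simp only [LinearMap.funLeft_apply, Module.End.mul_apply, toAdd_mul]
    congr 1
    abel

theorem sym_S (v : Zd d) (P : ℝ[X]) (f : Zd d → ℂ) (x : Zd d) :
    cv (ZO v P) (oO v P) f x =
      (1 / 3 : ℂ) * (f (x + v) - ∑ n ∈ P.support, (P.coeff n : ℂ) * S^[n] f x) := by
  have h1 := ev_gen (chS d) v P
  have h2 : ∀ g : Zd d → ℂ, (∑ i : Fin d, (chS d (.ofAdd (Pi.single i 1 : Zd d)) +
      chS d (.ofAdd (-(Pi.single i 1 : Zd d))))) g = S g := by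
    intro g
    funext y
    rw [LinearMap.sum_apply, Finset.sum_apply]
    unfold S
    refine Finset.sum_congr rfl fun i _ => ?_
    rw [LinearMap.add_apply, Pi.add_apply, sub_eq_add_neg]
    rfl
  obtain ⟨A, hA⟩ : ∃ A, A = ∑ i : Fin d, (chS d (.ofAdd (Pi.single i 1 : Zd d)) +
      chS d (.ofAdd (-(Pi.single i 1 : Zd d)))) := ⟨_, rfl⟩
  rw [← hA] at h1 h2
  have h3 := congrFun (congrArg (fun B : Module.End ℝ (Zd d → ℂ) => B f) h1) x
  simp only [LinearMap.sum_apply, LinearMap.smul_apply, LinearMap.sub_apply, Finset.sum_apply,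
    Pi.smul_apply, Pi.sub_apply] at h3
  rw [Polynomial.aeval_endomorphism] at h3
  have h4 : ∀ n, (A ^ n) f = S^[n] f := by
    intro n
    rw [Module.End.pow_apply]
    congr 1
    have : (A : (Zd d → ℂ) → (Zd d → ℂ)) = S := funext h2
    rw [this]
  unfold cv
  have h5 : ∀ w, (sO v P).coeff w • (chS d (.ofAdd w)) f x = oO v P w * f (x + w) := by
    intro w
    rw [Complex.real_smul]
    rfl
  simp only [h5] at h3
  rw [h3, Complex.real_smul, Polynomial.sum, Finset.sum_apply]
  push_cast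
  congr 2
  refine Finset.sum_congr rfl fun n _ => ?_
  rw [Pi.smul_apply, h4, Complex.real_smul]

end Pool.Agent.Q218.WE
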