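import Pool.Agent.Q218.WE.Dt
import Pool.Agent.Q218.WE.Sym

/-! From the symbol to the translation. -/

set_option autoImplicit false
set_option linter.unusedSectionVars false

open scoped BigOperators Topology InnerProductSpace Polynomial
open MeasureTheory Filter Set

namespace Pool.Agent.Q218.WE

open Pool.Agent.W788.LD.Spec (S)
open Pool.Agent.H4R2.LO (Zd bx)
open Pool.Agent.TH794.QD (HS hs_sum)
open Pool.Agent.Q218.AT (mem_bx' cs_sum gx_le sq_help2)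

variable {d : ℕ}

/-- a weighted Cauchy–Schwarz inequality -/
theorem wcs {ι : Type*} (s : Finset ι) (a : ι → ℝ) (r : ι → ℂ) :
    ‖∑ n ∈ s, (a n : ℂ) * r n‖ ^ 2 ≤ (∑ n ∈ s, |a n|) * ∑ n ∈ s, |a n| * ‖r n‖ ^ 2 := by
  have h1 : ‖∑ n ∈ s, (a n : ℂ) * r n‖ ≤ ∑ n ∈ s, Real.sqrt |a n| * (Real.sqrt |a n| * ‖r n‖) := by
    refine (norm_sum_le _ _).trans (Finset.sum_le_sum fun n _ => ?_)
    rw [norm_mul, Complex.norm_real, Real.norm_eq_abs, ← mul_assoc,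
      Real.mul_self_sqrt (abs_nonneg _)]
  have h2 := Finset.sum_mul_sq_le_sq_mul_sq s (fun n => Real.sqrt |a n|)
    (fun n => Real.sqrt |a n| * ‖r n‖)
  have h3 := pow_le_pow_left₀ (norm_nonneg _) h1 2
  refine h3.trans (h2.trans (le_of_eq ?_))
  congr 1
  · exact Finset.sum_congr rfl fun n _ => Real.sq_sqrt (abs_nonneg _)
  · refine Finset.sum_congr rfl fun n _ => ?_
    rw [mul_pow, Real.sq_sqrt (abs_nonneg _)]

/-- a pairing with a normalised function -/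
theorem pair_sq (I : Finset (Zd d)) (g : HS d) (hg : ‖g‖ = 1) (c r : Zd d → ℂ)
    (hc : ∀ x, ‖c x‖ ≤ 1) :
    ‖∑ x ∈ I, c x * ((starRingEnd ℂ) (g x) * r x)‖ ^ 2 ≤ ∑ x ∈ I, ‖r x‖ ^ 2 := by
  have h1 : ‖∑ x ∈ I, c x * ((starRingEnd ℂ) (g x) * r x)‖ ≤ ∑ x ∈ I, ‖g x‖ * ‖r x‖ := by
    refine (norm_sum_le _ _).trans (Finset.sum_le_sum fun x _ => ?_)
    rw [norm_mul, norm_mul, Complex.norm_conj]
    exact mul_le_of_le_one_left (by positivity) (hc x)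
  have h2 := Finset.sum_mul_sq_le_sq_mul_sq I (fun x => ‖g x‖) (fun x => ‖r x‖)
  have h3 := pow_le_pow_left₀ (norm_nonneg _) h1 2
  refine h3.trans (h2.trans ?_)
  exact mul_le_of_le_one_left (Finset.sum_nonneg fun x _ => sq_nonneg _) (gx_le I g hg)

/-- **the symbol and the translation** -/
theorem drpO (hDROP : S_DROP) (hd : 1 ≤ d) (v : Zd d) (P : ℝ[X]) : ∃ CP : ℝ, 0 ≤ CP ∧
    ∀ (W : Zd d → ℝ) (b : Zd d) (L : ℕ), P.natDegree ≤ L → ∀ c : Zd d → ℂ, (∀ x, ‖c x‖ ≤ 1) →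
    (∀ x, x ∉ bx b (L - P.natDegree) → c x = 0) →
    ∀ (J : Type) (f : J → HS d), Orthonormal ℂ f → ∀ (E : J → ℝ),
      (∀ j x, ‖x - b‖ < L → -S (fun y => f j y) x + (W x : ℂ) * f j x = (E j : ℂ) * f j x) →
      ∀ s : Finset J, (∀ j ∈ s, |E j| ≤ 2 * d) →
      ∑ j ∈ s, ‖∑ x ∈ bx b L, c x * ((starRingEnd ℂ) (f j x) *
        (3 * cv (ZO v P) (oO v P) (fun y => f j y) x -
          (f j (x + v) - ((P.eval (-E j) : ℝ) : ℂ) * f j x)))‖ ^ 2 ≤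
        CP * ∑ x ∈ bx b L, W x ^ 2 := by
  refine ⟨(∑ n ∈ P.support, |P.coeff n|) * ∑ n ∈ P.support, |P.coeff n| *
    (n * (2 * d) ^ (n - 1)) ^ 2, mul_nonneg (Finset.sum_nonneg fun n _ => abs_nonneg _)
      (Finset.sum_nonneg fun n _ => mul_nonneg (abs_nonneg _) (sq_nonneg _)), ?_⟩
  intro W b L hN c hc hc0 J f hf E he s hs
  have hsub : bx b (L - P.natDegree) ⊆ bx b L := Pool.Agent.Q218.AT.bx_sub b L _
  obtain ⟨r, hr⟩ : ∃ r : J → Zd d → ℂ, r = fun j x => ∑ n ∈ P.support, (P.coeff n : ℂ) *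
    (S^[n] (fun y => f j y) x - ((-E j : ℝ) : ℂ) ^ n * f j x) := ⟨_, rfl⟩
  have h1 : ∀ j x, 3 * cv (ZO v P) (oO v P) (fun y => f j y) x -
          (f j (x + v) - ((P.eval (-E j) : ℝ) : ℂ) * f j x) = -r j x := by
    intro j x
    rw [sym_S, hr]
    simp only
    have h2 : ((P.eval (-E j) : ℝ) : ℂ) = ∑ n ∈ P.support, (P.coeff n : ℂ) *
        ((-E j : ℝ) : ℂ) ^ n := by
      rw [Polynomial.eval_eq_sum, Polynomial.sum, Complex.ofReal_sum]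
      refine Finset.sum_congr rfl fun n _ => ?_
      push_cast
      rfl
    rw [h2, Finset.sum_mul]
    simp only [mul_sub]
    rw [Finset.sum_sub_distrib]
    have h3 : ∑ n ∈ P.support, (P.coeff n : ℂ) * (((-E j : ℝ) : ℂ) ^ n * f j x) =
        ∑ n ∈ P.support, (P.coeff n : ℂ) * ((-E j : ℝ) : ℂ) ^ n * f j x :=
      Finset.sum_congr rfl fun n _ => by ring
    rw [h3]
    ring
  simp only [h1]
  have h2 : ∀ j ∈ s, ‖∑ x ∈ bx b L, c x * ((starRingEnd ℂ) (f j x) * -r j x)‖ ^ 2 ≤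
      ∑ x ∈ bx b (L - P.natDegree), ‖r j x‖ ^ 2 := by
    intro j _
    have h3 : ∑ x ∈ bx b L, c x * ((starRingEnd ℂ) (f j x) * -r j x) =
        ∑ x ∈ bx b (L - P.natDegree), c x * ((starRingEnd ℂ) (f j x) * -r j x) := by
      refine (Finset.sum_subset hsub fun x _ hx => ?_).symm
      rw [hc0 x hx, zero_mul]
    rw [h3]
    have h4 := pair_sq (bx b (L - P.natDegree)) (f j) (hf.1 j) c (fun x => -r j x) hc
    simp only [norm_neg] at h4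
    exact h4
  refine (Finset.sum_le_sum h2).trans ?_
  obtain ⟨A, hA⟩ : ∃ A, A = ∑ n ∈ P.support, |P.coeff n| := ⟨_, rfl⟩
  have hA0 : 0 ≤ A := by rw [hA]; exact Finset.sum_nonneg fun n _ => abs_nonneg _
  rw [← hA]
  have h3 : ∀ j ∈ s, ∑ x ∈ bx b (L - P.natDegree), ‖r j x‖ ^ 2 ≤
      ∑ x ∈ bx b (L - P.natDegree), A * ∑ n ∈ P.support, |P.coeff n| *
        ‖S^[n] (fun y => f j y) x - ((-E j : ℝ) : ℂ) ^ n * f j x‖ ^ 2 := by
    intro j _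
    refine Finset.sum_le_sum fun x _ => ?_
    rw [hr, hA]
    exact wcs P.support (fun n => P.coeff n) _
  refine (Finset.sum_le_sum h3).trans ?_
  simp only [← Finset.mul_sum]
  rw [mul_assoc]
  refine mul_le_mul_of_nonneg_left ?_ hA0
  have h4 : ∑ j ∈ s, ∑ x ∈ bx b (L - P.natDegree), ∑ n ∈ P.support, |P.coeff n| *
        ‖S^[n] (fun y => f j y) x - ((-E j : ℝ) : ℂ) ^ n * f j x‖ ^ 2 =
      ∑ n ∈ P.support, |P.coeff n| * ∑ j ∈ s, ∑ x ∈ bx b (L - P.natDegree),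
        ‖S^[n] (fun y => f j y) x - ((-E j : ℝ) : ℂ) ^ n * f j x‖ ^ 2 := by
    simp only [Finset.mul_sum]
    rw [Finset.sum_comm' (s := P.support) (t := fun _ => s) (t' := s) (s' := fun _ => P.support)
      (by tauto)]
    refine Finset.sum_congr rfl fun j _ => ?_
    rw [Finset.sum_comm]
  rw [h4, Finset.sum_mul]
  refine Finset.sum_le_sum fun n hn => ?_
  rw [mul_assoc]
  refine mul_le_mul_of_nonneg_left ?_ (abs_nonneg _)
  exact hDROP d hd W b L P.natDegree hN J f hf E he s hs n (Polynomial.le_natDegree_of_mem_supp n hn)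

theorem sq4 (a b c e : ℝ) : (a + b + c + e) ^ 2 ≤ 4 * (a ^ 2 + b ^ 2 + c ^ 2 + e ^ 2) := by
  nlinarith [sq_nonneg (a - b), sq_nonneg (a - c), sq_nonneg (a - e), sq_nonneg (b - c),
    sq_nonneg (b - e), sq_nonneg (c - e)]

/-- **the deterministic conclusion** -/
theorem phD (hDROP : S_DROP) (hd : 1 ≤ d) (v : Zd d) (P : ℝ[X]) : ∃ CP : ℝ, 0 ≤ CP ∧
    ∀ (κ e1 : ℝ) (F : ℝ → ℝ), 0 ≤ κ → (∀ E : ℝ, |E| ≤ 2 * d - κ → |P.eval E - F E| ≤ e1) →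
    (∀ E : ℝ, |E| ≤ 2 * d - κ → |F E| ≤ 1) →
    ∀ (W : Zd d → ℝ) (b : Zd d) (L : ℕ), P.natDegree ≤ L → ∀ (a : Zd d → ℝ) (c : Zd d → ℂ),
    (∀ x, |a x| ≤ 1) → (∀ x ∈ bx b (L - P.natDegree), c x = ((a x : ℝ) : ℂ)) →
    (∀ x, x ∉ bx b (L - P.natDegree) → c x = 0) →
    ∀ (J : Type) (f : J → HS d), Orthonormal ℂ f → ∀ (E : J → ℝ),
      (∀ j x, ‖x - b‖ < L → -S (fun y => f j y) x + (W x : ℂ) * f j x = (E j : ℂ) * f j x) →
      ∀ s : Finset J, (∀ j ∈ s, |E j| ≤ 2 * d - κ) →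
      ∑ j ∈ s, ‖∑ x ∈ bx b L, ((a x : ℝ) : ℂ) * ((starRingEnd ℂ) (f j x) * f j (x + v) -
          ((F (-E j) * ‖f j x‖ ^ 2 : ℝ) : ℂ))‖ ^ 2 ≤
        36 * (∑ j ∈ s, ‖∑ x ∈ bx b L, c x * ((starRingEnd ℂ) (f j x) *
          cv (ZO v P) (oO v P) (fun y => f j y) x)‖ ^ 2) +
        4 * (CP * ∑ x ∈ bx b L, W x ^ 2) + 4 * (e1 ^ 2 * (bx b L).card) +
        16 * ((bx b L \ bx b (L - P.natDegree)).card : ℝ) := by
  obtain ⟨CP, hCP, hdrp⟩ := drpO hDROP hd v P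
  refine ⟨CP, hCP, ?_⟩
  intro κ e1 F hκ hPF hF1 W b L hN a c ha hca hc0 J f hf E he s hs
  have hc : ∀ x, ‖c x‖ ≤ 1 := by
    intro x
    by_cases hx : x ∈ bx b (L - P.natDegree)
    · rw [hca x hx, Complex.norm_real]
      exact ha x
    · rw [hc0 x hx, norm_zero]
      exact zero_le_one
  have hsub : bx b (L - P.natDegree) ⊆ bx b L := Pool.Agent.Q218.AT.bx_sub b L _
  have k1 := hdrp W b L hN c hc hc0 J f hf E he s fun j hj => (hs j hj).trans (by linarith)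
  obtain ⟨Λ, hΛ⟩ : ∃ Λ, Λ = bx b L := ⟨_, rfl⟩
  obtain ⟨I, hI⟩ : ∃ I, I = bx b (L - P.natDegree) := ⟨_, rfl⟩
  rw [← hΛ, ← hI] at hsub
  rw [← hΛ] at k1 ⊢
  rw [← hI] at hca hc0 ⊢
  obtain ⟨q, hq⟩ : ∃ q : J → ℂ, q = fun j => ∑ x ∈ Λ, c x * ((starRingEnd ℂ) (f j x) *
          cv (ZO v P) (oO v P) (fun y => f j y) x) := ⟨_, rfl⟩
  obtain ⟨D, hD⟩ : ∃ D : J → ℂ, D = fun j => ∑ x ∈ Λ, c x * ((starRingEnd ℂ) (f j x) *
        (3 * cv (ZO v P) (oO v P) (fun y => f j y) x -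
          (f j (x + v) - ((P.eval (-E j) : ℝ) : ℂ) * f j x))) := ⟨_, rfl⟩
  have hqj : ∀ j, ∑ x ∈ Λ, c x * ((starRingEnd ℂ) (f j x) *
          cv (ZO v P) (oO v P) (fun y => f j y) x) = q j := fun j => by rw [hq]
  have hDj : ∀ j, ∑ x ∈ Λ, c x * ((starRingEnd ℂ) (f j x) *
        (3 * cv (ZO v P) (oO v P) (fun y => f j y) x -
          (f j (x + v) - ((P.eval (-E j) : ℝ) : ℂ) * f j x))) = D j := fun j => by rw [hD]
  simp only [hDj] at k1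
  simp only [hqj]
  obtain ⟨R, hR⟩ : ∃ R : J → ℂ, R = fun j => ∑ x ∈ Λ \ I, ((a x : ℝ) : ℂ) *
    ((starRingEnd ℂ) (f j x) * f j (x + v) - ((F (-E j) * ‖f j x‖ ^ 2 : ℝ) : ℂ)) := ⟨_, rfl⟩
  obtain ⟨m, hm⟩ : ∃ m : J → ℂ, m = fun j => ∑ x ∈ I, ((a x : ℝ) : ℂ) *
    (((P.eval (-E j) - F (-E j) : ℝ) : ℂ) * ((‖f j x‖ ^ 2 : ℝ) : ℂ)) := ⟨_, rfl⟩
  have hnn : ∀ z : ℂ, ((‖z‖ ^ 2 : ℝ) : ℂ) = (starRingEnd ℂ) z * z := by
    intro z
    rw [← Complex.normSq_eq_norm_sq, Complex.normSq_eq_conj_mul_self]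
  have hY : ∀ j, ∑ x ∈ Λ, ((a x : ℝ) : ℂ) * ((starRingEnd ℂ) (f j x) * f j (x + v) -
          ((F (-E j) * ‖f j x‖ ^ 2 : ℝ) : ℂ)) = R j + 3 * q j + -D j + m j := by
    intro j
    rw [← Finset.sum_sdiff hsub]
    have e1 : ∑ x ∈ Λ \ I, ((a x : ℝ) : ℂ) * ((starRingEnd ℂ) (f j x) * f j (x + v) -
          ((F (-E j) * ‖f j x‖ ^ 2 : ℝ) : ℂ)) = R j := by rw [hR]
    rw [e1, add_assoc, add_assoc]
    congr 1
    have e2 : q j = ∑ x ∈ I, c x * ((starRingEnd ℂ) (f j x) *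
          cv (ZO v P) (oO v P) (fun y => f j y) x) := by
      rw [hq]
      refine (Finset.sum_subset hsub fun x _ hx => ?_).symm
      rw [hc0 x hx, zero_mul]
    have e3 : D j = ∑ x ∈ I, c x * ((starRingEnd ℂ) (f j x) *
        (3 * cv (ZO v P) (oO v P) (fun y => f j y) x -
          (f j (x + v) - ((P.eval (-E j) : ℝ) : ℂ) * f j x))) := by
      rw [hD]
      refine (Finset.sum_subset hsub fun x _ hx => ?_).symm
      rw [hc0 x hx, zero_mul]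
    rw [e2, e3, hm, Finset.mul_sum, ← Finset.sum_neg_distrib, ← Finset.sum_add_distrib,
      ← Finset.sum_add_distrib]
    refine Finset.sum_congr rfl fun x hx => ?_
    rw [hca x hx, Complex.ofReal_mul, hnn (f j x)]
    push_cast
    ring
  have hA : ∀ j, ‖R j‖ ^ 2 ≤ 4 * ∑ x ∈ Λ \ I, ‖f j x‖ ^ 2 ∨ j ∉ s := by
    intro j
    by_cases hj : j ∈ s
    · left
      obtain ⟨A, hA⟩ : ∃ A, A = ∑ x ∈ Λ \ I, ‖f j x‖ ^ 2 := ⟨_, rfl⟩
      have hA0 : 0 ≤ A := by rw [hA]; exact Finset.sum_nonneg fun x _ => sq_nonneg _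
      have hA1 : A ≤ 1 := by rw [hA]; exact gx_le _ (f j) (hf.1 j)
      have hF := hF1 (-E j) (by rw [abs_neg]; exact hs j hj)
      have h1 : ‖R j‖ ≤ (∑ x ∈ Λ \ I, ‖f j x‖ * ‖f j (x + v)‖) + A := by
        rw [hR, hA, ← Finset.sum_add_distrib]
        refine (norm_sum_le _ _).trans (Finset.sum_le_sum fun x _ => ?_)
        rw [norm_mul, Complex.norm_real]
        refine (mul_le_of_le_one_left (norm_nonneg _) (ha x)).trans ?_
        refine (norm_sub_le _ _).trans ?_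
        rw [norm_mul, Complex.norm_conj, Complex.norm_real, Real.norm_eq_abs, abs_mul,
          abs_of_nonneg (sq_nonneg ‖f j x‖)]
        have : |F (-E j)| * ‖f j x‖ ^ 2 ≤ ‖f j x‖ ^ 2 := mul_le_of_le_one_left (sq_nonneg _) hF
        linarith
      have h2 := Finset.sum_mul_sq_le_sq_mul_sq (Λ \ I) (fun x => ‖f j x‖) (fun x => ‖f j (x + v)‖)
      have h3 : ∑ x ∈ Λ \ I, ‖f j (x + v)‖ ^ 2 ≤ 1 :=
        sh_le (Λ \ I) v (fun x => ‖f j x‖ ^ 2) (fun x => sq_nonneg _) fun s => gx_le s _ (hf.1 j)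
      rw [← hA] at h2 ⊢
      have h4 : A * ∑ x ∈ Λ \ I, ‖f j (x + v)‖ ^ 2 ≤ A := mul_le_of_le_one_right hA0 h3
      have h5 := pow_le_pow_left₀ (norm_nonneg _) h1 2
      have h6 := sq_help2 (∑ x ∈ Λ \ I, ‖f j x‖ * ‖f j (x + v)‖) A
      have h7 : A ^ 2 ≤ A := by
        rw [sq]
        exact mul_le_of_le_one_left hA0 hA1
      linarith
    · exact Or.inr hj
  have hM : ∀ j ∈ s, ‖m j‖ ^ 2 ≤ e1 ^ 2 * ∑ x ∈ I, ‖f j x‖ ^ 2 := by
    intro j hj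
    obtain ⟨A, hA⟩ : ∃ A, A = ∑ x ∈ I, ‖f j x‖ ^ 2 := ⟨_, rfl⟩
    have hA0 : 0 ≤ A := by rw [hA]; exact Finset.sum_nonneg fun x _ => sq_nonneg _
    have hA1 : A ≤ 1 := by rw [hA]; exact gx_le _ (f j) (hf.1 j)
    have h0 := hPF (-E j) (by rw [abs_neg]; exact hs j hj)
    have h1 : ‖m j‖ ≤ e1 * A := by
      rw [hm, hA, Finset.mul_sum]
      refine (norm_sum_le _ _).trans (Finset.sum_le_sum fun x _ => ?_)
      rw [norm_mul, Complex.norm_real, norm_mul, Complex.norm_real, Complex.norm_real,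
        Real.norm_of_nonneg (sq_nonneg ‖f j x‖)]
      refine (mul_le_of_le_one_left (by positivity) (ha x)).trans ?_
      exact mul_le_mul_of_nonneg_right h0 (sq_nonneg _)
    have h2 := pow_le_pow_left₀ (norm_nonneg _) h1 2
    rw [← hA]
    calc ‖m j‖ ^ 2 ≤ (e1 * A) ^ 2 := h2
      _ = e1 ^ 2 * (A * A) := by ring
      _ ≤ e1 ^ 2 * (1 * A) := by gcongr
      _ = _ := by rw [one_mul]
  have hone : ∀ j ∈ s, ‖∑ x ∈ Λ, ((a x : ℝ) : ℂ) * ((starRingEnd ℂ) (f j x) * f j (x + v) -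
          ((F (-E j) * ‖f j x‖ ^ 2 : ℝ) : ℂ))‖ ^ 2 ≤ 36 * ‖q j‖ ^ 2 + 4 * ‖D j‖ ^ 2 +
          4 * (e1 ^ 2 * ∑ x ∈ I, ‖f j x‖ ^ 2) + 16 * ∑ x ∈ Λ \ I, ‖f j x‖ ^ 2 := by
    intro j hj
    rw [hY]
    have h1 := norm_add₄_le (a := R j) (b := 3 * q j) (c := -D j) (d := m j)
    rw [norm_neg, norm_mul] at h1
    have h3 : ‖(3 : ℂ)‖ = 3 := by norm_num
    rw [h3] at h1
    have h2 := pow_le_pow_left₀ (norm_nonneg _) h1 2
    refine h2.trans ((sq4 _ _ _ _).trans ?_)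
    have h4 := hM j hj
    have h5 := (hA j).resolve_right (by simpa using hj)
    nlinarith
  refine (Finset.sum_le_sum hone).trans ?_
  simp only [Finset.sum_add_distrib, ← Finset.mul_sum]
  have c1 : ∑ j ∈ s, ∑ x ∈ I, ‖f j x‖ ^ 2 ≤ (Λ.card : ℝ) := by
    rw [Finset.sum_comm]
    refine (Finset.sum_le_sum fun x _ => pt_le f hf s x).trans ?_
    rw [Finset.sum_const, nsmul_eq_mul, mul_one]
    exact_mod_cast Finset.card_le_card hsub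
  have c2 : ∑ j ∈ s, ∑ x ∈ Λ \ I, ‖f j x‖ ^ 2 ≤ ((Λ \ I).card : ℝ) := by
    rw [Finset.sum_comm]
    refine (Finset.sum_le_sum fun x _ => pt_le f hf s x).trans (le_of_eq ?_)
    rw [Finset.sum_const, nsmul_eq_mul, mul_one]
  have c3 : e1 ^ 2 * ∑ j ∈ s, ∑ x ∈ I, ‖f j x‖ ^ 2 ≤ e1 ^ 2 * Λ.card :=
    mul_le_mul_of_nonneg_left c1 (sq_nonneg _)
  linarith

end Pool.Agent.Q218.WE
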