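import Pool.Agent.Q218.WE.ExO
import Pool.Agent.Q218.WE.Drp
import Pool.Agent.Q218.LE.Conc2

/-! The concentration of the phase space observable. -/

set_option autoImplicit false
set_option linter.unusedSectionVars false

open scoped BigOperators Topology InnerProductSpace
open MeasureTheory Filter Set ProbabilityTheory

namespace Pool.Agent.Q218.WE

open Pool.Agent.W788.LD.Spec (S)
open Pool.Agent.H4R2.LO (Zd bx)
open Pool.Agent.TH794.QD (Sol HS hmk hmk_apply hs_sum)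
open Pool.Agent.Q218.AT
open Pool.Agent.Q218.AD (small_rpow)
open Pool.Agent.Q218.LE (GLip lip_cont S_GAU S_SPL Tail bx_card_pos card_ge num_C)

variable {d : ℕ}

theorem glip_cont {g : ℝ → ℝ} (hg : ∀ x y, |g x - g y| ≤ |x - y|) : Continuous g := by
  rw [continuous_iff_continuousAt]
  intro x
  rw [ContinuousAt, tendsto_iff_norm_sub_tendsto_zero]
  have h2 : Tendsto (fun y => |y - x|) (𝓝 x) (𝓝 0) := by
    have h3 : Continuous fun y : ℝ => |y - x| := by fun_prop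
    have h4 := h3.tendsto x
    simpa using h4
  refine squeeze_zero (fun _ => norm_nonneg _) (fun y => ?_) h2
  rw [Real.norm_eq_abs]
  exact hg y x

/-- **the time average is small with a probability exponentially close to one** -/
theorem cncA (hABEL : S_ABEL) (hLIPK : S_LIPK) (hGAU : S_GAU) (hSPL : S_SPL) (hd : 1 ≤ d)
    (μ : Measure ℝ)
    [IsProbabilityMeasure μ] (hμ : GLip μ) (lam T e : ℝ) (hlam : 0 < lam) (hT : 0 < T) (he : 0 < e)
    (ψ : (Zd d → ℝ) → Zd d → ℝ → Zd d → ℂ) (hψ : ∀ ω a, Sol d (fun x => lam * ω x) a (ψ ω a))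
    (Z : Finset (Zd d)) (o : Zd d → ℂ) (N : ℝ) (hN0 : 0 < N) (hN : ∑ w ∈ Z, ‖o w‖ ≤ N)
    (Λ : Finset (Zd d)) (hΛ : Λ.Nonempty) (c : Zd d → ℂ) (hc : ∀ x, ‖c x‖ ≤ 1)
    (hQi : Integrable (fun ω => ∫ s in Ioi (0 : ℝ),
      Real.exp (-s) * (Sk Z o (ψ ω) Λ c (s * T)).re) (Measure.infinitePi fun _ : Zd d => μ))
    (hQe : ∫ ω, (∫ s in Ioi (0 : ℝ), Real.exp (-s) * (Sk Z o (ψ ω) Λ c (s * T)).re)
        ∂(Measure.infinitePi fun _ : Zd d => μ) ≤ e * Λ.card) :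
    ∃ (ω' : Zd d → ℝ) (G : Set (Zd d → ℝ)), MeasurableSet G ∧
      (Measure.infinitePi fun _ : Zd d => μ).real Gᶜ ≤
        2 * Real.exp (-(9 * (e * Λ.card)) / (4 * (N * (T * lam)) ^ 2)) ∧
      ∀ ω ∈ G, ‖Bm (Bo (hψ fun x => if x ∈ Λ then ω x else ω' x) Z o Λ c) T‖ ^ 2 ≤
          54 * e * Λ.card := by
  obtain ⟨g, hg, hgμ⟩ := hμ
  obtain ⟨Q, hQ⟩ : ∃ Q : (Zd d → ℝ) → ℝ, Q = fun ω => ∫ s in Ioi (0 : ℝ),
    Real.exp (-s) * (Sk Z o (ψ ω) Λ c (s * T)).re := ⟨_, rfl⟩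
  obtain ⟨F, hF⟩ : ∃ F : (Zd d → ℝ) → ℝ, F = fun ω => ‖Bm (Bo (hψ ω) Z o Λ c) T‖ := ⟨_, rfl⟩
  have hFω : ∀ ω, ‖Bm (Bo (hψ ω) Z o Λ c) T‖ = F ω := by
    intro ω
    rw [hF]
  have hFQ : ∀ ω, F ω ^ 2 ≤ 9 * Q ω := by
    intro ω
    rw [hF, hQ]
    exact Bo_abel hABEL hd (hψ ω) Z o Λ c T hT
  have hF0 : ∀ ω, 0 ≤ F ω := fun ω => by
    rw [hF]
    exact norm_nonneg _
  rw [← hQ] at hQi hQe
  have hQ0 : ∀ ω, 0 ≤ Q ω := by
    intro ω
    have h1 := hFQ ω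
    have h2 := sq_nonneg (F ω)
    linarith
  obtain ⟨ω', hi, hle⟩ := hSPL d μ Λ Q hQi
  obtain ⟨Qs, hQs⟩ : ∃ Qs : (Zd d → ℝ) → ℝ, Qs = fun ω => Q fun x => if x ∈ Λ then ω x else ω' x :=
    ⟨_, rfl⟩
  obtain ⟨Fs, hFs⟩ : ∃ Fs : (Zd d → ℝ) → ℝ, Fs = fun ω => F fun x => if x ∈ Λ then ω x else ω' x :=
    ⟨_, rfl⟩
  rw [← hQs] at hi hle
  have hQs0 : ∀ ω, 0 ≤ Qs ω := fun ω => by
    rw [hQs]
    exact hQ0 _
  have hFs0 : ∀ ω, 0 ≤ Fs ω := fun ω => by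
    rw [hFs]
    exact hF0 _
  have hFQs : ∀ ω, Fs ω ^ 2 ≤ 9 * Qs ω := fun ω => by
    rw [hQs, hFs]
    exact hFQ _
  have hN1 : (0 : ℝ) < Λ.card := by exact_mod_cast hΛ.card_pos
  -- the Lipschitz bound
  have hlip : ∀ ω1 ω2, |Fs ω1 - Fs ω2| ≤
      N * (T * lam) * Real.sqrt (∑ x ∈ Λ, (ω1 x - ω2 x) ^ 2) := by
    intro ω1 ω2
    have h1 := Bo_lip hLIPK hd (hψ fun x => if x ∈ Λ then ω1 x else ω' x)
      (hψ fun x => if x ∈ Λ then ω2 x else ω' x) Λ (fun x hx => by rw [if_neg hx, if_neg hx])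
      Z o Λ c hc T hT.le
    rw [hFω, hFω] at h1
    have h2 : Real.sqrt (∑ x ∈ Λ, (lam * (if x ∈ Λ then ω1 x else ω' x) -
        lam * (if x ∈ Λ then ω2 x else ω' x)) ^ 2) =
        lam * Real.sqrt (∑ x ∈ Λ, (ω1 x - ω2 x) ^ 2) := by
      have h3 : ∑ x ∈ Λ, (lam * (if x ∈ Λ then ω1 x else ω' x) -
        lam * (if x ∈ Λ then ω2 x else ω' x)) ^ 2 = lam ^ 2 * ∑ x ∈ Λ, (ω1 x - ω2 x) ^ 2 := by
        rw [Finset.mul_sum]
        refine Finset.sum_congr rfl fun x hx => ?_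
        rw [if_pos hx, if_pos hx]
        ring
      rw [h3, Real.sqrt_mul (sq_nonneg _), Real.sqrt_sq hlam.le]
    rw [h2] at h1
    rw [hFs]
    refine h1.trans ?_
    have h4 : T * ((∑ w ∈ Z, ‖o w‖) * (lam * Real.sqrt (∑ x ∈ Λ, (ω1 x - ω2 x) ^ 2))) =
        (∑ w ∈ Z, ‖o w‖) * (T * lam * Real.sqrt (∑ x ∈ Λ, (ω1 x - ω2 x) ^ 2)) := by ring
    rw [h4, mul_assoc N]
    exact mul_le_mul_of_nonneg_right hN (by positivity)
  have hcont := lip_cont Λ Fs (N * (T * lam)) hlip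
  -- the law
  have hgm := (glip_cont hg).measurable
  have hlaw : (Measure.infinitePi fun _ : Zd d => gaussianReal 0 1).map (fun ω x => g (ω x)) =
      Measure.infinitePi fun _ : Zd d => μ := by
    have h1 := Measure.infinitePi_map_pi (μ := fun _ : Zd d => gaussianReal 0 1)
      (f := fun _ (s : ℝ) => g s) (fun _ => hgm)
    rw [h1, hgμ]
  have hGm : Measurable (fun (ω : Zd d → ℝ) x => g (ω x)) :=
    measurable_pi_lambda _ fun x => hgm.comp (measurable_pi_apply x)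
  obtain ⟨Pm, hPm⟩ : ∃ Pm : Measure (Zd d → ℝ), Pm = Measure.infinitePi fun _ : Zd d => μ :=
    ⟨_, rfl⟩
  obtain ⟨Pg, hPg⟩ : ∃ Pg : Measure (Zd d → ℝ), Pg = Measure.infinitePi fun _ : Zd d =>
    gaussianReal 0 1 := ⟨_, rfl⟩
  have hPp : IsProbabilityMeasure Pm := by rw [hPm]; infer_instance
  rw [← hPm] at hi hle hQe ⊢
  rw [← hPm, ← hPg] at hlaw
  obtain ⟨q, hq⟩ : ∃ q, q = Real.sqrt (9 * (e * Λ.card)) := ⟨_, rfl⟩
  have hq0 : 0 < q := by rw [hq]; positivity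
  have hq2 : q ^ 2 = 9 * (e * Λ.card) := by rw [hq, Real.sq_sqrt (by positivity)]
  have hs2 : Real.sqrt 2 ^ 2 = 2 := Real.sq_sqrt (by norm_num)
  have hs20 : 0 < Real.sqrt 2 := by positivity
  have hmle : ∀ m : ℝ, MeasurableSet {ω | Fs ω ≤ m} := fun m =>
    measurableSet_le hcont.measurable measurable_const
  -- the median
  have hmed : 1 / 2 ≤ Pm.real {ω | Fs ω ≤ Real.sqrt 2 * q} := by
    have h1 := mul_meas_ge_le_integral_of_nonneg (Filter.Eventually.of_forall hQs0) hi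
      (2 * (e * Λ.card))
    have h2 : Pm.real {ω | 2 * (e * Λ.card) ≤ Qs ω} ≤ 1 / 2 := by
      have h3 := h1.trans (hle.trans hQe)
      have h4 : e * (Λ.card : ℝ) = 2 * (e * Λ.card) * (1 / 2) := by ring
      rw [h4] at h3
      exact le_of_mul_le_mul_left (by linarith) (mul_pos two_pos (mul_pos he hN1))
    have h5 := probReal_add_probReal_compl (μ := Pm) (hmle (Real.sqrt 2 * q))
    have h6 : {ω | Fs ω ≤ Real.sqrt 2 * q}ᶜ ⊆ {ω | 2 * (e * Λ.card) ≤ Qs ω} := by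
      intro ω hω
      have h7 : Real.sqrt 2 * q < Fs ω := by
        by_contra hcon
        exact hω (not_lt.1 hcon)
      have h8 := pow_lt_pow_left₀ h7 (by positivity) two_ne_zero
      rw [mul_pow, hs2, hq2] at h8
      have h9 := hFQs ω
      have h10 : 2 * (e * Λ.card) ≤ Qs ω := by linarith
      exact h10
    have h7 := measureReal_mono (μ := Pm) h6
    linarith
  have hmed' : 1 / 2 ≤ Pg.real {ζ | (fun ζ : Zd d → ℝ => Fs fun x => g (ζ x)) ζ ≤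
      Real.sqrt 2 * q} := by
    rw [← hlaw, map_measureReal_apply hGm (hmle _)] at hmed
    exact hmed
  have hlip' : ∀ ζ ζ', |(fun ζ : Zd d → ℝ => Fs fun x => g (ζ x)) ζ -
      (fun ζ : Zd d → ℝ => Fs fun x => g (ζ x)) ζ'| ≤
      N * (T * lam) * Real.sqrt (∑ x ∈ Λ, (ζ x - ζ' x) ^ 2) := by
    intro ζ ζ'
    refine (hlip _ _).trans ?_
    refine mul_le_mul_of_nonneg_left (Real.sqrt_le_sqrt (Finset.sum_le_sum fun x _ => ?_))
      (by positivity)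
    rw [← sq_abs (g (ζ x) - g (ζ' x)), ← sq_abs (ζ x - ζ' x)]
    exact pow_le_pow_left₀ (abs_nonneg _) (hg _ _) 2
  rw [hPg] at hmed'
  have hcon := hGAU d Λ _ (N * (T * lam)) (Real.sqrt 2 * q) q (by positivity) hq0.le hlip' hmed'
  rw [← hPg, hq2] at hcon
  refine ⟨ω', {ω | Fs ω ≤ Real.sqrt 2 * q + q}, hmle _, ?_, ?_⟩
  · rw [← hlaw, map_measureReal_apply hGm (hmle _).compl]
    refine le_trans (measureReal_mono (μ := Pg) ?_ ?_) hcon
    · intro ζ hζ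
      have h1 : ¬ (Fs fun x => g (ζ x)) ≤ Real.sqrt 2 * q + q := hζ
      exact not_le.1 h1
    · rw [hPg]
      exact measure_ne_top _ _
  · intro ω hω
    have h1 : Fs ω ≤ Real.sqrt 2 * q + q := hω
    have h2 := pow_le_pow_left₀ (hFs0 ω) h1 2
    have h3 : (Real.sqrt 2 * q + q) ^ 2 = (Real.sqrt 2 + 1) ^ 2 * q ^ 2 := by ring
    have h4 : (Real.sqrt 2 + 1) ^ 2 ≤ 6 := by
      have h5 : Real.sqrt 2 ≤ 3 / 2 := by
        rw [Real.sqrt_le_left (by norm_num)]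
        norm_num
      have h6 : (Real.sqrt 2 + 1) ^ 2 = Real.sqrt 2 ^ 2 + 2 * Real.sqrt 2 + 1 := by ring
      rw [h6, hs2]
      linarith
    rw [h3, hq2] at h2
    have h7 : (Real.sqrt 2 + 1) ^ 2 * (9 * (e * (Λ.card : ℝ))) ≤ 6 * (9 * (e * Λ.card)) :=
      mul_le_mul_of_nonneg_right h4 (by positivity)
    rw [hFω]
    have h8 : Fs ω = F (fun x => if x ∈ Λ then ω x else ω' x) := by rw [hFs]
    rw [← h8]
    linarith

/-- the square sum of the potential -/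
theorem chiG (hCHI : S_CHI) (μ : Measure ℝ) [IsProbabilityMeasure μ] (hμ : GLip μ) :
    ∃ C : ℝ, 0 < C ∧ ∀ (d : ℕ) (Λ : Finset (Zd d)),
    (Measure.infinitePi fun _ : Zd d => μ).real {ω | C * Λ.card < ∑ x ∈ Λ, ω x ^ 2} ≤
      Real.exp (-(Λ.card : ℝ)) := by
  obtain ⟨C, hC, h⟩ := hCHI
  obtain ⟨g, hg, hgμ⟩ := hμ
  refine ⟨2 * C + 2 * g 0 ^ 2, by positivity, fun d Λ => ?_⟩
  have hgm := (glip_cont hg).measurable
  have hlaw : (Measure.infinitePi fun _ : Zd d => gaussianReal 0 1).map (fun ω x => g (ω x)) =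
      Measure.infinitePi fun _ : Zd d => μ := by
    have h1 := Measure.infinitePi_map_pi (μ := fun _ : Zd d => gaussianReal 0 1)
      (f := fun _ (s : ℝ) => g s) (fun _ => hgm)
    rw [h1, hgμ]
  have hGm : Measurable (fun (ω : Zd d → ℝ) x => g (ω x)) :=
    measurable_pi_lambda _ fun x => hgm.comp (measurable_pi_apply x)
  have hms : MeasurableSet {ω : Zd d → ℝ | (2 * C + 2 * g 0 ^ 2) * Λ.card < ∑ x ∈ Λ, ω x ^ 2} :=
    measurableSet_lt measurable_const (by fun_prop)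
  rw [← hlaw, map_measureReal_apply hGm hms]
  refine le_trans (measureReal_mono ?_ (measure_ne_top _ _)) (h d Λ)
  intro ζ hζ
  have h1 : (2 * C + 2 * g 0 ^ 2) * Λ.card < ∑ x ∈ Λ, g (ζ x) ^ 2 := hζ
  have h2 : ∑ x ∈ Λ, g (ζ x) ^ 2 ≤ ∑ x ∈ Λ, (2 * g 0 ^ 2 + 2 * ζ x ^ 2) := by
    refine Finset.sum_le_sum fun x _ => ?_
    have h3 := hg (ζ x) 0
    rw [sub_zero] at h3
    have h4 := pow_le_pow_left₀ (abs_nonneg _) h3 2
    rw [sq_abs, sq_abs] at h4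
    nlinarith [sq_nonneg (g (ζ x) - 2 * g 0)]
  rw [Finset.sum_add_distrib, Finset.sum_const, nsmul_eq_mul, ← Finset.mul_sum] at h2
  have h5 : C * Λ.card < ∑ x ∈ Λ, ζ x ^ 2 := by linarith
  exact h5

end Pool.Agent.Q218.WE
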