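import Pool.Agent.Q218.WE.Stm
import Pool.Agent.Q218.LE.Stm2

/-! The Lipschitz bound for the positions from the one with a translation. -/

set_option autoImplicit false

open scoped BigOperators Topology InnerProductSpace
open MeasureTheory Set

namespace Pool.Agent.Q218.WE

open Pool.Agent.H4R2.LO (Zd)
open Pool.Agent.TH794.QD (Sol HS)
open Pool.Agent.Q218.AT (HT uu vv Ob Ob_sq Ob_cont Bm)

theorem Bm_diff {E : Type*} [NormedAddCommGroup E] [InnerProductSpace ℂ E] (A A' : ℝ → E)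
    (c1 : Continuous A) (c2 : Continuous A') (T w : ℝ) (hT : 0 ≤ T)
    (h : ∀ t : ℝ, 0 ≤ t → ‖A t - A' t‖ ≤ 2 * t * w) : ‖Bm A T - Bm A' T‖ ≤ T * w := by
  unfold Bm
  have i1 : IntervalIntegrable (fun s : ℝ => A (s * T)) volume 0 1 :=
    (c1.comp (by fun_prop : Continuous fun s : ℝ => s * T)).intervalIntegrable _ _
  have i2 : IntervalIntegrable (fun s : ℝ => A' (s * T)) volume 0 1 :=
    (c2.comp (by fun_prop : Continuous fun s : ℝ => s * T)).intervalIntegrable _ _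
  rw [← intervalIntegral.integral_sub i1 i2]
  have h3 : ‖∫ s in (0 : ℝ)..1, (A (s * T) - A' (s * T))‖ ≤
      ∫ s in (0 : ℝ)..1, 2 * (s * T) * w := by
    refine intervalIntegral.norm_integral_le_of_norm_le zero_le_one
      (Filter.Eventually.of_forall fun s hs => ?_)
      (Continuous.intervalIntegrable (by fun_prop) _ _)
    exact h (s * T) (mul_nonneg hs.1.le hT)
  refine h3.trans (le_of_eq ?_)
  have h4 : ∀ s : ℝ, 2 * (s * T) * w = (T * w) * (2 * s) := fun s => by ring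
  simp only [h4]
  rw [intervalIntegral.integral_const_mul, intervalIntegral.integral_const_mul, integral_id]
  norm_num

theorem lip_of (h : S_LIPK) : Pool.Agent.Q218.LE.S_LIP := by
  intro d hd V V' ψ ψ' hψ hψ' K hK Λ c hc T hT
  have hb : ∀ t : ℝ, 0 ≤ t → ‖Ob hψ Λ c t - Ob hψ' Λ c t‖ ≤
      2 * t * Real.sqrt (∑ x ∈ K, (V x - V' x) ^ 2) := by
    intro t ht
    have h1 := h d hd V V' ψ ψ' hψ hψ' K hK Λ c 0 hc t ht
    have h2 : ∑ x ∈ Λ, c x • (vw (uu hψ x t) (uu hψ (x + 0) t) -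
        vw (uu hψ' x t) (uu hψ' (x + 0) t)) = Ob hψ Λ c t - Ob hψ' Λ c t := by
      unfold Ob
      rw [← Finset.sum_sub_distrib]
      refine Finset.sum_congr rfl fun x _ => ?_
      rw [add_zero, ← smul_sub]
      rfl
    rw [h2] at h1
    exact h1
  have e1 : ∀ (W : Zd d → ℝ) (φ : Zd d → ℝ → Zd d → ℂ) (hφ : ∀ a, Sol d W a (φ a)),
      Real.sqrt (∫ u in (0 : ℝ)..1, 2 * (1 - u) * (Pool.Agent.Q218.AT.Sc φ Λ c (u * T)).re) =
        ‖Bm (Ob hφ Λ c) T‖ := by
    intro W φ hφ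
    rw [← Ob_sq hd hφ, Real.sqrt_sq (norm_nonneg _)]
  rw [e1 V ψ hψ, e1 V' ψ' hψ']
  exact (abs_norm_sub_norm_le _ _).trans (Bm_diff _ _ (Ob_cont hd hψ Λ c) (Ob_cont hd hψ' Λ c) T _
    hT hb)

end Pool.Agent.Q218.WE
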