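import Pool.Agent.Q218.WE.NtO
import Pool.Agent.Q218.LE.Out

/-! All boxes simultaneously. -/

set_option autoImplicit false
set_option linter.unusedSectionVars false

open scoped BigOperators Topology InnerProductSpace
open MeasureTheory Filter Set ProbabilityTheory

namespace Pool.Agent.Q218.WE

open Pool.Agent.W788.LD.Spec (S)
open Pool.Agent.H4R2.LO (Zd dd bx)
open Pool.Agent.H4R2.LO.Em (card_bx)
open Pool.Agent.Q218.AT
open Pool.Agent.Q218.AD (small_rpow)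
open Pool.Agent.W788.LD.Uni (unif unif_prob unif_bdd unif_mean)
open Pool.Agent.Q218.LE (GLip S_GAU S_SPL S_NET S_CUBE S_EXP S_UNI Tail Good FreeE union_all unif_sq
  tailG tailB glipG)

/-- **all boxes**, for a general conclusion -/
theorem all_gen (d : ℕ) (hd : 2 ≤ d) : ∃ l0 : ℝ, 0 < l0 ∧ ∀ lam : ℝ, 0 < lam → lam ≤ l0 →
    ∀ (μ : Measure ℝ) [IsProbabilityMeasure μ] (Gd : (Zd d → ℝ) → Zd d → ℕ → Prop),
    (∀ (b : Zd d) (L : ℕ), lam ^ (-(21 / 10) : ℝ) ≤ L →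
      ∃ G : Set (Zd d → ℝ), MeasurableSet G ∧
        (Measure.infinitePi fun _ : Zd d => μ).real Gᶜ ≤
          Real.exp (-(lam ^ (206 / 100 : ℝ) * (bx b L).card)) ∧
        ∀ ω ∈ G, Gd ω b L) →
    (∃ G : Set (Zd d → ℝ), MeasurableSet G ∧
      (Measure.infinitePi fun _ : Zd d => μ).real Gᶜ ≤ Real.exp (-(lam ^ (-(21 / 10) : ℝ))) ∧
      ∀ ω ∈ G, ∀ (b : Zd d) (L : ℕ), lam ^ (-(21 / 10) : ℝ) ≤ L →
        Real.log (1 + ‖b‖) ≤ lam ^ (21 / 10 : ℝ) * (bx b L).card → Gd ω b L) ∧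
    (∀ᵐ ω ∂(Measure.infinitePi fun _ : Zd d => μ), ∃ L0 : ℕ, ∀ (b : Zd d) (L : ℕ), L0 ≤ L →
        Real.log (1 + ‖b‖) ≤ lam ^ (21 / 10 : ℝ) * (bx b L).card → Gd ω b L) := by
  obtain ⟨l2, hl2, hU⟩ := union_all d hd
  refine ⟨l2, hl2, ?_⟩
  intro lam hlam b2 μ _ Gd hC'
  have hex : ∀ (b : Zd d) (L : ℕ), ∃ G : Set (Zd d → ℝ), MeasurableSet G ∧
      (lam ^ (-(21 / 10) : ℝ) ≤ L → (Measure.infinitePi fun _ : Zd d => μ).real Gᶜ ≤
          Real.exp (-(lam ^ (206 / 100 : ℝ) * (bx b L).card)) ∧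
        ∀ ω ∈ G, Gd ω b L) := by
    intro b L
    by_cases hL : lam ^ (-(21 / 10) : ℝ) ≤ L
    · obtain ⟨G, hG, hP, hGd⟩ := hC' b L hL
      exact ⟨G, hG, fun _ => ⟨hP, hGd⟩⟩
    · exact ⟨Set.univ, MeasurableSet.univ, fun h => absurd h hL⟩
  choose G hGm hG using hex
  obtain ⟨Bd, hBd⟩ : ∃ Bd : ℕ → Set (Zd d → ℝ), Bd = fun N => ⋃ k : ℕ, ⋃ b ∈ {b : Zd d |
    Real.log (1 + ‖b‖) ≤ lam ^ (21 / 10 : ℝ) * (bx b (N + k)).card}, (G b (N + k))ᶜ := ⟨_, rfl⟩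
  have hBdm : ∀ N, MeasurableSet (Bd N) := by
    intro N
    rw [hBd]
    refine MeasurableSet.iUnion fun k => ?_
    exact MeasurableSet.biUnion (Set.to_countable _) fun b _ => (hGm b (N + k)).compl
  have hBdP : ∀ N : ℕ, lam ^ (-(21 / 10) : ℝ) ≤ N →
      (Measure.infinitePi fun _ : Zd d => μ).real (Bd N) ≤ Real.exp (-N) := by
    intro N hN
    rw [hBd]
    exact hU lam hlam b2 _ (fun b L => (G b L)ᶜ) (fun b L hL => (hG b L hL).1) N hN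
  have hBdG : ∀ N : ℕ, lam ^ (-(21 / 10) : ℝ) ≤ N → ∀ ω, ω ∉ Bd N → ∀ (b : Zd d) (L : ℕ), N ≤ L →
      Real.log (1 + ‖b‖) ≤ lam ^ (21 / 10 : ℝ) * (bx b L).card → Gd ω b L := by
    intro N hN ω hω b L hNL hb
    obtain ⟨k, rfl⟩ := Nat.exists_eq_add_of_le hNL
    have hNk : lam ^ (-(21 / 10) : ℝ) ≤ ((N + k : ℕ) : ℝ) := hN.trans (by exact_mod_cast hNL)
    refine (hG b (N + k) hNk).2 ω ?_
    by_contra hcon
    apply hω
    rw [hBd]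
    exact Set.mem_iUnion.2 ⟨k, Set.mem_iUnion₂.2 ⟨b, hb, hcon⟩⟩
  refine ⟨?_, ?_⟩
  · obtain ⟨N, hN⟩ : ∃ N : ℕ, N = ⌈lam ^ (-(21 / 10) : ℝ)⌉₊ := ⟨_, rfl⟩
    have hNge : lam ^ (-(21 / 10) : ℝ) ≤ N := by rw [hN]; exact Nat.le_ceil _
    refine ⟨(Bd N)ᶜ, (hBdm N).compl, ?_, ?_⟩
    · rw [compl_compl]
      refine (hBdP N hNge).trans ?_
      apply Real.exp_le_exp.2
      linarith
    · intro ω hω b L hL hb
      refine hBdG N hNge ω hω b L ?_ hb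
      rw [hN]
      exact Nat.ceil_le.2 hL
  · obtain ⟨N0, hN0⟩ : ∃ N : ℕ, N = ⌈lam ^ (-(21 / 10) : ℝ)⌉₊ := ⟨_, rfl⟩
    have hN0ge : lam ^ (-(21 / 10) : ℝ) ≤ N0 := by rw [hN0]; exact Nat.le_ceil _
    have hge : ∀ k : ℕ, lam ^ (-(21 / 10) : ℝ) ≤ ((N0 + k : ℕ) : ℝ) := fun k =>
      hN0ge.trans (by push_cast; have : (0 : ℝ) ≤ k := Nat.cast_nonneg k; linarith)
    have hnull : (Measure.infinitePi fun _ : Zd d => μ) (⋂ k, Bd (N0 + k)) = 0 := by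
      have h3 : (Measure.infinitePi fun _ : Zd d => μ).real (⋂ k, Bd (N0 + k)) ≤ 0 := by
        refine ge_of_tendsto' (x := atTop) (f := fun k : ℕ => Real.exp (-((N0 + k : ℕ) : ℝ))) ?_ ?_
        · have h4 : Tendsto (fun k : ℕ => ((N0 + k : ℕ) : ℝ)) atTop atTop :=
            tendsto_natCast_atTop_atTop.comp (tendsto_add_atTop_nat N0 |>.congr fun k => by
              rw [add_comm])
          exact Real.tendsto_exp_neg_atTop_nhds_zero.comp h4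
        · intro k
          exact (measureReal_mono (Set.iInter_subset _ k) (measure_ne_top _ _)).trans
            (hBdP (N0 + k) (hge k))
      have h4 : (Measure.infinitePi fun _ : Zd d => μ).real (⋂ k, Bd (N0 + k)) = 0 :=
        le_antisymm h3 measureReal_nonneg
      rwa [measureReal_eq_zero_iff] at h4
    rw [ae_iff]
    refine measure_mono_null ?_ hnull
    intro ω hω
    rw [Set.mem_iInter]
    intro k
    by_contra hcon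
    apply hω
    exact ⟨N0 + k, fun b L hL hb => hBdG (N0 + k) (hge k) ω hcon b L hL hb⟩


/-- the conclusion for a law -/
def ConclP (d : ℕ) (μ : Measure ℝ) : Prop :=
  ∀ (R : ℕ) (κ ε : ℝ), 0 < κ → 0 < ε → ∃ l0 : ℝ, 0 < l0 ∧ ∀ lam : ℝ, 0 < lam → lam ≤ l0 →
    ∀ a0 : Zd d → ℝ, (∀ x, |a0 x| ≤ 1) →
    (∀ (b : Zd d) (L : ℕ), lam ^ (-(21 / 10) : ℝ) ≤ L →
      ∃ G : Set (Zd d → ℝ), MeasurableSet G ∧
        (Measure.infinitePi fun _ : Zd d => μ).real Gᶜ ≤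
          Real.exp (-(lam ^ (206 / 100 : ℝ) * (bx b L).card)) ∧
        ∀ ω ∈ G, Good d lam (206 / 100 / d) ε a0 ω b L ∧
          GoodP d R κ lam (206 / 100 / d) ε a0 ω b L) ∧
    (∃ G : Set (Zd d → ℝ), MeasurableSet G ∧
      (Measure.infinitePi fun _ : Zd d => μ).real Gᶜ ≤ Real.exp (-(lam ^ (-(21 / 10) : ℝ))) ∧
      ∀ ω ∈ G, ∀ (b : Zd d) (L : ℕ), lam ^ (-(21 / 10) : ℝ) ≤ L →
        Real.log (1 + ‖b‖) ≤ lam ^ (21 / 10 : ℝ) * (bx b L).card →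
          Good d lam (206 / 100 / d) ε a0 ω b L ∧
            GoodP d R κ lam (206 / 100 / d) ε a0 ω b L) ∧
    (∀ᵐ ω ∂(Measure.infinitePi fun _ : Zd d => μ), ∃ L0 : ℕ, ∀ (b : Zd d) (L : ℕ), L0 ≤ L →
        Real.log (1 + ‖b‖) ≤ lam ^ (21 / 10 : ℝ) * (bx b L).card →
          Good d lam (206 / 100 / d) ε a0 ω b L ∧
            GoodP d R κ lam (206 / 100 / d) ε a0 ω b L)

theorem goodP_mono {d R : ℕ} {κ κ' lam s0 ε : ℝ} {a0 ω : Zd d → ℝ} {b : Zd d} {L : ℕ}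
    (hκ : κ ≤ κ') (h : GoodP d R κ lam s0 ε a0 ω b L) : GoodP d R κ' lam s0 ε a0 ω b L :=
  fun ρ hρ1 hρ2 v hv J f hf E he s hs => h ρ hρ1 hρ2 v hv J f hf E he s
    fun j hj => (hs j hj).trans (by linarith)

theorem conclP (hAMPZ : S_AMPZ) (hABEL : S_ABEL) (hLIPK : S_LIPK) (hPLA : S_PLA) (hOPN : S_OPN)
    (hEXPK : S_EXPK) (hDROP : S_DROP) (hCHI : S_CHI) (hGAU : S_GAU) (hSPL : S_SPL)
    (hNET : S_NET) (hCUBE : S_CUBE) (hEXP : S_EXP)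
    (d : ℕ) (hd : 3 ≤ d) (G0 G1 : ℝ → ℝ)
    (hF : FreeE d G0 G1) (μ : Measure ℝ)
    [IsProbabilityMeasure μ] (hμ : GLip μ) (M V : ℝ) (hV0 : 0 < V) (h1 : Integrable (fun s => s) μ)
    (h2 : Integrable (fun s => (s - M) ^ 2) μ) (hM : ∫ s, s ∂μ = M)
    (hV : ∫ s, (s - M) ^ 2 ∂μ = V) (hT : Tail d μ M) : ConclP d μ := by
  intro R κ ε hκ hε
  have hd0 : (0 : ℝ) < d := by
    have : 0 < d := by omega
    exact_mod_cast this
  obtain ⟨κ1, hκ1⟩ : ∃ κ1, κ1 = min κ 1 := ⟨_, rfl⟩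
  have hκ10 : 0 < κ1 := by rw [hκ1]; exact lt_min hκ one_pos
  have hκ11 : κ1 ≤ 1 := by rw [hκ1]; exact min_le_right _ _
  have hκ1κ : κ1 ≤ κ := by rw [hκ1]; exact min_le_left _ _
  obtain ⟨l1, hl1, hC⟩ := cncC hAMPZ hABEL hLIPK hPLA hOPN hEXPK hDROP hCHI hGAU hSPL hNET hCUBE
    hEXP d hd G0 G1 hF μ hμ M V hV0 h1 h2 hM hV hT R κ1 hκ10 hκ11 (206 / 100 / d) ε
    (le_of_eq (by field_simp)) (by
      rw [div_le_iff₀ hd0]
      have : (3 : ℝ) ≤ d := by exact_mod_cast hd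
      linarith) hε
  obtain ⟨l2, hl2, hA⟩ := all_gen d (by omega)
  refine ⟨min l1 l2, by positivity, ?_⟩
  intro lam hlam hlam0 a0 ha0
  have b1 : lam ≤ l1 := hlam0.trans (min_le_left _ _)
  have b2 : lam ≤ l2 := hlam0.trans (min_le_right _ _)
  have hone : ∀ (b : Zd d) (L : ℕ), lam ^ (-(21 / 10) : ℝ) ≤ L →
      ∃ G : Set (Zd d → ℝ), MeasurableSet G ∧
        (Measure.infinitePi fun _ : Zd d => μ).real Gᶜ ≤
          Real.exp (-(lam ^ (206 / 100 : ℝ) * (bx b L).card)) ∧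
        ∀ ω ∈ G, Good d lam (206 / 100 / d) ε a0 ω b L ∧
          GoodP d R κ lam (206 / 100 / d) ε a0 ω b L := by
    intro b L hL
    obtain ⟨G, hG, hPG, hGL⟩ := hC lam hlam b1 a0 ha0 b L hL
    exact ⟨G, hG, hPG, fun ω hω => ⟨(hGL ω hω).1, goodP_mono hκ1κ (hGL ω hω).2⟩⟩
  exact ⟨hone, hA lam hlam b2 μ (fun ω b L => Good d lam (206 / 100 / d) ε a0 ω b L ∧
          GoodP d R κ lam (206 / 100 / d) ε a0 ω b L) hone⟩

theorem gauP (hAMPZ : S_AMPZ) (hABEL : S_ABEL) (hLIPK : S_LIPK) (hPLA : S_PLA) (hOPN : S_OPN)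
    (hEXPK : S_EXPK) (hDROP : S_DROP) (hCHI : S_CHI) (hGAU : S_GAU) (hSPL : S_SPL)
    (hNET : S_NET) (hCUBE : S_CUBE) (hEXP : S_EXP)
    (d : ℕ) (hd : 3 ≤ d) (G0 G1 : ℝ → ℝ) (hF : FreeE d G0 G1) : ConclP d (gaussianReal 0 1) :=
  conclP hAMPZ hABEL hLIPK hPLA hOPN hEXPK hDROP hCHI hGAU hSPL hNET hCUBE hEXP d hd G0 G1 hF
    (gaussianReal 0 1) glipG 0 1 one_pos
    Pool.Agent.Q218.UD.gi1 Pool.Agent.Q218.UD.gi2 Pool.Agent.Q218.UD.gM Pool.Agent.Q218.UD.gV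
    (tailG d)

theorem uniP (hAMPZ : S_AMPZ) (hABEL : S_ABEL) (hLIPK : S_LIPK) (hPLA : S_PLA) (hOPN : S_OPN)
    (hEXPK : S_EXPK) (hDROP : S_DROP) (hCHI : S_CHI) (hGAU : S_GAU) (hSPL : S_SPL)
    (hNET : S_NET) (hCUBE : S_CUBE) (hEXP : S_EXP) (hUNI : S_UNI)
    (d : ℕ) (hd : 3 ≤ d) (G0 G1 : ℝ → ℝ) (hF : FreeE d G0 G1) : ConclP d (unif 1) := by
  have hp : IsProbabilityMeasure (unif 1) := unif_prob 1 one_pos
  have hbd : ∀ᵐ s ∂(unif 1), |s - 0| ≤ 1 := by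
    filter_upwards [unif_bdd 1] with s hs
    rwa [sub_zero]
  have hi1 : Integrable (fun s : ℝ => s) (unif 1) :=
    Integrable.of_bound (C := 1) (by fun_prop) (by
      filter_upwards [unif_bdd 1] with s hs
      rwa [Real.norm_eq_abs])
  have hi2 : Integrable (fun s : ℝ => (s - 0) ^ 2) (unif 1) :=
    Integrable.of_bound (C := 1) (by fun_prop) (by
      filter_upwards [unif_bdd 1] with s hs
      rw [sub_zero, Real.norm_eq_abs, abs_pow]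
      exact pow_le_one₀ (abs_nonneg _) hs)
  have hg : GLip (unif 1) := by
    obtain ⟨g, hg1, hg2⟩ := hUNI
    refine ⟨g, hg1, hg2.trans ?_⟩
    unfold unif
    norm_num
  exact conclP hAMPZ hABEL hLIPK hPLA hOPN hEXPK hDROP hCHI hGAU hSPL hNET hCUBE hEXP d hd G0 G1 hF
    (unif 1) hg 0 (1 / 3) (by norm_num) hi1 hi2 (unif_mean 1 one_pos) unif_sq
    (tailB d (unif 1) 0 1 one_pos hbd)

end Pool.Agent.Q218.WE
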