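import Pool.Agent.Q218.WE.CncO

/-! One phase space observable and one box. -/

set_option autoImplicit false
set_option linter.unusedSectionVars false

open scoped BigOperators Topology InnerProductSpace Polynomial
open MeasureTheory Filter Set ProbabilityTheory

namespace Pool.Agent.Q218.WE

open Pool.Agent.W788.LD.Spec (S)
open Pool.Agent.H4R2.LO (Zd bx)
open Pool.Agent.TH794.QD (Sol HS hmk hmk_apply hs_sum)
open Pool.Agent.Q218.AT
open Pool.Agent.Q218.AD (small_rpow)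
open Pool.Agent.Q218.UD (exists_solU)
open Pool.Agent.Q218.LE (GLip lip_cont S_GAU S_SPL Tail bx_card_pos card_ge num_C)

/-- the numbers -/
theorem num_B2 (d : ℕ) (hd : 2 ≤ d) (e N CP C ε : ℝ) (he : 0 < e) (hN : 0 < N) (hCP : 0 ≤ CP)
    (hC : 0 < C) (hε : 0 < ε) (n : ℕ) : ∃ l0 : ℝ, 0 < l0 ∧ ∀ lam : ℝ, 0 < lam →
    lam ≤ l0 → ∀ T : ℝ, T = lam ^ (-(2024 / 1000) : ℝ) → ∀ (b : Zd d) (L : ℕ),
    lam ^ (-(21 / 10) : ℝ) ≤ L →
      2 * Real.exp (-(9 * (e * (bx b L).card)) / (4 * (N * (T * lam)) ^ 2)) +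
        Real.exp (-((bx b L).card : ℝ)) ≤
        Real.exp (-(lam ^ (205 / 100 : ℝ) * (bx b L).card)) ∧ n ≤ L ∧
      4 * (CP * (lam ^ 2 * C)) ≤ ε ∧
      16 * ((bx b L \ bx b (L - n)).card : ℝ) ≤ ε * (bx b L).card := by
  obtain ⟨l1, hl1, hs1⟩ := num_C d hd (9 * e / N ^ 2 / 2) (by positivity)
  obtain ⟨l2, hl2, hs2⟩ := small_rpow (205 / 100) (1 / 2) (by norm_num) (by norm_num)
  obtain ⟨l3, hl3, hs3⟩ := small_rpow 2 (ε / (4 * (CP * C + 1))) (by norm_num) (by positivity)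
  obtain ⟨l4, hl4, hs4⟩ := small_rpow (21 / 10) (min 1 (ε / (16 * d)) / (n + 2)) (by norm_num)
    (by
      have : (0 : ℝ) < d := by
        have : 0 < d := by omega
        exact_mod_cast this
      positivity)
  refine ⟨min (min l1 l2) (min l3 l4), by positivity, ?_⟩
  intro lam hlam hlam0 T hT b L hL
  have b1 : lam ≤ l1 := hlam0.trans ((min_le_left _ _).trans (min_le_left _ _))
  have b2 : lam ≤ l2 := hlam0.trans ((min_le_left _ _).trans (min_le_right _ _))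
  have b3 : lam ≤ l3 := hlam0.trans ((min_le_right _ _).trans (min_le_left _ _))
  have b4 : lam ≤ l4 := hlam0.trans ((min_le_right _ _).trans (min_le_right _ _))
  have hd0 : (0 : ℝ) < d := by
    have : 0 < d := by omega
    exact_mod_cast this
  have hL00 : (0 : ℝ) < lam ^ (-(21 / 10) : ℝ) := by positivity
  have hL0 : (0 : ℝ) < L := hL00.trans_le hL
  have h4 := hs4 lam hlam b4
  have h5 : ((n : ℝ) + 2) ≤ min 1 (ε / (16 * d)) * L := by
    rw [le_div_iff₀ (by positivity)] at h4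
    have h6 : lam ^ (21 / 10 : ℝ) * lam ^ (-(21 / 10) : ℝ) = 1 := by
      rw [← Real.rpow_add hlam]
      norm_num
    calc (n : ℝ) + 2 = (lam ^ (21 / 10 : ℝ) * (n + 2)) * lam ^ (-(21 / 10) : ℝ) := by
          linear_combination (-((n : ℝ) + 2)) * h6
      _ ≤ min 1 (ε / (16 * d)) * L := by gcongr
  have hm1 : min 1 (ε / (16 * (d : ℝ))) ≤ 1 := min_le_left _ _
  have hm2 : min 1 (ε / (16 * (d : ℝ))) ≤ ε / (16 * d) := min_le_right _ _
  have hnL : n ≤ L := by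
    have h6 : min 1 (ε / (16 * (d : ℝ))) * L ≤ 1 * L := by gcongr
    have h7 : (n : ℝ) ≤ L := by linarith
    exact_mod_cast h7
  have hL2 : (2 : ℝ) ≤ L := by
    have h6 : min 1 (ε / (16 * (d : ℝ))) * L ≤ 1 * L := by gcongr
    have h7 : (0 : ℝ) ≤ n := Nat.cast_nonneg n
    linarith
  obtain ⟨Nc, hNc⟩ : ∃ Nc : ℝ, Nc = (bx b L).card := ⟨_, rfl⟩
  have hNc2 : 2 ≤ Nc := by
    have h6 := card_ge hd b L
    rw [← hNc] at h6
    nlinarith
  refine ⟨?_, hnL, ?_, ?_⟩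
  · have k1 := hs1 lam hlam b1 T hT b L hL
    have k2 := hs2 lam hlam b2
    rw [← hNc] at k1 ⊢
    obtain ⟨y, hy⟩ : ∃ y, y = Real.exp (-(lam ^ (205 / 100 : ℝ) * Nc)) := ⟨_, rfl⟩
    rw [← hy] at k1 ⊢
    have hy0 : 0 < y := by rw [hy]; positivity
    have hy1 : y ≤ 1 := by
      rw [hy]
      exact Real.exp_le_one_iff.2 (by have : 0 ≤ lam ^ (205 / 100 : ℝ) * Nc := by positivity
                                      linarith)
    obtain ⟨X, hX⟩ : ∃ X, X = -(9 * (e * Nc)) / (4 * (N * (T * lam)) ^ 2) := ⟨_, rfl⟩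
    have e1 : -(9 * e / N ^ 2 / 2 * Nc) / (4 * (T * lam) ^ 2) = X / 2 := by
      have hT0 : 0 < T := by rw [hT]; positivity
      rw [hX]
      field_simp
    rw [e1] at k1
    rw [← hX]
    have k3 : 2 * Real.exp X ≤ y / 2 := by
      have k4 : Real.exp X = Real.exp (X / 2) * Real.exp (X / 2) := by
        rw [← Real.exp_add]
        congr 1
        ring
      have k5 := Real.exp_pos (X / 2)
      rw [k4]
      nlinarith
    have k6 : Real.exp (-Nc) ≤ y / 2 := by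
      have k7 : Real.exp (-Nc) = Real.exp (-(Nc / 2)) * Real.exp (-(Nc / 2)) := by
        rw [← Real.exp_add]
        congr 1
        ring
      have k8 : Real.exp (-(Nc / 2)) ≤ y := by
        rw [hy]
        apply Real.exp_le_exp.2
        have : lam ^ (205 / 100 : ℝ) * Nc ≤ 1 / 2 * Nc := by gcongr
        linarith
      have k9 : Real.exp (-(Nc / 2)) ≤ 1 / 2 := by
        have k10 : Real.exp (-(Nc / 2)) ≤ Real.exp (-1) := by
          apply Real.exp_le_exp.2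
          linarith
        refine k10.trans ?_
        rw [Real.exp_neg, inv_le_comm₀ (Real.exp_pos _) (by norm_num)]
        have := Real.add_one_le_exp (1 : ℝ)
        linarith
      rw [k7]
      have k10 := Real.exp_pos (-(Nc / 2))
      nlinarith
    linarith
  · have k1 := hs3 lam hlam b3
    have e1 : lam ^ 2 = lam ^ (2 : ℝ) := (Real.rpow_natCast lam 2).symm
    rw [e1]
    rw [le_div_iff₀ (by positivity)] at k1
    obtain ⟨y, hy⟩ : ∃ y, y = lam ^ (2 : ℝ) := ⟨_, rfl⟩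
    have k2 : 0 ≤ y := by rw [hy]; positivity
    rw [← hy] at k1 ⊢
    have k3 : 4 * (CP * (y * C)) = y * (4 * (CP * C + 1)) - 4 * y := by ring
    rw [k3]
    linarith
  · have k1 := bx_sdiff b L n hnL
    rw [← hNc] at k1 ⊢
    have k2 : (d : ℝ) * (2 * n / (2 * L + 1)) ≤ ε / 16 := by
      have k3 : (n : ℝ) ≤ ε / (16 * d) * L := by
        have k4 : min 1 (ε / (16 * (d : ℝ))) * L ≤ ε / (16 * d) * L := by gcongr
        linarith
      have k5 : 2 * (n : ℝ) / (2 * L + 1) ≤ ε / (16 * d) := by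
        rw [div_le_iff₀ (by positivity)]
        have : 0 < ε / (16 * (d : ℝ)) := by positivity
        nlinarith
      calc (d : ℝ) * (2 * n / (2 * L + 1)) ≤ d * (ε / (16 * d)) := by gcongr
        _ = ε / 16 := by field_simp
    have k3 : (d : ℝ) * (2 * n / (2 * L + 1)) * Nc ≤ ε / 16 * Nc :=
      mul_le_mul_of_nonneg_right k2 (by linarith)
    linarith

/-- **one phase space observable and one box** -/
theorem cncB (hAMPZ : S_AMPZ) (hABEL : S_ABEL) (hLIPK : S_LIPK) (hPLA : S_PLA) (hOPN : S_OPN)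
    (hEXPK : S_EXPK) (hDROP : S_DROP) (hCHI : S_CHI) (hGAU : S_GAU) (hSPL : S_SPL)
    (d : ℕ) (hd : 3 ≤ d) (μ : Measure ℝ)
    [IsProbabilityMeasure μ] (hμ : GLip μ) (M V : ℝ) (hV0 : 0 < V) (h1 : Integrable (fun s => s) μ)
    (h2 : Integrable (fun s => (s - M) ^ 2) μ) (hM : ∫ s, s ∂μ = M)
    (hV : ∫ s, (s - M) ^ 2 ∂μ = V) (hT : Tail d μ M) (v : Zd d) (κt : ℝ) (hκt : 0 < κt)
    (ε : ℝ) (hε : 0 < ε) :
    ∃ l0 : ℝ, 0 < l0 ∧ ∀ lam : ℝ, 0 < lam → lam ≤ l0 →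
    ∀ a : Zd d → ℝ, (∀ x, |a x| ≤ 1) → ∀ (b : Zd d) (L : ℕ), lam ^ (-(21 / 10) : ℝ) ≤ L →
    ∃ G : Set (Zd d → ℝ), MeasurableSet G ∧
      (Measure.infinitePi fun _ : Zd d => μ).real Gᶜ ≤
        Real.exp (-(lam ^ (205 / 100 : ℝ) * (bx b L).card)) ∧
      ∀ ω ∈ G, ∀ (J : Type) (f : J → HS d), Orthonormal ℂ f → ∀ (E : J → ℝ),
      (∀ j x, ‖x - b‖ < L → -S (fun y => f j y) x + ((lam * ω x : ℝ) : ℂ) * f j x =
        (E j : ℂ) * f j x) →
      ∀ s : Finset J, (∀ j ∈ s, |E j| ≤ 2 * d - κt) →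
        ∑ j ∈ s, ‖∑ x ∈ bx b L, ((a x : ℝ) : ℂ) * ((starRingEnd ℂ) (f j x) * f j (x + v) -
          ((Fr d v (-E j) * ‖f j x‖ ^ 2 : ℝ) : ℂ))‖ ^ 2 ≤ ε * (bx b L).card := by
  classical
  have hd1 : 1 ≤ d := by omega
  have hd0 : (0 : ℝ) < d := by
    have : 0 < d := by omega
    exact_mod_cast this
  have hpi := Real.pi_pos
  -- the constants
  obtain ⟨e, he⟩ : ∃ e, e = ε / 31104 := ⟨_, rfl⟩
  have he0 : 0 < e := by rw [he]; positivity
  obtain ⟨e1, he1⟩ : ∃ e1, e1 = min 1 (ε / 32) := ⟨_, rfl⟩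
  have he10 : 0 < e1 := by rw [he1]; positivity
  have he12 : 4 * e1 ^ 2 ≤ ε / 8 := by
    have k1 : e1 ≤ 1 := by rw [he1]; exact min_le_left _ _
    have k2 : e1 ≤ ε / 32 := by rw [he1]; exact min_le_right _ _
    have k3 : e1 ^ 2 ≤ e1 := by
      rw [sq]
      exact mul_le_of_le_one_left he10.le k1
    linarith
  obtain ⟨m1, hm1⟩ : ∃ m1, m1 = e ^ 2 / 27 := ⟨_, rfl⟩
  have hm10 : 0 < m1 := by rw [hm1]; positivity
  obtain ⟨em, hem⟩ : ∃ em, em = e * Real.pi / (36 * d) := ⟨_, rfl⟩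
  have hem0 : 0 < em := by rw [hem]; positivity
  have hsum : e / 3 / 2 + m1 / (e / 3) + 2 * (2 * d) / Real.pi * em ≤ e / 2 := by
    have k1 : m1 / (e / 3) = e / 9 := by
      rw [hm1]
      field_simp
      ring
    have k2 : 2 * (2 * d) / Real.pi * em = e / 9 := by
      rw [hem]
      field_simp
      ring
    rw [k1, k2]
    linarith
  obtain ⟨κ0, hκ00, hκ01, hκ0⟩ := bulk_mass d hd m1 hm10
  obtain ⟨κ, hκd⟩ : ∃ κ, κ = min κt κ0 := ⟨_, rfl⟩
  have hκ : 0 < κ := by rw [hκd]; exact lt_min hκt hκ00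
  have hκκ0 : κ ≤ κ0 := by rw [hκd]; exact min_le_right _ _
  have hκκt : κ ≤ κt := by rw [hκd]; exact min_le_left _ _
  have hκ1 : κ ≤ 1 := hκκ0.trans hκ01
  obtain ⟨P, hP2, hPF, hF1, hEng⟩ := freeO hAMPZ d hd v κ hκ hκ1 (em / 2) (by positivity) e1 he10
  obtain ⟨CP, hCP, hphD⟩ := phD hDROP hd1 v P
  obtain ⟨C, hC, hchi⟩ := chiG hCHI μ hμ
  obtain ⟨N, hN⟩ : ∃ N, N = (∑ w ∈ ZO v P, ‖oO v P w‖) + 1 := ⟨_, rfl⟩
  have hN0' : 0 ≤ ∑ w ∈ ZO v P, ‖oO v P w‖ := Finset.sum_nonneg fun w _ => norm_nonneg _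
  have hN0 : 0 < N := by linarith
  obtain ⟨l1, hl1, hex⟩ := exO hPLA hOPN hEXPK d hd κ hκ hκ1 (ZO v P) (oO v P)
    (fun p => sym_le v P hP2 p) (oO_conj v P) em hem0 hEng m1 hm10 (hκ0 κ hκ hκκ0) (e / 3)
    (by positivity) (e / 2) hsum μ M V hV0 h1 h2 hM hV hT
  obtain ⟨l2, hl2, hdet⟩ := detO hd1 (ZO v P) (oO v P) (ε / 288) (by positivity)
  obtain ⟨l3, hl3, hnum⟩ := num_B2 d (by omega) e N CP C (ε / 8) he0 hN0 hCP hC (by positivity)
    P.natDegree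
  refine ⟨min l1 (min l2 l3), by positivity, ?_⟩
  intro lam hlam hlam0 a ha b L hL
  have b1 : lam ≤ l1 := hlam0.trans (min_le_left _ _)
  have b2 : lam ≤ l2 := hlam0.trans ((min_le_right _ _).trans (min_le_left _ _))
  have b3 : lam ≤ l3 := hlam0.trans ((min_le_right _ _).trans (min_le_right _ _))
  obtain ⟨T, hTd⟩ : ∃ T, T = lam ^ (-(2024 / 1000) : ℝ) := ⟨_, rfl⟩
  have hT0 : 0 < T := by rw [hTd]; positivity
  choose ψ hψ using fun (ω : Zd d → ℝ) (y : Zd d) =>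
    exists_solU hd1 (fun x => lam * ω x) y
  obtain ⟨c, hc⟩ : ∃ c : Zd d → ℂ, c = fun x =>
    if x ∈ bx b (L - P.natDegree) then ((a x : ℝ) : ℂ) else 0 := ⟨_, rfl⟩
  have hca : ∀ x ∈ bx b (L - P.natDegree), c x = ((a x : ℝ) : ℂ) := fun x hx => by
    rw [hc]
    exact if_pos hx
  have hc0 : ∀ x, x ∉ bx b (L - P.natDegree) → c x = 0 := fun x hx => by
    rw [hc]
    exact if_neg hx
  have hc1 : ∀ x, ‖c x‖ ≤ 1 := by
    intro x
    by_cases hx : x ∈ bx b (L - P.natDegree)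
    · rw [hca x hx, Complex.norm_real]
      exact ha x
    · rw [hc0 x hx, norm_zero]
      exact zero_le_one
  obtain ⟨i1, i2⟩ := hex lam hlam b1 T hTd ψ hψ (bx b L) c hc1
  have hne : (bx b L).Nonempty := Finset.card_pos.1 (by exact_mod_cast bx_card_pos b L)
  have i2' : 2 * (e / 2) * ((bx b L).card : ℝ) = e * (bx b L).card := by ring
  rw [i2'] at i2
  obtain ⟨ω', G1, hG1, hPG1, hGL⟩ := cncA hABEL hLIPK hGAU hSPL hd1 μ hμ lam T e hlam hT0 he0 ψ hψ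
    (ZO v P) (oO v P) N hN0 (by linarith) (bx b L) hne c hc1 i1 i2
  obtain ⟨hnP, hnL, hnC, hnb⟩ := hnum lam hlam b3 T hTd b L hL
  obtain ⟨G2, hG2⟩ : ∃ G2 : Set (Zd d → ℝ), G2 = {ω | C * (bx b L).card < ∑ x ∈ bx b L, ω x ^ 2} :=
    ⟨_, rfl⟩
  have hG2m : MeasurableSet G2 := by
    rw [hG2]
    exact measurableSet_lt measurable_const (by fun_prop)
  have hG2P := hchi d (bx b L)
  rw [← hG2] at hG2P
  refine ⟨G1 ∩ G2ᶜ, hG1.inter hG2m.compl, ?_, ?_⟩
  · rw [Set.compl_inter, compl_compl]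
    refine (measureReal_union_le _ _).trans (le_trans ?_ hnP)
    linarith
  intro ω hω J f hf E he2 s hs
  have hQ := hGL ω hω.1
  have key := hdet lam hlam b2 (fun x => lam * (if x ∈ bx b L then ω x else ω' x))
    (ψ fun x => if x ∈ bx b L then ω x else ω' x) (hψ _) b L hL T hTd c hc1 J f hf E
    (fun j x hx => by
      have h3 : x ∈ bx b L := by
        rw [mem_bx']
        exact hx.le
      simp only [if_pos h3]
      exact he2 j x hx) s
  have hW : ∑ x ∈ bx b L, (lam * ω x) ^ 2 ≤ lam ^ 2 * (C * (bx b L).card) := by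
    have h3 : ¬ C * (bx b L).card < ∑ x ∈ bx b L, ω x ^ 2 := by
      intro h4
      apply hω.2
      rw [hG2]
      exact h4
    have h4 : ∑ x ∈ bx b L, (lam * ω x) ^ 2 = lam ^ 2 * ∑ x ∈ bx b L, ω x ^ 2 := by
      rw [Finset.mul_sum]
      exact Finset.sum_congr rfl fun x _ => by ring
    rw [h4]
    exact mul_le_mul_of_nonneg_left (not_lt.1 h3) (sq_nonneg _)
  have fin := hphD κ e1 (Fr d v) hκ.le hPF hF1 (fun x => lam * ω x) b L hnL a c ha hca hc0 J f hf E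
    (fun j x hx => he2 j x hx) s (fun j hj => (hs j hj).trans (by linarith))
  refine fin.trans ?_
  obtain ⟨Nc, hNc⟩ : ∃ Nc : ℝ, Nc = (bx b L).card := ⟨_, rfl⟩
  rw [← hNc] at hQ key hW hnb ⊢
  have hNc0 : 0 ≤ Nc := by rw [hNc]; exact Nat.cast_nonneg _
  have q1 : 4 * (CP * ∑ x ∈ bx b L, (lam * ω x) ^ 2) ≤ ε / 8 * Nc := by
    have q2 : 4 * (CP * ∑ x ∈ bx b L, (lam * ω x) ^ 2) ≤ 4 * (CP * (lam ^ 2 * (C * Nc))) := by
      gcongr
    have q3 : 4 * (CP * (lam ^ 2 * (C * Nc))) = 4 * (CP * (lam ^ 2 * C)) * Nc := by ring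
    rw [q3] at q2
    exact q2.trans (mul_le_mul_of_nonneg_right hnC hNc0)
  have q4 : 4 * (e1 ^ 2 * Nc) ≤ ε / 8 * Nc := by
    rw [← mul_assoc]
    exact mul_le_mul_of_nonneg_right he12 hNc0
  have q5 : 54 * e * Nc = ε / 576 * Nc := by
    rw [he]
    ring
  rw [q5] at hQ
  have q6 : 0 ≤ ε * Nc := by positivity
  linarith

end Pool.Agent.Q218.WE
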