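import Pool.Agent.Q218.WE.MeanO
import Pool.Agent.TH794.HK.CompK

/-! Comparison of the twisted characteristic function with the twisted chain with symbols. -/

set_option autoImplicit false
set_option linter.unusedSectionVars false

open scoped BigOperators Matrix
open MeasureTheory

namespace Pool.Agent.Q218.WE

open Pool.Agent.TH794.HK
open Pool.Agent.TH794.QD
open Pool.Agent.W788.BK
open Pool.Agent.W788.MFP.Four
open Pool.Agent.TH794.FG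
open Pool.Agent.TH794.LL2 (nn nn_nonneg nn_sq nn_add nn_sub nn_le fc Bq Bq_nonneg sum_fc_one
  XN nn_inv nsq_mulr)

variable {d L : ℕ} [NeZero L]

theorem fc_sum (vr vi : T d L → ℝ) (k : T d L) :
    fc vr vi k = ∑ x, ((vr x : ℂ) + Complex.I * (vi x : ℂ)) * e k x := by
  unfold fc ft
  rw [Finset.mul_sum, ← Finset.sum_add_distrib]
  exact Finset.sum_congr rfl fun x _ => by ring

/-- the twisted pairing on the torus -/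
noncomputable def chiO (P0 : T d L) (vr vi : T d L → ℝ) (w : T d L → ℂ) : ℂ :=
  ∑ x, e P0 x * ((starRingEnd ℂ) ((vr x : ℂ) + Complex.I * (vi x : ℂ)) * w x)

theorem chiO_fc (P0 : T d L) (vr vi : T d L → ℝ) (w wh : T d L → ℂ)
    (hw : ∀ k, wh k = ∑ x, w x * e k x) :
    ∑ k, (starRingEnd ℂ) (fc vr vi k) * wh (k + P0) = (NN d L : ℂ) * chiO P0 vr vi w := by
  have h2 : ∀ k, wh (k + P0) = ∑ x, (e P0 x * w x) * e k x := by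
    intro k
    rw [hw]
    refine Finset.sum_congr rfl fun x _ => ?_
    rw [e_add_left]
    ring
  simp only [h2]
  simp only [fc_sum vr vi]
  rw [pars]
  congr 1
  unfold chiO
  refine Finset.sum_congr rfl fun x _ => ?_
  ring

theorem TSo_chi (E δ : ℝ) (hδ : 0 < δ) (P0 : T d L) (o : T d L → ℂ) (vr vi vr' vi' : T d L → ℝ)
    (w : T d L → ℂ) (hw : ∀ k, o k * fc vr' vi' k = ∑ x, w x * e k x) :
    star (fun k => (Real.sqrt (JJ E δ k) : ℂ) * fc vr vi k) ⬝ᵥ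
      (TSo E δ P0 o *ᵥ (fun k => (Real.sqrt (JJ E δ k) : ℂ) * fc vr' vi' k)) =
      ((δ * NN d L : ℝ) : ℂ) * chiO P0 vr vi w := by
  have e1 : ((δ * NN d L : ℝ) : ℂ) * chiO P0 vr vi w =
      (δ : ℂ) * ((NN d L : ℂ) * chiO P0 vr vi w) := by
    push_cast
    ring
  rw [e1, ← chiO_fc P0 vr vi w (fun k => o k * fc vr' vi' k) hw, Finset.mul_sum]
  unfold dotProduct
  refine Finset.sum_congr rfl fun k _ => ?_
  rw [TSo_mulVec, Pi.star_apply]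
  have hk : ((Real.sqrt (JJ E δ k) : ℝ) : ℂ) ≠ 0 := by
    exact_mod_cast (Real.sqrt_pos.2 (Pool.Agent.W788.BK.JJ_pos E δ hδ k)).ne'
  have hk2 : ((Real.sqrt (JJ E δ (k + P0)) : ℝ) : ℂ) ≠ 0 := by
    exact_mod_cast (Real.sqrt_pos.2 (Pool.Agent.W788.BK.JJ_pos E δ hδ (k + P0))).ne'
  unfold wt
  rw [RCLike.star_def, map_mul, Complex.conj_ofReal]
  push_cast
  field_simp

theorem wf_wb (E δ : ℝ) (fr fi : T d L → ℝ) (b : T d L → ℂ) (h : ∀ k, fc fr fi k = b k) :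
    wf (d := d) (L := L) E δ fr fi = wb E δ b := by
  funext k
  unfold wf wb w0
  rw [h]
  ring

/-- one source -/
theorem near1 (E δ θ η κ g1 ρ τ : ℝ) (hδ : 0 < δ) (hη : 0 < η) (hκ : 0 < κ)
    (hκ2 : κ ≤ 1 / 2)
    {V fr fi vr vi rr ri : T d L → ℝ} (b : T d L → ℂ) (hb : ∀ k, ‖b k‖ ≤ 1)
    (hfc : ∀ k, fc fr fi k = b k)
    (h : Sol3 E (η * δ) V fr fi vr vi rr ri)
    (hg : ∑ k : T d L, (JJ E δ k)⁻¹ ≤ g1 * NN d L) (hg0 : 0 ≤ g1)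
    (hf : ∀ w : T d L → ℝ, |∑ x, V x * w x ^ 2| ≤ κ * q (JJ E δ) w)
    (hρ : Real.sqrt (Bq rr ri) ≤ ρ) (hτ : 0 ≤ τ)
    (hU : ∀ x : T d L, |∑ y : T d L, V y * K (fun Q => 1 - hi θ Q) (x - y)| ≤ τ)
    (B Kf s : ℝ) (hρ0 : 0 ≤ ρ)
    (hB : Real.sqrt (Bq vr vi) ≤ B)
    (hFK : FS E δ θ η fr fi V ≤ Kf)
    (hs : s = (Real.sqrt η)⁻¹ * ((Real.sqrt δ)⁻¹ * (ρ + τ * B) + η * (2 * Real.sqrt g1 +
      2 * (κ + η) * (Real.sqrt δ * B) + 2 * ((Real.sqrt δ)⁻¹ * ρ)))) :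
    ∃ w : T d L → ℂ, (fun k => (Real.sqrt (JJ E δ k) : ℂ) * fc vr vi k) =
      ((Real.sqrt (NN d L) : ℝ) : ℂ) • (RR (D0 E δ) (AA E δ θ) η V *ᵥ wb E δ b) + w ∧
      nn w ≤ Real.sqrt (NN d L) * (s / Real.sqrt η) ∧
      nn (((Real.sqrt (NN d L) : ℝ) : ℂ) • (RR (D0 E δ) (AA (d := d) (L := L) E δ θ) η V *ᵥ
        wb E δ b)) ≤ Real.sqrt (NN d L) * Real.sqrt (Kf / η) := by
  have hX := Pool.Agent.W363.BK.D0_herm (d := d) (L := L) E δ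
  have hA := fun y => Pool.Agent.W363.BK.AA_herm (d := d) (L := L) E δ θ y
  have hN := NN_pos (d := d) (L := L)
  have hsN : 0 < Real.sqrt (NN d L) := Real.sqrt_pos.2 hN
  have hsη : 0 < Real.sqrt η := Real.sqrt_pos.2 hη
  obtain ⟨R, hR⟩ : ∃ R, R = RR (D0 (d := d) (L := L) E δ) (AA E δ θ) η V := ⟨_, rfl⟩
  have hRn : ∀ w : T d L → ℂ, nn (R *ᵥ w) ≤ η⁻¹ * nn w := by
    intro w
    apply nn_le _ _ (mul_nonneg (inv_nonneg.2 hη.le) (nn_nonneg _))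
    rw [mul_pow, nn_sq, hR, inv_pow]
    exact RR_bd hX hA hη V w
  have hg' : ∑ k : T d L, (JJ E δ k)⁻¹ * ‖fc fr fi k‖ ^ 2 ≤ g1 * NN d L := by
    refine le_trans (Finset.sum_le_sum fun k _ => ?_) hg
    apply mul_le_of_le_one_right (inv_nonneg.2 (Pool.Agent.W788.BK.JJ_pos E δ hδ k).le)
    rw [hfc]
    exact pow_le_one₀ (norm_nonneg _) (hb k)
  obtain ⟨ψ, hφ, hψ, _⟩ := solR E δ θ η κ g1 ρ τ hδ hη hκ hκ2 h hg' hg0 hf hρ hτ hU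
  rw [wf_wb E δ fr fi b hfc, ← hR] at hφ
  have hB0 : 0 ≤ B := (Real.sqrt_nonneg _).trans hB
  obtain ⟨s1, hs1⟩ : ∃ s1, s1 = (Real.sqrt δ)⁻¹ * (ρ + τ * B) + η * (2 * Real.sqrt g1 +
      2 * (κ + η) * (Real.sqrt δ * B) + 2 * ((Real.sqrt δ)⁻¹ * ρ)) := ⟨_, rfl⟩
  have hs10 : 0 ≤ s1 := by rw [hs1]; positivity
  rw [← hs1] at hs
  have hψ' : nn ψ ≤ Real.sqrt (NN d L) * s1 := by
    refine hψ.trans ?_
    rw [hs1]
    gcongr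
  rw [← hR]
  refine ⟨R *ᵥ ψ, ?_, ?_, ?_⟩
  · rw [hφ, Matrix.mulVec_add, Matrix.mulVec_smul]
  · refine (hRn ψ).trans ?_
    have e1 : s / Real.sqrt η = η⁻¹ * s1 := by
      have e2 : η = Real.sqrt η * Real.sqrt η := (Real.mul_self_sqrt hη.le).symm
      rw [hs]
      nth_rewrite 3 [e2]
      field_simp
    rw [e1]
    calc η⁻¹ * nn ψ ≤ η⁻¹ * (Real.sqrt (NN d L) * s1) := by gcongr
      _ = _ := by ring
  · have hy0n : nn (R *ᵥ wb (d := d) (L := L) E δ b) ≤ Real.sqrt (Kf / η) := by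
      have e1 := (ward hX hA hη V (wb (d := d) (L := L) E δ b)).1
      rw [← hR] at e1
      have e2 : FS E δ θ η fr fi V = η * nsq (R *ᵥ wb (d := d) (L := L) E δ b) := by
        rw [← e1]
        unfold FS
        rw [wf_wb E δ fr fi b hfc, hR]
      rw [e2] at hFK
      unfold nn
      apply Real.sqrt_le_sqrt
      rw [le_div_iff₀ hη]
      linarith
    rw [nn_smul', Complex.norm_real, Real.norm_of_nonneg hsN.le]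
    gcongr

/-- **comparison** -/
theorem compO (E δ θ η κ g1 ρ τ : ℝ) (P0 : T d L) (o : T d L → ℂ) (ho : ∀ k, ‖o k‖ ≤ 1)
    (hδ : 0 < δ) (hη : 0 < η) (hκ : 0 < κ) (hκ2 : κ ≤ 1 / 2)
    {V vr vi rr ri fr fi vr' vi' rr' ri' : T d L → ℝ}
    (h : Sol3 E (η * δ) V (Pi.single 0 1) (fun _ => 0) vr vi rr ri)
    (h' : Sol3 E (η * δ) V fr fi vr' vi' rr' ri')
    (hfc : ∀ k, fc fr fi k = (starRingEnd ℂ) (o k))
    (hg : ∑ k : T d L, (JJ E δ k)⁻¹ ≤ g1 * NN d L) (hg0 : 0 ≤ g1)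
    (hf : ∀ w : T d L → ℝ, |∑ x, V x * w x ^ 2| ≤ κ * q (JJ E δ) w)
    (hρ : Real.sqrt (Bq rr ri) ≤ ρ) (hρ' : Real.sqrt (Bq rr' ri') ≤ ρ) (hτ : 0 ≤ τ)
    (hU : ∀ x : T d L, |∑ y : T d L, V y * K (fun Q => 1 - hi θ Q) (x - y)| ≤ τ)
    (B Kf s : ℝ) (hρ0 : 0 ≤ ρ)
    (hB : Real.sqrt (Bq vr vi) ≤ B) (hB' : Real.sqrt (Bq vr' vi') ≤ B)
    (hFK : FS E δ θ η (Pi.single 0 1) (fun _ => 0) V ≤ Kf) (hFK' : FS E δ θ η fr fi V ≤ Kf)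
    (hs : s = (Real.sqrt η)⁻¹ * ((Real.sqrt δ)⁻¹ * (ρ + τ * B) + η * (2 * Real.sqrt g1 +
      2 * (κ + η) * (Real.sqrt δ * B) + 2 * ((Real.sqrt δ)⁻¹ * ρ))))
    (w : T d L → ℂ) (hw : ∀ k, o k * fc vr' vi' k = ∑ x, w x * e k x) :
    ‖((η * δ : ℝ) : ℂ) * chiO P0 vr vi w -
      FPo E δ θ η P0 o (fun k => (starRingEnd ℂ) (o k)) V‖ ≤ 2 * Real.sqrt Kf * s + s ^ 2 := by
  have hX := Pool.Agent.W363.BK.D0_herm (d := d) (L := L) E δ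
  have hA := fun y => Pool.Agent.W363.BK.AA_herm (d := d) (L := L) E δ θ y
  have hN := NN_pos (d := d) (L := L)
  have hsN : 0 < Real.sqrt (NN d L) := Real.sqrt_pos.2 hN
  have hsη : 0 < Real.sqrt η := Real.sqrt_pos.2 hη
  obtain ⟨w1, i1, i2, i3⟩ := near1 E δ θ η κ g1 ρ τ hδ hη hκ hκ2 (fun _ => (1 : ℂ))
    (fun k => by simp) (fun k => fc_single k) h hg hg0 hf hρ hτ hU B Kf s hρ0 hB hFK hs
  obtain ⟨w2, j1, j2, j3⟩ := near1 E δ θ η κ g1 ρ τ hδ hη hκ hκ2 (fun k => (starRingEnd ℂ) (o k))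
    (fun k => by rw [Complex.norm_conj]; exact ho k) hfc h' hg hg0 hf hρ' hτ hU B Kf s hρ0 hB' hFK'
    hs
  rw [wb_one] at i1 i3
  obtain ⟨R, hR⟩ : ∃ R, R = RR (D0 (d := d) (L := L) E δ) (AA E δ θ) η V := ⟨_, rfl⟩
  rw [← hR] at i1 i3 j1 j3
  obtain ⟨φ, hφ⟩ : ∃ φ : T d L → ℂ, φ = fun k => (Real.sqrt (JJ E δ k) : ℂ) * fc vr vi k :=
    ⟨_, rfl⟩
  obtain ⟨φ', hφ'⟩ : ∃ φ' : T d L → ℂ, φ' = fun k => (Real.sqrt (JJ E δ k) : ℂ) * fc vr' vi' k :=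
    ⟨_, rfl⟩
  obtain ⟨u, hu⟩ : ∃ u : T d L → ℂ, u = ((Real.sqrt (NN d L) : ℝ) : ℂ) • (R *ᵥ w0 E δ) := ⟨_, rfl⟩
  obtain ⟨u', hu'⟩ : ∃ u' : T d L → ℂ, u' = ((Real.sqrt (NN d L) : ℝ) : ℂ) •
    (R *ᵥ wb E δ fun k => (starRingEnd ℂ) (o k)) := ⟨_, rfl⟩
  rw [← hφ, ← hu] at i1
  rw [← hu] at i3
  rw [← hφ', ← hu'] at j1
  rw [← hu'] at j3
  have hTn : ∀ w : T d L → ℂ, nn (TSo E δ P0 o *ᵥ w) ≤ nn w := by
    intro w
    apply nn_le _ _ (nn_nonneg _)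
    rw [nn_sq]
    exact TSo_nsq E δ hδ P0 o ho w
  -- the identities
  have k1 : ((η * δ : ℝ) : ℂ) * chiO P0 vr vi w =
      ((η * (NN d L)⁻¹ : ℝ) : ℂ) * (star φ ⬝ᵥ (TSo E δ P0 o *ᵥ φ')) := by
    rw [hφ, hφ', TSo_chi E δ hδ P0 o vr vi vr' vi' w hw]
    have hNc : ((NN d L : ℝ) : ℂ) ≠ 0 := by exact_mod_cast hN.ne'
    push_cast
    field_simp
  have k2 : FPo E δ θ η P0 o (fun k => (starRingEnd ℂ) (o k)) V =
      ((η * (NN d L)⁻¹ : ℝ) : ℂ) * (star u ⬝ᵥ (TSo E δ P0 o *ᵥ u')) := by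
    have e2 : BTo E δ θ η P0 o V 0 1 = (RR (D0 E δ) (AA (d := d) (L := L) E δ θ) η V)ᴴ *
        ((η : ℂ) • TSo E δ P0 o) * RR (D0 E δ) (AA (d := d) (L := L) E δ θ) η V := rfl
    unfold FPo
    rw [e2, ← hR]
    obtain ⟨wc, hwc⟩ : ∃ wc, wc = wb (d := d) (L := L) E δ fun k => (starRingEnd ℂ) (o k) :=
      ⟨_, rfl⟩
    rw [← hwc] at hu' ⊢
    have e3 : star (w0 (d := d) (L := L) E δ) ⬝ᵥ ((Rᴴ * ((η : ℂ) • TSo E δ P0 o) * R) *ᵥ wc) =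
        star (R *ᵥ w0 (d := d) (L := L) E δ) ⬝ᵥ (((η : ℂ) • TSo E δ P0 o) *ᵥ (R *ᵥ wc)) := by
      rw [mul_assoc, ← Matrix.mulVec_mulVec, adjoint, Matrix.conjTranspose_conjTranspose,
        Matrix.mulVec_mulVec]
    rw [e3, Matrix.smul_mulVec, dotProduct_smul, smul_eq_mul, hu, hu', Matrix.mulVec_smul,
      star_smul, smul_dotProduct, dotProduct_smul, smul_eq_mul, smul_eq_mul]
    have hNc : ((NN d L : ℝ) : ℂ) ≠ 0 := by exact_mod_cast hN.ne'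
    have e4 : star ((Real.sqrt (NN d L) : ℝ) : ℂ) = ((Real.sqrt (NN d L) : ℝ) : ℂ) :=
      Complex.conj_ofReal _
    have e5 : ((Real.sqrt (NN d L) : ℝ) : ℂ) * ((Real.sqrt (NN d L) : ℝ) : ℂ) =
        ((NN d L : ℝ) : ℂ) := by
      rw [← Complex.ofReal_mul, Real.mul_self_sqrt hN.le]
    rw [e4]
    generalize star (R *ᵥ w0 (d := d) (L := L) E δ) ⬝ᵥ (TSo E δ P0 o *ᵥ (R *ᵥ wc)) = X
    calc (η : ℂ) * X = ((η : ℂ) * ((NN d L : ℝ) : ℂ)⁻¹) * (((NN d L : ℝ) : ℂ) * X) := by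
          field_simp
      _ = ((η : ℂ) * ((NN d L : ℝ) : ℂ)⁻¹) *
          ((((Real.sqrt (NN d L) : ℝ) : ℂ) * ((Real.sqrt (NN d L) : ℝ) : ℂ)) * X) := by
          rw [e5]
      _ = _ := by
          push_cast
          ring
  have k3 : star φ ⬝ᵥ (TSo E δ P0 o *ᵥ φ') - star u ⬝ᵥ (TSo E δ P0 o *ᵥ u') =
      star u ⬝ᵥ (TSo E δ P0 o *ᵥ w2) + star w1 ⬝ᵥ (TSo E δ P0 o *ᵥ u') +
        star w1 ⬝ᵥ (TSo E δ P0 o *ᵥ w2) := by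
    rw [i1, j1, star_add, Matrix.mulVec_add, add_dotProduct, dotProduct_add, dotProduct_add]
    ring
  rw [k1, k2, ← mul_sub, k3, norm_mul, Complex.norm_real,
    Real.norm_of_nonneg (by positivity : 0 ≤ η * (NN d L)⁻¹)]
  have cs : ∀ a b : T d L → ℂ, ‖star a ⬝ᵥ (TSo E δ P0 o *ᵥ b)‖ ≤ nn a * nn b := by
    intro a b
    refine (cs_norm _ _).trans ?_
    exact mul_le_mul_of_nonneg_left (hTn b) (nn_nonneg _)
  obtain ⟨x1, hx1⟩ : ∃ x1, x1 = Real.sqrt (NN d L) * Real.sqrt (Kf / η) := ⟨_, rfl⟩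
  obtain ⟨x2, hx2⟩ : ∃ x2, x2 = Real.sqrt (NN d L) * (s / Real.sqrt η) := ⟨_, rfl⟩
  rw [← hx1] at i3 j3
  rw [← hx2] at i2 j2
  have hx10 : 0 ≤ x1 := (nn_nonneg _).trans i3
  have hx20 : 0 ≤ x2 := (nn_nonneg _).trans i2
  have hsum : ‖star u ⬝ᵥ (TSo E δ P0 o *ᵥ w2) + star w1 ⬝ᵥ (TSo E δ P0 o *ᵥ u') +
      star w1 ⬝ᵥ (TSo E δ P0 o *ᵥ w2)‖ ≤ x1 * x2 + x2 * x1 + x2 * x2 := by
    refine (norm_add_le _ _).trans (add_le_add ((norm_add_le _ _).trans (add_le_add ?_ ?_)) ?_)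
    · exact (cs u w2).trans (mul_le_mul i3 j2 (nn_nonneg _) hx10)
    · exact (cs w1 u').trans (mul_le_mul i2 j3 (nn_nonneg _) hx20)
    · exact (cs w1 w2).trans (mul_le_mul i2 j2 (nn_nonneg _) hx20)
  have hKη : Real.sqrt (Kf / η) = Real.sqrt Kf / Real.sqrt η := Real.sqrt_div' _ hη.le
  calc η * (NN d L)⁻¹ * ‖star u ⬝ᵥ (TSo E δ P0 o *ᵥ w2) + star w1 ⬝ᵥ (TSo E δ P0 o *ᵥ u') +
      star w1 ⬝ᵥ (TSo E δ P0 o *ᵥ w2)‖ ≤ η * (NN d L)⁻¹ * (x1 * x2 + x2 * x1 + x2 * x2) := by gcongr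
    _ = η * (NN d L)⁻¹ * ((Real.sqrt (NN d L) * Real.sqrt (NN d L)) *
        ((Real.sqrt η)⁻¹ * (Real.sqrt η)⁻¹) * (2 * Real.sqrt Kf * s + s ^ 2)) := by
        rw [hx1, hx2, hKη]
        ring
    _ = _ := by
        rw [Real.mul_self_sqrt hN.le, ← mul_inv, Real.mul_self_sqrt hη.le]
        field_simp

end Pool.Agent.Q218.WE
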