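import Pool.Agent.TH794.HK.CoreA

/-! The self-consistent equation for the two-resolvent average with an arbitrary momentum transfer and
general symbols. -/

set_option autoImplicit false
set_option linter.unusedSectionVars false

open scoped BigOperators

namespace Pool.Agent.Q218.WE

open Pool.Agent.TH794.QD
open Pool.Agent.TH794.HK

variable {ι : Type} [Fintype ι]

/-- **the averaged equation** -/
theorem coreO (N δ η s2 g g1 ε e1 E c0 H : ℝ) (a J w : ι → ℝ) (h : ι → ι → ℝ) (S : ℝ) (sh : ι ≃ ι)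
    (M Y o b : ι → ℂ) (m ν : ℂ) (ho : ∀ k, ‖o k‖ ≤ 1) (hbb : ∀ k, ‖b k‖ ≤ 1) (hN : 0 < N) (hδ : 0 < δ) (hη : 0 < η) (hs : 0 ≤ s2) (hε0 : 0 ≤ ε)
    (he0 : 0 ≤ e1) (he1 : e1 ≤ 1 / 4) (hg0 : 0 ≤ g)
    (hJJ : ∀ k, J k = Real.sqrt ((a k - E) ^ 2 + δ ^ 2))
    (hM : ∀ k, ‖M k‖ ≤ η⁻¹) (hY : ∀ k, ‖Y k‖ ≤ 3 / η)
    (hh : ∀ k p, h k p ≤ 1) (hS : ∀ k, ∑ p, (1 - h k p) = S)
    (hS2 : s2 * S ≤ e1 * (η ^ 2 * δ ^ 2) * N)
    (hm : m = mv N fun k => (((J k)⁻¹ : ℝ) : ℂ) * M k) (hmim : 0 ≤ m.im) (hmn : ‖m‖ ≤ 2 * g)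
    (hw : ∀ k, w k = (Real.sqrt (J k))⁻¹ * (Real.sqrt (J (sh k)))⁻¹)
    (hg1 : rv N (fun k => (J k)⁻¹) ≤ g1) (hgδ : s2 * (2 * g) ≤ δ)
    (heqM : ∀ k, ‖((((a k - E) / J k : ℝ) : ℂ) - (η : ℂ) * Complex.I) * M k -
      (s2 : ℂ) * (∑ p, ((N⁻¹ * h k p * (J k * J p)⁻¹ : ℝ) : ℂ) * M p) * M k - 1‖ ≤ ε)
    (heqY : ∀ k, ‖((((a k - E) / J k : ℝ) : ℂ) + (η : ℂ) * Complex.I) * Y k -
      ((η * δ * w k : ℝ) : ℂ) * o k * M (sh k) -
      (s2 : ℂ) * ((starRingEnd ℂ) (∑ p, ((N⁻¹ * h k p * (J k * J p)⁻¹ : ℝ) : ℂ) * M p) * Y k +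
        (w k : ℂ) * (∑ p, ((N⁻¹ * h k p * w p : ℝ) : ℂ) * Y p) * M (sh k))‖ ≤ ε)
    (hc0 : c0 = 4 / 3 * (ε + (e1 + (2 * η + 8 * s2 ^ 2 * g ^ 2 / δ ^ 2)))) (hc1 : c0 ≤ 1)
    (D : ι → ℂ) (hD : ∀ k, D k = ((a k - E : ℝ) : ℂ) - (s2 : ℂ) * m -
      ((η * δ : ℝ) : ℂ) * Complex.I)
    (hν : ν = mv N fun k => (w k : ℂ) * Y k) (hνg : ‖ν‖ ≤ 2 * g)
    (hH : rv N (fun k => ‖(D k)⁻¹‖ ^ 2) ≤ H) (hG1 : rv N (fun k => ‖(D k)⁻¹‖) ≤ g) :
    ‖mv N (fun k => b k * ((w k : ℂ) * Y k)) -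
      mv N (fun k => b k * ((((η * δ : ℝ) : ℂ) * o k + (s2 : ℂ) * ν) *
        ((starRingEnd ℂ) ((D k)⁻¹) * (D (sh k))⁻¹)))‖ ≤
      ε * (g1 + g + 2 * δ * H) + 3 * c0 * (η * δ + s2 * (2 * g) + 3 * e1 * (η * δ)) * H +
        6 * e1 * (η * δ) * H := by
  have hJ : ∀ k, δ ≤ J k := by
    intro k
    rw [hJJ]
    exact Real.le_sqrt_of_sq_le (by linarith [sq_nonneg (a k - E)])
  have hJ0 : ∀ k, 0 < J k := fun k => hδ.trans_le (hJ k)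
  have hsJ : ∀ k, 0 < Real.sqrt (J k) := fun k => Real.sqrt_pos.2 (hJ0 k)
  have ht : 0 < η * δ := mul_pos hη hδ
  have hw0 : ∀ k, 0 ≤ w k := fun k => by
    rw [hw]
    have := hsJ k
    have := hsJ (sh k)
    positivity
  have hwδ : ∀ k, w k ≤ δ⁻¹ := by
    intro k
    have h1 : Real.sqrt δ ≤ Real.sqrt (J k) := Real.sqrt_le_sqrt (hJ k)
    have h2 : Real.sqrt δ ≤ Real.sqrt (J (sh k)) := Real.sqrt_le_sqrt (hJ (sh k))
    have h3 : 0 < Real.sqrt δ := Real.sqrt_pos.2 hδ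
    rw [hw]
    calc (Real.sqrt (J k))⁻¹ * (Real.sqrt (J (sh k)))⁻¹ ≤ (Real.sqrt δ)⁻¹ * (Real.sqrt δ)⁻¹ := by
          gcongr
      _ = δ⁻¹ := by rw [← mul_inv, Real.mul_self_sqrt hδ.le]
  obtain ⟨c1, hc1d⟩ : ∃ c1, c1 = e1 + (2 * η + 8 * s2 ^ 2 * g ^ 2 / δ ^ 2) := ⟨_, rfl⟩
  have hc10 : 0 ≤ c1 := by rw [hc1d]; positivity
  rw [← hc1d] at hc0
  have hc00 : 0 ≤ c0 := by rw [hc0]; positivity
  -- the low modes in the equation of M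
  choose lM hlM using fun k => psi_eq N δ η s2 e1 η⁻¹ J h S M hN hδ hs hJ hM (inv_nonneg.2 hη.le)
    hh hS hS2 k
  have hlM1 : ∀ k, ‖(s2 : ℂ) * lM k‖ ≤ e1 * (η * δ) := by
    intro k
    refine (hlM k).1.trans (le_of_eq ?_)
    field_simp
  obtain ⟨DJ, hDJ⟩ : ∃ DJ : ι → ℂ, DJ = fun k => ((a k - E : ℝ) : ℂ) -
    ((η * J k : ℝ) : ℂ) * Complex.I - (s2 : ℂ) * m + (s2 : ℂ) * lM k := ⟨_, rfl⟩
  have hDJk : ∀ k, DJ k = ((a k - E : ℝ) : ℂ) -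
    ((η * J k : ℝ) : ℂ) * Complex.I - (s2 : ℂ) * m + (s2 : ℂ) * lM k := fun k => by rw [hDJ]
  have hfacts := fun k => dj_facts N δ η s2 g e1 (a k - E) (J k) S (lM k) m hN hδ hη hs he0 he1
    (hJJ k) (hlM1 k) hmim hmn (D k) (DJ k) (hD k) (hDJk k)
  simp only [← hc1d] at hfacts
  have hD0 : ∀ k, 0 < ‖D k‖ := fun k => lt_of_lt_of_le (by
    have := mul_nonneg hs hmim
    linarith) (hfacts k).1
  have hJc : ∀ k, ((J k : ℝ) : ℂ) ≠ 0 := fun k => by exact_mod_cast (hJ0 k).ne'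
  -- the resolvent at one momentum
  obtain ⟨G, hG⟩ : ∃ G : ι → ℂ, G = fun k => (((J k)⁻¹ : ℝ) : ℂ) * M k := ⟨_, rfl⟩
  have hGk : ∀ k, G k = (((J k)⁻¹ : ℝ) : ℂ) * M k := fun k => by rw [hG]
  have hGD : ∀ k, ‖G k - (D k)⁻¹‖ ≤ c0 * ‖(D k)⁻¹‖ := by
    intro k
    have e1' : ((((a k - E) / J k : ℝ) : ℂ) - (η : ℂ) * Complex.I) * M k -
      (s2 : ℂ) * (∑ p, ((N⁻¹ * h k p * (J k * J p)⁻¹ : ℝ) : ℂ) * M p) * M k - 1 =
      DJ k * G k - 1 := by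
      rw [(hlM k).2, ← hm, hDJk, hGk]
      have := hJc k
      push_cast
      field_simp
      ring
    have h1 := heqM k
    rw [e1'] at h1
    obtain ⟨-, f2, f3, -, -⟩ := hfacts k
    have h2 := step1 (D k) (DJ k) (G k) 1 c1 ε (hD0 k) f2 f3 h1
    rw [mul_one, norm_one, mul_one, ← norm_inv] at h2
    refine h2.trans (le_of_eq ?_)
    rw [hc0]
    ring
  have hGb : ∀ k, ‖G k‖ ≤ 2 * ‖(D k)⁻¹‖ := by
    intro k
    have h1 : ‖G k‖ ≤ ‖G k - (D k)⁻¹‖ + ‖(D k)⁻¹‖ := by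
      have := norm_add_le (G k - (D k)⁻¹) ((D k)⁻¹)
      rwa [sub_add_cancel] at this
    have h2 : c0 * ‖(D k)⁻¹‖ ≤ 1 * ‖(D k)⁻¹‖ := mul_le_mul_of_nonneg_right hc1 (norm_nonneg _)
    linarith [hGD k]
  -- the low modes in the equation of Y
  obtain ⟨l, hl⟩ : ∃ l : ι → ℂ, l = fun k => ((N⁻¹ : ℝ) : ℂ) *
    ∑ p, (((1 - h k p) * w p : ℝ) : ℂ) * Y p := ⟨_, rfl⟩
  have hlk : ∀ k, ‖(s2 : ℂ) * l k‖ ≤ 3 * e1 * (η * δ) := by
    intro k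
    have h1 : ‖l k‖ ≤ N⁻¹ * (S * (δ⁻¹ * (3 / η))) := by
      rw [hl]
      simp only
      rw [norm_mul, Complex.norm_real, Real.norm_eq_abs, abs_of_pos (inv_pos.2 hN)]
      refine mul_le_mul_of_nonneg_left ?_ (inv_nonneg.2 hN.le)
      rw [← hS k, Finset.sum_mul]
      refine (norm_sum_le _ _).trans (Finset.sum_le_sum fun p _ => ?_)
      have h1 : 0 ≤ 1 - h k p := by have := hh k p; linarith
      rw [norm_mul, Complex.norm_real, Real.norm_eq_abs,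
        abs_of_nonneg (mul_nonneg h1 (hw0 p)), mul_assoc]
      refine mul_le_mul_of_nonneg_left ?_ h1
      exact mul_le_mul (hwδ p) (hY p) (norm_nonneg _) (inv_nonneg.2 hδ.le)
    rw [norm_mul, Complex.norm_real, Real.norm_eq_abs, abs_of_nonneg hs]
    calc s2 * ‖l k‖ ≤ s2 * (N⁻¹ * (S * (δ⁻¹ * (3 / η)))) := mul_le_mul_of_nonneg_left h1 hs
      _ = (s2 * S) * (N⁻¹ * (δ⁻¹ * (3 / η))) := by ring
      _ ≤ (e1 * (η ^ 2 * δ ^ 2) * N) * (N⁻¹ * (δ⁻¹ * (3 / η))) :=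
        mul_le_mul_of_nonneg_right hS2 (by positivity)
      _ = 3 * e1 * (η * δ) := by field_simp
  have hsum : ∀ k, ∑ p, ((N⁻¹ * h k p * w p : ℝ) : ℂ) * Y p = ν - l k := by
    intro k
    rw [hν, hl]
    unfold mv
    simp only
    rw [Complex.ofReal_inv N, ← mul_sub, ← Finset.sum_sub_distrib, Finset.mul_sum]
    refine Finset.sum_congr rfl fun p _ => ?_
    push_cast
    ring
  obtain ⟨X, hX⟩ : ∃ X : ι → ℂ, X = fun k => (((η * δ : ℝ) : ℂ) * o k + (s2 : ℂ) * (ν - l k)) *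
    G (sh k) := ⟨_, rfl⟩
  obtain ⟨A, hA⟩ : ∃ A, A = η * δ + s2 * (2 * g) + 3 * e1 * (η * δ) := ⟨_, rfl⟩
  have hA0 : 0 ≤ A := by rw [hA]; positivity
  have hXb : ∀ k, ‖X k‖ ≤ 2 * A * ‖(D (sh k))⁻¹‖ := by
    intro k
    rw [hX]
    simp only
    rw [norm_mul]
    have h1 : ‖((η * δ : ℝ) : ℂ) * o k + (s2 : ℂ) * (ν - l k)‖ ≤ A := by
      have e2 : ((η * δ : ℝ) : ℂ) * o k + (s2 : ℂ) * (ν - l k) =
          ((η * δ : ℝ) : ℂ) * o k + (s2 : ℂ) * ν - (s2 : ℂ) * l k := by ring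
      rw [e2, hA]
      refine (norm_sub_le _ _).trans (add_le_add ((norm_add_le _ _).trans (add_le_add ?_ ?_))
        (hlk k))
      · rw [norm_mul, Complex.norm_real, Real.norm_of_nonneg ht.le]
        exact mul_le_of_le_one_right ht.le (ho k)
      · rw [norm_mul, Complex.norm_real, Real.norm_of_nonneg hs]
        exact mul_le_mul_of_nonneg_left hνg hs
    calc _ ≤ A * (2 * ‖(D (sh k))⁻¹‖) := mul_le_mul h1 (hGb _) (norm_nonneg _) hA0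
      _ = _ := by ring
  -- the equation at one momentum
  have hpt : ∀ k, ‖(w k : ℂ) * Y k - (starRingEnd ℂ) ((D k)⁻¹) * X k‖ ≤
      4 / 3 * (w k * J k * ε) * ‖(D k)⁻¹‖ + 2 * c0 * A * (‖(D k)⁻¹‖ * ‖(D (sh k))⁻¹‖) := by
    intro k
    obtain ⟨-, f2, f3, -, -⟩ := hfacts k
    have hww : w k * w k * J k = (J (sh k))⁻¹ := by
      have h5 : Real.sqrt (J k) * Real.sqrt (J k) = J k := Real.mul_self_sqrt (hJ0 k).le
      have h6 : Real.sqrt (J (sh k)) * Real.sqrt (J (sh k)) = J (sh k) :=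
        Real.mul_self_sqrt (hJ0 _).le
      have h7 : w k * w k = (J k)⁻¹ * (J (sh k))⁻¹ := by
        rw [hw]
        calc (Real.sqrt (J k))⁻¹ * (Real.sqrt (J (sh k)))⁻¹ *
              ((Real.sqrt (J k))⁻¹ * (Real.sqrt (J (sh k)))⁻¹) =
            (Real.sqrt (J k) * Real.sqrt (J k))⁻¹ *
              (Real.sqrt (J (sh k)) * Real.sqrt (J (sh k)))⁻¹ := by
              rw [mul_inv, mul_inv]
              ring
          _ = _ := by rw [h5, h6]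
      rw [h7]
      have := (hJ0 k).ne'
      field_simp
    have e2 : (starRingEnd ℂ) (DJ k) * ((w k : ℂ) * Y k) - X k =
        ((w k * J k : ℝ) : ℂ) * (((((a k - E) / J k : ℝ) : ℂ) + (η : ℂ) * Complex.I) * Y k -
      ((η * δ * w k : ℝ) : ℂ) * o k * M (sh k) -
      (s2 : ℂ) * ((starRingEnd ℂ) (∑ p, ((N⁻¹ * h k p * (J k * J p)⁻¹ : ℝ) : ℂ) * M p) * Y k +
        (w k : ℂ) * (∑ p, ((N⁻¹ * h k p * w p : ℝ) : ℂ) * Y p) * M (sh k))) := by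
      rw [hsum k, (hlM k).2, ← hm, hDJk, hX]
      simp only
      rw [hGk]
      have e3 : (((J (sh k))⁻¹ : ℝ) : ℂ) = (w k : ℂ) * (w k : ℂ) * (J k : ℂ) := by
        rw [← hww]
        push_cast
        ring
      rw [e3]
      have := hJc k
      simp only [map_add, map_sub, map_mul, Complex.conj_ofReal, Complex.conj_I]
      push_cast
      field_simp
      ring
    have h1 : ‖(starRingEnd ℂ) (DJ k) * ((w k : ℂ) * Y k) - X k‖ ≤ w k * J k * ε := by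
      rw [e2, norm_mul, Complex.norm_real, Real.norm_of_nonneg (mul_nonneg (hw0 k) (hJ0 k).le)]
      exact mul_le_mul_of_nonneg_left (heqY k) (mul_nonneg (hw0 k) (hJ0 k).le)
    have h2 := step1 ((starRingEnd ℂ) (D k)) ((starRingEnd ℂ) (DJ k)) ((w k : ℂ) * Y k) (X k) c1
      (w k * J k * ε) (by rw [Complex.norm_conj]; exact hD0 k)
      (by rw [Complex.norm_conj, Complex.norm_conj]; exact f2)
      (by rw [← map_sub, Complex.norm_conj, Complex.norm_conj]; exact f3) h1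
    rw [Complex.norm_conj, ← map_inv₀, ← norm_inv] at h2
    refine h2.trans ?_
    have h3 : 4 / 3 * c1 ≤ c0 := by
      rw [hc0]
      linarith
    have h4 : 4 / 3 * c1 * ‖(D k)⁻¹‖ * ‖X k‖ ≤ c0 * ‖(D k)⁻¹‖ * (2 * A * ‖(D (sh k))⁻¹‖) := by
      have := hXb k
      gcongr
    have h5 : c0 * ‖(D k)⁻¹‖ * (2 * A * ‖(D (sh k))⁻¹‖) =
        2 * c0 * A * (‖(D k)⁻¹‖ * ‖(D (sh k))⁻¹‖) := by ring
    linarith
  -- the second difference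
  have hpt2 : ∀ k, ‖(starRingEnd ℂ) ((D k)⁻¹) * X k - (((η * δ : ℝ) : ℂ) * o k + (s2 : ℂ) * ν) *
      ((starRingEnd ℂ) ((D k)⁻¹) * (D (sh k))⁻¹)‖ ≤
      (c0 * A + 6 * e1 * (η * δ)) * (‖(D k)⁻¹‖ * ‖(D (sh k))⁻¹‖) := by
    intro k
    have e2 : (starRingEnd ℂ) ((D k)⁻¹) * X k - (((η * δ : ℝ) : ℂ) * o k + (s2 : ℂ) * ν) *
        ((starRingEnd ℂ) ((D k)⁻¹) * (D (sh k))⁻¹) = (starRingEnd ℂ) ((D k)⁻¹) *
        ((((η * δ : ℝ) : ℂ) * o k + (s2 : ℂ) * ν) * (G (sh k) - (D (sh k))⁻¹) -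
          ((s2 : ℂ) * l k) * G (sh k)) := by
      rw [hX]
      simp only
      ring
    rw [e2, norm_mul, Complex.norm_conj]
    have h1 : ‖((η * δ : ℝ) : ℂ) * o k + (s2 : ℂ) * ν‖ ≤ A := by
      rw [hA]
      refine (norm_add_le _ _).trans ?_
      rw [norm_mul, Complex.norm_real, Real.norm_of_nonneg ht.le, norm_mul, Complex.norm_real,
        Real.norm_of_nonneg hs]
      have := mul_le_mul_of_nonneg_left hνg hs
      have := mul_le_of_le_one_right ht.le (ho k)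
      have : 0 ≤ 3 * e1 * (η * δ) := by positivity
      linarith
    have h2 : ‖(((η * δ : ℝ) : ℂ) * o k + (s2 : ℂ) * ν) * (G (sh k) - (D (sh k))⁻¹) -
          ((s2 : ℂ) * l k) * G (sh k)‖ ≤ A * (c0 * ‖(D (sh k))⁻¹‖) +
          3 * e1 * (η * δ) * (2 * ‖(D (sh k))⁻¹‖) := by
      refine (norm_sub_le _ _).trans (add_le_add ?_ ?_)
      · rw [norm_mul]
        exact mul_le_mul h1 (hGD _) (norm_nonneg _) hA0
      · rw [norm_mul]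
        exact mul_le_mul (hlk k) (hGb _) (norm_nonneg _) (by positivity)
    calc ‖(D k)⁻¹‖ * ‖(((η * δ : ℝ) : ℂ) * o k + (s2 : ℂ) * ν) * (G (sh k) - (D (sh k))⁻¹) -
          ((s2 : ℂ) * l k) * G (sh k)‖ ≤ ‖(D k)⁻¹‖ * (A * (c0 * ‖(D (sh k))⁻¹‖) +
          3 * e1 * (η * δ) * (2 * ‖(D (sh k))⁻¹‖)) := by gcongr
      _ = _ := by ring
  -- the average
  have hpair := rv_pair N H hN sh (fun k => ‖(D k)⁻¹‖) hH
  have e4 : mv N (fun k => b k * ((w k : ℂ) * Y k)) -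
      mv N (fun k => b k * ((((η * δ : ℝ) : ℂ) * o k + (s2 : ℂ) * ν) *
        ((starRingEnd ℂ) ((D k)⁻¹) * (D (sh k))⁻¹))) =
      mv N (fun k => b k * (((w k : ℂ) * Y k - (starRingEnd ℂ) ((D k)⁻¹) * X k) +
        ((starRingEnd ℂ) ((D k)⁻¹) * X k - (((η * δ : ℝ) : ℂ) * o k + (s2 : ℂ) * ν) *
      ((starRingEnd ℂ) ((D k)⁻¹) * (D (sh k))⁻¹)))) := by
    rw [← mv_sub]
    congr 1
    funext k
    ring
  rw [e4]
  -- the weights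
  have hwD : ∀ k, w k * J k * ‖(D k)⁻¹‖ ≤
      1 / 2 * ‖(D k)⁻¹‖ + (δ * ‖(D k)⁻¹‖ ^ 2 + 1 / 2 * (J (sh k))⁻¹) := by
    intro k
    have h1 : w k * J k * ‖(D k)⁻¹‖ =
        (Real.sqrt (J k) * ‖(D k)⁻¹‖) * (Real.sqrt (J (sh k)))⁻¹ := by
      have h5 : J k = Real.sqrt (J k) * Real.sqrt (J k) := (Real.mul_self_sqrt (hJ0 k).le).symm
      rw [hw]
      nth_rewrite 2 [h5]
      have := (hsJ k).ne'
      field_simp
    have h2 : (Real.sqrt (J k) * ‖(D k)⁻¹‖) ^ 2 = J k * ‖(D k)⁻¹‖ ^ 2 := by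
      rw [mul_pow, Real.sq_sqrt (hJ0 k).le]
    have h3 : ((Real.sqrt (J (sh k)))⁻¹) ^ 2 = (J (sh k))⁻¹ := by
      rw [inv_pow, Real.sq_sqrt (hJ0 _).le]
    have h4 : J k ≤ ‖D k‖ + 2 * δ := by
      have a1 : J k ≤ |a k - E| + δ := by
        rw [hJJ, Real.sqrt_le_left (by positivity)]
        have : (a k - E) ^ 2 = |a k - E| ^ 2 := (sq_abs _).symm
        nlinarith [abs_nonneg (a k - E)]
      have a2 : |a k - E| ≤ ‖D k‖ + δ := by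
        have b1 : (D k).re = (a k - E) - s2 * m.re := by
          rw [hD]
          simp
        have b2 := Complex.abs_re_le_norm (D k)
        have b3 : |s2 * m.re| ≤ δ := by
          rw [abs_mul, abs_of_nonneg hs]
          exact (mul_le_mul_of_nonneg_left ((Complex.abs_re_le_norm m).trans hmn) hs).trans hgδ
        have b4 : a k - E = (D k).re + s2 * m.re := by rw [b1]; ring
        rw [b4]
        exact (abs_add_le _ _).trans (add_le_add b2 b3)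
      linarith
    have h5 : J k * ‖(D k)⁻¹‖ ^ 2 ≤ ‖(D k)⁻¹‖ + 2 * δ * ‖(D k)⁻¹‖ ^ 2 := by
      have c1 : (‖D k‖ + 2 * δ) * ‖(D k)⁻¹‖ ^ 2 = ‖(D k)⁻¹‖ + 2 * δ * ‖(D k)⁻¹‖ ^ 2 := by
        rw [norm_inv]
        have := (hD0 k).ne'
        field_simp
      rw [← c1]
      exact mul_le_mul_of_nonneg_right h4 (sq_nonneg _)
    have h6 := two_mul_le_add_sq (Real.sqrt (J k) * ‖(D k)⁻¹‖) ((Real.sqrt (J (sh k)))⁻¹)
    rw [h2, h3] at h6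
    rw [h1]
    linarith
  have hrs : rv N (fun k => (J (sh k))⁻¹) = rv N (fun k => (J k)⁻¹) := by
    unfold rv
    rw [Equiv.sum_comp sh (fun k => (J k)⁻¹)]
  refine (mv_le hN (F := fun k => (4 / 3 * ε) * (1 / 2 * ‖(D k)⁻¹‖ + (δ * ‖(D k)⁻¹‖ ^ 2 +
    1 / 2 * (J (sh k))⁻¹)) + (3 * c0 * A + 6 * e1 * (η * δ)) *
    (‖(D k)⁻¹‖ * ‖(D (sh k))⁻¹‖)) fun k => ?_).trans ?_
  · rw [norm_mul]
    refine (mul_le_of_le_one_left (norm_nonneg _) (hbb k)).trans ?_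
    refine (norm_add_le _ _).trans ?_
    have u1 := hpt k
    have u2 := hpt2 k
    have u3 := mul_le_mul_of_nonneg_left (hwD k) (by positivity : 0 ≤ 4 / 3 * ε)
    have u4 : 4 / 3 * (w k * J k * ε) * ‖(D k)⁻¹‖ = 4 / 3 * ε * (w k * J k * ‖(D k)⁻¹‖) := by ring
    rw [u4] at u1
    linarith
  · rw [rv_add, rv_mul, rv_mul, rv_add, rv_mul, rv_add, rv_mul, rv_mul, hrs, ← hA]
    have h1 : (3 * c0 * A + 6 * e1 * (η * δ)) * rv N (fun k => ‖(D k)⁻¹‖ * ‖(D (sh k))⁻¹‖) ≤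
        (3 * c0 * A + 6 * e1 * (η * δ)) * H := by gcongr
    have h2 : 1 / 2 * rv N (fun k => ‖(D k)⁻¹‖) + (δ * rv N (fun k => ‖(D k)⁻¹‖ ^ 2) +
        1 / 2 * rv N (fun k => (J k)⁻¹)) ≤ 1 / 2 * (g1 + g + 2 * δ * H) := by
      have h3 : δ * rv N (fun k => ‖(D k)⁻¹‖ ^ 2) ≤ δ * H := mul_le_mul_of_nonneg_left hH hδ.le
      linarith
    have h4 : 0 ≤ g1 + g + 2 * δ * H := by
      have h5 : 0 ≤ 1 / 2 * rv N (fun k => ‖(D k)⁻¹‖) + (δ * rv N (fun k => ‖(D k)⁻¹‖ ^ 2) +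
        1 / 2 * rv N (fun k => (J k)⁻¹)) := by
        have r1 : 0 ≤ rv N (fun k => ‖(D k)⁻¹‖) := rv_nonneg hN fun k => norm_nonneg _
        have r2 : 0 ≤ rv N (fun k => ‖(D k)⁻¹‖ ^ 2) := rv_nonneg hN fun k => sq_nonneg _
        have r3 : 0 ≤ rv N (fun k => (J k)⁻¹) := rv_nonneg hN fun k => (inv_pos.2 (hJ0 k)).le
        positivity
      linarith
    have h6 := mul_le_mul_of_nonneg_left h2 (by positivity : 0 ≤ 4 / 3 * ε)
    have h7 : 4 / 3 * ε * (1 / 2 * (g1 + g + 2 * δ * H)) ≤ ε * (g1 + g + 2 * δ * H) := by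
      have : 0 ≤ ε * (g1 + g + 2 * δ * H) := mul_nonneg hε0 h4
      linarith
    linarith

end Pool.Agent.Q218.WE
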