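import Pool.Agent.Q218.WE.Free2O

/-! The engine for the symbol in dimension `d ≥ 3`. -/

set_option autoImplicit false
set_option linter.unusedSectionVars false

open MeasureTheory Set Filter Topology
open scoped Polynomial

namespace Pool.Agent.Q218.WE

open Pool.Agent.H4R2.LO (Zd)
open Pool.Agent.TH794.HK
open Pool.Agent.TH794.QE
open Pool.Agent.TH794.QD
open Pool.Agent.W788.MFP.Four (T e NN adj NN_pos adj_neg)
open Pool.Agent.Q218.UD (D0 D1 D01 D_low D0_int D0_mass EngU)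
open Pool.Agent.W788.BK.Num

theorem freeO (hA : S_AMPZ) (d : ℕ) (hd : 3 ≤ d) (v : Zd d) (κ : ℝ) (hκ : 0 < κ) (hκ1 : κ ≤ 1)
    (em : ℝ) (hem : 0 < em) (e1 : ℝ) (he1 : 0 < e1) : ∃ P : ℝ[X],
    (∀ x : ℝ, |x| ≤ 2 * d → |P.eval x| ≤ 2) ∧
    (∀ E : ℝ, |E| ≤ 2 * d - κ → |P.eval E - Fr d v E| ≤ e1) ∧
    (∀ E : ℝ, |E| ≤ 2 * d - κ → |Fr d v E| ≤ 1) ∧
    ∀ b : ℝ, 0 < b → EngO d (ZO v P) (oO v P) (fun E => |E| ≤ 2 * d - κ) b em := by
  have hO := Pool.Agent.W918.BK.Osc.osc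
  have hd3 : (3 : ℝ) ≤ d := by exact_mod_cast hd
  obtain ⟨m, hml0, hl⟩ := D_low d hd κ hκ hκ1
  obtain ⟨-, -, Γm, -, -, -, hΓ0, hΓ, -⟩ := Pool.Agent.Q218.LE.bulk3 d hd 1 one_pos
  obtain ⟨W, hW⟩ : ∃ W, W = Γm + m / 2 + 1 := ⟨_, rfl⟩
  have hW1 : 1 ≤ W := by rw [hW]; linarith
  obtain ⟨ε0, hε⟩ : ∃ ε0, ε0 = min 1 (em / (8 * W)) := ⟨_, rfl⟩
  have hε0 : 0 < ε0 := by rw [hε]; positivity
  have hε1 : ε0 ≤ 1 := by rw [hε]; exact min_le_left _ _
  have hε2 : ε0 ≤ em / (8 * W) := by rw [hε]; exact min_le_right _ _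
  obtain ⟨e2, he2⟩ : ∃ e2, e2 = ε0 * (m / 2) := ⟨_, rfl⟩
  have he20 : 0 < e2 := by rw [he2]; positivity
  obtain ⟨ee, hee⟩ : ∃ ee, ee = min (min e1 1) (e2 / (Γm + 1)) := ⟨_, rfl⟩
  have hee0 : 0 < ee := by rw [hee]; positivity
  obtain ⟨P, hP2, hPF, hF1⟩ := pol_ex hA d hd v κ hκ hκ1 ee hee0
    (by rw [hee]; exact (min_le_left _ _).trans (min_le_right _ _))
  refine ⟨P, hP2, fun E hE => (hPF E hE).trans
    (by rw [hee]; exact (min_le_left _ _).trans (min_le_left _ _)), hF1, fun b hb => ?_⟩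
  have hsym := sym_small hA d hd v κ hκ hκ1 P hP2 Γm ee e2 hΓ0 hΓ he20 (by
    have h1 : ee ≤ e2 / (Γm + 1) := by rw [hee]; exact min_le_right _ _
    calc Γm * ee ≤ (Γm + 1) * (e2 / (Γm + 1)) := by
          apply mul_le_mul (by linarith) h1 hee0.le (by linarith)
      _ = e2 := by field_simp) hPF
  have hQB := Pool.Agent.W465.BK.qb (Pool.Agent.W240.BK.two hO)
  obtain ⟨CQ, hCQ, hdat⟩ := dat3 hQB hO d hd
  rw [he2] at hsym
  exact engineO Pool.Agent.W193.BK.ES.es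
      (Pool.Agent.W261.BK.third Pool.Agent.W540.BK.fac)
      (Pool.Agent.W240.BK.fluct (Pool.Agent.W240.BK.var Pool.Agent.W193.BK.ES.es))
      Pool.Agent.W475.BK.inv Pool.Agent.W975.BK.sup
      Pool.Agent.W475.BK.low Pool.Agent.W790.BK.ADM.adm Pool.Agent.W540.BK.fac
      d (by omega) (fun _ => True)
      (fun _ => True) (fun E => |E| ≤ 2 * d - κ) Pool.Agent.W788.BK.C1 CQ
      (Pool.Agent.TH794.QD.CH d) (fun E => GF (F0 d) (E : ℂ)) (fun E => GF (F1 d) (E : ℂ)) hdat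
      Pool.Agent.W788.BK.C1_ge hCQ (CH_nonneg d) 1 one_pos
      (fun E hE => by
        refine ⟨?_, trivial, fun x hx => trivial⟩
        linarith)
      (fun E x hE hx => trivial)
      b (m / 2) Γm ε0 em hb (by positivity) hΓ0 hε0.le hε1
      (by
        rw [← hW]
        have h1 : ε0 ^ 2 ≤ ε0 := by
          rw [sq]
          exact mul_le_of_le_one_left hε0.le hε1
        have h2 : 4 * W * ε0 ^ 2 ≤ 4 * W * (em / (8 * W)) := by
          gcongr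
          exact h1.trans hε2
        have h3 : 4 * W * (em / (8 * W)) = em / 2 := by
          field_simp
          ring
        linarith)
      (fun E hE => by
        have h1 := hl E hE
        have h2 := (D01 d hd E).2
        unfold D0 D1 at *
        linarith)
      (fun E hE => hΓ E)
      (ZO v P) (oO v P) (fun p => sym_le v P hP2 p) hsym

/-- the law at the small momenta for all the bulk energies -/
theorem engU_bulk (d : ℕ) (hd : 3 ≤ d) (κ : ℝ) (hκ : 0 < κ) (hκ1 : κ ≤ 1) (b Kp : ℝ) (hb : 0 < b)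
    (hKp : 0 ≤ Kp) :
    EngU d (fun E => |E| ≤ 2 * d - κ) (fun E => GF (F0 d) (E : ℂ)) (fun E => GF (F1 d) (E : ℂ))
      b Kp := by
  have hO := Pool.Agent.W918.BK.Osc.osc
  have hd3 : (3 : ℝ) ≤ d := by exact_mod_cast hd
  obtain ⟨m, hml0, hl⟩ := D_low d hd κ hκ hκ1
  have hQB := Pool.Agent.W465.BK.qb (Pool.Agent.W240.BK.two hO)
  obtain ⟨CQ, hCQ, hdat⟩ := dat3 hQB hO d hd
  exact Pool.Agent.Q218.UD.engineU Pool.Agent.W193.BK.ES.es
      (Pool.Agent.W261.BK.third Pool.Agent.W540.BK.fac)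
      (Pool.Agent.W240.BK.fluct (Pool.Agent.W240.BK.var Pool.Agent.W193.BK.ES.es))
      Pool.Agent.W475.BK.inv Pool.Agent.W975.BK.sup
      Pool.Agent.W475.BK.low Pool.Agent.W790.BK.ADM.adm Pool.Agent.W540.BK.fac
      d (by omega) (fun _ => True)
      (fun _ => True) (fun E => |E| ≤ 2 * d - κ) Pool.Agent.W788.BK.C1 CQ
      (Pool.Agent.TH794.QD.CH d) (fun E => GF (F0 d) (E : ℂ)) (fun E => GF (F1 d) (E : ℂ)) hdat
      Pool.Agent.W788.BK.C1_ge hCQ (CH_nonneg d) 1 one_pos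
      (fun E hE => by
        refine ⟨?_, trivial, fun x hx => trivial⟩
        linarith)
      (fun E x hE hx => trivial)
      b (m / 2) Kp hb (by positivity) hKp
      (fun E hE => by
        have h1 := hl E hE
        have h2 := (D01 d hd E).2
        unfold D0 D1 at *
        linarith)

/-- the mass of the bulk energies -/
theorem bulk_mass (d : ℕ) (hd : 3 ≤ d) (ε : ℝ) (hε : 0 < ε) : ∃ κ0 : ℝ, 0 < κ0 ∧ κ0 ≤ 1 ∧
    ∀ κ : ℝ, 0 < κ → κ ≤ κ0 → 1 - Real.pi⁻¹ * ∫ E in {E : ℝ | |E| ≤ 2 * d - κ}, D0 d E ≤ ε := by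
  have hO := Pool.Agent.W918.BK.Osc.osc
  have c0 : Continuous (D0 d) := Pool.Agent.Q218.AD.gf0_cont hO d hd
  have hd3 : (3 : ℝ) ≤ d := by exact_mod_cast hd
  have hm := Pool.Agent.Q218.AD.dos_mass hO d hd
  have hpi := Real.pi_pos
  obtain ⟨κ0, hκ, hκ1, hκs⟩ := Pool.Agent.Q218.AD.edge_small (X := 2 * (d : ℝ)) (G0 := D0 d) c0 hm
    ε hε
  refine ⟨κ0, hκ, hκ1, fun κ hκ0 hκle => ?_⟩
  have hle : -(2 * (d : ℝ) - κ0) ≤ 2 * (d : ℝ) - κ0 := by linarith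
  have n0 : ∀ E, 0 ≤ D0 d E := fun E => (D01 d hd E).1.trans (D01 d hd E).2
  have i0 := D0_int d hd
  have hsub : Icc (-(2 * (d : ℝ) - κ0)) (2 * (d : ℝ) - κ0) ⊆ {E : ℝ | |E| ≤ 2 * d - κ} := by
    intro E hE
    have h1 : |E| ≤ 2 * (d : ℝ) - κ0 := abs_le.2 hE
    have h2 : |E| ≤ 2 * (d : ℝ) - κ := by linarith
    exact h2
  have h1 : ∫ E in Icc (-(2 * (d : ℝ) - κ0)) (2 * (d : ℝ) - κ0), D0 d E ≤
      ∫ E in {E : ℝ | |E| ≤ 2 * d - κ}, D0 d E :=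
    setIntegral_mono_set i0.integrableOn (Filter.Eventually.of_forall fun E => n0 E)
      hsub.eventuallyLE
  have h4 : ∫ E in Icc (-(2 * (d : ℝ) - κ0)) (2 * (d : ℝ) - κ0), D0 d E =
      ∫ E in (-(2 * (d : ℝ) - κ0))..(2 * (d : ℝ) - κ0), D0 d E := by
    rw [integral_Icc_eq_integral_Ioc, ← intervalIntegral.integral_of_le hle]
  rw [← h4] at hκs
  have h7 := mul_le_mul_of_nonneg_left h1 (inv_pos.2 hpi).le
  linarith

end Pool.Agent.Q218.WE
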