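import Pool.Agent.Q218.WE.TimO
import Pool.Agent.Q218.WE.Free3O
import Pool.Agent.Q218.LE.Fin

/-! The time averages of the correlation kernel. -/

set_option autoImplicit false
set_option linter.unusedSectionVars false

open scoped BigOperators Topology InnerProductSpace
open MeasureTheory Filter Set

namespace Pool.Agent.Q218.WE

open Pool.Agent.H4R2.LO (Zd)
open Pool.Agent.TH794.HK (ph ph_norm)
open Pool.Agent.TH794.QE (Rs)
open Pool.Agent.TH794.QD (Sol La GF F0 F1)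
open Pool.Agent.Q218.AD (small_rpow)
open Pool.Agent.Q218.UD (trc profU var_lim evt free3 D0 D1 D01 D_low D0_int)
open Pool.Agent.Q218.LE (Tail exp_small)

/-- **the time averages at the good sites** -/
theorem difO (hPLA : S_PLA) (hOPN : S_OPN) (d : ℕ) (hd : 3 ≤ d) (κ : ℝ) (hκ : 0 < κ)
    (hκ1 : κ ≤ 1) (Z : Finset (Zd d)) (o : Zd d → ℂ)
    (ho : ∀ p : Fin d → ℝ, ‖∑ w ∈ Z, o w * ph p w‖ ≤ 1)
    (hoc : (fun w => (starRingEnd ℂ) (o w)) = o) (em : ℝ) (hem : 0 < em)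
    (hEng : ∀ b : ℝ, 0 < b → EngO d Z o (fun E => |E| ≤ 2 * d - κ) b (em / 2))
    (m1 : ℝ) (hm1 : 0 < m1)
    (hmass : 1 - Real.pi⁻¹ * ∫ E in {E : ℝ | |E| ≤ 2 * d - κ}, D0 d E ≤ m1)
    (v : ℝ) (hv : 0 < v) (α : ℝ) (hα : 0 < α) :
    ∃ l0 : ℝ, 0 < l0 ∧ ∀ lam : ℝ, 0 < lam → lam ≤ l0 →
    ∀ (μ : Measure ℝ), IsProbabilityMeasure μ → ∀ M mB VB B : ℝ, B = lam ^ (-(1 / 7000) : ℝ) →
    ∫ s, trc M B s ∂μ = mB → ∫ s, (trc M B s - mB) ^ 2 ∂μ = VB → v ≤ B ^ 2 * VB →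
    ∀ T : ℝ, lam ^ (-(2013 / 1000) : ℝ) ≤ T → T ≤ lam ^ (-(2024 / 1000) : ℝ) →
      ∃ G : Set (Zd d → ℝ), MeasurableSet G ∧
        1 - 3 * Real.exp (-lam ^ (-(1 / 102) : ℝ)) ≤
          (Measure.infinitePi fun _ : Zd d => μ).real G ∧
        ∀ ω ∈ G, ∀ a : Zd d, ‖a‖ ≤ Real.exp (lam ^ (-(1 / 102) : ℝ)) →
          (∀ x, ‖x - a‖ ≤ lam ^ (-10 : ℝ) → |ω x - M| ≤ B) →
          ∀ (E0 : ℝ) (ψ : Zd d → ℝ → Zd d → ℂ),
          (∀ b, Sol d (fun x => E0 + lam * ω x) b (ψ b)) → ∀ p : Fin d → ℝ,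
            ‖∫ s in Ioi (0 : ℝ), ((Real.exp (-s) : ℝ) : ℂ) *
              ∑' x : Zd d, ph p (x - a) * kq Z o ψ (s * T) x a‖ ≤
              α / 2 + m1 / α + 2 * (2 * d) / Real.pi * em := by
  have hpi := Real.pi_pos
  have hd1 : 1 ≤ d := by omega
  have hd3 : (3 : ℝ) ≤ d := by exact_mod_cast hd
  obtain ⟨U, hU⟩ : ∃ U : Set ℝ, U = {E : ℝ | |E| ≤ 2 * d - κ} := ⟨_, rfl⟩
  rw [← hU] at hmass
  have hUm : ∀ E, E ∈ U ↔ |E| ≤ 2 * d - κ := fun E => by rw [hU]; rfl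
  have hmU : MeasurableSet U := by
    rw [hU]
    exact measurableSet_le continuous_abs.measurable measurable_const
  have hUI : U ⊆ Icc (-(2 * (d : ℝ))) (2 * d) := by
    intro E hE
    have := (hUm E).1 hE
    exact abs_le.1 (by linarith)
  have hfin : volume (Icc (-(2 * (d : ℝ))) (2 * d)) ≠ ⊤ := by
    rw [Real.volume_Icc]
    exact ENNReal.ofReal_ne_top
  have hUf : volume U ≠ ⊤ := ne_top_of_le_ne_top hfin (measure_mono hUI)
  have hUX : volume.real U ≤ 2 * (2 * d) := by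
    have h1 : volume.real U ≤ volume.real (Icc (-(2 * (d : ℝ))) (2 * d)) := measureReal_mono hUI hfin
    rw [Real.volume_real_Icc_of_le (by linarith)] at h1
    linarith
  obtain ⟨ml, hml, hlow⟩ := D_low d hd κ hκ hκ1
  obtain ⟨l1, hl1, hresU⟩ := profU d (by omega) U (D0 d) (D1 d) (free3 d hd)
    (fun E => GF (F0 d) (E : ℂ)) (fun E => GF (F1 d) (E : ℂ)) (fun E hE => by
      refine ⟨rfl, rfl, ?_⟩
      have h1 := hlow E ((hUm E).1 hE)
      have h2 := (D01 d hd E).2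
      linarith)
    (fun b Kp hb hKp => by
      have h1 := engU_bulk d hd κ hκ hκ1 b Kp hb hKp
      rw [hU]
      exact h1) v 0 hv le_rfl
  obtain ⟨l2, hl2, hresO⟩ := profO d (by omega) Z o U v em hv hem (fun b hb => by
      rw [hoc, hU]
      exact hEng b hb)
  obtain ⟨δ, hδ⟩ : ∃ δ, δ = m1 / (2 * (2 * d) / Real.pi) := ⟨_, rfl⟩
  have hδ0 : 0 < δ := by rw [hδ]; positivity
  obtain ⟨l3, hl3, hs3⟩ := small_rpow (1 / 300) δ (by norm_num) hδ0
  obtain ⟨l4, hl4, hs4⟩ := small_rpow (5 / 10000) (1 / 2) (by norm_num) (by norm_num)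
  obtain ⟨l5, hl5, hs5⟩ := small_rpow (7 / 10000) 1 (by norm_num) (by norm_num)
  refine ⟨min (min l1 l2) (min l3 (min l4 l5)), by positivity, ?_⟩
  intro lam hlam hlam0 μ hμ M mB VB B hB hmB hVB hvB T hT1 hT2
  have b1 : lam ≤ l1 := hlam0.trans ((min_le_left _ _).trans (min_le_left _ _))
  have b2 : lam ≤ l2 := hlam0.trans ((min_le_left _ _).trans (min_le_right _ _))
  have b3 : lam ≤ l3 := hlam0.trans ((min_le_right _ _).trans (min_le_left _ _))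
  have b4 : lam ≤ l4 :=
    hlam0.trans ((min_le_right _ _).trans ((min_le_right _ _).trans (min_le_left _ _)))
  have b5 : lam ≤ l5 :=
    hlam0.trans ((min_le_right _ _).trans ((min_le_right _ _).trans (min_le_right _ _)))
  have hT0 : 0 < T := (Real.rpow_pos_of_pos hlam _).trans_le hT1
  obtain ⟨η, hη⟩ : ∃ η, η = 1 / (2 * T) := ⟨_, rfl⟩
  have hη0 : 0 < η := by rw [hη]; positivity
  obtain ⟨e1, e2⟩ : lam ^ (20245 / 10000 : ℝ) ≤ η ∧ η ≤ lam ^ (20123 / 10000 : ℝ) := by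
    have h1 := Pool.Agent.Q218.UD.eta_range 1 lam T hlam (hs4 lam hlam b4)
      ((hs5 lam hlam b5).trans (by norm_num)) hT1 hT2 0 (by simp)
    simp only [Nat.cast_zero, zero_add] at h1
    rw [hη]
    exact h1
  obtain ⟨G1, hG1, hP1, hL1⟩ := hresU lam hlam b1 μ hμ M mB VB B hB hmB hVB hvB
  obtain ⟨G2, hG2, hP2, hL2⟩ := hresO lam hlam b2 μ hμ M mB VB B hB hmB hVB hvB η e1 e2
  obtain ⟨Pm, hPm⟩ : ∃ Pm : Measure (Zd d → ℝ), Pm = Measure.infinitePi fun _ : Zd d => μ :=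
    ⟨_, rfl⟩
  have hPp : IsProbabilityMeasure Pm := by rw [hPm]; infer_instance
  rw [← hPm] at hP1 hP2 ⊢
  refine ⟨G1 ∩ G2, hG1.inter hG2, ?_, ?_⟩
  · have q0 : (G1 ∩ G2)ᶜ = G1ᶜ ∪ G2ᶜ := Set.compl_inter _ _
    have q1 := probReal_add_probReal_compl (μ := Pm) (hG1.inter hG2)
    have q2 := probReal_add_probReal_compl (μ := Pm) hG1
    have q3 := probReal_add_probReal_compl (μ := Pm) hG2
    have q6 := measureReal_union_le (μ := Pm) G1ᶜ G2ᶜ
    rw [q0] at q1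
    linarith
  intro ω hω a ha hloc E0 ψ hψ p
  obtain ⟨e0, he0⟩ : ∃ e0, e0 = E0 + lam * M + lam * B * mB := ⟨_, rfl⟩
  have hgreen : ∀ (b : Zd d) (e : ℝ),
      Rs d (fun x => E0 + lam * ω x) b e η (fun x => Complex.I * La (ψ b) e η x) := fun b e =>
      ⟨Pool.Agent.TH794.QD.La_sum (hψ b) e η hη0, Pool.Agent.TH794.QD.La_eq (hψ b) e η hη0⟩
  have hnI : ∀ b e x, ‖Complex.I * La (ψ b) e η x‖ ^ 2 = ‖La (ψ b) e η x‖ ^ 2 := by
    intro b e x
    rw [norm_mul, Complex.norm_I, one_mul]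
  have key := timeO hPLA (ψ a) (fun t => cv Z o (sv Z o ψ a t)) (fun x => (hψ a).cont x)
    (fun x => sv_cont hψ Z o a x) (fun t => ⟨((hψ a).norm t).summable, ((hψ a).norm t).tsum_eq⟩)
    (fun t => g_sq hOPN hd1 hψ Z o ho a t) (fun x => ph p (x - a)) (fun x => (ph_norm p (x - a)).le)
    T η hT0 hη (2 * d) e0 δ em α (2 * m1) (D0 d) U hmU hUf hUX hδ0.le hem.le hα (D0_int d hd)
    (fun e he => by
      have h1 := hL1 ω hω.1 a ha hloc E0 e (by rw [← he0]; exact he) η e1 e2 _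
        (hgreen a e) (fun _ => 0) (by
        simp only [ne_eq, OfNat.ofNat_ne_zero, not_false_eq_true, zero_pow,
          Finset.sum_const_zero, zero_mul, le_refl])
      have hph : ∀ x : Zd d, ph (fun _ : Fin d => (0 : ℝ)) x = 1 := by
        intro x
        unfold ph
        simp
      simp only [hph, one_mul, hnI, ne_eq, OfNat.ofNat_ne_zero, not_false_eq_true, zero_pow,
        Finset.sum_const_zero, zero_div, zero_mul, add_zero, div_one, ← he0] at h1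
      rw [← Complex.ofReal_tsum, ← Complex.ofReal_mul, ← Complex.ofReal_sub, Complex.norm_real,
        Real.norm_eq_abs] at h1
      exact h1.trans (hs3 lam hlam b3))
    (fun e he => by
      have h1 := hL2 ω hω.2 a ha hloc E0 e (by rw [← he0]; exact he)
        (fun b x => Complex.I * La (ψ b) e η x) (hgreen a e) (fun z _ => hgreen _ e) p
      have h2 : ∀ x, ph p (x - a) * ((Complex.I * La (ψ a) e η x) *
          (starRingEnd ℂ) (cv Z o (gs Z o (fun b x => Complex.I * La (ψ b) e η x) a) x)) =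
          ph p (x - a) * (La (ψ a) e η x *
            (starRingEnd ℂ) (La (fun t => cv Z o (sv Z o ψ a t)) e η x)) := by
        intro x
        rw [← La_cv hψ Z o a x e η hη0, map_mul, Complex.conj_I]
        congr 1
        have h3 : Complex.I * Complex.I = -1 := Complex.I_mul_I
        linear_combination (-(La (ψ a) e η x *
            (starRingEnd ℂ) (La (fun t => cv Z o (sv Z o ψ a t)) e η x))) * h3
      simp only [h2] at h1
      exact h1)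
    (by
      have h1 : 2 * (2 * (d : ℝ)) / Real.pi * δ = m1 := by
        rw [hδ]
        field_simp
      rw [h1]
      linarith)
  have h1 : α / 2 + 2 * m1 / (2 * α) + 2 * (2 * (d : ℝ)) / Real.pi * em =
      α / 2 + m1 / α + 2 * (2 * d) / Real.pi * em := by
    field_simp
  rw [h1] at key
  exact key

/-- **the event for the starting point zero** -/
theorem evO (hPLA : S_PLA) (hOPN : S_OPN) (d : ℕ) (hd : 3 ≤ d) (κ : ℝ) (hκ : 0 < κ)
    (hκ1 : κ ≤ 1) (Z : Finset (Zd d)) (o : Zd d → ℂ)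
    (ho : ∀ p : Fin d → ℝ, ‖∑ w ∈ Z, o w * ph p w‖ ≤ 1)
    (hoc : (fun w => (starRingEnd ℂ) (o w)) = o) (em : ℝ) (hem : 0 < em)
    (hEng : ∀ b : ℝ, 0 < b → EngO d Z o (fun E => |E| ≤ 2 * d - κ) b (em / 2))
    (m1 : ℝ) (hm1 : 0 < m1)
    (hmass : 1 - Real.pi⁻¹ * ∫ E in {E : ℝ | |E| ≤ 2 * d - κ}, D0 d E ≤ m1) (α : ℝ) (hα : 0 < α)
    (μ : Measure ℝ) [IsProbabilityMeasure μ] (M V : ℝ) (hV0 : 0 < V)
    (h1 : Integrable (fun s => s) μ)
    (h2 : Integrable (fun s => (s - M) ^ 2) μ) (hM : ∫ s, s ∂μ = M)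
    (hV : ∫ s, (s - M) ^ 2 ∂μ = V) (hT : Tail d μ M) (ε : ℝ) (hε : 0 < ε) :
    ∃ l0 : ℝ, 0 < l0 ∧ ∀ lam : ℝ, 0 < lam → lam ≤ l0 →
    ∀ T : ℝ, T = lam ^ (-(2024 / 1000) : ℝ) →
    ∃ G : Set (Zd d → ℝ), MeasurableSet G ∧
      1 - ε ≤ (Measure.infinitePi fun _ : Zd d => μ).real G ∧
      ∀ ω ∈ G, ∀ ψ : Zd d → ℝ → Zd d → ℂ, (∀ b, Sol d (fun x => lam * ω x) b (ψ b)) →
      ∀ p : Fin d → ℝ,
      ‖∫ s in Ioi (0 : ℝ), ((Real.exp (-s) : ℝ) : ℂ) *
        ∑' x : Zd d, ph p x * kq Z o ψ (s * T) x 0‖ ≤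
          α / 2 + m1 / α + 2 * (2 * d) / Real.pi * em := by
  obtain ⟨l1, hl1, hdif⟩ := difO hPLA hOPN d hd κ hκ hκ1 Z o ho hoc em hem hEng m1 hm1 hmass
    (V / 2) (by positivity) α hα
  obtain ⟨l2, hl2, hvar⟩ := var_lim μ M V h1 h2 hM hV (V / 2) (by positivity)
  obtain ⟨l3, hl3, hs3⟩ := exp_small 3 (ε / 2) (by norm_num) (by positivity)
  obtain ⟨l4, hl4, hs4⟩ := hT (ε / 2) (by positivity)
  obtain ⟨l5, hl5, hs5⟩ := small_rpow (11 / 1000) 1 (by norm_num) one_pos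
  refine ⟨min (min l1 l2) (min l3 (min l4 l5)), by positivity, ?_⟩
  intro lam hlam hlam0 T hTd
  have b1 : lam ≤ l1 := hlam0.trans ((min_le_left _ _).trans (min_le_left _ _))
  have b2 : lam ≤ l2 := hlam0.trans ((min_le_left _ _).trans (min_le_right _ _))
  have b3 : lam ≤ l3 := hlam0.trans ((min_le_right _ _).trans (min_le_left _ _))
  have b4 : lam ≤ l4 := hlam0.trans ((min_le_right _ _).trans
    ((min_le_right _ _).trans (min_le_left _ _)))
  have b5 : lam ≤ l5 := hlam0.trans ((min_le_right _ _).trans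
    ((min_le_right _ _).trans (min_le_right _ _)))
  have hT0 : 0 < T := by rw [hTd]; positivity
  have hT1 : lam ^ (-(2013 / 1000) : ℝ) ≤ T := by
    have h3 := hs5 lam hlam b5
    have h4 : lam ^ (-(2013 / 1000) : ℝ) = lam ^ (11 / 1000 : ℝ) * T := by
      rw [hTd, ← Real.rpow_add hlam]
      norm_num
    rw [h4]
    exact mul_le_of_le_one_left hT0.le h3
  obtain ⟨B, hB⟩ : ∃ B, B = lam ^ (-(1 / 7000) : ℝ) := ⟨_, rfl⟩
  have hv := abs_le.1 (hvar lam hlam b2 B hB)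
  obtain ⟨W, hW⟩ : ∃ W, W = B ^ 2 * (∫ s, (trc M B s - ∫ s, trc M B s ∂μ) ^ 2 ∂μ) := ⟨_, rfl⟩
  rw [← hW] at hv
  obtain ⟨G', hG', hP', hL⟩ := hdif lam hlam b1 μ inferInstance M _ _ B hB rfl rfl
    (by rw [← hW]; linarith [hv.1]) T hT1 hTd.le
  have htl : μ.real {s | ¬ |s - M| ≤ B} ≤ μ.real {s | ¬ |s - M| ≤ B} := le_rfl
  obtain ⟨G, hGG', hG, hPG, hbox⟩ := evt (d := d) μ M B G' hG' _ _ hP' htl
    (lam ^ (-10 : ℝ)) (by positivity)
  have h4 := hs4 lam hlam b4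
  rw [← hB] at h4
  have h3 := hs3 lam hlam b3
  refine ⟨G, hG, ?_, fun ω hω ψ hψ p => ?_⟩
  · refine le_trans ?_ hPG
    linarith
  · have key := hL ω (hGG' hω) 0 (by rw [norm_zero]; exact (Real.exp_pos _).le)
      (fun x hx => hbox ω hω x (by rwa [sub_zero] at hx)) 0 ψ (by simpa using hψ) p
    simp only [sub_zero] at key
    exact key

end Pool.Agent.Q218.WE
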