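import Pool.Agent.Q218.WE.Obs
import Pool.Agent.Q218.LE.Det

/-! The deterministic bound for the phase space observable and functions which satisfy the
eigenvalue equation in the interior of a box. -/

set_option autoImplicit false
set_option linter.unusedSectionVars false

open scoped BigOperators Topology InnerProductSpace
open MeasureTheory Filter Set

namespace Pool.Agent.Q218.WE

open Pool.Agent.W788.LD.Spec (S)
open Pool.Agent.H4R2.LO (Zd bx)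
open Pool.Agent.TH794.QD (Sol HS hmk hmk_apply hs_sum)
open Pool.Agent.Q218.AT
open Pool.Agent.Q218.AD (Cw small_rpow hs_inner)
open Pool.Agent.Q218.UD
open Pool.Agent.Q150.WE (vw_inner)
open Pool.Agent.Q218.LE (at_num2)

variable {d : ℕ} {V : Zd d → ℝ} {ψ : Zd d → ℝ → Zd d → ℂ}

/-- one starting point in the interior -/
theorem deep2 (hψ : ∀ a, Sol d V a (ψ a)) (I : Finset (Zd d)) (A : Set (Zd d))
    (hA1 : ∀ w : Zd d, ∀ i : Fin d,
    (¬ (w ∈ I ↔ w + Pi.single i 1 ∈ I) → w + Pi.single i 1 ∈ A) ∧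
    (¬ (w ∈ I ↔ w - Pi.single i 1 ∈ I) → w - Pi.single i 1 ∈ A))
    (hA2 : ∀ z, z ∉ I → z ∈ A) (a : Zd d) (ha : a ∈ I) (T εo : ℝ) (hεo : 0 ≤ εo)
    (hout : ∀ t ∈ Set.Icc (0 : ℝ) T, ∑' z, A.indicator (fun z => ‖ψ a t z‖ ^ 2) z ≤ εo)
    {ι : Type*} (f : ι → HS d) (hf : Orthonormal ℂ f) (E : ι → ℝ)
    (he : ∀ j, ∀ x ∈ I, -S (fun y => f j y) x + (V x : ℂ) * f j x = (E j : ℂ) * f j x)
    (F : Finset ι) (t : ℝ) (ht : t ∈ Set.Icc (0 : ℝ) T) :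
    ∑ j ∈ F, ‖Complex.exp (Complex.I * E j * t) * ⟪f j, uu hψ a t⟫_ℂ -
      (starRingEnd ℂ) (f j a)‖ ^ 2 ≤ 2 * ((2 * d * T) ^ 2 + 1) * εo := by
  have hT0 : 0 ≤ T := ht.1.trans ht.2
  -- the restricted evolution
  have hk : ∀ s ∈ Set.Icc (0 : ℝ) T, ‖uK ψ I a s‖ ≤ 2 * d * Real.sqrt εo := by
    intro s hs
    refine le_of_sq_le_sq ?_ (by positivity)
    rw [mul_pow, Real.sq_sqrt hεo]
    have h1 := hs_sum (uK ψ I a s)
    rw [← h1.tsum_eq]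
    refine (Kr_sq I A hA1 (ψ a s) ((hψ a).norm s).summable).trans ?_
    exact mul_le_mul_of_nonneg_left (hout s hs) (sq_nonneg _)
  have h1 := mv f hf F (fun j => cI I (fun y => f j y) (E j) (ψ a)) E (uK ψ I a)
    (fun j s => by
      rw [uK_inner]
      exact cI_deriv (hψ a) I (fun y => f j y) (hs_sum (f j)).summable (E j) (he j) s)
    (2 * d * Real.sqrt εo) T (by positivity) hk t ht
  have h2 : (2 * d * Real.sqrt εo * t) ^ 2 ≤ (2 * d * T) ^ 2 * εo := by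
    have h3 : (2 * d * Real.sqrt εo * t) ^ 2 = (2 * d * t) ^ 2 * εo := by
      have := Real.sq_sqrt hεo
      calc (2 * d * Real.sqrt εo * t) ^ 2 = (2 * d * t) ^ 2 * (Real.sqrt εo) ^ 2 := by ring
        _ = _ := by rw [this]
    rw [h3]
    refine mul_le_mul_of_nonneg_right ?_ hεo
    refine pow_le_pow_left₀ (by have := ht.1; positivity) ?_ 2
    exact mul_le_mul_of_nonneg_left ht.2 (by positivity)
  -- the rest
  have h3 := hf.sum_inner_products_le (uu hψ a t - uI ψ I a t) (s := F)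
  have h4 := (rest_sq hψ I A hA2 a t).trans (hout t ht)
  obtain ⟨w, hw⟩ : ∃ w : ι → ℂ, w = fun j => Complex.exp (Complex.I * E j * t) := ⟨_, rfl⟩
  have hwj : ∀ j, Complex.exp (Complex.I * E j * t) = w j := fun j => by rw [hw]
  simp only [hwj]
  have hw1 : ∀ j, ‖w j‖ = 1 := by
    intro j
    rw [hw]
    simp only
    have h2 : Complex.I * (E j : ℂ) * (t : ℂ) = ((E j * t : ℝ) : ℂ) * Complex.I := by
      push_cast
      ring
    rw [h2, Complex.norm_exp_ofReal_mul_I]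
  have h5 : ∀ j, cI I (fun y => f j y) (E j) (ψ a) t = w j * ⟪f j, uI ψ I a t⟫_ℂ := by
    intro j
    rw [uI_inner, hw]
    rfl
  have h6 : ∀ j, cI I (fun y => f j y) (E j) (ψ a) 0 = (starRingEnd ℂ) (f j a) := by
    intro j
    unfold cI
    rw [Complex.ofReal_zero, mul_zero, Complex.exp_zero, one_mul,
      Finset.sum_eq_single_of_mem a ha]
    · rw [(hψ a).init, if_pos rfl, mul_one]
    · intro z _ hz
      rw [(hψ a).init, if_neg hz, mul_zero]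
  have h7 : ∀ j ∈ F, ‖w j * ⟪f j, uu hψ a t⟫_ℂ - (starRingEnd ℂ) (f j a)‖ ^ 2 ≤
      2 * ‖cI I (fun y => f j y) (E j) (ψ a) t - cI I (fun y => f j y) (E j) (ψ a) 0‖ ^ 2 +
      2 * ‖⟪f j, uu hψ a t - uI ψ I a t⟫_ℂ‖ ^ 2 := by
    intro j _
    have h8 : w j * ⟪f j, uu hψ a t⟫_ℂ - (starRingEnd ℂ) (f j a) =
        (cI I (fun y => f j y) (E j) (ψ a) t - cI I (fun y => f j y) (E j) (ψ a) 0) +
        w j * ⟪f j, uu hψ a t - uI ψ I a t⟫_ℂ := by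
      rw [h5, h6, inner_sub_right]
      ring
    rw [h8]
    have h9 := norm_add_le (cI I (fun y => f j y) (E j) (ψ a) t -
      cI I (fun y => f j y) (E j) (ψ a) 0) (w j * ⟪f j, uu hψ a t - uI ψ I a t⟫_ℂ)
    rw [norm_mul (w j), hw1, one_mul] at h9
    have h10 := pow_le_pow_left₀ (norm_nonneg _) h9 2
    refine h10.trans (sq_help2 _ _)
  refine (Finset.sum_le_sum h7).trans ?_
  rw [Finset.sum_add_distrib, ← Finset.mul_sum, ← Finset.mul_sum]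
  linarith

/-- the values at one point -/
theorem pt_le {ι : Type*} (f : ι → HS d) (hf : Orthonormal ℂ f) (F : Finset ι) (a : Zd d) :
    ∑ j ∈ F, ‖f j a‖ ^ 2 ≤ 1 := by
  have h7 := hf.sum_inner_products_le (dl a) (s := F)
  have h8 : ∀ j, ‖⟪f j, dl a⟫_ℂ‖ = ‖f j a‖ := fun j => by
    rw [norm_inner_symm, dl_inner]
  have h9 : ‖dl a‖ ^ 2 = 1 := (hs_sum (dl a)).unique (dl_sum a)
  simp only [h8] at h7
  rw [h9] at h7
  exact h7

theorem in_le (hψ : ∀ a, Sol d V a (ψ a)) {ι : Type*} (f : ι → HS d) (hf : Orthonormal ℂ f)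
    (F : Finset ι) (a : Zd d) (t : ℝ) : ∑ j ∈ F, ‖⟪f j, uu hψ a t⟫_ℂ‖ ^ 2 ≤ 1 := by
  have h4 := hf.sum_inner_products_le (uu hψ a t) (s := F)
  rw [uu_sq] at h4
  exact h4

/-- products of close vectors -/
theorem prod_diff {ι : Type*} (F : Finset ι) (α β α' β' : ι → ℂ) (δ2 : ℝ)
    (h1 : ∑ j ∈ F, ‖α j - α' j‖ ^ 2 ≤ δ2) (h2 : ∑ j ∈ F, ‖β j - β' j‖ ^ 2 ≤ δ2)
    (h3 : ∑ j ∈ F, ‖β j‖ ^ 2 ≤ 1) (h4 : ∑ j ∈ F, ‖α' j‖ ^ 2 ≤ 1) :
    ∑ j ∈ F, ‖α j * (starRingEnd ℂ) (β j) - α' j * (starRingEnd ℂ) (β' j)‖ ≤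
      2 * Real.sqrt δ2 := by
  have hδ : 0 ≤ δ2 := le_trans (Finset.sum_nonneg fun j _ => sq_nonneg _) h1
  have hs : Real.sqrt δ2 ^ 2 = δ2 := Real.sq_sqrt hδ
  have h5 : ∀ j ∈ F, ‖α j * (starRingEnd ℂ) (β j) - α' j * (starRingEnd ℂ) (β' j)‖ ≤
      ‖α j - α' j‖ * ‖β j‖ + ‖α' j‖ * ‖β j - β' j‖ := by
    intro j _
    have e1 : α j * (starRingEnd ℂ) (β j) - α' j * (starRingEnd ℂ) (β' j) =
        (α j - α' j) * (starRingEnd ℂ) (β j) + α' j * (starRingEnd ℂ) (β j - β' j) := by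
      rw [map_sub]
      ring
    rw [e1]
    refine (norm_add_le _ _).trans ?_
    rw [norm_mul, norm_mul, Complex.norm_conj, Complex.norm_conj]
  refine (Finset.sum_le_sum h5).trans ?_
  rw [Finset.sum_add_distrib]
  have h6 := cs_sum F (fun j => ‖α j - α' j‖) (fun j => ‖β j‖) (Real.sqrt δ2) 1
    (Real.sqrt_nonneg _) zero_le_one (by rw [hs]; exact h1) (by rw [one_pow]; exact h3)
  have h7 := cs_sum F (fun j => ‖α' j‖) (fun j => ‖β j - β' j‖) 1 (Real.sqrt δ2)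
    zero_le_one (Real.sqrt_nonneg _) (by rw [one_pow]; exact h4) (by rw [hs]; exact h2)
  linarith

/-- the difference of the weights -/
noncomputable def Do (hψ : ∀ a, Sol d V a (ψ a)) (Z : Finset (Zd d)) (o : Zd d → ℂ)
    (Λ : Finset (Zd d)) (g : HS d) (t : ℝ) : ℝ :=
  ∑ x ∈ Λ, ∑ w ∈ Z, ‖o w‖ * ‖⟪g, uu hψ x t⟫_ℂ * (starRingEnd ℂ) ⟪g, uu hψ (x + w) t⟫_ℂ -
    (starRingEnd ℂ) (g x) * g (x + w)‖

theorem cs_le {ι : Type*} (Λ : Finset ι) (p q : ι → ℂ) (h1 : ∑ x ∈ Λ, ‖p x‖ ^ 2 ≤ 1)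
    (h2 : ∑ x ∈ Λ, ‖q x‖ ^ 2 ≤ 1) : ∑ x ∈ Λ, ‖p x * q x‖ ≤ 1 := by
  have h := cs_sum Λ (fun x => ‖p x‖) (fun x => ‖q x‖) 1 1 zero_le_one zero_le_one
    (by rw [one_pow]; exact h1) (by rw [one_pow]; exact h2)
  simp only [norm_mul]
  linarith

theorem sh_le (Λ : Finset (Zd d)) (w : Zd d) (p : Zd d → ℝ) (h0 : ∀ x, 0 ≤ p x)
    (hp : ∀ s : Finset (Zd d), ∑ x ∈ s, p x ≤ 1) : ∑ x ∈ Λ, p (x + w) ≤ 1 := by
  have h1 := hp (Λ.map (addRightEmbedding w))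
  rw [Finset.sum_map] at h1
  exact h1

theorem Do_le (hd : 1 ≤ d) (hψ : ∀ a, Sol d V a (ψ a)) (Z : Finset (Zd d)) (o : Zd d → ℂ)
    (Λ : Finset (Zd d)) (g : HS d) (hg : ‖g‖ = 1) (t : ℝ) :
    0 ≤ Do hψ Z o Λ g t ∧ Do hψ Z o Λ g t ≤ 2 * ∑ w ∈ Z, ‖o w‖ := by
  unfold Do
  refine ⟨Finset.sum_nonneg fun x _ => Finset.sum_nonneg fun w _ =>
    mul_nonneg (norm_nonneg _) (norm_nonneg _), ?_⟩
  rw [Finset.sum_comm, Finset.mul_sum]
  refine Finset.sum_le_sum fun w _ => ?_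
  rw [← Finset.mul_sum, mul_comm 2]
  refine mul_le_mul_of_nonneg_left ?_ (norm_nonneg _)
  refine (Finset.sum_le_sum fun x _ => norm_sub_le _ _).trans ?_
  rw [Finset.sum_add_distrib]
  have h1 := cs_le Λ (fun x => ⟪g, uu hψ x t⟫_ℂ) (fun x => (starRingEnd ℂ) ⟪g, uu hψ (x + w) t⟫_ℂ)
    (gu_le hd hψ Λ g hg t) (by
      simp only [Complex.norm_conj]
      exact sh_le Λ w (fun x => ‖⟪g, uu hψ x t⟫_ℂ‖ ^ 2) (fun x => sq_nonneg _)
        fun s => gu_le hd hψ s g hg t)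
  have h2 := cs_le Λ (fun x => (starRingEnd ℂ) (g x)) (fun x => g (x + w))
    (by
      simp only [Complex.norm_conj]
      exact gx_le Λ g hg) (sh_le Λ w (fun x => ‖g x‖ ^ 2) (fun x => sq_nonneg _)
        fun s => gx_le s g hg)
  linarith

theorem in_cont (hd : 1 ≤ d) (hψ : ∀ a, Sol d V a (ψ a)) (g : HS d) (x y : Zd d) :
    Continuous fun t => ⟪g, uu hψ x t⟫_ℂ * (starRingEnd ℂ) ⟪g, uu hψ y t⟫_ℂ := by
  have h1 : ∀ t, ⟪g, uu hψ x t⟫_ℂ * (starRingEnd ℂ) ⟪g, uu hψ y t⟫_ℂ =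
      ⟪vw g g, vw (uu hψ x t) (uu hψ y t)⟫_ℂ := fun t => (vw_inner _ _ _ _).symm
  simp only [h1]
  exact continuous_const.inner (vw_cont hd hψ x y)

theorem Do_cont (hd : 1 ≤ d) (hψ : ∀ a, Sol d V a (ψ a)) (Z : Finset (Zd d)) (o : Zd d → ℂ)
    (Λ : Finset (Zd d)) (g : HS d) : Continuous (Do hψ Z o Λ g) := by
  unfold Do
  exact continuous_finsetSum _ fun x _ => continuous_finsetSum _ fun w _ =>
    continuous_const.mul ((in_cont hd hψ g x (x + w)).sub continuous_const).norm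

/-- the sum over the family -/
theorem Do_sum (hψ : ∀ a, Sol d V a (ψ a)) (Z : Finset (Zd d)) (o : Zd d → ℂ)
    (Λ Λ' : Finset (Zd d)) (hΛ : Λ' ⊆ Λ)
    {ι : Type*} (f : ι → HS d) (hf : Orthonormal ℂ f) (F : Finset ι) (t δ : ℝ) (hδ : 0 ≤ δ)
    (hdeep : ∀ a ∈ Λ', ∀ w ∈ Z, ∑ j ∈ F, ‖⟪f j, uu hψ a t⟫_ℂ *
      (starRingEnd ℂ) ⟪f j, uu hψ (a + w) t⟫_ℂ - (starRingEnd ℂ) (f j a) * f j (a + w)‖ ≤ δ) :
    ∑ j ∈ F, Do hψ Z o Λ (f j) t ≤
      (∑ w ∈ Z, ‖o w‖) * (δ * Λ.card + 2 * ((Λ \ Λ').card : ℝ)) := by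
  obtain ⟨Q, hQ⟩ : ∃ Q : ι → Zd d → Zd d → ℝ, Q = fun j x w => ‖⟪f j, uu hψ x t⟫_ℂ *
      (starRingEnd ℂ) ⟪f j, uu hψ (x + w) t⟫_ℂ - (starRingEnd ℂ) (f j x) * f j (x + w)‖ :=
    ⟨_, rfl⟩
  have hQj : ∀ j x w, ‖⟪f j, uu hψ x t⟫_ℂ *
      (starRingEnd ℂ) ⟪f j, uu hψ (x + w) t⟫_ℂ - (starRingEnd ℂ) (f j x) * f j (x + w)‖ =
      Q j x w := fun j x w => by rw [hQ]
  unfold Do
  simp only [hQj] at hdeep ⊢
  have e1 : ∑ j ∈ F, ∑ x ∈ Λ, ∑ w ∈ Z, ‖o w‖ * Q j x w =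
      ∑ w ∈ Z, ‖o w‖ * ∑ x ∈ Λ, ∑ j ∈ F, Q j x w := by
    rw [Finset.sum_comm]
    simp only [Finset.mul_sum]
    rw [Finset.sum_comm' (s := Z) (t := fun _ => Λ) (t' := Λ) (s' := fun _ => Z) (by tauto)]
    refine Finset.sum_congr rfl fun x _ => ?_
    rw [Finset.sum_comm]
  rw [e1, Finset.sum_mul]
  refine Finset.sum_le_sum fun w hw => ?_
  refine mul_le_mul_of_nonneg_left ?_ (norm_nonneg _)
  rw [← Finset.sum_sdiff hΛ]
  have h1 : ∑ x ∈ Λ \ Λ', ∑ j ∈ F, Q j x w ≤ 2 * ((Λ \ Λ').card : ℝ) := by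
    have h2 : ∀ x ∈ Λ \ Λ', ∑ j ∈ F, Q j x w ≤ 2 := by
      intro x _
      rw [hQ]
      refine (Finset.sum_le_sum fun j _ => norm_sub_le _ _).trans ?_
      rw [Finset.sum_add_distrib]
      have h3 := cs_le F (fun j => ⟪f j, uu hψ x t⟫_ℂ)
        (fun j => (starRingEnd ℂ) ⟪f j, uu hψ (x + w) t⟫_ℂ) (in_le hψ f hf F x t) (by
          simp only [Complex.norm_conj]
          exact in_le hψ f hf F (x + w) t)
      have h4 := cs_le F (fun j => (starRingEnd ℂ) (f j x)) (fun j => f j (x + w)) (by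
          simp only [Complex.norm_conj]
          exact pt_le f hf F x) (pt_le f hf F (x + w))
      linarith
    refine (Finset.sum_le_sum h2).trans (le_of_eq ?_)
    rw [Finset.sum_const, nsmul_eq_mul, mul_comm]
  have h2 : ∑ x ∈ Λ', ∑ j ∈ F, Q j x w ≤ δ * Λ.card := by
    refine (Finset.sum_le_sum fun x hx => hdeep x hx w hw).trans ?_
    rw [Finset.sum_const, nsmul_eq_mul, mul_comm]
    refine mul_le_mul_of_nonneg_left ?_ hδ
    exact_mod_cast Finset.card_le_card hΛ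
  linarith

/-- **the Bessel inequality for approximate eigenfunctions** -/
theorem Bo_app (hd : 1 ≤ d) (hψ : ∀ a, Sol d V a (ψ a)) (Z : Finset (Zd d)) (o : Zd d → ℂ)
    (Λ : Finset (Zd d)) (c : Zd d → ℂ)
    (hc : ∀ x, ‖c x‖ ≤ 1) {ι : Type*} (f : ι → HS d) (hf : Orthonormal ℂ f) (T B N : ℝ)
    (hN : ∑ w ∈ Z, ‖o w‖ ≤ N)
    (hT : 0 ≤ T) (F : Finset ι) (hB : ∀ t ∈ Set.Icc (0 : ℝ) T, ∑ j ∈ F, Do hψ Z o Λ (f j) t ≤ B) :
    ∑ j ∈ F, ‖∑ x ∈ Λ, c x * ((starRingEnd ℂ) (f j x) * cv Z o (fun y => f j y) x)‖ ^ 2 ≤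
      2 * ‖Bm (Bo hψ Z o Λ c) T‖ ^ 2 + 4 * N * B := by
  have hN0 : 0 ≤ N := (Finset.sum_nonneg fun w _ => norm_nonneg _).trans hN
  have hOc : Continuous fun s => Bo hψ Z o Λ c (s * T) := (Bo_cont hd hψ Z o Λ c).comp (by fun_prop)
  have hDc : ∀ j, Continuous fun s => Do hψ Z o Λ (f j) (s * T) := fun j =>
    (Do_cont hd hψ Z o Λ (f j)).comp (by fun_prop)
  have h1 : ∀ j, ⟪vv (f j), Bm (Bo hψ Z o Λ c) T⟫_ℂ =
      ∫ s in (0 : ℝ)..1, ⟪vv (f j), Bo hψ Z o Λ c (s * T)⟫_ℂ := by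
    intro j
    unfold Bm
    exact inner_int _ hOc 0 1 zero_le_one _
  have hvv : ∀ (j : ι) (a b : HS d), ⟪vv (f j), vw a b⟫_ℂ =
      ⟪f j, a⟫_ℂ * (starRingEnd ℂ) ⟪f j, b⟫_ℂ := fun j a b => vw_inner (f j) (f j) a b
  have h2 : ∀ j t, ‖⟪vv (f j), Bo hψ Z o Λ c t⟫_ℂ -
      ∑ x ∈ Λ, c x * ((starRingEnd ℂ) (f j x) * cv Z o (fun y => f j y) x)‖ ≤
      Do hψ Z o Λ (f j) t := by
    intro j t
    unfold Bo Do
    rw [inner_sum, ← Finset.sum_sub_distrib]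
    refine (norm_sum_le _ _).trans (Finset.sum_le_sum fun x _ => ?_)
    rw [inner_smul_right, ← mul_sub, norm_mul]
    refine (mul_le_of_le_one_left (norm_nonneg _) (hc x)).trans ?_
    unfold cv
    rw [inner_sum, Finset.mul_sum, ← Finset.sum_sub_distrib]
    refine (norm_sum_le _ _).trans (Finset.sum_le_sum fun w _ => le_of_eq ?_)
    rw [inner_smul_right, hvv, ← norm_mul]
    congr 1
    ring
  have h3 : ∀ j, ‖∑ x ∈ Λ, c x * ((starRingEnd ℂ) (f j x) * cv Z o (fun y => f j y) x)‖ ≤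
      ‖⟪vv (f j), Bm (Bo hψ Z o Λ c) T⟫_ℂ‖ + ∫ s in (0 : ℝ)..1, Do hψ Z o Λ (f j) (s * T) := by
    intro j
    obtain ⟨q, hq⟩ : ∃ q, q = ∑ x ∈ Λ, c x * ((starRingEnd ℂ) (f j x) *
      cv Z o (fun y => f j y) x) := ⟨_, rfl⟩
    have hPc : Continuous fun s => ⟪vv (f j), Bo hψ Z o Λ c (s * T)⟫_ℂ := continuous_const.inner hOc
    have h4 : ‖(∫ s in (0 : ℝ)..1, ⟪vv (f j), Bo hψ Z o Λ c (s * T)⟫_ℂ) - q‖ ≤
        ∫ s in (0 : ℝ)..1, Do hψ Z o Λ (f j) (s * T) := by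
      have h5 : (∫ s in (0 : ℝ)..1, ⟪vv (f j), Bo hψ Z o Λ c (s * T)⟫_ℂ) - q =
          ∫ s in (0 : ℝ)..1, (⟪vv (f j), Bo hψ Z o Λ c (s * T)⟫_ℂ - q) := by
        rw [intervalIntegral.integral_sub (hPc.intervalIntegrable _ _)
          (continuous_const.intervalIntegrable _ _)]
        simp
      rw [h5]
      refine intervalIntegral.norm_integral_le_of_norm_le zero_le_one
        (Filter.Eventually.of_forall fun s _ => ?_) ((hDc j).intervalIntegrable _ _)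
      rw [hq]
      exact h2 j (s * T)
    rw [h1, ← hq]
    have h5 := norm_sub_rev (∫ s in (0 : ℝ)..1, ⟪vv (f j), Bo hψ Z o Λ c (s * T)⟫_ℂ) q
    have h6 := norm_le_norm_sub_add q (∫ s in (0 : ℝ)..1, ⟪vv (f j), Bo hψ Z o Λ c (s * T)⟫_ℂ)
    linarith
  have h4 : ∀ j, 0 ≤ ∫ s in (0 : ℝ)..1, Do hψ Z o Λ (f j) (s * T) := fun j =>
    intervalIntegral.integral_nonneg zero_le_one fun s _ => (Do_le hd hψ Z o Λ (f j) (hf.1 j) _).1
  have h5 : ∀ j, ∫ s in (0 : ℝ)..1, Do hψ Z o Λ (f j) (s * T) ≤ 2 * N := by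
    intro j
    have h6 := intervalIntegral.integral_mono_on (a := 0) (b := 1) zero_le_one
      ((hDc j).intervalIntegrable _ _)
      (continuous_const.intervalIntegrable (μ := volume) (0 : ℝ) (1 : ℝ))
      (fun s _ => (Do_le hd hψ Z o Λ (f j) (hf.1 j) (s * T)).2)
    refine h6.trans ?_
    simp only [intervalIntegral.integral_const, sub_zero, one_smul]
    linarith
  have h6 : ∀ j ∈ F, ‖∑ x ∈ Λ, c x * ((starRingEnd ℂ) (f j x) *
      cv Z o (fun y => f j y) x)‖ ^ 2 ≤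
      2 * ‖⟪vv (f j), Bm (Bo hψ Z o Λ c) T⟫_ℂ‖ ^ 2 +
        4 * N * ∫ s in (0 : ℝ)..1, Do hψ Z o Λ (f j) (s * T) := by
    intro j _
    have h7 := pow_le_pow_left₀ (norm_nonneg _) (h3 j) 2
    have h8 := sq_help2 ‖⟪vv (f j), Bm (Bo hψ Z o Λ c) T⟫_ℂ‖
      (∫ s in (0 : ℝ)..1, Do hψ Z o Λ (f j) (s * T))
    have h9 : (∫ s in (0 : ℝ)..1, Do hψ Z o Λ (f j) (s * T)) ^ 2 ≤
        2 * N * ∫ s in (0 : ℝ)..1, Do hψ Z o Λ (f j) (s * T) := by
      rw [sq]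
      exact mul_le_mul_of_nonneg_right (h5 j) (h4 j)
    linarith
  refine (Finset.sum_le_sum h6).trans ?_
  rw [Finset.sum_add_distrib, ← Finset.mul_sum, ← Finset.mul_sum]
  have h7 := (vv_ortho f hf).sum_inner_products_le (Bm (Bo hψ Z o Λ c) T) (s := F)
  have h8 : ∑ j ∈ F, ∫ s in (0 : ℝ)..1, Do hψ Z o Λ (f j) (s * T) ≤ B := by
    rw [← intervalIntegral.integral_finsetSum fun j _ => (hDc j).intervalIntegrable _ _]
    have h9 := intervalIntegral.integral_mono_on (a := 0) (b := 1) zero_le_one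
      ((continuous_finsetSum F fun j _ => hDc j).intervalIntegrable _ _)
      (continuous_const.intervalIntegrable (μ := volume) (0 : ℝ) (1 : ℝ))
      (fun s hs => hB (s * T) ⟨mul_nonneg hs.1 hT, mul_le_of_le_one_left hT hs.2⟩)
    refine h9.trans (le_of_eq ?_)
    simp
  have h9 : 4 * N * ∑ j ∈ F, ∫ s in (0 : ℝ)..1, Do hψ Z o Λ (f j) (s * T) ≤ 4 * N * B :=
    mul_le_mul_of_nonneg_left h8 (by positivity)
  linarith

/-- **the deterministic bound** -/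
theorem detO (hd : 1 ≤ d) (Z : Finset (Zd d)) (o : Zd d → ℂ) (ε : ℝ) (hε : 0 < ε) :
    ∃ l0 : ℝ, 0 < l0 ∧ ∀ lam : ℝ, 0 < lam → lam ≤ l0 →
    ∀ (W : Zd d → ℝ) (ψ : Zd d → ℝ → Zd d → ℂ)
    (hψ : ∀ a, Sol d W a (ψ a)) (b : Zd d) (L : ℕ), lam ^ (-(21 / 10) : ℝ) ≤ L →
    ∀ T : ℝ, T = lam ^ (-(2024 / 1000) : ℝ) → ∀ c : Zd d → ℂ, (∀ x, ‖c x‖ ≤ 1) →
    ∀ (J : Type) (f : J → HS d), Orthonormal ℂ f → ∀ (E : J → ℝ),
      (∀ j x, ‖x - b‖ < L → -S (fun y => f j y) x + (W x : ℂ) * f j x = (E j : ℂ) * f j x) →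
      ∀ s : Finset J, ∑ j ∈ s, ‖∑ x ∈ bx b L, c x * ((starRingEnd ℂ) (f j x) *
          cv Z o (fun y => f j y) x)‖ ^ 2 ≤
        2 * ‖Bm (Bo hψ Z o (bx b L) c) T‖ ^ 2 + ε * (bx b L).card := by
  obtain ⟨N, hN⟩ : ∃ N, N = (∑ w ∈ Z, ‖o w‖) + 1 := ⟨_, rfl⟩
  have hN0' : 0 ≤ ∑ w ∈ Z, ‖o w‖ := Finset.sum_nonneg fun w _ => norm_nonneg _
  have hN1 : 1 ≤ N := by linarith
  obtain ⟨R0, hR0⟩ : ∃ R0 : ℕ, ∀ w ∈ Z, ‖w‖ ≤ R0 := by
    refine ⟨⌈∑ w ∈ Z, ‖w‖⌉₊, fun w hw => ?_⟩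
    have h1 := Finset.single_le_sum (f := fun w : Zd d => ‖w‖) (fun _ _ => norm_nonneg _) hw
    exact h1.trans (Nat.le_ceil _)
  obtain ⟨ε1, hε1⟩ : ∃ ε1, ε1 = min (ε / N ^ 2) 1 / 8 := ⟨_, rfl⟩
  have hε10 : 0 < ε1 := by rw [hε1]; positivity
  have hε1e : ε1 ≤ ε / N ^ 2 / 8 := by
    rw [hε1]
    have := min_le_left (ε / N ^ 2) 1
    linarith
  have hε11 : ε1 ≤ 1 / 8 := by
    rw [hε1]
    have := min_le_right (ε / N ^ 2) 1
    linarith
  obtain ⟨T2, hT2⟩ := vol_num d (ε1 / 8) (by positivity)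
  obtain ⟨l1, hl1, hs1⟩ := at_num2 d hd (ε1 / 32) (by positivity)
  obtain ⟨l2, hl2, hs2⟩ := small_rpow (2024 / 1000) (1 / (max T2 (R0 + 1))) (by norm_num)
    (by positivity)
  refine ⟨min l1 (min l2 1), by positivity, ?_⟩
  intro lam hlam hlam0 W ψ hψ b L hL T hT c hc J f hf E he F
  have b1 : lam ≤ l1 := hlam0.trans (min_le_left _ _)
  have b2 : lam ≤ l2 := hlam0.trans ((min_le_right _ _).trans (min_le_left _ _))
  have b3 : lam ≤ 1 := hlam0.trans ((min_le_right _ _).trans (min_le_right _ _))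
  have hT0 : 0 < T := by rw [hT]; positivity
  obtain ⟨m, hmL, hmT, hm1⟩ := hs1 lam hlam b1 T hT L hL
  have hd1 : (1 : ℝ) ≤ d := by exact_mod_cast hd
  have hCw : 0 ≤ Cw d := by unfold Cw; positivity
  obtain ⟨εo, hεo⟩ : ∃ εo, εo = Cw d * 2 ^ (d + 1) * Real.exp (-(T / 2)) := ⟨_, rfl⟩
  have hεo0 : 0 ≤ εo := by rw [hεo]; positivity
  rw [← hεo] at hm1
  have hTmax : max T2 (R0 + 1) ≤ T := by
    have h1 := hs2 lam hlam b2
    have h2 : lam ^ (2024 / 1000 : ℝ) = T⁻¹ := by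
      rw [hT, Real.rpow_neg hlam.le, inv_inv]
    rw [h2, one_div] at h1
    exact (inv_le_inv₀ hT0 (by positivity)).1 h1
  have hT2' : T2 ≤ T := (le_max_left _ _).trans hTmax
  have hTR : (R0 : ℝ) + 1 ≤ T := (le_max_right _ _).trans hTmax
  have hδ := hT2 T hT2'
  rw [← hεo] at hδ
  obtain ⟨δ, hδd⟩ : ∃ δ, δ = 2 * Real.sqrt (2 * ((2 * d * T) ^ 2 + 1) * εo) := ⟨_, rfl⟩
  have hδ0 : 0 ≤ δ := by rw [hδd]; positivity
  rw [← hδd] at hδ
  -- the boundary layer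
  have hL0 : (0 : ℝ) < 2 * L + 1 := by positivity
  have hm0 : (0 : ℝ) ≤ m := Nat.cast_nonneg m
  have hmR : (R0 : ℝ) + 1 ≤ m := by
    refine le_trans ?_ hmT
    have h1 : T ≤ 12 * d * T := by
      have : 1 ≤ 12 * (d : ℝ) := by linarith
      exact le_mul_of_one_le_left hT0.le this
    linarith
  have hmpos : (1 : ℝ) ≤ m := by
    have : (0 : ℝ) ≤ R0 := Nat.cast_nonneg _
    linarith
  have hz : (d : ℝ) * (2 * m / (2 * L + 1)) ≤ ε1 / 32 := by linarith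
  have hz2 : 2 * (m : ℝ) / (2 * L + 1) ≤ 1 / 256 := by
    have h1 : 2 * (m : ℝ) / (2 * L + 1) ≤ d * (2 * m / (2 * L + 1)) :=
      le_mul_of_one_le_left (by positivity) hd1
    linarith
  have hmL3 : m + 2 + R0 ≤ L := by
    rw [div_le_iff₀ hL0] at hz2
    have h1 : ((m + 2 + R0 : ℕ) : ℝ) ≤ L := by
      push_cast
      linarith
    exact_mod_cast h1
  have hL1 : 1 ≤ L := by omega
  have hm2 : ((m + 2 + R0 : ℕ) : ℝ) ≤ 4 * m := by
    push_cast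
    linarith
  have hbd : ((bx b L \ bx b (L - (m + 2 + R0))).card : ℝ) ≤ ε1 / 8 * (bx b L).card := by
    refine (bx_sdiff b L (m + 2 + R0) hmL3).trans ?_
    refine mul_le_mul_of_nonneg_right ?_ (Nat.cast_nonneg _)
    calc (d : ℝ) * (2 * ((m + 2 + R0 : ℕ) : ℝ) / (2 * L + 1)) ≤
          d * (2 * (4 * m) / (2 * L + 1)) := by gcongr
      _ = 4 * (d * (2 * m / (2 * L + 1))) := by ring
      _ ≤ 4 * (ε1 / 32) := by linarith
      _ = ε1 / 8 := by ring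
  obtain ⟨g1, g2⟩ := geo b L hL1
  have hcL : ((L - 1 : ℕ) : ℝ) = L - 1 := by push_cast [Nat.cast_sub hL1]; rfl
  have hcm : ((L - (m + 2 + R0) : ℕ) : ℝ) = L - (m + 2 + R0) := by
    push_cast [Nat.cast_sub hmL3]
    rfl
  have hone : ∀ t ∈ Set.Icc (0 : ℝ) T, ∀ a : Zd d, ‖a - b‖ ≤ L - (m + 2) →
      ∑ j ∈ F, ‖Complex.exp (Complex.I * E j * t) * ⟪f j, uu hψ a t⟫_ℂ -
      (starRingEnd ℂ) (f j a)‖ ^ 2 ≤ 2 * ((2 * d * T) ^ 2 + 1) * εo := by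
    intro t ht a ha
    refine deep2 hψ (bx b (L - 1)) {z : Zd d | (L : ℝ) - 2 ≤ ‖z - b‖} g1 g2 a ?_ T εo hεo0 ?_
      f hf E ?_ F t ht
    · rw [mem_bx', hcL]
      linarith
    · intro r hr
      rw [hεo]
      refine out_small hd (hψ a) T hT0 m hmT r ?_ _ fun z hz => ?_
      · rw [abs_of_nonneg hr.1]
        exact hr.2
      · have h2 : (L : ℝ) - 2 ≤ ‖z - b‖ := hz
        have h3 := norm_sub_le_norm_sub_add_norm_sub z a b
        linarith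
    · intro j x hx
      rw [mem_bx', hcL] at hx
      exact he j x (by linarith)
  have hD : ∀ t ∈ Set.Icc (0 : ℝ) T, ∑ j ∈ F, Do hψ Z o (bx b L) (f j) t ≤
      N * ((δ + ε1 / 4) * (bx b L).card) := by
    intro t ht
    have h1 := Do_sum hψ Z o (bx b L) (bx b (L - (m + 2 + R0))) (bx_sub b L (m + 2 + R0)) f hf F t
      δ hδ0 (fun a ha w hw => by
        rw [mem_bx', hcm] at ha
        have hR := hR0 w hw
        have hR00 : (0 : ℝ) ≤ R0 := Nat.cast_nonneg _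
        have k1 := hone t ht a (by linarith)
        have k2 := hone t ht (a + w) (by
          have h2 : a + w - b = (a - b) + w := by abel
          rw [h2]
          refine (norm_add_le _ _).trans ?_
          linarith)
        have hE1 : ∀ j, ‖Complex.exp (Complex.I * E j * t)‖ = 1 := by
          intro j
          have h2 : Complex.I * (E j : ℂ) * (t : ℂ) = ((E j * t : ℝ) : ℂ) * Complex.I := by
            push_cast
            ring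
          rw [h2, Complex.norm_exp_ofReal_mul_I]
        have k3 := prod_diff F (fun j => Complex.exp (Complex.I * E j * t) * ⟪f j, uu hψ a t⟫_ℂ)
          (fun j => Complex.exp (Complex.I * E j * t) * ⟪f j, uu hψ (a + w) t⟫_ℂ)
          (fun j => (starRingEnd ℂ) (f j a)) (fun j => (starRingEnd ℂ) (f j (a + w))) _ k1 k2
          (by
            simp only [norm_mul, hE1, one_mul]
            exact in_le hψ f hf F (a + w) t)
          (by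
            simp only [Complex.norm_conj]
            exact pt_le f hf F a)
        rw [← hδd] at k3
        refine le_trans (le_of_eq ?_) k3
        refine Finset.sum_congr rfl fun j _ => ?_
        congr 1
        rw [Complex.conj_conj, map_mul]
        have h2 : Complex.exp (Complex.I * E j * t) *
            (starRingEnd ℂ) (Complex.exp (Complex.I * E j * t)) = 1 := by
          rw [Complex.mul_conj, Complex.normSq_eq_norm_sq, hE1]
          simp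
        linear_combination (-(⟪f j, uu hψ a t⟫_ℂ * (starRingEnd ℂ) ⟪f j, uu hψ (a + w) t⟫_ℂ)) * h2)
    refine h1.trans ?_
    have h3 : (0 : ℝ) ≤ ((bx b L).card : ℝ) := Nat.cast_nonneg _
    refine mul_le_mul (by linarith) ?_ (by positivity) (by linarith)
    linarith
  have key := Bo_app hd hψ Z o (bx b L) c hc f hf T _ N (by linarith) hT0.le F hD
  refine key.trans ?_
  have hc0 : (0 : ℝ) ≤ ((bx b L).card : ℝ) := Nat.cast_nonneg _
  have h5 : 4 * N * (N * ((δ + ε1 / 4) * (bx b L).card)) ≤ ε * (bx b L).card := by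
    have h6 : N ^ 2 * (4 * (δ + ε1 / 4)) ≤ ε := by
      have h7 : 4 * (δ + ε1 / 4) ≤ ε / N ^ 2 := by
        have : 0 ≤ ε / N ^ 2 := by positivity
        linarith
      calc N ^ 2 * (4 * (δ + ε1 / 4)) ≤ N ^ 2 * (ε / N ^ 2) := by gcongr
        _ = ε := by field_simp
    calc 4 * N * (N * ((δ + ε1 / 4) * (bx b L).card)) =
        N ^ 2 * (4 * (δ + ε1 / 4)) * (bx b L).card := by ring
      _ ≤ _ := mul_le_mul_of_nonneg_right h6 hc0
  linarith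

end Pool.Agent.Q218.WE
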