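import Pool.Agent.Q218.WE.DifO

/-! The expectation of the correlation function. -/

set_option autoImplicit false
set_option linter.unusedSectionVars false

open scoped BigOperators Topology InnerProductSpace
open MeasureTheory Filter Set

namespace Pool.Agent.Q218.WE

open Pool.Agent.H4R2.LO (Zd)
open Pool.Agent.TH794.HK (ph ph_norm)
open Pool.Agent.TH794.QD (Sol)
open Pool.Agent.Q218.UD (D0)
open Pool.Agent.Q218.LE (Tail)

variable {d : ℕ}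

theorem kq_div (Z : Finset (Zd d)) (o : Zd d → ℂ) (N : ℝ) (ψ : Zd d → ℝ → Zd d → ℂ)
    (t : ℝ) (x y : Zd d) :
    kq Z (fun w => o w / N) ψ t x y = (((N ^ 2)⁻¹ : ℝ) : ℂ) * kq Z o ψ t x y := by
  unfold kq cv sv
  simp only [map_sum, map_mul, map_div₀, Complex.conj_ofReal, Complex.conj_conj, Finset.mul_sum]
  refine Finset.sum_congr rfl fun w _ => Finset.sum_congr rfl fun z _ => ?_
  push_cast
  ring

theorem Sk_div (Z : Finset (Zd d)) (o : Zd d → ℂ) (N : ℝ) (ψ : Zd d → ℝ → Zd d → ℂ)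
    (Λ : Finset (Zd d)) (c : Zd d → ℂ) (t : ℝ) :
    Sk Z (fun w => o w / N) ψ Λ c t = (((N ^ 2)⁻¹ : ℝ) : ℂ) * Sk Z o ψ Λ c t := by
  unfold Sk
  rw [Finset.mul_sum]
  refine Finset.sum_congr rfl fun x _ => ?_
  rw [Finset.mul_sum]
  refine Finset.sum_congr rfl fun y _ => ?_
  rw [kq_div]
  ring

/-- **the expectation of the correlation function** -/
theorem exO (hPLA : S_PLA) (hOPN : S_OPN) (hEXPK : S_EXPK) (d : ℕ) (hd : 3 ≤ d) (κ : ℝ)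
    (hκ : 0 < κ)
    (hκ1 : κ ≤ 1) (Z : Finset (Zd d)) (o : Zd d → ℂ)
    (ho : ∀ p : Fin d → ℝ, ‖∑ w ∈ Z, o w * ph p w‖ ≤ 1)
    (hoc : (fun w => (starRingEnd ℂ) (o w)) = o) (em : ℝ) (hem : 0 < em)
    (hEng : ∀ b : ℝ, 0 < b → EngO d Z o (fun E => |E| ≤ 2 * d - κ) b (em / 2))
    (m1 : ℝ) (hm1 : 0 < m1)
    (hmass : 1 - Real.pi⁻¹ * ∫ E in {E : ℝ | |E| ≤ 2 * d - κ}, D0 d E ≤ m1) (α : ℝ) (hα : 0 < α)
    (ε : ℝ) (hε : α / 2 + m1 / α + 2 * (2 * d) / Real.pi * em ≤ ε)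
    (μ : Measure ℝ) [IsProbabilityMeasure μ] (M V : ℝ) (hV0 : 0 < V)
    (h1 : Integrable (fun s => s) μ)
    (h2 : Integrable (fun s => (s - M) ^ 2) μ) (hM : ∫ s, s ∂μ = M)
    (hV : ∫ s, (s - M) ^ 2 ∂μ = V) (hT : Tail d μ M) :
    ∃ l0 : ℝ, 0 < l0 ∧ ∀ lam : ℝ, 0 < lam → lam ≤ l0 →
    ∀ T : ℝ, T = lam ^ (-(2024 / 1000) : ℝ) →
    ∀ ψ : (Zd d → ℝ) → Zd d → ℝ → Zd d → ℂ, (∀ ω a, Sol d (fun x => lam * ω x) a (ψ ω a)) →
    ∀ (Λ : Finset (Zd d)) (c : Zd d → ℂ), (∀ x, ‖c x‖ ≤ 1) →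
      Integrable (fun ω => ∫ s in Ioi (0 : ℝ), Real.exp (-s) * (Sk Z o (ψ ω) Λ c (s * T)).re)
        (Measure.infinitePi fun _ : Zd d => μ) ∧
      ∫ ω, (∫ s in Ioi (0 : ℝ), Real.exp (-s) * (Sk Z o (ψ ω) Λ c (s * T)).re)
        ∂(Measure.infinitePi fun _ : Zd d => μ) ≤ 2 * ε * Λ.card := by
  have hd0 : (0 : ℝ) < d := by
    have : 0 < d := by omega
    exact_mod_cast this
  have hpi := Real.pi_pos
  obtain ⟨N, hN⟩ : ∃ N, N = (∑ w ∈ Z, ‖o w‖) + 1 := ⟨_, rfl⟩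
  have hN0' : 0 ≤ ∑ w ∈ Z, ‖o w‖ := Finset.sum_nonneg fun w _ => norm_nonneg _
  have hN1 : 1 ≤ N := by linarith
  have hN0 : 0 < N := by linarith
  have hε0 : 0 < ε := lt_of_lt_of_le (by positivity) hε
  obtain ⟨ε', hε'⟩ : ∃ ε', ε' = ε / N ^ 2 := ⟨_, rfl⟩
  have hε'0 : 0 < ε' := by rw [hε']; positivity
  obtain ⟨l0, hl0, hev⟩ := evO hPLA hOPN d hd κ hκ hκ1 Z o ho hoc em hem hEng m1 hm1 hmass α hα
    μ M V hV0 h1 h2 hM hV hT ε' hε'0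
  refine ⟨l0, hl0, ?_⟩
  intro lam hlam hlam0 T hTd ψ hψ Λ c hc
  have hT0 : 0 < T := by rw [hTd]; positivity
  obtain ⟨G, hG, hPG, hGL⟩ := hev lam hlam hlam0 T hTd
  have hinv : 0 < (N ^ 2)⁻¹ := by positivity
  obtain ⟨i1, i2⟩ := hEXPK d (by omega) μ lam T ε' G ψ Z (fun w => o w / N) hψ hT0 hε'0.le (by
      simp only [norm_div]
      rw [← Finset.sum_div, Complex.norm_real, Real.norm_of_nonneg hN0.le, div_le_one hN0]
      linarith) hG hPG (fun ω hω p _ => by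
      have k1 := hGL ω hω (ψ ω) (hψ ω) p
      have k2 : ∀ s : ℝ, ((Real.exp (-s) : ℝ) : ℂ) *
          (∑' x : Zd d, ph p x * kq Z (fun w => o w / N) (ψ ω) (s * T) x 0) =
          (((N ^ 2)⁻¹ : ℝ) : ℂ) * (((Real.exp (-s) : ℝ) : ℂ) *
          ∑' x : Zd d, ph p x * kq Z o (ψ ω) (s * T) x 0) := by
        intro s
        have k3 : ∀ x : Zd d, ph p x * kq Z (fun w => o w / N) (ψ ω) (s * T) x 0 =
            (((N ^ 2)⁻¹ : ℝ) : ℂ) * (ph p x * kq Z o (ψ ω) (s * T) x 0) := by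
          intro x
          rw [kq_div]
          ring
        simp only [k3]
        rw [tsum_mul_left]
        ring
      simp only [k2]
      rw [integral_const_mul, norm_mul, Complex.norm_real, Real.norm_of_nonneg hinv.le]
      calc (N ^ 2)⁻¹ * _ ≤ (N ^ 2)⁻¹ * ε := mul_le_mul_of_nonneg_left (k1.trans hε) hinv.le
        _ = ε' := by rw [hε']; field_simp) Λ c hc
  have k4 : ∀ ω, ∫ s in Ioi (0 : ℝ),
      Real.exp (-s) * (Sk Z (fun w => o w / N) (ψ ω) Λ c (s * T)).re =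
      (N ^ 2)⁻¹ * ∫ s in Ioi (0 : ℝ), Real.exp (-s) * (Sk Z o (ψ ω) Λ c (s * T)).re := by
    intro ω
    rw [← integral_const_mul]
    refine integral_congr_ae (Filter.Eventually.of_forall fun s => ?_)
    simp only
    rw [Sk_div, Complex.re_ofReal_mul]
    ring
  simp only [k4] at i1 i2
  have k5 : (fun ω => ∫ s in Ioi (0 : ℝ), Real.exp (-s) * (Sk Z o (ψ ω) Λ c (s * T)).re) =
      fun ω => N ^ 2 * ((N ^ 2)⁻¹ * ∫ s in Ioi (0 : ℝ),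
        Real.exp (-s) * (Sk Z o (ψ ω) Λ c (s * T)).re) := by
    funext ω
    rw [← mul_assoc, mul_inv_cancel₀ (by positivity), one_mul]
  refine ⟨?_, ?_⟩
  · rw [k5]
    exact i1.const_mul _
  · rw [integral_const_mul] at i2
    have h4 : ∑ x ∈ Λ, ‖c x‖ ^ 2 ≤ (Λ.card : ℝ) := by
      refine (Finset.sum_le_sum fun x _ => pow_le_one₀ (norm_nonneg _) (hc x)).trans (le_of_eq ?_)
      rw [Finset.sum_const, nsmul_eq_mul, mul_one]
    rw [inv_mul_le_iff₀ (by positivity)] at i2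
    refine i2.trans ?_
    have h5 : N ^ 2 * (2 * ε' * ∑ x ∈ Λ, ‖c x‖ ^ 2) = 2 * ε * ∑ x ∈ Λ, ‖c x‖ ^ 2 := by
      rw [hε']
      field_simp
    rw [h5]
    exact mul_le_mul_of_nonneg_left h4 (by positivity)

end Pool.Agent.Q218.WE
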