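import Pool.Agent.Q218.WE.LatB

/-! The lattice event with a symbol. -/

set_option autoImplicit false
set_option linter.unusedSectionVars false

open scoped BigOperators Matrix
open MeasureTheory

namespace Pool.Agent.Q218.WE

open Pool.Agent.TH794.HK
open Pool.Agent.W788.BK
open Pool.Agent.W788
open Pool.Agent.W788.MFP.Four Pool.Agent.W788.MFP.Dos Pool.Agent.W788.MFP.Form
open Pool.Agent.W788.MFP.Ball Pool.Agent.W788.MFP.Crit Pool.Agent.W788.MFP.Cut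
open Pool.Agent.W788.MFP.Site Pool.Agent.W788.MF2.Dom Pool.Agent.W788.MF2.FinG
open Pool.Agent.W788.MF2.FormG Pool.Agent.W788.LD.Main Pool.Agent.H4R2
open Pool.Agent.H4R2.LO (Zd)
open Pool.Agent.H695R3.AN (lf lf_inj lf_add lf_sub)
open Pool.Agent.TH794.LL2 (Bq Bq_nonneg cut2 fc sum_fc_one)
open Pool.Agent.TH794.FG
open Pool.Agent.TH794.QD
open Pool.Agent.TH794.QE

variable {d L : ℕ} [NeZero L]

theorem src_norm (Z : Finset (Zd d)) (o : Zd d → ℂ) (R0 : ℝ) (hR0 : ∀ w ∈ Z, ‖w‖ ≤ R0)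
    (hL : 2 * R0 < L) (ho : ∀ k : T d L, ‖osym Z o k‖ ≤ 1) :
    ∑' x, (srcC Z o x).re ^ 2 + ∑' x, (srcC Z o x).im ^ 2 ≤ 1 := by
  have h1 := sum_fc_one (fun y : T d L => (srcC Z o (lf y)).re) (fun y => (srcC Z o (lf y)).im)
  have h2 : ∑ k : T d L, ‖fc (fun y : T d L => (srcC Z o (lf y)).re)
      (fun y => (srcC Z o (lf y)).im) k‖ ^ 2 ≤ ∑ _k : T d L, (1 : ℝ) := by
    refine Finset.sum_le_sum fun k _ => ?_
    rw [src_fc Z o R0 hR0 hL k, Complex.norm_conj]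
    exact pow_le_one₀ (norm_nonneg _) (ho k)
  have hN := NN_pos (d := d) (L := L)
  have h3 : ∑ _k : T d L, (1 : ℝ) = NN d L := by
    rw [Finset.sum_const, Finset.card_univ, nsmul_eq_mul, mul_one, card_T]
  rw [h1, h3] at h2
  have h4 : Bq (fun y : T d L => (srcC Z o (lf y)).re) (fun y => (srcC Z o (lf y)).im) ≤ 1 := by
    by_contra hcon
    push Not at hcon
    have := mul_lt_mul_of_pos_left hcon hN
    linarith
  have hz : ∀ x : Zd d, R0 < ‖x‖ → srcC Z o x = 0 := by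
    intro x hx
    unfold srcC
    rw [if_neg]
    intro hxZ
    have := hR0 x hxZ
    linarith
  rw [← sum_tor (L := L) R0 hL (fun x => (srcC Z o x).re ^ 2) (fun x hx => by rw [hz x hx]; simp),
    ← sum_tor (L := L) R0 hL (fun x => (srcC Z o x).im ^ 2) (fun x hx => by rw [hz x hx]; simp)]
  exact h4

/-- the law of the pairing -/
def QLawO (d : ℕ) (Z : Finset (Zd d)) (o : Zd d → ℂ) (B : ℝ → Prop) (σ R t ζ e3 : ℝ)
    (ξ : Zd d → ℝ) : Prop :=
  ∀ a : Zd d, ‖a‖ ≤ R → ∀ E : ℝ, B E → ∀ t' : ℝ, t ≤ t' → t' ≤ t + ζ → ∀ ur ui ur' ui' : Zd d → ℝ,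
    LS d σ ξ (fun x => (Pi.single (M := fun _ => ℝ) 0 1 : Zd d → ℝ) (x - a)) (fun _ => 0) E t'
      ur ui →
    LS d σ ξ (fun x => (srcC Z o (x - a)).re) (fun x => (srcC Z o (x - a)).im) E t' ur' ui' →
    ∀ p : Fin d → ℝ,
    ‖((t' : ℝ) : ℂ) * ∑' x, ph p (x - a) * ((starRingEnd ℂ) (cx ur ui x) *
      cv Z o (cx ur' ui') x)‖ ≤ e3

/-- **the lattice event** -/
theorem mainO (hd : 1 ≤ d) (B B' : ℝ → Prop) (μ : Measure ℝ)
    [IsProbabilityMeasure μ] (c : ℝ)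
    (hμ : DomBy μ c) (σ R δ θ η κ g1 ρ τ Kf ζ ω1 W s e3 em e4 ℓ R0 : ℝ) (M : ℕ) (hσ : 0 < σ)
    (hR : 1 ≤ R) (hδ : 0 < δ) (hδ1 : δ ≤ 1 / 2) (hη : 0 < η) (hη1 : η ≤ 1)
    (ht1 : η * δ + ζ ≤ 1) (hζt : ζ ≤ η * δ)
    (hκ : 0 < κ) (hκ2 : κ ≤ 1 / 2)
    (hζ : 0 < ζ) (hM : W + ζ ≤ ζ * M)
    (hB' : ∀ E, B' E → |E| ≤ W ∧ ∀ j : ℤ, |E - ζ * j| ≤ ζ → B (ζ * j))
    (hg : ∀ E, ∑ k : T d L, (JJ E δ k)⁻¹ ≤ g1 * NN d L) (hg0 : 0 ≤ g1)
    (hρ0 : 0 ≤ ρ) (hτ : 0 ≤ τ) (hKf : 0 ≤ Kf)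
    (Z : Finset (Zd d)) (o : Zd d → ℂ) (hZ : ∀ w ∈ Z, ‖w‖ ≤ R0)
    (ho : ∀ p : Fin d → ℝ, ‖∑ w ∈ Z, o w * ph p w‖ ≤ 1)
    (ρ' : ℝ) (hρ' : ρ' = 2 * (ρ + ζ * (η * δ)⁻¹) + 2 * (ζ * (η * δ)⁻¹))
    (h1 : 2 * (τ / (η * δ) + 2 * (κ + η)) * (Kf + ρ' / (η * δ)) +
      2 * Real.sqrt Kf * (2 * (Real.sqrt η * Real.sqrt g1) +
        3 * (ρ' / Real.sqrt (η * δ))) + ρ' / (η * δ) ≤ 1)
    (hκ' : τ / (η * δ) + 2 * (κ + η) ≤ 1)
    (Bb : ℝ) (hB : Bb = Real.sqrt ((Kf + 1) / (η * δ)))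
    (hs : s = (Real.sqrt η)⁻¹ * ((Real.sqrt δ)⁻¹ * (ρ' + τ * Bb) + η * (2 * Real.sqrt g1 +
      2 * (κ + η) * (Real.sqrt δ * Bb) + 2 * ((Real.sqrt δ)⁻¹ * ρ'))))
    (he3 : 2 * Real.sqrt Kf * s + s ^ 2 + 2 * ω1 + ζ * ((Kf + 1) / (η * δ)) ≤ e3)
    (hℓ0 : 0 < ℓ) (hRℓ : R0 ≤ ℓ) (hL : 6 * ℓ + 4 < L) (hρℓ : 2 * d / ℓ * (η * δ)⁻¹ ≤ ρ)
    (hmean : ∀ E1 E : ℝ, B E1 → B' E → |E1 - E| ≤ ζ → ∀ P0 : T d L,
      ‖∫ U, FPo (d := d) (L := L) E1 δ θ η P0 (osym Z o)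
        (fun k => (starRingEnd ℂ) (osym Z o k)) U ∂(PP (T d L) (μ.map fun s => σ * s))‖ ≤ em)
    (he4 : e3 + em + (∑ w ∈ Z, ‖o w‖) * (28 * d * (ℓ / L) * (Kf + 1) +
      d * ((η * δ)⁻¹) ^ 2 * (2 * R0 ^ 2 + 9) / ℓ) ≤ e4)
    (p : ℕ) (hp : p ≠ 0) (ε1 ε : ℝ)
    (hgood : (PP (T d L) (μ.map fun s => σ * s)).real
      (GoodO (d := d) (L := L) B (μ.map fun s => σ * s) δ θ η τ ζ Kf ω1 M (osym Z o)
        (fun y => (srcC Z o (lf y)).re) (fun y => (srcC Z o (lf y)).im))ᶜ ≤ ε1)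
    (hε : (3 * R) ^ d * ((8 * d / δ) * ((8 * p * g1 * c ^ 2 * σ ^ 2 / (δ * κ ^ 2)) ^ p *
      (L : ℝ) ^ d) + ε1) ≤ ε) :
    ∃ G : Set (Zd d → ℝ), MeasurableSet G ∧
      1 - ε ≤ (Measure.infinitePi fun _ : Zd d => μ).real G ∧
      ∀ ξ ∈ G, QLawO d Z o B' σ R (η * δ) ζ e4 ξ := by
  have hmeas : MeasurableSet (GoodO (d := d) (L := L) B (μ.map fun s => σ * s) δ θ η τ ζ Kf ω1 M
      (osym Z o) (fun y => (srcC Z o (lf y)).re) (fun y => (srcC Z o (lf y)).im)) :=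
    goodO_meas B _ δ θ η τ ζ Kf ω1 M hη _ _ _
  have ht : 0 < η * δ := by positivity
  have hGB : GB d L δ g1 := by
    intro E
    have e1 := hg E
    rw [inv_mul_le_iff₀ NN_pos]
    have e2 : ∑ k : T d L, (J E δ k)⁻¹ = ∑ k : T d L, (JJ E δ k)⁻¹ := rfl
    rw [e2]
    linarith
  obtain ⟨G1, hG1, hP1, hb⟩ := formE (d := d) (L := L) hd μ c hμ δ g1 hδ hδ1 hGB
    (κ / (2 * σ)) (by positivity) p hp
  have hsm : Measurable fun (V : T d L → ℝ) y => σ * V y := by fun_prop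
  obtain ⟨G2, hG2⟩ : ∃ G2, G2 = (fun (V : T d L → ℝ) y => σ * V y) ⁻¹'
    GoodO (d := d) (L := L) B (μ.map fun s => σ * s) δ θ η τ ζ Kf ω1 M
      (osym Z o) (fun y => (srcC Z o (lf y)).re) (fun y => (srcC Z o (lf y)).im) := ⟨_, rfl⟩
  have hG2m : MeasurableSet G2 := by
    rw [hG2]
    exact hsm hmeas
  have hpm : IsProbabilityMeasure (μ.map fun s => σ * s) :=
    Measure.isProbabilityMeasure_map (by fun_prop)
  have hP2 : (Measure.pi fun _ : T d L => μ).real G2ᶜ ≤ ε1 := by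
    have e1 : PP (T d L) (μ.map fun s => σ * s) =
        (Measure.pi fun _ : T d L => μ).map (fun (V : T d L → ℝ) y => σ * V y) := by
      unfold PP
      rw [Measure.pi_map_pi (μ := fun _ : T d L => μ) (f := fun _ (s : ℝ) => σ * s)]
      intro i
      fun_prop
    rw [e1, map_measureReal_apply hsm hmeas.compl] at hgood
    rw [hG2]
    exact hgood
  have hG : MeasurableSet (G1 ∩ G2) := hG1.inter hG2m
  have hP : (3 * R) ^ d * (Measure.pi fun _ : T d L => μ).real (G1 ∩ G2)ᶜ ≤ ε := by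
    refine le_trans ?_ hε
    apply mul_le_mul_of_nonneg_left _ (by positivity)
    rw [Set.compl_inter]
    refine (measureReal_union_le _ _).trans (add_le_add ?_ hP2)
    refine hP1.trans ?_
    apply mul_le_mul_of_nonneg_left _ (by positivity)
    have e1 : 2 * p * g1 * δ⁻¹ * c ^ 2 / (κ / (2 * σ)) ^ 2 =
        8 * p * g1 * c ^ 2 * σ ^ 2 / (δ * κ ^ 2) := by
      field_simp
      ring
    rw [e1]
    exact le_refl _
  have hLp : (0 : ℝ) < L := by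
    linarith
  have hos : ∀ k : T d L, ‖osym Z o k‖ ≤ 1 := osym_le Z o 1 ho
  have hsn := src_norm (L := L) Z o R0 hZ (by linarith) hos
  set Bx : Finset (Zd d) := LO.bx (0 : Zd d) ⌊R⌋₊ with hBx
  set Rr : Zd d → (Zd d → ℝ) → (T d L → ℝ) := fun a ω y => ω (lf y + a) with hRr
  have hRm : ∀ a, Measurable (Rr a) := fun a => measurable_pi_iff.2 fun y => measurable_pi_apply _
  have hPa : ∀ a, (Measure.infinitePi fun _ : Zd d => μ).real (Rr a ⁻¹' (G1 ∩ G2))ᶜ =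
      (Measure.pi fun _ : T d L => μ).real (G1 ∩ G2)ᶜ := by
    intro a
    have h1 : (Measure.infinitePi fun _ : Zd d => μ).real (Rr a ⁻¹' (G1 ∩ G2)ᶜ) =
        (Measure.pi fun _ : T d L => μ).real (G1 ∩ G2)ᶜ := by
      rw [← Gen3.law_shift (d := d) (L := L) μ a, map_measureReal_apply (hRm a) hG.compl]
    exact h1
  have hm : MeasurableSet (⋂ a ∈ Bx, Rr a ⁻¹' (G1 ∩ G2)) :=
    Finset.measurableSet_biInter _ fun a _ => hRm a hG
  refine ⟨⋂ a ∈ Bx, Rr a ⁻¹' (G1 ∩ G2), hm, ?_, ?_⟩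
  · have h2 := probReal_add_probReal_compl (μ := Measure.infinitePi fun _ : Zd d => μ) hm
    have h3 : (Measure.infinitePi fun _ : Zd d => μ).real (⋂ a ∈ Bx, Rr a ⁻¹' (G1 ∩ G2))ᶜ ≤
        (3 * R) ^ d * (Measure.pi fun _ : T d L => μ).real (G1 ∩ G2)ᶜ := by
      have e1 : (⋂ a ∈ Bx, Rr a ⁻¹' (G1 ∩ G2))ᶜ = ⋃ a ∈ Bx, (Rr a ⁻¹' (G1 ∩ G2))ᶜ := by
        simp only [Set.compl_iInter]
      rw [e1]
      refine (measureReal_biUnion_finset_le _ _).trans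
        ((Finset.sum_le_sum fun a _ => (hPa a).le).trans ?_)
      rw [Finset.sum_const, nsmul_eq_mul, hBx, LO.Em.card_bx]
      apply mul_le_mul_of_nonneg_right _ measureReal_nonneg
      push_cast
      apply pow_le_pow_left₀ (by positivity)
      have := Nat.floor_le (show 0 ≤ R by linarith)
      linarith
    linarith
  · intro ξ hξ a ha E hBE' t' htt htt' ur ui ur' ui' hLS hLS' pv
    obtain ⟨hE, hBj⟩ := hB' E hBE'
    have haB : a ∈ Bx := Gen3.norm_zd a R ha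
    have hV : Rr a ξ ∈ G1 ∩ G2 := Set.mem_iInter₂.1 hξ a haB
    have hV2 := hV.2
    rw [hG2] at hV2
    have ht'0 : 0 < t' := ht.trans_le htt
    have ht'1 : t' ≤ 1 := by linarith
    have hLS0 : LS d σ (fun x => ξ (x + a)) (Pi.single 0 1) (fun _ => 0) E t'
        (fun x => ur (x + a)) (fun x => ui (x + a)) :=
      LS.shift (fr := Pi.single 0 1) (fi := fun _ => 0) a hLS
    have hLS1 : LS d σ (fun x => ξ (x + a)) (fun x => (srcC Z o x).re) (fun x => (srcC Z o x).im)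
        E t' (fun x => ur' (x + a)) (fun x => ui' (x + a)) :=
      LS.shift (fr := fun x => (srcC Z o x).re) (fi := fun x => (srcC Z o x).im) a hLS'
    have hzr : ∀ x : Zd d, ℓ < ‖x‖ → srcC Z o x = 0 := by
      intro x hx
      unfold srcC
      rw [if_neg]
      intro hxZ
      have := hZ x hxZ
      linarith
    have hR00 : ∀ x : Zd d, |R0| < ‖x‖ → srcC Z o x = 0 := by
      intro x hx
      unfold srcC
      rw [if_neg]
      intro hxZ
      have := hZ x hxZ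
      have := le_abs_self R0
      linarith
    have hs0 : ∀ x : Zd d, |R0| < ‖x‖ → (Pi.single (M := fun _ => ℝ) 0 1 : Zd d → ℝ) x = 0 := by
      intro x hx
      have : x ≠ 0 := by
        intro h0
        rw [h0, norm_zero] at hx
        have := abs_nonneg R0
        linarith
      exact Pi.single_eq_of_ne this _
    have hs0' : ∀ x : Zd d, ℓ < ‖x‖ → (Pi.single (M := fun _ => ℝ) 0 1 : Zd d → ℝ) x = 0 := by
      intro x hx
      have : x ≠ 0 := by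
        intro h0
        rw [h0, norm_zero] at hx
        linarith
      exact Pi.single_eq_of_ne this _
    have hsingle : ∑' x : Zd d, (Pi.single (M := fun _ => ℝ) 0 1 : Zd d → ℝ) x ^ 2 +
        ∑' _ : Zd d, (0 : ℝ) ^ 2 ≤ 1 := by
      rw [tsum_eq_single 0 (fun x hx => by rw [Pi.single_eq_of_ne hx]; ring), Pi.single_eq_same]
      simp
    obtain ⟨n1, m1⟩ := src_mom |R0| ht'0 ht'1 hs0 (fun _ _ => rfl) hsingle hLS0
    obtain ⟨n2, m2⟩ := src_mom |R0| ht'0 ht'1 (fun x hx => by rw [hR00 x hx]; rfl)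
      (fun x hx => by rw [hR00 x hx]; rfl) hsn hLS1
    obtain ⟨rr, ri, hs1, hv1, hv2⟩ := tor_src (L := L) ℓ ℓ hℓ0 le_rfl (by linarith) ht'0 ht'1
      hs0' (fun _ _ => rfl) hsingle hLS0
    obtain ⟨rr', ri', hs1', hv1', hv2'⟩ := tor_src (L := L) ℓ ℓ hℓ0 le_rfl (by linarith) ht'0 ht'1
      (fun x hx => by rw [hzr x hx]; rfl) (fun x hx => by rw [hzr x hx]; rfl) hsn hLS1
    have hss : (fun y : T d L => (Pi.single (M := fun _ => ℝ) 0 1 : Zd d → ℝ) (lf y)) =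
        (Pi.single 0 1 : T d L → ℝ) := by
      funext y
      have h5 := single_lf (L := L) ℓ hℓ0 (by linarith) y
      rw [← h5]
      rcases eq_or_ne (lf y) 0 with h6 | h6
      · rw [h6, φ_one ℓ hℓ0 0 (by rw [norm_zero]; exact hℓ0.le), one_mul]
      · rw [Pi.single_eq_of_ne h6, mul_zero]
    rw [hss] at hs1
    have hti : t'⁻¹ ≤ (η * δ)⁻¹ := inv_anti₀ ht htt
    have hform : ∀ (E : ℝ) (w : T d L → ℝ),
        |∑ x, (σ * ξ (lf x + a)) * w x ^ 2| ≤ κ * q (JJ E δ) w := by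
      intro E w
      have e1 := hb _ hV.1 E w
      have e2 : ∑ x, (σ * ξ (lf x + a)) * w x ^ 2 = σ * ∑ x, Rr a ξ x * w x ^ 2 := by
        rw [Finset.mul_sum]
        exact Finset.sum_congr rfl fun x _ => by rw [hRr]; ring
      rw [e2, abs_mul, abs_of_pos hσ]
      calc σ * |∑ x, Rr a ξ x * w x ^ 2| ≤ σ * (2 * (κ / (2 * σ)) * q (J E δ) w) :=
            mul_le_mul_of_nonneg_left e1 hσ.le
        _ = κ * q (J E δ) w := by
            field_simp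
        _ = _ := rfl
    obtain ⟨w, hw⟩ : ∃ w : T d L → ℂ, w = cvT Z o fun y => (φ ℓ (lf y) : ℂ) *
      cx (fun x => ur' (x + a)) (fun x => ui' (x + a)) (lf y) := ⟨_, rfl⟩
    have hwk : ∀ k : T d L, osym Z o k * fc (fun y : T d L => φ ℓ (lf y) * ur' (lf y + a))
        (fun y => φ ℓ (lf y) * ui' (lf y + a)) k = ∑ x, w x * e k x := by
      intro k
      rw [hw, cvT_hat, fc_sum]
      congr 1
      refine Finset.sum_congr rfl fun y _ => ?_
      congr 1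
      unfold cx
      push_cast
      ring
    have hfck : ∀ k : T d L, fc (fun y : T d L => (srcC Z o (lf y)).re)
        (fun y => (srcC Z o (lf y)).im) k = (starRingEnd ℂ) (osym Z o k) :=
      src_fc Z o R0 hZ (by linarith)
    obtain ⟨i, hEi, hBi, hBq, hBq', hq⟩ := torO B (μ.map fun s => σ * s) δ θ η κ g1 ρ τ Kf ζ ω1 W t'
      M hδ hη hη1 hκ hκ2 hζ hM (osym Z o) hos _ _ hfck (fun y => σ * ξ (lf y + a)) hV2 hform hg
      hg0 hρ0 hτ hKf ρ' hρ' h1 hκ' Bb s e3 hB hs he3 E hE hBj (by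
        rw [abs_of_nonneg (by linarith)]
        linarith) _ _ rr ri _ _ rr' ri' hs1 hs1' (hv2.trans (le_trans (by gcongr) hρℓ))
        (hv1.trans hti) (hv2'.trans (le_trans (by gcongr) hρℓ)) (hv1'.trans hti) w hwk
    -- the momenta
    obtain ⟨n, hn⟩ : ∃ n : Fin d → ℤ, n = fun i => ⌊pv i * L / (2 * Real.pi)⌋ := ⟨_, rfl⟩
    have hπ := Real.pi_pos
    have hpn : ∀ i, |pv i - 2 * Real.pi * n i / L| ≤ 7 / L := by
      intro i
      have a1 := Int.floor_le (pv i * L / (2 * Real.pi))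
      have a2 := Int.lt_floor_add_one (pv i * L / (2 * Real.pi))
      have e1 : pv i - 2 * Real.pi * n i / L =
          2 * Real.pi / L * (pv i * L / (2 * Real.pi) - n i) := by
        field_simp
      rw [e1, abs_mul, abs_of_pos (by positivity), hn]
      have a3 : |pv i * L / (2 * Real.pi) - (⌊pv i * L / (2 * Real.pi)⌋ : ℝ)| ≤ 1 := by
        rw [abs_le]
        constructor <;> linarith
      calc 2 * Real.pi / L * |pv i * L / (2 * Real.pi) - (⌊pv i * L / (2 * Real.pi)⌋ : ℝ)| ≤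
            2 * Real.pi / L * 1 := by gcongr
        _ ≤ 7 / L := by
            rw [mul_one]
            apply div_le_div_of_nonneg_right _ hLp.le
            have := Real.pi_lt_d2
            linarith
    have c1 := pair_cmp hd ℓ t' (7 / L) R0 ((Kf + 1) / (η * δ)) (2 * |R0| ^ 2 + 8) hℓ0 hRℓ hL ht'0
      (by positivity) Z o hZ _ _ _ _ hLS0.sr hLS0.si hLS1.sr hLS1.si n1 n2 m1 m2 hBq hBq' pv n hpn
    rw [← hw] at c1
    have c2 := hq (fun i => ((n i : ℤ) : ZMod L))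
    have c3 := hmean (ζ * i) E hBi hBE' (by rw [abs_sub_comm]; exact hEi)
      (fun i => ((n i : ℤ) : ZMod L))
    have e5 : ∑' x, ph pv (x - a) * ((starRingEnd ℂ) (cx ur ui x) * cv Z o (cx ur' ui') x) =
        ∑' x, ph pv x * ((starRingEnd ℂ) (cx (fun x => ur (x + a)) (fun x => ui (x + a)) x) *
          cv Z o (cx (fun x => ur' (x + a)) (fun x => ui' (x + a))) x) := by
      rw [← (Equiv.addRight a).tsum_eq fun x => ph pv (x - a) * ((starRingEnd ℂ) (cx ur ui x) *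
        cv Z o (cx ur' ui') x)]
      refine tsum_congr fun x => ?_
      simp only [Equiv.coe_addRight, add_sub_cancel_right]
      congr 2
      unfold cv cx
      refine Finset.sum_congr rfl fun w _ => ?_
      rw [add_right_comm x a w]
    rw [e5]
    obtain ⟨X, hX⟩ : ∃ X, X = ∑' x, ph pv x *
      ((starRingEnd ℂ) (cx (fun x => ur (x + a)) (fun x => ui (x + a)) x) *
          cv Z o (cx (fun x => ur' (x + a)) (fun x => ui' (x + a))) x) := ⟨_, rfl⟩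
    obtain ⟨Y, hY⟩ : ∃ Y, Y = chiO (fun i => ((n i : ℤ) : ZMod L))
      (fun y : T d L => φ ℓ (lf y) * ur (lf y + a))
      (fun y => φ ℓ (lf y) * ui (lf y + a)) w := ⟨_, rfl⟩
    rw [← hX] at c1 ⊢
    rw [← hY] at c1 c2
    obtain ⟨No, hNo⟩ : ∃ No, No = ∑ w ∈ Z, ‖o w‖ := ⟨_, rfl⟩
    have hNo0 : 0 ≤ No := by rw [hNo]; exact Finset.sum_nonneg fun w _ => norm_nonneg _
    rw [← hNo] at c1 he4
    have c4 : ‖((t' : ℝ) : ℂ) * (X - Y)‖ ≤
        No * (28 * d * (ℓ / L) * (Kf + 1) + d * ((η * δ)⁻¹) ^ 2 * (2 * R0 ^ 2 + 9) / ℓ) := by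
      rw [norm_mul, Complex.norm_real, Real.norm_of_nonneg ht'0.le]
      have b1 := mul_le_mul_of_nonneg_left c1 ht'0.le
      refine b1.trans ?_
      have b2 : t' * (1 / ℓ * (d * (t'⁻¹) ^ 3 * (2 * |R0| ^ 2 + 8 + 1))) ≤
          d * ((η * δ)⁻¹) ^ 2 * (2 * R0 ^ 2 + 9) / ℓ := by
        have h6 : 0 ≤ t'⁻¹ := by positivity
        calc t' * (1 / ℓ * (d * (t'⁻¹) ^ 3 * (2 * |R0| ^ 2 + 8 + 1))) =
              (t' * t'⁻¹) * (1 / ℓ * (d * (t'⁻¹) ^ 2 * (2 * |R0| ^ 2 + 8 + 1))) := by ring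
          _ = 1 / ℓ * (d * (t'⁻¹) ^ 2 * (2 * |R0| ^ 2 + 8 + 1)) := by
              rw [mul_inv_cancel₀ ht'0.ne', one_mul]
          _ ≤ 1 / ℓ * (d * ((η * δ)⁻¹) ^ 2 * (2 * |R0| ^ 2 + 8 + 1)) := by
              gcongr
          _ = _ := by
              rw [sq_abs]
              ring
      have b3 : t' * (d * (7 / L * (2 * ℓ)) * ((Kf + 1) / (η * δ))) ≤
          28 * d * (ℓ / L) * (Kf + 1) := by
        have h5 : t' ≤ 2 * (η * δ) := by linarith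
        calc t' * (d * (7 / L * (2 * ℓ)) * ((Kf + 1) / (η * δ))) ≤
              (2 * (η * δ)) * (d * (7 / L * (2 * ℓ)) * ((Kf + 1) / (η * δ))) := by gcongr
          _ = _ := by
              field_simp
              ring
      have b4 := mul_le_mul_of_nonneg_left (add_le_add b3 b2) hNo0
      refine le_trans (le_of_eq ?_) b4
      ring
    have e6 : ((t' : ℝ) : ℂ) * X = ((t' : ℝ) : ℂ) * (X - Y) +
        (((t' : ℝ) : ℂ) * Y - ∫ U, FPo (d := d) (L := L) (ζ * i) δ θ η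
          (fun i => ((n i : ℤ) : ZMod L)) (osym Z o) (fun k => (starRingEnd ℂ) (osym Z o k)) U
            ∂(PP (T d L) (μ.map fun s => σ * s))) +
        (∫ U, FPo (d := d) (L := L) (ζ * i) δ θ η (fun i => ((n i : ℤ) : ZMod L)) (osym Z o)
          (fun k => (starRingEnd ℂ) (osym Z o k)) U
          ∂(PP (T d L) (μ.map fun s => σ * s))) := by
      ring
    rw [e6]
    refine (norm_add_le _ _).trans ((add_le_add ((norm_add_le _ _).trans (add_le_add c4 c2))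
      c3).trans ?_)
    linarith

end Pool.Agent.Q218.WE
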