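import Pool.Agent.TH794.HK.FinK
import Pool.Agent.Q218.WE.LatO
import Pool.Agent.Q218.UD.Prof

/-! The pairing of the resolvent at two sources. -/

set_option autoImplicit false
set_option linter.unusedSectionVars false

open scoped BigOperators Topology
open MeasureTheory Filter Set

namespace Pool.Agent.Q218.WE

open Pool.Agent.TH794.HK
open Pool.Agent.W788.BK
open Pool.Agent.W788.LD.Spec (S)
open Pool.Agent.H4R2.LO (Zd)
open Pool.Agent.W788.BK.Num
open Pool.Agent.TH794.LL2 (hexle)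
open Pool.Agent.TH794.QE
open Pool.Agent.TH794.FG (LS)
open Pool.Agent.TH794.QD (Sol La)
open Pool.Agent.Q218.AD (small_rpow)
open Pool.Agent.Q218.UD (trc trc_meas trc_le ex_rs rs_shift)

/-- the law of the pairing for the energies `B` -/
def EngO (d : ℕ) (Z : Finset (Zd d)) (o : Zd d → ℂ) (B : ℝ → Prop) (b e0 : ℝ) : Prop :=
  ∃ y0 : ℝ, ∀ y : ℝ, y0 ≤ y →
    ∀ (ν : Measure ℝ), IsProbabilityMeasure ν → (∀ᵐ s ∂ν, |s| ≤ b) → ∫ s, s ∂ν = 0 →
    ∀ Vv : ℝ, ∫ s, s ^ 2 ∂ν = Vv → Real.exp (-(1 / 3000) * y) ≤ Vv →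
    ∀ t : ℝ, Real.exp (-(81 / 40) * y) ≤ t → t ≤ Real.exp (-(161 / 80) * y) →
    ∃ G : Set (Zd d → ℝ), MeasurableSet G ∧
      1 - 2 * Real.exp (-Real.exp (y / 100)) ≤ (Measure.infinitePi fun _ : Zd d => ν).real G ∧
      ∀ ξ ∈ G, QLawO d Z o B
        (Real.exp (-1 * y)) (Real.exp (Real.exp (y / 100))) t (Real.exp (-10 * y)) e0 ξ

variable {d : ℕ}

theorem LS_complex (V : Zd d → ℝ) (e η : ℝ) (f u : Zd d → ℂ) (hu : Summable fun x => ‖u x‖ ^ 2)
    (heq : ∀ x, -S u x + (V x : ℂ) * u x - ((e : ℂ) + (η : ℂ) * Complex.I) * u x =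
      (starRingEnd ℂ) (f x))
    (ξ : Zd d → ℝ) (c0 σ : ℝ) (hV : ∀ x, V x = c0 - σ * ξ x) :
    LS d σ ξ (fun x => (f x).re) (fun x => (f x).im)
      (c0 - e) η (fun x => -(u x).re) (fun x => (u x).im) := by
  have hn : ∀ x, ‖u x‖ ^ 2 = (u x).re ^ 2 + (u x).im ^ 2 := by
    intro x
    rw [← Complex.normSq_eq_norm_sq, Complex.normSq_apply]
    ring
  refine ⟨?_, ?_, ?_, ?_⟩
  · refine Summable.of_nonneg_of_le (fun x => sq_nonneg _) (fun x => ?_) hu
    rw [hn x]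
    nlinarith [sq_nonneg (u x).im]
  · refine Summable.of_nonneg_of_le (fun x => sq_nonneg _) (fun x => ?_) hu
    rw [hn x]
    nlinarith [sq_nonneg (u x).re]
  · intro x
    have h3 := congrArg Complex.re (heq x)
    rw [hV x] at h3
    rw [Complex.conj_re] at h3
    have h5 : ∑ i : Fin d, (-(u (x + Pi.single i 1)).re + -(u (x - Pi.single i 1)).re) =
        -∑ i : Fin d, ((u (x + Pi.single i 1)).re + (u (x - Pi.single i 1)).re) := by
      rw [← Finset.sum_neg_distrib]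
      exact Finset.sum_congr rfl fun i _ => by ring
    rw [h5]
    simp [S] at h3
    linarith
  · intro x
    have h3 := congrArg Complex.im (heq x)
    rw [hV x] at h3
    rw [Complex.conj_im] at h3
    simp [S] at h3
    linarith

/-- the source as a sum of sites -/
theorem src_sum (Z : Finset (Zd d)) (o : Zd d → ℂ) (a x : Zd d) :
    ∑ z ∈ Z, o z * (if x = a + z then (1 : ℂ) else 0) = (starRingEnd ℂ) (srcC Z o (x - a)) := by
  classical
  unfold srcC
  have h1 : ∀ z ∈ Z, o z * (if x = a + z then (1 : ℂ) else 0) = if z = x - a then o (x - a) else 0 := by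
    intro z _
    by_cases h : x = a + z
    · have h2 : z = x - a := by rw [h]; abel
      rw [if_pos h, if_pos h2, mul_one, ← h2]
    · have h2 : z ≠ x - a := by
        intro h3
        apply h
        rw [h3]
        abel
      rw [if_neg h, if_neg h2, mul_zero]
  rw [Finset.sum_congr rfl h1, Finset.sum_ite_eq' Z (x - a)]
  split_ifs with h2
  · rw [Complex.conj_conj]
  · rw [map_zero]

/-- the combination of the Green functions -/
noncomputable def gs (Z : Finset (Zd d)) (o : Zd d → ℂ) (u : Zd d → Zd d → ℂ) (a x : Zd d) : ℂ :=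
  ∑ z ∈ Z, (starRingEnd ℂ) (o z) * u (a + z) x

theorem S_sum (Z : Finset (Zd d)) (c : Zd d → ℂ) (u : Zd d → Zd d → ℂ) (x : Zd d) :
    S (fun x => ∑ z ∈ Z, c z * u z x) x = ∑ z ∈ Z, c z * S (u z) x := by
  unfold S
  simp only [Finset.mul_sum, ← Finset.sum_add_distrib]
  rw [Finset.sum_comm]
  exact Finset.sum_congr rfl fun z _ => Finset.sum_congr rfl fun i _ => by ring

theorem sum_sq (Z : Finset (Zd d)) (c : Zd d → ℂ) (f : Zd d → Zd d → ℂ) (C : ℝ)
    (hf : ∀ z ∈ Z, (Summable fun x => ‖f z x‖ ^ 2) ∧ ∑' x, ‖f z x‖ ^ 2 ≤ C) :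
    (Summable fun x => ‖∑ z ∈ Z, c z * f z x‖ ^ 2) ∧
      ∑' x, ‖∑ z ∈ Z, c z * f z x‖ ^ 2 ≤ (∑ z ∈ Z, ‖c z‖) ^ 2 * C := by
  obtain ⟨N, hN⟩ : ∃ N, N = ∑ z ∈ Z, ‖c z‖ := ⟨_, rfl⟩
  have hN0 : 0 ≤ N := by rw [hN]; exact Finset.sum_nonneg fun z _ => norm_nonneg _
  have hpt : ∀ x, ‖∑ z ∈ Z, c z * f z x‖ ^ 2 ≤ N * ∑ z ∈ Z, ‖c z‖ * ‖f z x‖ ^ 2 := by
    intro x
    have h1 : ‖∑ z ∈ Z, c z * f z x‖ ≤ ∑ z ∈ Z, Real.sqrt ‖c z‖ * (Real.sqrt ‖c z‖ * ‖f z x‖) := by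
      refine (norm_sum_le _ _).trans (Finset.sum_le_sum fun z _ => ?_)
      rw [norm_mul, ← mul_assoc, Real.mul_self_sqrt (norm_nonneg _)]
    have h2 := Finset.sum_mul_sq_le_sq_mul_sq Z (fun z => Real.sqrt ‖c z‖)
      (fun z => Real.sqrt ‖c z‖ * ‖f z x‖)
    have h3 := pow_le_pow_left₀ (norm_nonneg _) h1 2
    refine h3.trans (h2.trans (le_of_eq ?_))
    rw [hN]
    congr 1
    · exact Finset.sum_congr rfl fun z _ => Real.sq_sqrt (norm_nonneg _)
    · refine Finset.sum_congr rfl fun z _ => ?_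
      rw [mul_pow, Real.sq_sqrt (norm_nonneg _)]
  have hs : Summable fun x => N * ∑ z ∈ Z, ‖c z‖ * ‖f z x‖ ^ 2 :=
    (summable_sum fun z hz => (hf z hz).1.mul_left _).mul_left _
  have s1 : Summable fun x => ‖∑ z ∈ Z, c z * f z x‖ ^ 2 :=
    Summable.of_nonneg_of_le (fun x => sq_nonneg _) hpt hs
  refine ⟨s1, ?_⟩
  refine (s1.tsum_le_tsum hpt hs).trans ?_
  rw [tsum_mul_left, Summable.tsum_finsetSum fun z hz => (hf z hz).1.mul_left _, ← hN]
  have h4 : ∑ z ∈ Z, ∑' x, ‖c z‖ * ‖f z x‖ ^ 2 ≤ N * C := by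
    rw [hN, Finset.sum_mul]
    refine Finset.sum_le_sum fun z hz => ?_
    rw [tsum_mul_left]
    exact mul_le_mul_of_nonneg_left (hf z hz).2 (norm_nonneg _)
  calc _ ≤ N * (N * C) := mul_le_mul_of_nonneg_left h4 hN0
    _ = _ := by ring

theorem cv_sq (Z : Finset (Zd d)) (o : Zd d → ℂ) (f : Zd d → ℂ)
    (hf : Summable fun x => ‖f x‖ ^ 2) :
    (Summable fun x => ‖cv Z o f x‖ ^ 2) ∧
      ∑' x, ‖cv Z o f x‖ ^ 2 ≤ (∑ z ∈ Z, ‖o z‖) ^ 2 * ∑' x, ‖f x‖ ^ 2 := by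
  refine sum_sq Z o (fun w x => f (x + w)) (∑' x, ‖f x‖ ^ 2) fun w _ => ?_
  exact ⟨(Equiv.addRight w).summable_iff.2 hf, le_of_eq ((Equiv.addRight w).tsum_eq
    fun x => ‖f x‖ ^ 2)⟩

theorem gs_eq (Z : Finset (Zd d)) (o : Zd d → ℂ) (V : Zd d → ℝ) (e η : ℝ) (u : Zd d → Zd d → ℂ)
    (a : Zd d) (hu : ∀ z ∈ Z, Rs d V (a + z) e η (u (a + z))) (x : Zd d) :
    -S (gs Z o u a) x + (V x : ℂ) * gs Z o u a x - ((e : ℂ) + (η : ℂ) * Complex.I) * gs Z o u a x =
      (starRingEnd ℂ) (srcC Z (fun w => (starRingEnd ℂ) (o w)) (x - a)) := by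
  rw [← src_sum]
  have h1 : S (gs Z o u a) x = ∑ z ∈ Z, (starRingEnd ℂ) (o z) * S (u (a + z)) x := by
    unfold gs
    exact S_sum Z (fun z => (starRingEnd ℂ) (o z)) (fun z => u (a + z)) x
  rw [h1]
  unfold gs
  rw [Finset.mul_sum, Finset.mul_sum, ← Finset.sum_neg_distrib, ← Finset.sum_add_distrib,
    ← Finset.sum_sub_distrib]
  refine Finset.sum_congr rfl fun z hz => ?_
  rw [← (hu z hz).eq x]
  ring

/-- **the law for one scale** -/
theorem finO (d : ℕ) (Z : Finset (Zd d)) (o : Zd d → ℂ) (B : ℝ → Prop) (b e0 : ℝ)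
    (hEng : EngO d Z (fun w => (starRingEnd ℂ) (o w)) B (2 * b) e0) :
    ∃ c0 : ℝ, 0 < c0 ∧ ∀ c : ℝ, 0 < c → c ≤ c0 →
    ∀ (μ : Measure ℝ), IsProbabilityMeasure μ → (∀ᵐ s ∂μ, |s| ≤ b) →
    ∀ Mn V : ℝ, ∫ s, s ∂μ = Mn → ∫ s, (s - Mn) ^ 2 ∂μ = V → c ^ (1 / 3000 : ℝ) ≤ V →
    ∀ η : ℝ, c ^ (81 / 40 : ℝ) ≤ η → η ≤ c ^ (161 / 80 : ℝ) →
      ∃ G : Set (Zd d → ℝ), MeasurableSet G ∧
        1 - 2 * Real.exp (-c ^ (-(1 / 101) : ℝ)) ≤
          (Measure.infinitePi fun _ : Zd d => μ).real G ∧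
        ∀ ω ∈ G,
          ∀ a : Zd d, ‖a‖ ≤ Real.exp (c ^ (-(1 / 101) : ℝ)) →
          ∀ e : ℝ, B (2 * d + c * Mn - e) →
          ∀ u : Zd d → Zd d → ℂ, Rs d (fun x => 2 * d + c * ω x) a e η (u a) →
          (∀ z ∈ Z, Rs d (fun x => 2 * d + c * ω x) (a + z) e η (u (a + z))) →
          ∀ p : Fin d → ℝ,
            ‖((η : ℝ) : ℂ) * ∑' x, ph p (x - a) * (u a x *
              (starRingEnd ℂ) (cv Z o (gs Z o u a) x))‖ ≤ e0 := by
  obtain ⟨y0, h0⟩ := hEng
  obtain ⟨y1, hy1⟩ : ∃ y1, y1 = max y0 1 := ⟨_, rfl⟩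
  refine ⟨Real.exp (-y1), Real.exp_pos _, ?_⟩
  intro c hc hc0 μ hμ hμb Mn V hM hV hvV η hηl hηu
  obtain ⟨y, hy⟩ : ∃ y, y = Real.log (1 / c) := ⟨_, rfl⟩
  have hlogc : Real.log c = -y := by
    rw [hy, one_div, Real.log_inv, neg_neg]
  have hyy1 : y1 ≤ y := by
    have h1 := Real.log_le_log hc hc0
    rw [Real.log_exp, hlogc] at h1
    linarith
  have hyy0 : y0 ≤ y := le_trans (by rw [hy1]; exact le_max_left _ _) hyy1
  have hyone : 1 ≤ y := le_trans (by rw [hy1]; exact le_max_right _ _) hyy1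
  have hrp : ∀ p q : ℝ, q = -p → c ^ p = Real.exp (q * y) := by
    intro p q hpq
    rw [Real.rpow_def_of_pos hc, hlogc, hpq]
    congr 1
    ring
  have e1 : c ^ (-(1 / 101) : ℝ) = Real.exp (1 / 101 * y) := hrp _ _ (by norm_num)
  have e2 : c ^ (81 / 40 : ℝ) = Real.exp (-(81 / 40) * y) := hrp _ _ (by norm_num)
  have e2' : c ^ (161 / 80 : ℝ) = Real.exp (-(161 / 80) * y) := hrp _ _ (by norm_num)
  have e4 : c ^ (1 / 3000 : ℝ) = Real.exp (-(1 / 3000) * y) := hrp _ _ (by norm_num)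
  rw [e4] at hvV
  have e6 : c = Real.exp (-1 * y) := by
    rw [neg_one_mul, ← hlogc, Real.exp_log hc]
  have e8 : Real.exp (y / 100) = Real.exp (1 / 100 * y) := by
    congr 1
    ring
  -- the centred law
  have hmm : Measurable fun s : ℝ => Mn - s := by fun_prop
  obtain ⟨ν, hνdef⟩ : ∃ ν, ν = μ.map fun s => Mn - s := ⟨_, rfl⟩
  have hνp : IsProbabilityMeasure ν := by
    rw [hνdef]
    exact Measure.isProbabilityMeasure_map hmm.aemeasurable
  have hMb : |Mn| ≤ b := by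
    rw [← hM, ← Real.norm_eq_abs]
    refine (norm_integral_le_of_norm_le_const (C := b) ?_).trans (le_of_eq ?_)
    · filter_upwards [hμb] with s hs
      exact hs
    · rw [probReal_univ, mul_one]
  have hνb : ∀ᵐ s ∂ν, |s| ≤ 2 * b := by
    rw [hνdef, ae_map_iff hmm.aemeasurable (measurableSet_le (by fun_prop) (by fun_prop))]
    filter_upwards [hμb] with s hs
    refine (abs_sub _ _).trans ?_
    linarith
  have hint : Integrable (fun s : ℝ => s) μ := by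
    refine Integrable.mono' (integrable_const b) (by fun_prop) ?_
    filter_upwards [hμb] with s hs
    exact hs
  have hν0 : ∫ s, s ∂ν = 0 := by
    rw [hνdef, integral_map hmm.aemeasurable (by fun_prop), integral_sub (integrable_const _) hint,
      hM, integral_const, probReal_univ, one_smul, sub_self]
  have hν2 : ∫ s, s ^ 2 ∂ν = V := by
    rw [hνdef, integral_map hmm.aemeasurable (by fun_prop), ← hV]
    refine integral_congr_ae (Filter.Eventually.of_forall fun s => ?_)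
    ring
  rw [e2] at hηl
  rw [e2'] at hηu
  obtain ⟨Γ, hΓm, hΓP, hΓL⟩ := h0 y hyy0 ν hνp hνb hν0 V hν2 hvV η hηl hηu
  have hTm : Measurable (fun (ω : Zd d → ℝ) x => Mn - ω x) := by fun_prop
  have hlaw : (Measure.infinitePi fun _ : Zd d => μ).map (fun ω x => Mn - ω x) =
      Measure.infinitePi fun _ : Zd d => ν := by
    rw [hνdef]
    exact Measure.infinitePi_map_pi (μ := fun _ : Zd d => μ)
      (f := fun _ (s : ℝ) => Mn - s) (fun _ => by fun_prop)
  have hexp : Real.exp (1 / 101 * y) ≤ Real.exp (1 / 100 * y) := by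
    apply Real.exp_le_exp.2
    linarith
  refine ⟨(fun ω x => Mn - ω x) ⁻¹' Γ, hTm hΓm, ?_, ?_⟩
  · have h1 : (Measure.infinitePi fun _ : Zd d => μ).real ((fun ω x => Mn - ω x) ⁻¹' Γ) =
        (Measure.infinitePi fun _ : Zd d => ν).real Γ := by
      rw [← hlaw, map_measureReal_apply hTm hΓm]
    rw [h1]
    refine le_trans ?_ hΓP
    rw [e1, e8]
    have : Real.exp (-Real.exp (1 / 100 * y)) ≤ Real.exp (-Real.exp (1 / 101 * y)) :=
      Real.exp_le_exp.2 (by linarith)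
    linarith
  · intro ω hω a ha e he u hua hu p
    have hη0 : 0 < η := (Real.exp_pos _).trans_le hηl
    have ha' : ‖a‖ ≤ Real.exp (Real.exp (y / 100)) := by
      refine ha.trans (Real.exp_le_exp.2 ?_)
      rw [e1, e8]
      exact hexp
    have hVx : ∀ x, (fun x => 2 * (d : ℝ) + c * ω x) x = (2 * d + c * Mn) -
        Real.exp (-1 * y) * (fun x => Mn - ω x) x := by
      intro x
      rw [← e6]
      ring
    have hsg : Summable fun x => ‖gs Z o u a x‖ ^ 2 := by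
      obtain ⟨C, hC⟩ : ∃ C : ℝ, ∀ z ∈ Z, ∑' x, ‖u (a + z) x‖ ^ 2 ≤ C := by
        refine ⟨∑ z ∈ Z, ∑' x, ‖u (a + z) x‖ ^ 2, fun z hz => ?_⟩
        exact Finset.single_le_sum (f := fun z => ∑' x, ‖u (a + z) x‖ ^ 2)
          (fun _ _ => tsum_nonneg fun _ => sq_nonneg _) hz
      exact (sum_sq Z (fun z => (starRingEnd ℂ) (o z)) (fun z => u (a + z)) C
        fun z hz => ⟨(hu z hz).sq, hC z hz⟩).1
    have hlaw1 := hΓL _ hω a ha' (2 * d + c * Mn - e) he η le_rfl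
      (by linarith [Real.exp_pos (-10 * y)]) _ _ _ _ (rs_LS hua _ _ _ hVx)
      (LS_complex (fun x => 2 * (d : ℝ) + c * ω x) e η
        (fun x => srcC Z (fun w => (starRingEnd ℂ) (o w)) (x - a)) (gs Z o u a) hsg
        (gs_eq Z o _ e η u a hu) (fun x => Mn - ω x) (2 * d + c * Mn) _ hVx) p
    have e9 : (fun x => ph p (x - a) *
        ((starRingEnd ℂ) (cx (fun x => -(u a x).re) (fun x => (u a x).im) x) *
        cv Z (fun w => (starRingEnd ℂ) (o w))
          (cx (fun x => -(gs Z o u a x).re) (fun x => (gs Z o u a x).im)) x)) =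
        fun x => ph p (x - a) * (u a x * (starRingEnd ℂ) (cv Z o (gs Z o u a) x)) := by
      funext x
      congr 1
      have h1 : ∀ w : ℂ, ((-w.re : ℝ) : ℂ) + Complex.I * (w.im : ℂ) = -(starRingEnd ℂ) w := by
        intro w
        apply Complex.ext <;> simp
      have h2 : cx (fun x => -(gs Z o u a x).re) (fun x => (gs Z o u a x).im) =
          fun x => -(starRingEnd ℂ) (gs Z o u a x) := by
        funext x
        unfold cx
        exact h1 _
      rw [h2]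
      unfold cx cv
      rw [h1, map_neg, Complex.conj_conj, map_sum]
      rw [neg_mul, ← mul_neg, ← Finset.sum_neg_distrib]
      congr 1
      refine Finset.sum_congr rfl fun w _ => ?_
      rw [map_mul]
      ring
    rw [e9] at hlaw1
    exact hlaw1

end Pool.Agent.Q218.WE
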