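import Pool.Agent.Q218.WE.FreeO

/-! The choice of the polynomial and the engine for the symbol. -/

set_option autoImplicit false
set_option linter.unusedSectionVars false

open MeasureTheory Set Filter Topology
open scoped Polynomial

namespace Pool.Agent.Q218.WE

open Pool.Agent.H4R2.LO (Zd)
open Pool.Agent.TH794.HK
open Pool.Agent.TH794.QE
open Pool.Agent.TH794.LL2 (gL)
open Pool.Agent.TH794.QD
open Pool.Agent.W788.MFP.Four (T e NN adj NN_pos adj_neg)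
open Pool.Agent.W788.MFP.Form (adj_abs)
open Pool.Agent.W788.MFP.Site (z)
open Pool.Agent.Q218.UD (D0 D1 D01 D_low D0_int D0_mass)
open Pool.Agent.W788.BK.Num

/-- a polynomial is Lipschitz continuous on an interval -/
theorem pol_lip (P : ℝ[X]) (X : ℝ) : ∃ Lp : ℝ, 0 ≤ Lp ∧ ∀ x y : ℝ, |x| ≤ X → |y| ≤ X →
    |P.eval x - P.eval y| ≤ Lp * |x - y| := by
  obtain ⟨C, hC⟩ := (isCompact_Icc (a := -X) (b := X)).exists_bound_of_continuousOn
    (f := fun x : ℝ => P.derivative.eval x) (by fun_prop)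
  refine ⟨max C 0, le_max_right _ _, fun x y hx hy => ?_⟩
  have h1 := Convex.norm_image_sub_le_of_norm_deriv_le (f := fun x : ℝ => P.eval x) (C := max C 0)
    (s := Icc (-X) X) (x := y) (y := x) (fun x _ => P.differentiableAt)
    (fun x hx' => by
      rw [Polynomial.deriv]
      exact (hC x hx').trans (le_max_left _ _)) (convex_Icc _ _) (abs_le.1 hy) (abs_le.1 hx)
  simpa [Real.norm_eq_abs] using h1

/-- the polynomial -/
theorem pol_ex (hA : S_AMPZ) (d : ℕ) (hd : 3 ≤ d) (v : Zd d) (κ : ℝ) (hκ : 0 < κ) (hκ1 : κ ≤ 1)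
    (e1 : ℝ) (he1 : 0 < e1) (he11 : e1 ≤ 1) : ∃ P : ℝ[X],
    (∀ x : ℝ, |x| ≤ 2 * d → |P.eval x| ≤ 2) ∧
    (∀ E : ℝ, |E| ≤ 2 * d - κ → |P.eval E - Fr d v E| ≤ e1) ∧
    (∀ E : ℝ, |E| ≤ 2 * d - κ → |Fr d v E| ≤ 1) := by
  have hd3 : (3 : ℝ) ≤ d := by exact_mod_cast hd
  obtain ⟨m, hm, hlow⟩ := D_low d hd κ hκ hκ1
  have c0 : Continuous (D0 d) := Pool.Agent.Q218.AD.gf0_cont Pool.Agent.W918.BK.Osc.osc d hd
  have cg := gz_cont hA d hd v
  obtain ⟨X, hX⟩ : ∃ X, X = 2 * (d : ℝ) - κ := ⟨_, rfl⟩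
  have hX0 : 0 ≤ X := by rw [hX]; linarith
  obtain ⟨cl, hcl⟩ : ∃ cl : ℝ → ℝ, cl = fun x => max (-X) (min X x) := ⟨_, rfl⟩
  have hclc : Continuous cl := by rw [hcl]; fun_prop
  have hcla : ∀ x, |cl x| ≤ X := by
    intro x
    rw [hcl, abs_le]
    exact ⟨le_max_left _ _, max_le (by linarith) (min_le_left _ _)⟩
  have hcle : ∀ x, |x| ≤ X → cl x = x := by
    intro x hx
    rw [abs_le] at hx
    rw [hcl]
    simp only
    rw [min_eq_right hx.2, max_eq_right hx.1]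
  have hpos : ∀ x, |x| ≤ X → 0 < D0 d x := by
    intro x hx
    rw [hX] at hx
    have h1 := hlow x hx
    have h2 := (D01 d hd x).2
    linarith
  have hFc : Continuous fun x => Fr d v (cl x) := by
    unfold Fr
    exact (cg.comp hclc).div (c0.comp hclc) fun x => (hpos _ (hcla x)).ne'
  have hF1 : ∀ x, |x| ≤ X → |Fr d v x| ≤ 1 := by
    intro x hx
    unfold Fr
    rw [abs_div, abs_of_pos (hpos x hx)]
    exact div_le_one_of_le₀ (gz_le hA d hd v x) (hpos x hx).le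
  obtain ⟨P, hP⟩ := exists_polynomial_near_of_continuousOn (-(2 * (d : ℝ))) (2 * (d : ℝ))
    (fun x => Fr d v (cl x)) hFc.continuousOn e1 he1
  refine ⟨P, fun x hx => ?_, fun E hE => ?_, fun E hE => hF1 E (by rw [hX]; exact hE)⟩
  · have h1 := hP x (abs_le.1 hx)
    have h2 := hF1 (cl x) (hcla x)
    have h3 : P.eval x = (P.eval x - Fr d v (cl x)) + Fr d v (cl x) := by ring
    rw [h3]
    refine (abs_add_le _ _).trans ?_
    linarith
  · rw [← hX] at hE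
    have h1 := hP E (abs_le.1 (hE.trans (by rw [hX]; linarith)))
    rw [hcle E hE] at h1
    exact h1.le

/-- the average of the symbol is small -/
theorem sym_small (hA : S_AMPZ) (d : ℕ) (hd : 3 ≤ d) (v : Zd d) (κ : ℝ) (hκ : 0 < κ)
    (hκ1 : κ ≤ 1) (P : ℝ[X]) (hP : ∀ x : ℝ, |x| ≤ 2 * d → |P.eval x| ≤ 2) (Γm e1 e2 : ℝ)
    (hΓ0 : 0 ≤ Γm) (hΓ : ∀ E, D0 d E ≤ Γm) (he2 : 0 < e2) (he1 : Γm * e1 ≤ e2)
    (hPF : ∀ E : ℝ, |E| ≤ 2 * d - κ → |P.eval E - Fr d v E| ≤ e1) :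
    ∃ r1 ys : ℝ, 0 < r1 ∧ ∀ y : ℝ, ys ≤ y → ∀ (L : ℕ) [NeZero L], Odd L →
      Real.exp (6 * y) ≤ L → ∀ (E : ℝ) (z' : ℂ), |E| ≤ 2 * d - κ → |z'.re - E| ≤ r1 →
      Real.exp (-(81 / 40) * y) ≤ z'.im → z'.im ≤ r1 →
      ‖mv (NN d L) fun k : T d L => osym (ZO v P) (oO v P) k *
        ((((((adj k : ℝ) : ℂ) - z')⁻¹).im : ℝ) : ℂ)‖ ≤ e2 := by
  have hd3 : (3 : ℝ) ≤ d := by exact_mod_cast hd
  obtain ⟨m, hm, hlow⟩ := D_low d hd κ hκ hκ1
  obtain ⟨C, hC, hfin⟩ := finZ hA d hd v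
  have hC0 := hC.C0
  have hK := K9_nonneg
  have hCH := CH_nonneg d
  obtain ⟨Lp, hLp, hlip⟩ := pol_lip P (2 * d)
  -- the smallness of the radius
  obtain ⟨Kh, hKh⟩ : ∃ Kh, Kh = 2 * C * K9 + 2 * CH d + CH d := ⟨_, rfl⟩
  have hKh0 : 0 ≤ Kh := by rw [hKh]; positivity
  obtain ⟨r1, hr1, hr2, hr3⟩ : ∃ r1 : ℝ, 0 < r1 ∧
      Kh * (2 * r1) ^ (1 / 8 : ℝ) ≤ min (e2 / 4) (1 / 2) ∧
      Lp * (r1 * (Γm + 1) + Real.sqrt r1 * (1 + (Γm + 1))) ≤ e2 / 4 := by
    have h1 : Continuous fun r : ℝ => Kh * (2 * r) ^ (1 / 8 : ℝ) :=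
      continuous_const.mul ((Real.continuous_rpow_const (by norm_num)).comp (by fun_prop))
    have h2 : Continuous fun r : ℝ =>
        Lp * (r * (Γm + 1) + Real.sqrt r * (1 + (Γm + 1))) := by fun_prop
    have t1 := h1.tendsto 0
    have t2 := h2.tendsto 0
    rw [mul_zero, Real.zero_rpow (by norm_num), mul_zero] at t1
    rw [zero_mul, Real.sqrt_zero, zero_mul, add_zero, mul_zero] at t2
    have m1 : (0 : ℝ) < min (e2 / 4) (1 / 2) := by positivity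
    have m2 : (0 : ℝ) < e2 / 4 := by positivity
    have f1 := t1.eventually (ge_mem_nhds m1)
    have f2 := t2.eventually (ge_mem_nhds m2)
    have f3 := (f1.and f2)
    have f4 := (f3.filter_mono (nhdsWithin_le_nhds (s := Ioi 0))).and
      (self_mem_nhdsWithin (a := (0 : ℝ)) (s := Ioi 0))
    obtain ⟨r, ⟨hr1, hr2⟩, hr3⟩ := f4.exists
    exact ⟨r, hr3, hr1, hr2⟩
  obtain ⟨Kf, hKf⟩ : ∃ Kf, Kf = 2 * C + 2 * (28 * d) + 28 * (d : ℝ) := ⟨_, rfl⟩
  have hKf0 : 0 ≤ Kf := by rw [hKf]; positivity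
  obtain ⟨ys, hys⟩ := Filter.eventually_atTop.1 ((Filter.eventually_ge_atTop (1 : ℝ)).and
    (ev2 (Kf / min (e2 / 4) (1 / 2)) (-(39 / 20)) 0 0 (by norm_num)))
  refine ⟨r1, ys, hr1, fun y hy L _ _ hL E z' hE hzE hz1 hz2 => ?_⟩
  obtain ⟨hy1, n1⟩ := hys y hy
  simp only [pow_zero, mul_one, zero_mul, Real.exp_zero] at n1
  obtain ⟨t, ht⟩ : ∃ t, t = Real.exp (-(81 / 40) * y) := ⟨_, rfl⟩
  rw [← ht] at hz1
  have ht0 : 0 < t := by rw [ht]; positivity
  have ht1 : t ≤ 1 := by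
    rw [ht]
    exact Real.exp_le_one_iff.2 (by linarith)
  have hz0 : 0 < z'.im := ht0.trans_le hz1
  have hL0 : (0 : ℝ) < L := lt_of_lt_of_le (by positivity) hL
  have hmm : (0 : ℝ) < min (e2 / 4) (1 / 2) := by positivity
  -- the finite volume
  have hvol : ∀ K : ℝ, 0 ≤ K → K / L / t ^ 2 ≤ K * Real.exp (-(39 / 20) * y) := by
    intro K hK'
    have h1 : Real.exp (6 * y) * t ^ 2 ≤ L * t ^ 2 := by gcongr
    have h2 : Real.exp (6 * y) * t ^ 2 = (Real.exp (-(39 / 20) * y))⁻¹ := by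
      rw [ht, ← Real.exp_nat_mul, ← Real.exp_add, ← Real.exp_neg]
      congr 1
      push_cast
      ring
    rw [h2] at h1
    rw [div_div, div_eq_mul_inv]
    apply mul_le_mul_of_nonneg_left _ hK'
    have h3 := inv_anti₀ (by positivity) h1
    rw [inv_inv] at h3
    exact h3
  have hvolm : Kf * Real.exp (-(39 / 20) * y) ≤ min (e2 / 4) (1 / 2) := by
    rw [div_mul_eq_mul_div, div_le_one hmm] at n1
    exact n1
  -- the distance
  have hdist : ‖z' - (E : ℂ)‖ ≤ 2 * r1 := by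
    have h1 : z' - (E : ℂ) = ((z'.re - E : ℝ) : ℂ) + ((z'.im : ℝ) : ℂ) * Complex.I := by
      apply Complex.ext <;> simp
    rw [h1]
    refine (norm_add_le _ _).trans ?_
    rw [norm_mul, Complex.norm_I, mul_one, Complex.norm_real, Complex.norm_real,
      Real.norm_of_nonneg hz0.le, Real.norm_eq_abs]
    linarith
  have hrp : ‖z' - (E : ℂ)‖ ^ (1 / 8 : ℝ) ≤ (2 * r1) ^ (1 / 8 : ℝ) :=
    Real.rpow_le_rpow (norm_nonneg _) hdist (by norm_num)
  obtain ⟨ρ, hρ⟩ : ∃ ρ, ρ = (2 * r1) ^ (1 / 8 : ℝ) := ⟨_, rfl⟩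
  rw [← hρ] at hrp hr2
  have hρ0 : 0 ≤ ρ := by rw [hρ]; positivity
  -- the four terms
  have a1 : |(gW (we (L := L) v) z').im - gz d v E| ≤ 2 * C / L / t ^ 2 + 2 * C * K9 * ρ := by
    have h1 := hfin L t ht0 ht1 z' hz1
    have h2 := hC.holder z' (E : ℂ) hz0.le (by simp)
    have h3 : (gW (we (L := L) v) z').im - gz d v E =
        (gW (we (L := L) v) z' - GF (FZ d v) z').im + (GF (FZ d v) z' - GF (FZ d v) E).im := by
      rw [Complex.sub_im, Complex.sub_im]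
      unfold gz
      ring
    rw [h3]
    refine (abs_add_le _ _).trans (add_le_add ((Complex.abs_im_le_norm _).trans h1)
      ((Complex.abs_im_le_norm _).trans (h2.trans ?_)))
    exact mul_le_mul_of_nonneg_left hrp (by positivity)
  have a2 : |(gL d L z').im - D0 d E| ≤ 28 * d / L / t ^ 2 + CH d * ρ := by
    have h1 := fin0 (L := L) Pool.Agent.W918.BK.Osc.osc d hd t ht0 ht1 z' hz1
    have h2 := hol0 Pool.Agent.W918.BK.Osc.osc d hd z' (E : ℂ) hz0.le (by simp)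
    have h3 : (gL d L z').im - D0 d E =
        (gL d L z' - GF (F0 d) z').im + (GF (F0 d) z' - GF (F0 d) E).im := by
      rw [Complex.sub_im, Complex.sub_im]
      unfold D0
      ring
    rw [h3]
    refine (abs_add_le _ _).trans (add_le_add ((Complex.abs_im_le_norm _).trans h1)
      ((Complex.abs_im_le_norm _).trans (h2.trans ?_)))
    exact mul_le_mul_of_nonneg_left hrp hCH
  have v1 := hvol (2 * C) (by positivity)
  have v2 := hvol (28 * d) (by positivity)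
  obtain ⟨x, hx⟩ : ∃ x, x = Real.exp (-(39 / 20) * y) := ⟨_, rfl⟩
  rw [← hx] at v1 v2 hvolm
  have hx0 : 0 < x := by rw [hx]; positivity
  have m1 := min_le_left (e2 / 4) (1 / 2)
  have m2 := min_le_right (e2 / 4) (1 / 2)
  have hcx : 0 ≤ C * x := by positivity
  have hdx : 0 ≤ d * x := by positivity
  have hcρ : 0 ≤ C * K9 * ρ := by positivity
  have hhρ : 0 ≤ CH d * ρ := by positivity
  rw [hKf] at hvolm
  rw [hKh] at hr2
  have hD0E : 0 ≤ D0 d E := (D01 d hd E).1.trans (D01 d hd E).2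
  have hgLle : (gL d L z').im ≤ Γm + 1 := by
    have h1 := (abs_le.1 a2).2
    have h2 := hΓ E
    nlinarith
  have hEX : |E| ≤ 2 * (d : ℝ) := by linarith
  have a4 := mv_pol (d := d) (L := L) (fun x => P.eval x) Lp r1 E hLp
    (fun x hx => hlip x E hx hEX) z' hz0 hzE
  have hsq : Real.sqrt z'.im ≤ Real.sqrt r1 := Real.sqrt_le_sqrt hz2
  have hg0 : 0 ≤ (gL d L z').im := by
    rw [← gW_one]
    unfold gW
    rw [mv_im]
    unfold rv
    have hN := NN_pos (d := d) (L := L)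
    refine mul_nonneg (by positivity) (Finset.sum_nonneg fun k _ => ?_)
    rw [Complex.im_ofReal_mul, one_mul, Complex.inv_im]
    simp only [Complex.sub_im, Complex.ofReal_im, zero_sub, neg_neg]
    have := Complex.normSq_nonneg (((adj k : ℝ) : ℂ) - z')
    positivity
  have a5 : Lp * (r1 * (gL d L z').im + Real.sqrt z'.im * (1 + (gL d L z').im)) ≤ e2 / 4 := by
    refine le_trans ?_ hr3
    gcongr
  -- the sum
  have hmean : (mv (NN d L) fun k : T d L => osym (ZO v P) (oO v P) k *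
        ((((((adj k : ℝ) : ℂ) - z')⁻¹).im : ℝ) : ℂ)) =
      (1 / 3 : ℂ) * (((((gW (we (L := L) v) z').im : ℝ) : ℂ)) -
        mv (NN d L) (fun k : T d L => ((P.eval (adj k) : ℝ) : ℂ) *
      ((((((adj k : ℝ) : ℂ) - z')⁻¹).im : ℝ) : ℂ))) := by
    rw [← mv_conj, ← mv_sub, ← mv_mul]
    congr 1
    funext k
    rw [sym_T]
    ring
  rw [hmean]
  obtain ⟨A, hAd⟩ : ∃ A, A = mv (NN d L) (fun k : T d L => ((P.eval (adj k) : ℝ) : ℂ) *
      ((((((adj k : ℝ) : ℂ) - z')⁻¹).im : ℝ) : ℂ)) := ⟨_, rfl⟩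
  rw [← hAd] at a4 ⊢
  obtain ⟨g, hg⟩ : ∃ g, g = (gL d L z').im := ⟨_, rfl⟩
  rw [← hg] at a2 a4 a5 hgLle hg0
  have hsplit : ((((gW (we (L := L) v) z').im : ℝ) : ℂ)) - A =
      ((((gW (we (L := L) v) z').im - gz d v E : ℝ) : ℂ)) +
      (((D0 d E * (Fr d v E - P.eval E) : ℝ)) : ℂ) +
      ((P.eval E * (D0 d E - g) : ℝ) : ℂ) + (((P.eval E * g : ℝ) : ℂ) - A) := by
    have h1 : D0 d E * Fr d v E = gz d v E := by
      unfold Fr
      have h2 := hlow E hE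
      have h3 := (D01 d hd E).2
      have h4 : D0 d E ≠ 0 := by linarith
      field_simp
    rw [mul_sub, h1]
    push_cast
    ring
  rw [hsplit, norm_mul]
  have h3 : ‖(1 / 3 : ℂ)‖ = 1 / 3 := by
    rw [norm_div, norm_one]
    norm_num
  rw [h3]
  have b2 : |D0 d E * (Fr d v E - P.eval E)| ≤ e2 := by
    rw [abs_mul, abs_of_nonneg hD0E, abs_sub_comm]
    have h4 := hPF E hE
    calc D0 d E * |P.eval E - Fr d v E| ≤ Γm * e1 :=
          mul_le_mul (hΓ E) h4 (abs_nonneg _) hΓ0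
      _ ≤ e2 := he1
  have b3 : |P.eval E * (D0 d E - g)| ≤ 2 * (28 * d / L / t ^ 2 + CH d * ρ) := by
    rw [abs_mul, abs_sub_comm]
    exact mul_le_mul (hP E hEX) a2 (abs_nonneg _) (by norm_num)
  have b4 := a4
  rw [norm_sub_rev] at b4
  have htot := norm_add_le (((((gW (we (L := L) v) z').im - gz d v E : ℝ) : ℂ)) +
      (((D0 d E * (Fr d v E - P.eval E) : ℝ)) : ℂ) +
      ((P.eval E * (D0 d E - g) : ℝ) : ℂ)) (((P.eval E * g : ℝ) : ℂ) - A)
  have htot2 := norm_add₃_le (a := ((((gW (we (L := L) v) z').im - gz d v E : ℝ) : ℂ)))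
    (b := (((D0 d E * (Fr d v E - P.eval E) : ℝ)) : ℂ))
    (c := ((P.eval E * (D0 d E - g) : ℝ) : ℂ))
  rw [Complex.norm_real, Complex.norm_real, Complex.norm_real, Real.norm_eq_abs,
    Real.norm_eq_abs, Real.norm_eq_abs] at htot2
  linarith

end Pool.Agent.Q218.WE
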