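import Pool.Agent.Q218.WE.Kap
import Pool.Agent.TH794.QE.FreeA

/-! The mean of the twisted chain with a symbol of small average, from the free data. -/

set_option autoImplicit false
set_option linter.unusedSectionVars false

open scoped BigOperators Matrix
open MeasureTheory

namespace Pool.Agent.Q218.WE

open Pool.Agent.TH794.HK
open Pool.Agent.TH794.QD
open Pool.Agent.TH794.QE
open Pool.Agent.W788.BK
open Pool.Agent.TH794.LL2 (gL)
open Pool.Agent.W788.MFP.Four (T e NN adj K ft Op q NN_pos e_zero)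

variable {d L : ℕ} [NeZero L]

theorem meanOL (hES : S_ES) (hFA : S_FAC)
    (E1 δ θ η a v2 Q β s2 g g1 ε e1 c0 : ℝ) (P0 : T d L) (o : T d L → ℂ) (ho : ∀ k, ‖o k‖ ≤ 1)
    (hδ : 0 < δ) (hη : 0 < η) (hη1 : η ≤ 1)
    (hadm : Adm (D0 E1 δ) (AA (d := d) (L := L) E1 δ θ) a v2 Q)
    (μ : Measure ℝ) [IsProbabilityMeasure μ] (hβ : 0 < β) (hμ : ∀ᵐ s ∂μ, |s| ≤ β)
    (h0 : ∫ s, s ∂μ = 0) (h2 : ∫ s, s ^ 2 ∂μ = s2) (hs2 : 0 < s2)
    (hβa : β * a * (3 / η) ≤ 1) (hβv : β ^ 2 * v2 ≤ 1)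
    (hε0 : 0 ≤ ε) (hε1 : ε ≤ 1 / 2) (he0 : 0 ≤ e1) (he1 : e1 ≤ 1 / 4)
    (hε : 4 * β ^ 3 * a * v2 * (3 / η) ^ 3 +
      s2 * (2 * β * (3 * Q) * Real.sqrt v2 * (3 / η) ^ 4) ≤ ε)
    (hg : ∀ E' : ℝ, ∑ k : T d L, (JJ E' (η * δ) k)⁻¹ ≤ g * NN d L) (hg1 : 1 ≤ g)
    (hlow : s2 * (∑ P : T d L, (1 - hi θ P)) ≤ e1 * (η ^ 2 * δ ^ 2) * NN d L)
    (hc0 : c0 = 4 / 3 * (ε + e1 + (2 * η + 8 * s2 ^ 2 * g ^ 2 / δ ^ 2))) (hc01 : c0 ≤ 1)
    (hgg : ∑ k : T d L, (JJ E1 δ k)⁻¹ ≤ g1 * NN d L) (hgδ : s2 * (2 * g) ≤ δ)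
    (t ζ : ℝ) (htδ : t = η * δ) (U : ℝ → Prop) (Ch X0 X : ℝ) (γ0 γ1 : ℝ → ℂ)
    (hfd : FD d L U Ch X0 t γ0 γ1) (E : ℝ) (hE : U E) (hEE : |E1 - E| ≤ ζ)
    (hU : ∀ x, |x - E1| ≤ s2 * (2 * g) → U x)
    (ml Γm W H err ε0 : ℝ) (hml : 0 < ml) (hlow1 : 2 * ml ≤ (γ0 E).im)
    (hup : (γ0 E).im ≤ Γm) (hε00 : 0 ≤ ε0) (hε01 : ε0 ≤ 1)
    (hsym : ∀ z : ℂ, |z.re - E| ≤ s2 * (2 * g) + ζ → t ≤ z.im → z.im ≤ s2 * (2 * g) + t →
      ‖mv (NN d L) fun k : T d L => o k * ((((((adj k : ℝ) : ℂ) - z)⁻¹).im : ℝ) : ℂ)‖ ≤ ε0 * ml)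
    (hW : W = Γm + ml + 1)
    (hX : X = X0 + Ch * (2 * (s2 * (2 * g) + t + ζ)) ^ (1 / 8 : ℝ))
    (hXml : X + c0 * g ≤ ml) (hts : t ≤ s2) (hcg : 2 * (c0 * g * s2) ≤ t)
    (hsm : s2 * (2 * g) + t ≤ 1)
    (hH : H = 3 * g / (s2 * ml))
    (herr : err = ε * (g1 + g + 2 * δ * H) + 3 * c0 * (η * δ + s2 * (2 * g) + 3 * e1 * (η * δ)) * H +
      6 * e1 * (η * δ) * H) :
    ‖∫ V, FPo E1 δ θ η P0 o (fun k => (starRingEnd ℂ) (o k)) V ∂(PP (T d L) μ)‖ ≤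
      5 * (t / s2) + 4 * W * ε0 ^ 2 + err * (1 + 6 * W * (s2 / t)) := by
  obtain ⟨m, z, hm0, hmn, hz, hmg, hmain⟩ := meanO1 hES hFA E1 δ θ η a v2 Q β s2 g g1 ε e1 c0 P0
    o ho hδ hη hη1 hadm μ hβ hμ h0 h2 hs2 hβa hβv hε0 hε1 he0 he1 hε hg hg1 hlow hc0 hc01 hgg hgδ
  rw [← htδ] at hz hmain herr
  have ht : 0 < t := by rw [htδ]; positivity
  have hζ0 : 0 ≤ ζ := (abs_nonneg _).trans hEE
  have hc00 : 0 ≤ c0 * g := (norm_nonneg _).trans hmg
  have hzr : z.re = E1 + s2 * m.re := by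
    rw [hz]
    simp
  have hzi : z.im = s2 * m.im + t := by
    rw [hz]
    simp
  have hmre : |m.re| ≤ 2 * g := (Complex.abs_re_le_norm m).trans hmn
  have hmim : m.im ≤ 2 * g := (le_abs_self _).trans ((Complex.abs_im_le_norm m).trans hmn)
  have hsre : |s2 * m.re| ≤ s2 * (2 * g) := by
    rw [abs_mul, abs_of_pos hs2]
    exact mul_le_mul_of_nonneg_left hmre hs2.le
  have hsim : s2 * m.im ≤ s2 * (2 * g) := mul_le_mul_of_nonneg_left hmim hs2.le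
  have hsim0 : 0 ≤ s2 * m.im := mul_nonneg hs2.le hm0
  have hUz : U z.re := by
    apply hU
    rw [hzr]
    simpa using hsre
  have hzt : t ≤ z.im := by rw [hzi]; linarith
  have hzg : z.im ≤ s2 * (2 * g) + t := by rw [hzi]; linarith
  have hz1 : z.im ≤ 1 := hzg.trans hsm
  have hz0 : 0 < z.im := ht.trans_le hzt
  have hS0 : 0 ≤ s2 * (2 * g) + t + ζ := by
    have : 0 ≤ s2 * (2 * g) := by positivity
    linarith
  have hzE : |z.re - E| ≤ s2 * (2 * g) + ζ := by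
    have h4 : z.re - E = s2 * m.re + (E1 - E) := by
      rw [hzr]
      ring
    rw [h4]
    exact (abs_add_le _ _).trans (add_le_add hsre hEE)
  have hdist : ‖z - (E : ℂ)‖ ≤ 2 * (s2 * (2 * g) + t + ζ) := by
    have e1 : z - (E : ℂ) = ((z.re - E : ℝ) : ℂ) + (z.im : ℂ) * Complex.I := by
      conv_lhs => rw [← Complex.re_add_im z]
      push_cast
      ring
    rw [e1]
    refine (norm_add_le _ _).trans ?_
    rw [norm_mul, Complex.norm_I, mul_one, Complex.norm_real, Complex.norm_real,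
      Real.norm_of_nonneg hz0.le, Real.norm_eq_abs]
    linarith
  have hzX : Ch * ‖z - (E : ℂ)‖ ^ (1 / 8 : ℝ) + X0 ≤ X := by
    rw [hX]
    have h3 := Real.rpow_le_rpow (norm_nonneg _) hdist (show (0 : ℝ) ≤ 1 / 8 by norm_num)
    have h4 := mul_le_mul_of_nonneg_left h3 hfd.C0
    linarith
  have l0 := (hfd.lim0 z E hUz hE hzt hz1).trans hzX
  -- imaginary parts
  have a0 : |(gL d L z).im - (γ0 E).im| ≤ X := by
    rw [← Complex.sub_im]
    exact (Complex.abs_im_le_norm _).trans l0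
  have a2 : |m.im - (gL d L z).im| ≤ c0 * g := by
    rw [← Complex.sub_im]
    exact (Complex.abs_im_le_norm _).trans hmg
  have b0 := abs_le.1 a0
  have b2 := abs_le.1 a2
  have hXm : X ≤ ml := by linarith only [hXml, hc00]
  have hΓl : ml ≤ (gL d L z).im := by linarith only [b0.1, hXm, hlow1]
  have hml1 : ml ≤ m.im := by linarith only [b0.1, b2.1, hXml, hlow1]
  have hmup : m.im ≤ Γm + ml := by linarith only [b0.2, b2.2, hXml, hup]
  have hm00 : 0 < m.im := hml.trans_le hml1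
  obtain ⟨hrv, hν⟩ := hmain hm00
  have hΓ3 : (gL d L z).im ≤ 3 * g := by
    have q1 : c0 * g ≤ g := mul_le_of_le_one_left (by linarith only [hg1]) hc01
    linarith only [b2.1, q1, hmim]
  have hHle : (gL d L z).im / (t + s2 * m.im) ≤ H := by
    rw [hH]
    apply div_le_div₀ (by positivity) hΓ3 (by positivity)
    have q1 : s2 * ml ≤ s2 * m.im := mul_le_mul_of_nonneg_left hml1 hs2.le
    linarith only [q1, ht]
  have hH'0 : 0 ≤ (gL d L z).im / (t + s2 * m.im) := by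
    apply div_nonneg (by linarith only [hΓl, hml])
    linarith only [ht, hsim0]
  have hc0' : 0 ≤ c0 := by
    rw [hc0]
    positivity
  have hge : (1 : ℝ) ≤ g := hg1
  have herr' : ε * (g1 + g + 2 * δ * ((gL d L z).im / (t + s2 * m.im))) +
      3 * c0 * (t + s2 * (2 * g) + 3 * e1 * t) * ((gL d L z).im / (t + s2 * m.im)) +
      6 * e1 * t * ((gL d L z).im / (t + s2 * m.im)) ≤ err := by
    rw [herr]
    gcongr
  obtain ⟨A, hA⟩ : ∃ A : T d L → ℂ, A = fun k => (((adj k : ℝ) : ℂ) - z)⁻¹ := ⟨_, rfl⟩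
  have hAk : ∀ k : T d L, (((adj k : ℝ) : ℂ) - z)⁻¹ = A k := fun k => by rw [hA]
  obtain ⟨ν, hνd⟩ : ∃ ν, ν = ∫ V, FPo E1 δ θ η P0 o (fun _ => 1) V ∂(PP (T d L) μ) := ⟨_, rfl⟩
  have hν1 := (hν (fun _ => 1) (fun _ => by simp)).trans herr'
  have hν2 := (hν (fun k => (starRingEnd ℂ) (o k))
    (fun k => by rw [Complex.norm_conj]; exact ho k)).trans herr'
  rw [← hνd] at hν1 hν2
  simp only [hAk, one_mul] at hν1 hν2
  simp only [hAk] at hrv
  have hW0 : 0 < W := by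
    rw [hW]
    have := hlow1.trans hup
    linarith
  have hωW : z.im ≤ W * s2 := by
    rw [hzi, hW]
    have q1 : s2 * m.im ≤ s2 * (Γm + ml) := mul_le_mul_of_nonneg_left hmup hs2.le
    have q2 : (Γm + ml + 1) * s2 = s2 * (Γm + ml) + s2 := by ring
    linarith only [q1, q2, hts]
  have hzi' : t + s2 * m.im = z.im := by rw [hzi]; ring
  rw [hzi'] at hrv
  obtain ⟨r, hr⟩ : ∃ r, r = t / (2 * W * s2) := ⟨_, rfl⟩
  have hr0 : 0 < r := by rw [hr]; positivity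
  have hr1 : r ≤ 1 := by
    rw [hr, div_le_one (by positivity)]
    linarith
  have hsH : s2 * rv (NN d L) (fun k => ‖A k‖ ^ 2) ≤ 1 - r := by
    rw [hrv]
    have q0 : s2 * ((gL d L z).im / z.im) = (s2 * (gL d L z).im) / z.im := by ring
    rw [q0, div_le_iff₀ hz0]
    have q1 : s2 * (gL d L z).im ≤ s2 * (m.im + c0 * g) := by
      apply mul_le_mul_of_nonneg_left _ hs2.le
      linarith only [b2.1]
    have q2 : s2 * (m.im + c0 * g) = s2 * m.im + c0 * g * s2 := by ring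
    have q3 : r * z.im ≤ t / 2 := by
      calc r * z.im ≤ t / (2 * W * s2) * (W * s2) := by
            rw [hr]
            gcongr
        _ = t / 2 := by field_simp
    have q4 : (1 - r) * z.im = z.im - r * z.im := by ring
    rw [q4]
    linarith only [q1, q2, q3, hzi, hcg]
  have hα : s2 * ‖mv (NN d L) (fun k => o k * ((‖A k‖ ^ 2 : ℝ) : ℂ))‖ ≤ ε0 := by
    have q1 : ∀ k, ‖A k‖ ^ 2 = (z.im)⁻¹ * (A k).im := by
      intro k
      rw [hA]
      simp only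
      rw [Complex.inv_im, norm_inv, inv_pow, Complex.sq_norm]
      simp only [Complex.sub_im, Complex.ofReal_im, zero_sub, neg_neg]
      rw [div_eq_mul_inv, ← mul_assoc, inv_mul_cancel₀ hz0.ne', one_mul]
    have q2 : mv (NN d L) (fun k => o k * ((‖A k‖ ^ 2 : ℝ) : ℂ)) =
        (((z.im)⁻¹ : ℝ) : ℂ) * mv (NN d L) (fun k => o k * (((A k).im : ℝ) : ℂ)) := by
      rw [← mv_mul]
      congr 1
      funext k
      rw [q1]
      push_cast
      ring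
    rw [q2, norm_mul, Complex.norm_real, Real.norm_of_nonneg (inv_nonneg.2 hz0.le)]
    have q3 := hsym z hzE hzt hzg
    simp only [hAk] at q3
    have q4 : s2 * ml ≤ z.im := by
      rw [hzi]
      have := mul_le_mul_of_nonneg_left hml1 hs2.le
      linarith
    calc s2 * ((z.im)⁻¹ * ‖mv (NN d L) (fun k => o k * (((A k).im : ℝ) : ℂ))‖) ≤
        s2 * ((z.im)⁻¹ * (ε0 * ml)) := by gcongr
      _ = ε0 * (s2 * ml) * (z.im)⁻¹ := by ring
      _ ≤ ε0 * z.im * (z.im)⁻¹ := by gcongr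
      _ = ε0 := by field_simp
  have hkap := kap_bd (NN d L) t s2 err r ε0 NN_pos ht hs2 hr0 hr1 hε00 hε01 (Equiv.addRight P0) A
    o ho hsH hα ν _ hν1 hν2
  refine hkap.trans (le_of_eq ?_)
  have e1 : 2 * (t / s2) * ε0 ^ 2 / r = 4 * W * ε0 ^ 2 := by
    rw [hr]
    field_simp
    ring
  have e2 : 3 / r = 6 * W * (s2 / t) := by
    rw [hr]
    field_simp
    ring
  rw [e1, e2]

end Pool.Agent.Q218.WE
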