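import Pool.Agent.Q218.LE.NumP

/-! The numerical conditions for the symbols. -/

set_option autoImplicit false
set_option linter.unusedSectionVars false

open Filter

namespace Pool.Agent.Q218.WE

open Pool.Agent.W788.BK.Num
open Pool.Agent.TH794.QD
open Pool.Agent.TH794.HK
open Pool.Agent.TH794.LL2 (hexle sqrt_ex)

theorem numO (b A2 Ch ml r1 W e0 : ℝ) (d : ℕ) (hb : 0 < b) (hA20 : 0 < A2)
    (hCh : 0 ≤ Ch) (hml : 0 < ml) (hr1 : 0 < r1) (hW : 0 < W) (he0 : 0 < e0) :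
    ∀ᶠ y : ℝ in atTop, ∀ A1 : ℝ, A1 = A2 * y → ∀ (v s2 g g1 c0 t ε e1 η δ ζ X0 X Lr H err : ℝ),
    v = Real.exp (-(1 / 3000) * y) → 1 ≤ g → g ≤ A1 * y → 0 ≤ g1 → g1 ≤ A1 * y →
    v * Real.exp (-2 * y) ≤ s2 → s2 ≤ (b * Real.exp (-1 * y)) ^ 2 → 0 ≤ c0 → c0 ≤ 1 →
    c0 * g ≤ Real.exp (-(29 / 500) * y) → c0 * g * s2 / t ≤ Real.exp (-(11 / 200) * y) →
    Real.exp (-(81 / 40) * y) ≤ t → t ≤ Real.exp (-(161 / 80) * y) → Real.exp (6 * y) ≤ Lr →
    ε = Real.exp (-(17 / 50) * y) → e1 = Real.exp (-(1 / 10) * y) →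
    δ = Real.exp (-(97 / 50) * y) → t = η * δ → ζ = Real.exp (-10 * y) → 0 ≤ X0 →
    X0 ≤ 56 * d / Lr / t ^ 2 → X = X0 + Ch * (2 * (s2 * (2 * g) + t + ζ)) ^ (1 / 8 : ℝ) →
    H = 3 * g / (s2 * ml) →
    err = ε * (g1 + g + 2 * δ * H) + 3 * c0 * (η * δ + s2 * (2 * g) + 3 * e1 * (η * δ)) * H +
      6 * e1 * (η * δ) * H →
    X + c0 * g ≤ ml ∧ s2 * (2 * g) + t ≤ 1 ∧ s2 * (2 * g) + ζ ≤ r1 ∧ s2 * (2 * g) + t ≤ r1 ∧
      s2 * (2 * g) ≤ δ ∧ 2 * (c0 * g * s2) ≤ t ∧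
      5 * (t / s2) + err * (1 + 6 * W * (s2 / t)) ≤ e0 := by
  obtain ⟨CE, hCE⟩ : ∃ CE, CE = 2 * b ^ 2 + 6 / ml + 36 / ml + 18 / ml + 18 / ml := ⟨_, rfl⟩
  have hCE0 : 0 < CE := by rw [hCE]; positivity
  filter_upwards [eventually_ge_atTop 1,
    numX8 d b A2 (Ch * 2 ^ (1 / 8 : ℝ)) ml hb hA20 (by positivity) hml,
    ev2 (4 * (b ^ 2 * A2)) (-2) 0 2 (by norm_num),
    ev2 2 (-(161 / 80)) 0 0 (by norm_num),
    ev2 (2 * (1 / r1) * (2 * (b ^ 2 * A2))) (-2) 0 2 (by norm_num),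
    ev2 (2 * (1 / r1)) (-10) 0 0 (by norm_num),
    ev2 (2 * (b ^ 2 * A2)) (-2) (-(97 / 50)) 2 (by norm_num),
    ev2 (2 * (1 / r1)) (-(161 / 80)) 0 0 (by norm_num),
    ev2 2 (-(11 / 200)) 0 0 (by norm_num),
    ev2 (10 / e0) (-(1 / 100)) 0 0 (by norm_num),
    ev2 ((1 + 6 * W) * (2 / e0) * (CE * A2)) (-(1 / 20)) 0 2 (by norm_num)] with
    y hy1 hX8 m1 m2 m3 m4 m5 m6 m7 m8 m9
  simp only [pow_zero, mul_one, zero_mul, Real.exp_zero] at m1 m2 m3 m4 m6 m7 m8 m9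
  intro A1 hA1 v s2 g g1 c0 t ε e1 η δ ζ X0 X Lr H err hvd hg1 hgA hg10 hg1A hs hs' hc00 hc01 hcg
    hcgs ht ht' hL hε he1 hδ htηδ hζ hX00 hX0 hX hH herr
  have hP2 : A1 * y = A2 * y ^ 2 := by rw [hA1]; ring
  obtain ⟨P, hP⟩ : ∃ P, P = A2 * y ^ 2 := ⟨_, rfl⟩
  have hgP : g ≤ P := by rw [hP, ← hP2]; exact hgA
  have hg1P : g1 ≤ P := by rw [hP, ← hP2]; exact hg1A
  have hP1 : 1 ≤ P := hg1.trans hgP
  have hg0 : 0 < g := by linarith
  have hv0 : 0 < v := by rw [hvd]; positivity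
  have hs20 : 0 < s2 := lt_of_lt_of_le (by positivity) hs
  have ht0 : 0 < t := lt_of_lt_of_le (Real.exp_pos _) ht
  have hδ0 : 0 < δ := by rw [hδ]; positivity
  have hζ0 : 0 < ζ := by rw [hζ]; positivity
  have hε0 : 0 < ε := by rw [hε]; positivity
  have he10 : 0 < e1 := by rw [he1]; positivity
  have he11 : e1 ≤ 1 := by rw [he1]; exact Real.exp_le_one_iff.2 (by linarith)
  have hs2b : s2 ≤ b ^ 2 * Real.exp (-2 * y) := by
    refine hs'.trans (le_of_eq ?_)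
    rw [mul_pow, ex_pow]
    norm_num
  have htinv : t⁻¹ ≤ Real.exp (81 / 40 * y) := by
    have h1 := inv_anti₀ (Real.exp_pos _) ht
    rw [ex_inv] at h1
    norm_num at h1 ⊢
    exact h1
  have hs2g : s2 * (2 * g) ≤ 2 * (b ^ 2 * A2) * y ^ 2 * Real.exp (-2 * y) := by
    calc s2 * (2 * g) ≤ (b ^ 2 * Real.exp (-2 * y)) * (2 * P) := by gcongr
      _ = _ := by rw [hP]; ring
  have hs2g0 : 0 ≤ s2 * (2 * g) := by positivity
  have hX' : X = X0 + Ch * 2 ^ (1 / 8 : ℝ) * (s2 * (2 * g) + t + ζ) ^ (1 / 8 : ℝ) := by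
    rw [hX, Real.mul_rpow (by positivity) (by positivity), mul_assoc]
  obtain ⟨x1, -, x3, -⟩ := hX8 A1 hA1 s2 g (c0 * g) t ζ X0 X Lr hs20 hg1 hgA hs' hcg ht ht' hL hζ
    hX00 hX0 hX'
  have hts : t / s2 ≤ Real.exp (-(1 / 100) * y) := by
    rw [div_le_iff₀ hs20]
    calc t ≤ Real.exp (-(161 / 80) * y) := ht'
      _ ≤ Real.exp (-(1 / 100) * y) * (v * Real.exp (-2 * y)) := by
          rw [hvd, ex_mul, ex_mul]
          exact hexle hy1 _ _ (by norm_num)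
      _ ≤ _ := by gcongr
  have hts1 : t ≤ s2 := by
    have h1 : t / s2 ≤ 1 := hts.trans (Real.exp_le_one_iff.2 (by linarith))
    rwa [div_le_one hs20] at h1
  have hg2r : s2 * (2 * g) ≤ r1 / 2 := by
    refine hs2g.trans ?_
    calc 2 * (b ^ 2 * A2) * y ^ 2 * Real.exp (-2 * y) =
          r1 / 2 * (2 * (1 / r1) * (2 * (b ^ 2 * A2)) * y ^ 2 * Real.exp (-2 * y)) := by
          field_simp
      _ ≤ r1 / 2 * 1 := by gcongr
      _ = _ := mul_one _
  refine ⟨x1, ?_, ?_, ?_, ?_, ?_, ?_⟩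
  · have h1 : s2 * (2 * g) ≤ 1 / 2 := by
      calc s2 * (2 * g) ≤ 2 * (b ^ 2 * A2) * y ^ 2 * Real.exp (-2 * y) := hs2g
        _ = 1 / 2 * (4 * (b ^ 2 * A2) * y ^ 2 * Real.exp (-2 * y)) := by ring
        _ ≤ 1 / 2 * 1 := by gcongr
        _ = _ := mul_one _
    have h2 : t ≤ 1 / 2 := by linarith
    linarith
  · have h2 : ζ ≤ r1 / 2 := by
      rw [hζ]
      calc Real.exp (-10 * y) = r1 / 2 * (2 * (1 / r1) * Real.exp (-10 * y)) := by
            field_simp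
        _ ≤ r1 / 2 * 1 := by gcongr
        _ = _ := mul_one _
    linarith
  · have h2 : t ≤ r1 / 2 := by
      refine ht'.trans ?_
      calc Real.exp (-(161 / 80) * y) = r1 / 2 * (2 * (1 / r1) * Real.exp (-(161 / 80) * y)) := by
            field_simp
        _ ≤ r1 / 2 * 1 := by gcongr
        _ = _ := mul_one _
    linarith
  · rw [hδ]
    exact hs2g.trans m5
  · have h1 : 2 * (c0 * g * s2 / t) ≤ 1 := by linarith
    have h2 : 2 * (c0 * g * s2) / t ≤ 1 := by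
      refine le_trans (le_of_eq ?_) h1
      ring
    rwa [div_le_one ht0] at h2
  -- the final bound
  obtain ⟨r, hr⟩ : ∃ r, r = s2 / t := ⟨_, rfl⟩
  have hr1 : 1 ≤ r := by rw [hr, le_div_iff₀ ht0]; linarith
  have hr0 : 0 < r := by linarith
  have hr2 : r ≤ b ^ 2 * Real.exp (1 / 40 * y) := by
    rw [hr, div_eq_mul_inv]
    calc s2 * t⁻¹ ≤ (b ^ 2 * Real.exp (-2 * y)) * Real.exp (81 / 40 * y) := by gcongr
      _ = _ := by
        rw [mul_assoc, ex_mul]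
        norm_num
  have hP0 : 0 < P := by linarith
  obtain ⟨x, hx⟩ : ∃ x, x = Real.exp (-(1 / 20) * y) := ⟨_, rfl⟩
  have hx0 : 0 < x := by rw [hx]; positivity
  have hxl : ∀ a : ℝ, a ≤ -(1 / 20) → Real.exp (a * y) ≤ x := by
    intro a ha
    rw [hx]
    exact hexle hy1 _ _ ha
  have herr0 : 0 ≤ err := by
    rw [herr, ← htηδ, hH]
    positivity
  have herrr : err * r ≤ CE * P * x := by
    have e0' : err * r = ε * (g1 + g) * r + ε * (2 * δ * (3 * g / ml)) * t⁻¹ +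
        (9 / ml) * (c0 * g * (1 + 3 * e1) + 2 * g * (c0 * g * s2 / t)) + 18 * e1 * g / ml := by
      rw [herr, ← htηδ, hH, hr]
      field_simp
      ring
    rw [e0']
    have t1 : ε * (g1 + g) * r ≤ 2 * b ^ 2 * P * x := by
      calc ε * (g1 + g) * r ≤ ε * (P + P) * (b ^ 2 * Real.exp (1 / 40 * y)) := by gcongr
        _ = 2 * b ^ 2 * P * (Real.exp (-(17 / 50) * y) * Real.exp (1 / 40 * y)) := by
            rw [hε]
            ring
        _ ≤ 2 * b ^ 2 * P * x := by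
            rw [ex_mul]
            have := hxl (-(17 / 50) + 1 / 40) (by norm_num)
            gcongr
    have t2 : ε * (2 * δ * (3 * g / ml)) * t⁻¹ ≤ 6 / ml * P * x := by
      calc ε * (2 * δ * (3 * g / ml)) * t⁻¹ ≤ ε * (2 * δ * (3 * P / ml)) *
            Real.exp (81 / 40 * y) := by gcongr
        _ = 6 / ml * P * (Real.exp (-(17 / 50) * y) * Real.exp (-(97 / 50) * y) *
            Real.exp (81 / 40 * y)) := by
            rw [hε, hδ]
            ring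
        _ ≤ 6 / ml * P * x := by
            rw [ex_mul, ex_mul]
            have := hxl (-(17 / 50) + -(97 / 50) + 81 / 40) (by norm_num)
            gcongr
    have t3 : (9 / ml) * (c0 * g * (1 + 3 * e1) + 2 * g * (c0 * g * s2 / t)) ≤
        (36 / ml + 18 / ml) * P * x := by
      have q1 : c0 * g * (1 + 3 * e1) ≤ 4 * (P * x) := by
        have q0 : c0 * g ≤ x := hcg.trans (hxl _ (by norm_num))
        have q2 : c0 * g * (1 + 3 * e1) ≤ x * 4 := by
          apply mul_le_mul q0 (by linarith) (by positivity) hx0.le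
        have q3 : x ≤ P * x := le_mul_of_one_le_left hx0.le hP1
        linarith
      have q4 : 2 * g * (c0 * g * s2 / t) ≤ 2 * (P * x) := by
        have q0 : c0 * g * s2 / t ≤ x := hcgs.trans (hxl _ (by norm_num))
        calc 2 * g * (c0 * g * s2 / t) ≤ 2 * P * x := by gcongr
          _ = _ := by ring
      calc (9 / ml) * (c0 * g * (1 + 3 * e1) + 2 * g * (c0 * g * s2 / t)) ≤
            (9 / ml) * (4 * (P * x) + 2 * (P * x)) := by gcongr
        _ = _ := by ring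
    have t4 : 18 * e1 * g / ml ≤ 18 / ml * P * x := by
      have q0 : e1 ≤ x := by
        rw [he1]
        exact hxl _ (by norm_num)
      calc 18 * e1 * g / ml ≤ 18 * x * P / ml := by gcongr
        _ = _ := by ring
    rw [hCE]
    calc _ ≤ 2 * b ^ 2 * P * x + 6 / ml * P * x + (36 / ml + 18 / ml) * P * x +
          18 / ml * P * x := by linarith only [t1, t2, t3, t4]
      _ = _ := by ring
  rw [← hr]
  have u2 : 5 * (t / s2) ≤ e0 / 2 := by
    calc 5 * (t / s2) ≤ 5 * Real.exp (-(1 / 100) * y) := by gcongr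
      _ = e0 / 2 * (10 / e0 * Real.exp (-(1 / 100) * y)) := by
          field_simp
          norm_num
      _ ≤ e0 / 2 * 1 := by gcongr
      _ = _ := mul_one _
  have u3 : err * (1 + 6 * W * r) ≤ e0 / 2 := by
    have w1 : err ≤ err * r := le_mul_of_one_le_right herr0 hr1
    calc err * (1 + 6 * W * r) = err + 6 * W * (err * r) := by ring
      _ ≤ err * r + 6 * W * (err * r) := by gcongr
      _ = (1 + 6 * W) * (err * r) := by ring
      _ ≤ (1 + 6 * W) * (CE * P * x) := by gcongr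
      _ = e0 / 2 * ((1 + 6 * W) * (2 / e0) * (CE * A2) * y ^ 2 * x) := by
          rw [hP]
          field_simp
      _ ≤ e0 / 2 * 1 := by
          rw [hx]
          gcongr
      _ = _ := mul_one _
  linarith

end Pool.Agent.Q218.WE
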