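import Pool.Agent.Q218.WE.Sym
import Pool.Agent.Q218.WE.FinO
import Pool.Agent.Q218.WE.ParO
import Pool.Agent.Q218.LE.FreeE
import Mathlib.Topology.ContinuousMap.Weierstrass

/-! The free data of a symbol. -/

set_option autoImplicit false
set_option linter.unusedSectionVars false

open MeasureTheory Set Filter Topology
open scoped Polynomial

namespace Pool.Agent.Q218.WE

open Pool.Agent.H4R2.LO (Zd)
open Pool.Agent.TH794.HK
open Pool.Agent.TH794.QE
open Pool.Agent.TH794.LL2 (gL)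
open Pool.Agent.TH794.QD
open Pool.Agent.W788.MFP.Four (T e NN adj NN_pos adj_neg)
open Pool.Agent.W788.MFP.Form (adj_abs)
open Pool.Agent.W788.MFP.Site (z)
open Pool.Agent.Q218.UD (D0 D1 D01 D_low D0_int D0_mass)
open Pool.Agent.W788.BK.Num

section torus

variable {d L : ℕ} [NeZero L]

/-- the weight -/
noncomputable def we (v : Zd d) (k : T d L) : ℝ := (e k (z L v)).re

theorem we_le (v : Zd d) (k : T d L) : |we v k| ≤ 1 := by
  unfold we
  refine (Complex.abs_re_le_norm _).trans (le_of_eq ?_)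
  unfold e
  rw [ZMod.stdAddChar_apply]
  exact Circle.norm_coe _

/-- the average of the conjugate character -/
theorem mv_conj (v : Zd d) (z' : ℂ) :
    mv (NN d L) (fun k : T d L => (starRingEnd ℂ) (e k (z L v)) *
      ((((((adj k : ℝ) : ℂ) - z')⁻¹).im : ℝ) : ℂ)) = (((gW (we (L := L) v) z').im : ℝ) : ℂ) := by
  unfold gW
  rw [mv_im]
  have h1 : mv (NN d L) (fun k : T d L => (starRingEnd ℂ) (e k (z L v)) *
      ((((((adj k : ℝ) : ℂ) - z')⁻¹).im : ℝ) : ℂ)) =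
      mv (NN d L) (fun k : T d L => ((we v k * ((((adj k : ℝ) : ℂ) - z')⁻¹).im : ℝ) : ℂ)) := by
    have h2 : mv (NN d L) (fun k : T d L => (starRingEnd ℂ) (e k (z L v)) *
        ((((((adj k : ℝ) : ℂ) - z')⁻¹).im : ℝ) : ℂ)) -
        mv (NN d L) (fun k : T d L => ((we v k * ((((adj k : ℝ) : ℂ) - z')⁻¹).im : ℝ) : ℂ)) =
        0 := by
      rw [← mv_sub]
      refine mv_odd (NN d L) (Equiv.neg (T d L)) _ fun k => ?_
      simp only [Equiv.neg_apply]
      rw [adj_neg]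
      unfold we
      rw [Pool.Agent.W788.MFP.Four.e_neg_left, Complex.conj_conj, Complex.conj_re]
      push_cast
      have h3 : ((e k (z L v)).re : ℂ) = (e k (z L v) + (starRingEnd ℂ) (e k (z L v))) / 2 := by
        rw [Complex.add_conj]
        push_cast
        ring
      rw [h3]
      ring
    exact sub_eq_zero.1 h2
  rw [h1]
  unfold mv rv
  push_cast
  congr 1
  refine Finset.sum_congr rfl fun k _ => ?_
  rw [Complex.im_ofReal_mul]
  push_cast
  rfl

/-- the average of a function of the kinetic energy -/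
theorem mv_pol (f : ℝ → ℝ) (Lp X E : ℝ) (hLp : 0 ≤ Lp)
    (hf : ∀ x : ℝ, |x| ≤ 2 * d → |f x - f E| ≤ Lp * |x - E|) (z' : ℂ) (hz : 0 < z'.im)
    (hX : |z'.re - E| ≤ X) :
    ‖mv (NN d L) (fun k : T d L => ((f (adj k) : ℝ) : ℂ) *
      ((((((adj k : ℝ) : ℂ) - z')⁻¹).im : ℝ) : ℂ)) - ((f E * (gL d L z').im : ℝ) : ℂ)‖ ≤
      Lp * (X * (gL d L z').im + Real.sqrt z'.im * (1 + (gL d L z').im)) := by
  have hN := NN_pos (d := d) (L := L)
  have hg : (gL d L z').im = rv (NN d L) fun k : T d L => ((((adj k : ℝ) : ℂ) - z')⁻¹).im := by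
    rw [← gW_one]
    unfold gW
    rw [mv_im]
    unfold rv
    congr 1
    refine Finset.sum_congr rfl fun k _ => ?_
    simp only
    rw [Complex.im_ofReal_mul, one_mul]
  have e1 : ((f E * (gL d L z').im : ℝ) : ℂ) = mv (NN d L) (fun k : T d L =>
      ((f E : ℝ) : ℂ) * ((((((adj k : ℝ) : ℂ) - z')⁻¹).im : ℝ) : ℂ)) := by
    rw [mv_mul, hg]
    unfold mv rv
    push_cast
    ring
  rw [e1, ← mv_sub]
  obtain ⟨s, hs⟩ : ∃ s, s = Real.sqrt z'.im := ⟨_, rfl⟩
  have hs0 : 0 < s := by rw [hs]; exact Real.sqrt_pos.2 hz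
  have hss : s * s = z'.im := by rw [hs]; exact Real.mul_self_sqrt hz.le
  refine (mv_le hN (F := fun k : T d L => Lp * (X * ((((adj k : ℝ) : ℂ) - z')⁻¹).im +
    s * (1 + ((((adj k : ℝ) : ℂ) - z')⁻¹).im))) fun k => ?_).trans (le_of_eq ?_)
  · obtain ⟨a, ha⟩ : ∃ a : ℝ, a = adj k := ⟨_, rfl⟩
    have hak : |a| ≤ 2 * d := by rw [ha]; exact adj_abs k
    rw [← ha]
    have him : (((a : ℂ) - z')⁻¹).im = z'.im * ‖((a : ℂ) - z')⁻¹‖ ^ 2 := by
      rw [Complex.inv_im, norm_inv, inv_pow, Complex.sq_norm]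
      simp only [Complex.sub_im, Complex.ofReal_im, zero_sub, neg_neg]
      rw [div_eq_mul_inv]
    obtain ⟨A, hA⟩ : ∃ A, A = ‖((a : ℂ) - z')⁻¹‖ := ⟨_, rfl⟩
    rw [← hA] at him
    have hA0 : 0 ≤ A := by rw [hA]; exact norm_nonneg _
    have hI0 : 0 ≤ (((a : ℂ) - z')⁻¹).im := by rw [him]; positivity
    have hne : (a : ℂ) - z' ≠ 0 := by
      intro h0
      have := congrArg Complex.im h0
      simp at this
      linarith
    have hax : |a - z'.re| * A ≤ 1 := by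
      have h1 : |a - z'.re| ≤ ‖(a : ℂ) - z'‖ := by
        have := Complex.abs_re_le_norm ((a : ℂ) - z')
        simpa using this
      rw [hA, norm_inv]
      calc |a - z'.re| * ‖(a : ℂ) - z'‖⁻¹ ≤ ‖(a : ℂ) - z'‖ * ‖(a : ℂ) - z'‖⁻¹ := by gcongr
        _ = 1 := mul_inv_cancel₀ (norm_ne_zero_iff.2 hne)
    rw [← sub_mul, norm_mul, ← Complex.ofReal_sub, Complex.norm_real, Complex.norm_real,
      Real.norm_of_nonneg hI0, Real.norm_eq_abs]
    refine (mul_le_mul_of_nonneg_right (hf a hak) hI0).trans ?_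
    rw [mul_assoc]
    apply mul_le_mul_of_nonneg_left _ hLp
    have h1 : |a - E| ≤ |a - z'.re| + X := by
      have h2 : a - E = (a - z'.re) + (z'.re - E) := by ring
      rw [h2]
      exact (abs_add_le _ _).trans (by linarith)
    have h3 : |a - z'.re| * (((a : ℂ) - z')⁻¹).im ≤ s * (1 + (((a : ℂ) - z')⁻¹).im) := by
      rw [him, ← hss]
      have h4 : |a - z'.re| * (s * s * A ^ 2) = (|a - z'.re| * A) * (s * (s * A)) := by ring
      rw [h4]
      have h5 : (|a - z'.re| * A) * (s * (s * A)) ≤ 1 * (s * (s * A)) :=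
        mul_le_mul_of_nonneg_right hax (by positivity)
      refine h5.trans ?_
      rw [one_mul]
      apply mul_le_mul_of_nonneg_left _ hs0.le
      nlinarith [sq_nonneg (s * A - 1 / 2), mul_nonneg hs0.le hA0]
    calc |a - E| * (((a : ℂ) - z')⁻¹).im ≤ (|a - z'.re| + X) * (((a : ℂ) - z')⁻¹).im :=
          mul_le_mul_of_nonneg_right h1 hI0
      _ ≤ _ := by
          rw [add_mul]
          linarith
  · rw [rv_mul, rv_add, rv_mul, rv_mul, rv_add, ← hg, ← hs]
    congr 3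
    congr 1
    unfold rv
    rw [Finset.sum_const, Finset.card_univ, nsmul_eq_mul, mul_one,
      Pool.Agent.W788.MFP.Four.card_T, inv_mul_cancel₀ hN.ne']

end torus

variable {d : ℕ}

theorem finZ (hA : S_AMPZ) (d : ℕ) (hd : 3 ≤ d) (v : Zd d) : ∃ C : ℝ, Amp (FZ d v) C ∧
    ∀ (L : ℕ) [NeZero L] (t : ℝ), 0 < t → t ≤ 1 → ∀ z' : ℂ, t ≤ z'.im →
      ‖gW (we (L := L) v) z' - GF (FZ d v) z'‖ ≤ 2 * C / L / t ^ 2 := by
  obtain ⟨C, hC, h⟩ := hA d hd v
  refine ⟨C, hC, fun L _ t ht ht1 z' hz => ?_⟩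
  have hC0 := hC.C0
  have h1 := gW_GF (d := d) (L := L) (we v) (we_le v) hC (C / L) (by positivity)
    (fun s hs => h L s hs) t ht ht1 z' hz
  refine h1.trans (le_of_eq ?_)
  ring

/-- the density with the weight -/
noncomputable def gz (d : ℕ) (v : Zd d) (E : ℝ) : ℝ := (GF (FZ d v) (E : ℂ)).im

theorem gz_im0 (hA : S_AMPZ) (d : ℕ) (hd : 3 ≤ d) (v : Zd d) (z' : ℂ) (hz : 0 < z'.im) :
    |(GF (FZ d v) z').im| ≤ (GF (F0 d) z').im := by
  obtain ⟨C, hC, hfin⟩ := finZ hA d hd v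
  obtain ⟨t, ht⟩ : ∃ t, t = min 1 z'.im := ⟨_, rfl⟩
  have ht0 : 0 < t := by rw [ht]; exact lt_min one_pos hz
  have ht1 : t ≤ 1 := by rw [ht]; exact min_le_left _ _
  have htz : t ≤ z'.im := by rw [ht]; exact min_le_right _ _
  apply lim_le _ _ (2 * C / t ^ 2 + 28 * d / t ^ 2)
  intro n
  have h1 := fin0 (L := n + 1) Pool.Agent.W918.BK.Osc.osc d hd t ht0 ht1 z' htz
  have h2 := hfin (n + 1) t ht0 ht1 z' htz
  have e1 : 28 * (d : ℝ) / ((n + 1 : ℕ) : ℝ) / t ^ 2 = 28 * d / t ^ 2 / (n + 1) := by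
    push_cast
    ring
  have e2 : 2 * C / ((n + 1 : ℕ) : ℝ) / t ^ 2 = 2 * C / t ^ 2 / (n + 1) := by
    push_cast
    ring
  rw [e1] at h1
  rw [e2] at h2
  have m1 := gW_im_mono (d := d) (L := n + 1) (we v) (fun _ => 1)
    (fun k => (abs_le.1 (we_le v k)).2) z' hz
  have m2 := gW_im_mono (d := d) (L := n + 1) (fun _ => -1) (we v)
    (fun k => (abs_le.1 (we_le v k)).1) z' hz
  rw [gW_one] at m1
  have m3 : gW (fun _ : T d (n + 1) => (-1 : ℝ)) z' = -gL d (n + 1) z' := by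
    rw [← gW_one]
    unfold gW mv
    rw [← mul_neg, ← Finset.sum_neg_distrib]
    congr 1
    refine Finset.sum_congr rfl fun k _ => ?_
    push_cast
    ring
  rw [m3, Complex.neg_im] at m2
  have a1 := abs_le.1 ((Complex.abs_im_le_norm _).trans h1)
  have a2 := abs_le.1 ((Complex.abs_im_le_norm _).trans h2)
  rw [Complex.sub_im] at a1 a2
  rw [add_div, abs_le]
  constructor <;> linarith [a1.1, a1.2, a2.1, a2.2]

theorem gz_le (hA : S_AMPZ) (d : ℕ) (hd : 3 ≤ d) (v : Zd d) (E : ℝ) : |gz d v E| ≤ D0 d E := by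
  obtain ⟨C, hC, -⟩ := finZ hA d hd v
  have hC0 := hC.C0
  have hK := K9_nonneg
  apply lim_le _ _ (2 * C * K9 + CH d)
  intro n
  obtain ⟨ε, hε⟩ : ∃ ε : ℝ, ε = ((n : ℝ) + 1)⁻¹ ^ 8 := ⟨_, rfl⟩
  have hε0 : 0 < ε := by rw [hε]; positivity
  obtain ⟨z', hz'⟩ : ∃ z' : ℂ, z' = (E : ℂ) + (ε : ℂ) * Complex.I := ⟨_, rfl⟩
  have hi : z'.im = ε := by rw [hz']; simp
  have hn : ‖z' - (E : ℂ)‖ ^ (1 / 8 : ℝ) = ((n : ℝ) + 1)⁻¹ := by
    rw [hz', add_sub_cancel_left, norm_mul, Complex.norm_I, mul_one, Complex.norm_real,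
      Real.norm_of_nonneg hε0.le, hε, ← Real.rpow_natCast, ← Real.rpow_mul (by positivity)]
    norm_num
  have h1 := hol0 Pool.Agent.W918.BK.Osc.osc d hd z' (E : ℂ) (by rw [hi]; exact hε0.le) (by simp)
  have h2 := hC.holder z' (E : ℂ) (by rw [hi]; exact hε0.le) (by simp)
  rw [hn, ← div_eq_mul_inv] at h1 h2
  have h3 := gz_im0 hA d hd v z' (by rw [hi]; exact hε0)
  have a1 := abs_le.1 ((Complex.abs_im_le_norm _).trans h1)
  have a2 := abs_le.1 ((Complex.abs_im_le_norm _).trans h2)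
  rw [Complex.sub_im] at a1 a2
  have a3 := abs_le.1 h3
  unfold gz D0
  rw [add_div, abs_le]
  constructor <;> linarith [a1.1, a1.2, a2.1, a2.2, a3.1, a3.2]

theorem gz_cont (hA : S_AMPZ) (d : ℕ) (hd : 3 ≤ d) (v : Zd d) : Continuous (gz d v) := by
  obtain ⟨C, hC, -⟩ := finZ hA d hd v
  have hC0 := hC.C0
  have hK := K9_nonneg
  rw [continuous_iff_continuousAt]
  intro E
  rw [ContinuousAt, tendsto_iff_norm_sub_tendsto_zero]
  have h1 : ∀ x, ‖gz d v x - gz d v E‖ ≤ 2 * C * K9 * |x - E| ^ (1 / 8 : ℝ) := by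
    intro x
    unfold gz
    rw [← Complex.sub_im, Real.norm_eq_abs]
    refine (Complex.abs_im_le_norm _).trans ((hC.holder _ _ (by simp) (by simp)).trans
      (le_of_eq ?_))
    rw [← Complex.ofReal_sub, Complex.norm_real, Real.norm_eq_abs]
  have h2 : Tendsto (fun x => 2 * C * K9 * |x - E| ^ (1 / 8 : ℝ)) (𝓝 E) (𝓝 0) := by
    have h3 : Continuous fun x : ℝ => 2 * C * K9 * |x - E| ^ (1 / 8 : ℝ) := by
      refine continuous_const.mul ?_
      exact (Real.continuous_rpow_const (by norm_num)).comp (by fun_prop)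
    have h4 := h3.tendsto E
    simp only [sub_self, abs_zero] at h4
    rw [Real.zero_rpow (by norm_num), mul_zero] at h4
    exact h4
  exact squeeze_zero (fun x => norm_nonneg _) h1 h2

/-- the microcanonical average of `e^{ik·v}` -/
noncomputable def Fr (d : ℕ) (v : Zd d) (E : ℝ) : ℝ := gz d v E / D0 d E

end Pool.Agent.Q218.WE
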