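import Pool.Agent.Q218.WE.MeanO

/-! The bound of the averaged two-resolvent function with a symbol of small average. -/

set_option autoImplicit false
set_option linter.unusedSectionVars false

open scoped BigOperators

namespace Pool.Agent.Q218.WE

open Pool.Agent.TH794.QD
open Pool.Agent.TH794.HK

variable {ι : Type} [Fintype ι]

theorem mv_norm_le (N : ℝ) (hN : 0 < N) (f : ι → ℂ) (F : ι → ℝ) (h : ∀ k, ‖f k‖ ≤ F k) :
    ‖mv N f‖ ≤ rv N F := mv_le hN h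

theorem mv_add' (N : ℝ) (f g : ι → ℂ) : mv N (fun k => f k + g k) = mv N f + mv N g := by
  unfold mv
  rw [Finset.sum_add_distrib, mul_add]

theorem mv_smul' (N : ℝ) (c : ℂ) (f : ι → ℂ) : mv N (fun k => c * f k) = c * mv N f := by
  unfold mv
  rw [← Finset.mul_sum]
  ring

theorem rv_sh (N : ℝ) (sh : ι ≃ ι) (f : ι → ℝ) : rv N (fun k => f (sh k)) = rv N f := by
  unfold rv
  rw [Equiv.sum_comp sh f]

theorem mv_sh (N : ℝ) (sh : ι ≃ ι) (f : ι → ℂ) : mv N (fun k => f (sh k)) = mv N f := by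
  unfold mv
  rw [Equiv.sum_comp sh f]

/-- Cauchy–Schwarz -/
theorem rv_cs (N : ℝ) (hN : 0 < N) (f g : ι → ℝ) (a b : ℝ) (ha : 0 ≤ a) (hb : 0 ≤ b)
    (h1 : rv N (fun k => f k ^ 2) ≤ a ^ 2) (h2 : rv N (fun k => g k ^ 2) ≤ b ^ 2) :
    rv N (fun k => f k * g k) ≤ a * b := by
  have h3 := Finset.sum_mul_sq_le_sq_mul_sq Finset.univ f g
  unfold rv at h1 h2 ⊢
  have hNi : 0 < N⁻¹ := inv_pos.2 hN
  refine abs_le_of_sq_le_sq' ?_ (by positivity) |>.2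
  calc (N⁻¹ * ∑ k, f k * g k) ^ 2 = N⁻¹ ^ 2 * (∑ k, f k * g k) ^ 2 := by ring
    _ ≤ N⁻¹ ^ 2 * ((∑ k, f k ^ 2) * ∑ k, g k ^ 2) := by gcongr
    _ = (N⁻¹ * ∑ k, f k ^ 2) * (N⁻¹ * ∑ k, g k ^ 2) := by ring
    _ ≤ a ^ 2 * b ^ 2 := by
        apply mul_le_mul h1 h2 _ (by positivity)
        exact mul_nonneg hNi.le (Finset.sum_nonneg fun k _ => sq_nonneg _)
    _ = _ := by ring

/-- the mean with the shifted symbol -/
theorem mo_bd (N H0 Δ α0 : ℝ) (hN : 0 < N) (sh : ι ≃ ι) (A o : ι → ℂ) (ho : ∀ k, ‖o k‖ ≤ 1)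
    (hH : rv N (fun k => ‖A k‖ ^ 2) = H0)
    (hΔ : rv N (fun k => ‖A k - A (sh k)‖ ^ 2) = 2 * Δ) (hH0 : 0 ≤ H0) (hΔ0 : 0 ≤ Δ)
    (hα : ‖mv N (fun k => o k * ((‖A k‖ ^ 2 : ℝ) : ℂ))‖ ≤ α0) :
    ‖mv N (fun k => o (sh k) * ((starRingEnd ℂ) (A k) * A (sh k)))‖ ≤
      α0 + Real.sqrt H0 * Real.sqrt (2 * Δ) := by
  have e1 : (fun k => o (sh k) * ((starRingEnd ℂ) (A k) * A (sh k))) = fun k =>
      (fun k => o k * ((‖A k‖ ^ 2 : ℝ) : ℂ)) (sh k) +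
      o (sh k) * ((starRingEnd ℂ) (A k - A (sh k)) * A (sh k)) := by
    funext k
    have h1 : ((‖A (sh k)‖ ^ 2 : ℝ) : ℂ) = (starRingEnd ℂ) (A (sh k)) * A (sh k) := by
      rw [← Complex.normSq_eq_norm_sq, Complex.normSq_eq_conj_mul_self]
    simp only
    rw [h1, map_sub]
    ring
  rw [e1, mv_add', mv_sh N sh (fun k => o k * ((‖A k‖ ^ 2 : ℝ) : ℂ))]
  refine (norm_add_le _ _).trans (add_le_add hα ?_)
  refine (mv_norm_le N hN _ (fun k => ‖A (sh k)‖ * ‖A k - A (sh k)‖) fun k => ?_).trans ?_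
  · rw [norm_mul, norm_mul, Complex.norm_conj]
    calc ‖o (sh k)‖ * (‖A k - A (sh k)‖ * ‖A (sh k)‖) ≤ 1 * (‖A k - A (sh k)‖ * ‖A (sh k)‖) := by
          apply mul_le_mul_of_nonneg_right (ho _) (by positivity)
      _ = _ := by ring
  · refine rv_cs N hN _ _ _ _ (Real.sqrt_nonneg _) (Real.sqrt_nonneg _) ?_ ?_
    · rw [Real.sq_sqrt hH0, ← hH]
      exact le_of_eq (rv_sh N sh fun k => ‖A k‖ ^ 2)
    · rw [Real.sq_sqrt (by positivity), ← hΔ]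

/-- **the bound** -/
theorem kap_bd (N t s2 err r ε0 : ℝ) (hN : 0 < N) (ht : 0 < t) (hs2 : 0 < s2) (hr : 0 < r)
    (hr1 : r ≤ 1) (hε0 : 0 ≤ ε0) (hε1 : ε0 ≤ 1) (sh : ι ≃ ι) (A o : ι → ℂ) (ho : ∀ k, ‖o k‖ ≤ 1)
    (hsH : s2 * rv N (fun k => ‖A k‖ ^ 2) ≤ 1 - r)
    (hα : s2 * ‖mv N (fun k => o k * ((‖A k‖ ^ 2 : ℝ) : ℂ))‖ ≤ ε0) (ν κ : ℂ)
    (hν : ‖ν - mv N (fun k => ((t : ℂ) * o (sh k) + (s2 : ℂ) * ν) *
      ((starRingEnd ℂ) (A k) * A (sh k)))‖ ≤ err)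
    (hκ : ‖κ - mv N (fun k => (starRingEnd ℂ) (o (sh k)) *
      (((t : ℂ) * o (sh k) + (s2 : ℂ) * ν) * ((starRingEnd ℂ) (A k) * A (sh k))))‖ ≤ err) :
    ‖κ‖ ≤ 5 * (t / s2) + 2 * (t / s2) * ε0 ^ 2 / r + err * (1 + 3 / r) := by
  obtain ⟨H0, hH0d⟩ : ∃ H0, rv N (fun k => ‖A k‖ ^ 2) = H0 := ⟨_, rfl⟩
  rw [hH0d] at hsH
  have hH0 : 0 ≤ H0 := by rw [← hH0d]; exact rv_nonneg hN fun k => sq_nonneg _
  have herr : 0 ≤ err := (norm_nonneg _).trans hν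
  obtain ⟨P, hP⟩ : ∃ P : ι → ℂ, P = fun k => (starRingEnd ℂ) (A k) * A (sh k) := ⟨_, rfl⟩
  have hPk : ∀ k, (starRingEnd ℂ) (A k) * A (sh k) = P k := fun k => by rw [hP]
  simp only [hPk] at hν hκ
  obtain ⟨m1, hm1⟩ : ∃ m1, m1 = mv N P := ⟨_, rfl⟩
  obtain ⟨mo, hmo⟩ : ∃ mo, mo = mv N (fun k => o (sh k) * P k) := ⟨_, rfl⟩
  obtain ⟨mc, hmc⟩ : ∃ mc, mc = mv N (fun k => (starRingEnd ℂ) (o (sh k)) * P k) := ⟨_, rfl⟩
  obtain ⟨mq, hmq⟩ : ∃ mq, mq = mv N (fun k => ((starRingEnd ℂ) (o (sh k)) * o (sh k)) * P k) :=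
    ⟨_, rfl⟩
  have e1 : mv N (fun k => ((t : ℂ) * o (sh k) + (s2 : ℂ) * ν) * P k) =
      (t : ℂ) * mo + (s2 : ℂ) * ν * m1 := by
    rw [hmo, hm1, ← mv_smul', ← mv_smul', ← mv_add']
    congr 1
    funext k
    ring
  have e2 : mv N (fun k => (starRingEnd ℂ) (o (sh k)) *
      (((t : ℂ) * o (sh k) + (s2 : ℂ) * ν) * P k)) = (t : ℂ) * mq + (s2 : ℂ) * ν * mc := by
    rw [hmq, hmc, ← mv_smul', ← mv_smul', ← mv_add']
    congr 1
    funext k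
    ring
  rw [e1] at hν
  rw [e2] at hκ
  -- the difference
  obtain ⟨Δ, hΔd⟩ : ∃ Δ, Δ = H0 - m1.re := ⟨_, rfl⟩
  have hdiff : rv N (fun k => ‖A k - A (sh k)‖ ^ 2) = 2 * Δ := by
    have h1 : ∀ k, ‖A k - A (sh k)‖ ^ 2 = ‖A k‖ ^ 2 + ‖A (sh k)‖ ^ 2 - 2 * (P k).re := by
      intro k
      rw [← Complex.normSq_eq_norm_sq, ← Complex.normSq_eq_norm_sq, ← Complex.normSq_eq_norm_sq,
        Complex.normSq_sub, hP]
      simp only [Complex.mul_re, Complex.conj_re, Complex.conj_im]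
      ring
    have h2 : rv N (fun k => ‖A k - A (sh k)‖ ^ 2) = rv N (fun k => ‖A k‖ ^ 2) +
        rv N (fun k => ‖A (sh k)‖ ^ 2) - 2 * rv N (fun k => (P k).re) := by
      simp only [h1]
      unfold rv
      rw [Finset.sum_sub_distrib, Finset.sum_add_distrib, ← Finset.mul_sum]
      ring
    have h3 : rv N (fun k => (P k).re) = m1.re := by
      rw [hm1]
      unfold rv mv
      have : ((N⁻¹ : ℝ) : ℂ) * ∑ k, P k = ((N⁻¹ : ℝ) : ℂ) * ∑ k, P k := rfl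
      rw [← Complex.ofReal_inv, Complex.re_ofReal_mul, Complex.re_sum]
    rw [h2, rv_sh N sh (fun k => ‖A k‖ ^ 2), hH0d, h3, hΔd]
    ring
  have hΔ0 : 0 ≤ Δ := by
    have : 0 ≤ rv N (fun k => ‖A k - A (sh k)‖ ^ 2) := rv_nonneg hN fun k => sq_nonneg _
    linarith
  obtain ⟨x, hx⟩ : ∃ x, x = s2 * Δ := ⟨_, rfl⟩
  have hx0 : 0 ≤ x := by rw [hx]; positivity
  have hm1n : ‖m1‖ ≤ H0 := by
    rw [hm1]
    refine (mv_norm_le N hN _ (fun k => ‖A k‖ * ‖A (sh k)‖) fun k => ?_).trans ?_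
    · rw [hP]
      simp only
      rw [norm_mul, Complex.norm_conj]
    · have := rv_cs N hN (fun k => ‖A k‖) (fun k => ‖A (sh k)‖) (Real.sqrt H0) (Real.sqrt H0)
        (Real.sqrt_nonneg _) (Real.sqrt_nonneg _) (by rw [Real.sq_sqrt hH0, hH0d])
        (by rw [Real.sq_sqrt hH0, rv_sh N sh (fun k => ‖A k‖ ^ 2), hH0d])
      rwa [Real.mul_self_sqrt hH0] at this
  have hsH1 : s2 * H0 ≤ 1 := by linarith
  have hx2 : x ≤ 2 := by
    have h1 := (abs_le.1 ((Complex.abs_re_le_norm m1).trans hm1n)).1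
    have h2 : Δ ≤ 2 * H0 := by linarith
    calc x ≤ s2 * (2 * H0) := by rw [hx]; gcongr
      _ = 2 * (s2 * H0) := by ring
      _ ≤ 2 * 1 := by gcongr
      _ = 2 := by ring
  -- the means with the symbol
  obtain ⟨α0, hα0⟩ : ∃ α0, α0 = ε0 / s2 := ⟨_, rfl⟩
  have hα' : ‖mv N (fun k => o k * ((‖A k‖ ^ 2 : ℝ) : ℂ))‖ ≤ α0 := by
    rw [hα0, le_div_iff₀ hs2]
    linarith
  have hαc : ‖mv N (fun k => (starRingEnd ℂ) (o k) * ((‖A k‖ ^ 2 : ℝ) : ℂ))‖ ≤ α0 := by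
    have h1 : mv N (fun k => (starRingEnd ℂ) (o k) * ((‖A k‖ ^ 2 : ℝ) : ℂ)) =
        (starRingEnd ℂ) (mv N (fun k => o k * ((‖A k‖ ^ 2 : ℝ) : ℂ))) := by
      unfold mv
      rw [map_mul, map_sum, map_inv₀, Complex.conj_ofReal]
      congr 1
      refine Finset.sum_congr rfl fun k _ => ?_
      rw [map_mul, Complex.conj_ofReal]
    rw [h1, Complex.norm_conj]
    exact hα'
  have hsq : s2 * (Real.sqrt H0 * Real.sqrt (2 * Δ)) ≤ Real.sqrt (2 * x) := by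
    rw [← Real.sqrt_mul hH0]
    have h1 : s2 = Real.sqrt (s2 ^ 2) := (Real.sqrt_sq hs2.le).symm
    conv_lhs => rw [h1]
    rw [← Real.sqrt_mul (sq_nonneg _)]
    apply Real.sqrt_le_sqrt
    calc s2 ^ 2 * (H0 * (2 * Δ)) = (s2 * H0) * (2 * (s2 * Δ)) := by ring
      _ ≤ 1 * (2 * (s2 * Δ)) := by gcongr
      _ = 2 * x := by rw [hx, one_mul]
  obtain ⟨y, hy⟩ : ∃ y, y = ε0 + Real.sqrt (2 * x) := ⟨_, rfl⟩
  have hy0 : 0 ≤ y := by rw [hy]; positivity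
  have hsmo : s2 * ‖mo‖ ≤ y := by
    have h1 := mo_bd N H0 Δ α0 hN sh A o ho hH0d hdiff hH0 hΔ0 hα'
    have e3 : mv N (fun k => o (sh k) * ((starRingEnd ℂ) (A k) * A (sh k))) = mo := by
      rw [hmo]
      simp only [hPk]
    rw [e3] at h1
    calc s2 * ‖mo‖ ≤ s2 * (α0 + Real.sqrt H0 * Real.sqrt (2 * Δ)) := by gcongr
      _ = ε0 + s2 * (Real.sqrt H0 * Real.sqrt (2 * Δ)) := by
          rw [hα0]
          field_simp
      _ ≤ y := by rw [hy]; linarith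
  have hsmc : s2 * ‖mc‖ ≤ y := by
    have h1 := mo_bd N H0 Δ α0 hN sh A (fun k => (starRingEnd ℂ) (o k))
      (fun k => by rw [Complex.norm_conj]; exact ho k) hH0d hdiff hH0 hΔ0 hαc
    have e3 : mv N (fun k => (starRingEnd ℂ) (o (sh k)) * ((starRingEnd ℂ) (A k) * A (sh k))) =
        mc := by
      rw [hmc]
      simp only [hPk]
    rw [e3] at h1
    calc s2 * ‖mc‖ ≤ s2 * (α0 + Real.sqrt H0 * Real.sqrt (2 * Δ)) := by gcongr
      _ = ε0 + s2 * (Real.sqrt H0 * Real.sqrt (2 * Δ)) := by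
          rw [hα0]
          field_simp
      _ ≤ y := by rw [hy]; linarith
  have hmqn : ‖mq‖ ≤ H0 := by
    rw [hmq]
    refine (mv_norm_le N hN _ (fun k => ‖A k‖ * ‖A (sh k)‖) fun k => ?_).trans ?_
    · rw [hP]
      simp only
      rw [norm_mul, norm_mul, norm_mul, Complex.norm_conj, Complex.norm_conj]
      have h1 := mul_le_one₀ (ho (sh k)) (norm_nonneg _) (ho (sh k))
      exact mul_le_of_le_one_left (by positivity) h1
    · have := rv_cs N hN (fun k => ‖A k‖) (fun k => ‖A (sh k)‖) (Real.sqrt H0) (Real.sqrt H0)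
        (Real.sqrt_nonneg _) (Real.sqrt_nonneg _) (by rw [Real.sq_sqrt hH0, hH0d])
        (by rw [Real.sq_sqrt hH0, rv_sh N sh (fun k => ‖A k‖ ^ 2), hH0d])
      rwa [Real.mul_self_sqrt hH0] at this
  -- the lower bound
  have hlow : r + x ≤ ‖1 - (s2 : ℂ) * m1‖ := by
    have a1 := Complex.re_le_norm (1 - (s2 : ℂ) * m1)
    have a2 : (1 - (s2 : ℂ) * m1).re = 1 - s2 * m1.re := by simp
    rw [a2] at a1
    have a3 : s2 * m1.re = s2 * H0 - x := by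
      rw [hx, hΔd]
      ring
    linarith
  have hrx : 0 < r + x := by linarith
  have hνb : ‖ν‖ * (r + x) ≤ t * ‖mo‖ + err := by
    have a1 : ν * (1 - (s2 : ℂ) * m1) = (ν - ((t : ℂ) * mo + (s2 : ℂ) * ν * m1)) +
        (t : ℂ) * mo := by ring
    calc ‖ν‖ * (r + x) ≤ ‖ν‖ * ‖1 - (s2 : ℂ) * m1‖ := by gcongr
      _ = ‖ν * (1 - (s2 : ℂ) * m1)‖ := (norm_mul _ _).symm
      _ ≤ err + t * ‖mo‖ := by
          rw [a1]
          refine (norm_add_le _ _).trans (add_le_add hν ?_)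
          rw [norm_mul, Complex.norm_real, Real.norm_of_nonneg ht.le]
      _ = _ := add_comm _ _
  have hy2 : y ^ 2 ≤ 2 * ε0 ^ 2 + 4 * x := by
    have h1 : Real.sqrt (2 * x) ^ 2 = 2 * x := Real.sq_sqrt (by positivity)
    have h2 : y ^ 2 ≤ 2 * (ε0 ^ 2 + Real.sqrt (2 * x) ^ 2) := by
      rw [hy]
      nlinarith [sq_nonneg (ε0 - Real.sqrt (2 * x))]
    rw [h1] at h2
    linarith
  have hy3 : y ≤ 3 := by
    have h1 : Real.sqrt (2 * x) ≤ 2 := by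
      rw [Real.sqrt_le_left (by norm_num)]
      linarith
    rw [hy]
    linarith
  have hprod : ‖(s2 : ℂ) * ν * mc‖ ≤ (t / s2) * (2 * ε0 ^ 2 / r + 4) + err * (3 / r) := by
    have h1 : ‖(s2 : ℂ) * ν * mc‖ = ‖ν‖ * (s2 * ‖mc‖) := by
      rw [norm_mul, norm_mul, Complex.norm_real, Real.norm_of_nonneg hs2.le]
      ring
    rw [h1]
    have h2 : ‖ν‖ * (s2 * ‖mc‖) * (r + x) ≤ (t / s2 * y + err) * y := by
      calc ‖ν‖ * (s2 * ‖mc‖) * (r + x) = (‖ν‖ * (r + x)) * (s2 * ‖mc‖) := by ring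
        _ ≤ (t * ‖mo‖ + err) * y := by
            apply mul_le_mul hνb hsmc (by positivity)
            positivity
        _ ≤ (t / s2 * y + err) * y := by
            apply mul_le_mul_of_nonneg_right _ hy0
            have : t * ‖mo‖ ≤ t / s2 * y := by
              calc t * ‖mo‖ = t / s2 * (s2 * ‖mo‖) := by field_simp
                _ ≤ _ := by gcongr
            linarith
    have h3 : (t / s2 * y + err) * y ≤
        ((t / s2) * (2 * ε0 ^ 2 / r + 4) + err * (3 / r)) * (r + x) := by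
      have h4 : y ^ 2 ≤ (2 * ε0 ^ 2 / r + 4) * (r + x) := by
        have e4 : (2 * ε0 ^ 2 / r + 4) * (r + x) = 2 * ε0 ^ 2 + 4 * x + (2 * ε0 ^ 2 / r * x + 4 * r) := by
          field_simp
          ring
        rw [e4]
        have : 0 ≤ 2 * ε0 ^ 2 / r * x + 4 * r := by positivity
        linarith
      have h5 : y ≤ 3 / r * (r + x) := by
        have e4 : 3 / r * (r + x) = 3 + 3 / r * x := by
          field_simp
        rw [e4]
        have : 0 ≤ 3 / r * x := by positivity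
        linarith
      calc (t / s2 * y + err) * y = t / s2 * y ^ 2 + err * y := by ring
        _ ≤ t / s2 * ((2 * ε0 ^ 2 / r + 4) * (r + x)) + err * (3 / r * (r + x)) := by gcongr
        _ = _ := by ring
    exact le_of_mul_le_mul_right (h2.trans h3) hrx
  have hfin : ‖κ‖ ≤ err + (t * ‖mq‖ + ‖(s2 : ℂ) * ν * mc‖) := by
    have a1 : κ = (κ - ((t : ℂ) * mq + (s2 : ℂ) * ν * mc)) + ((t : ℂ) * mq + (s2 : ℂ) * ν * mc) := by
      ring
    rw [a1]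
    refine (norm_add_le _ _).trans (add_le_add hκ ((norm_add_le _ _).trans (add_le_add ?_ le_rfl)))
    rw [norm_mul, Complex.norm_real, Real.norm_of_nonneg ht.le]
  have htq : t * ‖mq‖ ≤ t / s2 := by
    rw [le_div_iff₀ hs2]
    calc t * ‖mq‖ * s2 ≤ t * H0 * s2 := by gcongr
      _ = t * (s2 * H0) := by ring
      _ ≤ t * 1 := by gcongr
      _ = t := mul_one t
  have e5 : 5 * (t / s2) + 2 * (t / s2) * ε0 ^ 2 / r + err * (1 + 3 / r) =
      err + (t / s2 + ((t / s2) * (2 * ε0 ^ 2 / r + 4) + err * (3 / r))) := by ring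
  rw [e5]
  linarith

end Pool.Agent.Q218.WE
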