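import Pool.Agent.TH794.HK.LatK
import Pool.Agent.TH794.QD.Free3
import Pool.Agent.Q218.AT.Hil
import Mathlib.Probability.Distributions.Gaussian.Real
import Mathlib.Probability.ProductMeasure

/-! # Project WE (local quantum ergodicity in phase space, helper218): the statements

Very famous row MP_1906c1_mp (and MP_562b47_mp). Each `S_X` below is a self-contained lemma; the full
proof is in the docstring. -/

set_option autoImplicit false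

open scoped BigOperators Topology InnerProductSpace
open MeasureTheory Set ProbabilityTheory

namespace Pool.Agent.Q218.WE

open Pool.Agent.W788.LD.Spec (S)
open Pool.Agent.H4R2.LO (Zd bx)
open Pool.Agent.TH794.HK (ph)
open Pool.Agent.TH794.QD (Sol La HS hmk hs_sum ff mv Amp)
open Pool.Agent.Q218.AT (HT uu)
open Pool.Agent.W788.MFP.Four (T NN adj e)

/-- **Fejér average and Abel average of a stationary curve.**

Proof. `A τ = ∫_{s>0} e^{-s} B(τ + sT) ds` (absolutely convergent). `‖A τ‖^2 = ∫∫ e^{-s-s'} S((s'-s)T)`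
`= ∫_{r>0} e^{-r} Re S(rT) dr` for every `τ` (`S(-t) = conj (S t)`, substitute `s' = s + r`). `A` is
differentiable with `T A'(τ) = A(τ) - B(τ)` (because `A τ = T⁻¹ ∫_{v>τ} e^{-(v-τ)/T} B v dv`), so
`∫_0^1 B(uT) du = ∫_0^1 A(uT) du - (A T - A 0)` and its norm is at most `3 ‖A 0‖`. -/
def S_ABEL : Prop :=
  ∀ (E : Type) [NormedAddCommGroup E] [InnerProductSpace ℂ E] [CompleteSpace E]
    (B : ℝ → E) (Sf : ℝ → ℂ) (M T : ℝ), Continuous B → (∀ t, ‖B t‖ ≤ M) →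
    (∀ s t, ⟪B s, B t⟫_ℂ = Sf (t - s)) → 0 < T →
    IntegrableOn (fun s => Real.exp (-s) * (Sf (s * T)).re) (Ioi 0) ∧
    ‖∫ u in (0 : ℝ)..1, B (u * T)‖ ^ 2 ≤
      9 * ∫ s in Ioi (0 : ℝ), Real.exp (-s) * (Sf (s * T)).re

/-- **A Fourier multiplier.**

Proof. As in `S_FOUR` of `Pool/Agent/Q218/LE/Stm.lean` (proved in `Pool.Agent.Q246.LE.FOUR`): with
`C(θ) = ∑_{x ∈ Λ} c x e^{-i θ·x}`, `P^(θ) = ∑' P z e^{i θ·z}` the double sum is `∫ |C(θ)|^2 P^(±θ) dθ`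
over the torus with the normalised Haar measure, `|P^| ≤ ε` and `∫ |C|^2 = ∑ ‖c x‖^2`. -/
def S_MUL : Prop :=
  ∀ (d : ℕ) (Λ : Finset (Zd d)) (c : Zd d → ℂ) (P : Zd d → ℂ) (ε : ℝ),
    Summable (fun z => ‖P z‖) →
    (∀ p : Fin d → ℝ, (∀ i, |p i| ≤ Real.pi) → ‖∑' z : Zd d, ph p z * P z‖ ≤ ε) →
    ‖∑ x ∈ Λ, ∑ y ∈ Λ, (starRingEnd ℂ) (c x) * c y * P (x - y)‖ ≤ ε * ∑ x ∈ Λ, ‖c x‖ ^ 2

/-- a translation invariant operator of finite range, `(O f)(x) = ∑_{w ∈ Z} o w f(x+w)` -/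
noncomputable def cv {d : ℕ} (Z : Finset (Zd d)) (o : Zd d → ℂ) (f : Zd d → ℂ) (x : Zd d) : ℂ :=
  ∑ w ∈ Z, o w * f (x + w)

/-- the evolution of the vector `∑_{z ∈ Z} conj (o z) δ_{y+z}` -/
noncomputable def sv {d : ℕ} (Z : Finset (Zd d)) (o : Zd d → ℂ) (ψ : Zd d → ℝ → Zd d → ℂ)
    (y : Zd d) (t : ℝ) (x : Zd d) : ℂ :=
  ∑ z ∈ Z, (starRingEnd ℂ) (o z) * ψ (y + z) t x

/-- the correlation kernel -/
noncomputable def kq {d : ℕ} (Z : Finset (Zd d)) (o : Zd d → ℂ) (ψ : Zd d → ℝ → Zd d → ℂ)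
    (t : ℝ) (x y : Zd d) : ℂ :=
  ψ y t x * (starRingEnd ℂ) (cv Z o (sv Z o ψ y t) x)

/-- the correlation function -/
noncomputable def Sk {d : ℕ} (Z : Finset (Zd d)) (o : Zd d → ℂ) (ψ : Zd d → ℝ → Zd d → ℂ)
    (Λ : Finset (Zd d)) (c : Zd d → ℂ) (t : ℝ) : ℂ :=
  ∑ x ∈ Λ, ∑ y ∈ Λ, (starRingEnd ℂ) (c x) * c y * kq Z o ψ t x y

/-- **The norm of a translation invariant operator of finite range.**

Proof. For `u` of finite support `∑_x ‖cv Z o u x‖^2 = ∑_{y,y'} conj (u y) u y' Q (y - y')` with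
`Q v = ∑_{w - w' = v} conj (o w) o w'`, and `∑_v ph p v Q v` has modulus `|∑ o w ph (-p) w|^2 ≤ C^2`:
apply `S_MUL`. General `u`: restrict to finite sets and let them grow (`cv` is a finite sum of
translations, so it is continuous). Or by Plancherel's theorem on the torus `UnitAddTorus`. (Prove
`theorem t_OPN : S_MUL → S_OPN` or `theorem t_OPN : S_OPN`.) -/
def S_OPN : Prop :=
  ∀ (d : ℕ) (Z : Finset (Zd d)) (o : Zd d → ℂ) (C : ℝ), 0 ≤ C →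
    (∀ p : Fin d → ℝ, (∀ i, |p i| ≤ Real.pi) → ‖∑ w ∈ Z, o w * ph p w‖ ≤ C) →
    ∀ u : Zd d → ℂ, (Summable fun x => ‖u x‖ ^ 2) →
      (Summable fun x => ‖cv Z o u x‖ ^ 2) ∧ ∑' x, ‖cv Z o u x‖ ^ 2 ≤ C ^ 2 * ∑' x, ‖u x‖ ^ 2

/-- **The mean of the correlation function.** Assume `S_MEAS` (of `Pool/Agent/Q218/LE/Stm.lean`, proved
in `Pool.Agent.Q237.LE.MEAS`) and `S_MUL`.

Proof. As for `S_EXP` in `Pool/Agent/Q218/LE/Stm.lean` (proved in `Pool.Agent.Q246.LE.EXP`, copy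
that proof). Let `ℙ` be the product measure and `P x = ∫ ω, ∫_{s>0} e^{-s} kq Z o (ψ ω) (sT) x 0`. The
functions `(ω, s) ↦ ψ ω y (sT) x` are measurable in `ω`, continuous in `s` and bounded by `1`. The
shift `(τ_y ω) z = ω (z + y)` preserves `ℙ`, `ψ ω (y + a) t (x + a) = ψ (τ_a ω) y t x` by uniqueness
(`Pool.Agent.Q218.UD.sol_unique`), so `∫ ω, ∫ e^{-s} kq Z o (ψ ω) (sT) x y = P (x - y)`.
`∑_x ‖kq Z o ψ t x 0‖ ≤ ‖ψ_0(t)‖ ‖cv (sv)‖ ≤ (∑ ‖o z‖)^2 ≤ 1` (Cauchy–Schwarz), so `P` is summable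
(Tonelli). For `p` in the cube `∑' x, ph p x P x = ∫ ω, ∫_{s>0} e^{-s} ∑' x, ph p x kq …` has modulus
`≤ ε + ℙ(Gᶜ) ≤ 2 ε` (the inner integral is at most `1` everywhere). The integral over `ω` of the
integral of `e^{-s} Re Sk` is the real part of the double sum over `Λ` of `conj (c x) c y P (x - y)`;
apply `S_MUL`. -/
def S_EXPK : Prop :=
  ∀ (d : ℕ), 1 ≤ d → ∀ (μ : Measure ℝ) [IsProbabilityMeasure μ] (lam T ε : ℝ)
    (G : Set (Zd d → ℝ)) (ψ : (Zd d → ℝ) → Zd d → ℝ → Zd d → ℂ) (Z : Finset (Zd d))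
    (o : Zd d → ℂ),
    (∀ ω a, Sol d (fun x => lam * ω x) a (ψ ω a)) →
    0 < T → 0 ≤ ε → ∑ z ∈ Z, ‖o z‖ ≤ 1 → MeasurableSet G →
    1 - ε ≤ (Measure.infinitePi fun _ : Zd d => μ).real G →
    (∀ ω ∈ G, ∀ p : Fin d → ℝ, (∀ i, |p i| ≤ Real.pi) →
      ‖∫ s in Ioi (0 : ℝ), ((Real.exp (-s) : ℝ) : ℂ) *
        ∑' x : Zd d, ph p x * kq Z o (ψ ω) (s * T) x 0‖ ≤ ε) →
    ∀ (Λ : Finset (Zd d)) (c : Zd d → ℂ), (∀ x, ‖c x‖ ≤ 1) →
      Integrable (fun ω => ∫ s in Ioi (0 : ℝ),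
        Real.exp (-s) * (Sk Z o (ψ ω) Λ c (s * T)).re)
        (Measure.infinitePi fun _ : Zd d => μ) ∧
      ∫ ω, (∫ s in Ioi (0 : ℝ), Real.exp (-s) * (Sk Z o (ψ ω) Λ c (s * T)).re)
        ∂(Measure.infinitePi fun _ : Zd d => μ) ≤ 2 * ε * ∑ x ∈ Λ, ‖c x‖ ^ 2

/-- **Plancherel's theorem for two curves.** `La f E η x = ∫_{s>0} e^{(iE-η)s} f s x ds`.

Proof. For one site `x`: Plancherel (`Pool.Agent.Q218.AD.planch1`, applied to `f`, `g`, `f + g`,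
`f + i g` divided by a bound, and polarisation) gives that `La f · conj (La g)` is integrable with the
integral `2π ∫ e^{-2ηt} f conj g`, and the same with `‖La f‖^2`. Sum over `x`: `∑_x ∫ ‖La f E η x‖^2 dE =
2π ∫ e^{-2ηt} ∑_x ‖f t x‖^2 ≤ π A / η`; the series of the products is dominated by the sum of the
squares (`2|ab| ≤ |a|^2 + |b|^2`), Fubini. The first two claims (for every `E`): `‖La f E η x‖^2 ≤
η⁻¹ ∫ e^{-ηs} ‖f s x‖^2 ds` (Cauchy–Schwarz), and sum over `x`. (See `AD/Core.lean` and `AD/Pl.lean` in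
`Pool/Agent/Q218` for the case of one curve.) -/
def S_PLA : Prop :=
  ∀ (d : ℕ) (f g : ℝ → Zd d → ℂ) (A B : ℝ), (∀ x, Continuous fun t => f t x) →
    (∀ x, Continuous fun t => g t x) →
    (∀ t, (Summable fun x => ‖f t x‖ ^ 2) ∧ ∑' x, ‖f t x‖ ^ 2 ≤ A) →
    (∀ t, (Summable fun x => ‖g t x‖ ^ 2) ∧ ∑' x, ‖g t x‖ ^ 2 ≤ B) →
    ∀ (c : Zd d → ℂ), (∀ x, ‖c x‖ ≤ 1) → ∀ η : ℝ, 0 < η →
      (∀ E, Summable fun x => ‖La f E η x‖ ^ 2) ∧ (∀ E, Summable fun x => ‖La g E η x‖ ^ 2) ∧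
      (Integrable fun E => ∑' x, ‖La f E η x‖ ^ 2) ∧
      (∫ E, ∑' x, ‖La f E η x‖ ^ 2 = 2 * Real.pi *
        ∫ t in Ioi (0 : ℝ), Real.exp (-(2 * η) * t) * ∑' x, ‖f t x‖ ^ 2) ∧
      (Integrable fun E => ∑' x, c x * (La f E η x * (starRingEnd ℂ) (La g E η x))) ∧
      (∫ E, ∑' x, c x * (La f E η x * (starRingEnd ℂ) (La g E η x)) = 2 * Real.pi *
        ∫ t in Ioi (0 : ℝ), ((Real.exp (-(2 * η) * t) : ℝ) : ℂ) *
          ∑' x, c x * (f t x * (starRingEnd ℂ) (g t x)))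

theorem vw_mem {d : ℕ} (f g : HS d) :
    Memℓp (fun p : Zd d × Zd d => f p.1 * (starRingEnd ℂ) (g p.2)) 2 := by
  rw [memℓp_gen_iff (by norm_num)]
  have h1 := (hs_sum f).summable
  have h2 := (hs_sum g).summable
  have h3 := h1.mul_of_nonneg h2 (fun x => sq_nonneg _) (fun x => sq_nonneg _)
  refine h3.congr fun p => ?_
  simp only [norm_mul, Complex.norm_conj, ENNReal.toReal_ofNat, Real.rpow_ofNat]
  ring

/-- the kernel `|f⟩⟨g|` -/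
noncomputable def vw {d : ℕ} (f g : HS d) : HT d := ⟨_, vw_mem f g⟩

/-- **An observable depends on the potential in a Lipschitz continuous way.**

`B t = ∑ c x |ψ_x(t)⟩⟨ψ_{x+z}(t)|` is `e^{-itH} B e^{itH}` with `B = ∑ c x |δ_x⟩⟨δ_{x+z}|` in the Hilbert
space `HT d` of Hilbert–Schmidt kernels; this is `S_LIP` of `Pool/Agent/Q218/LE/Stm2.lean` with a
shift `z` (use the same proof).

Proof. `f t = ‖B t - B' t‖^2 = 2 ∑ |c x|^2 - 2 Re ∑_{x,y ∈ Λ} conj (c x) c y ⟨u_x, u'_y⟩ conj ⟨u_{x+z}, u'_{y+z}⟩`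
(finite sums, `u_x = ψ_x(t)`, `u'_x = ψ'_x(t)`; `⟨u_x, u_y⟩ = δ_xy`, `⟪vw f g, vw f' g'⟫ = ⟨f,f'⟩ conj ⟨g,g'⟩`).
`d/dt ⟨u_x, u'_y⟩ = i ⟨u_x, (V - V') u'_y⟩` (a finite sum over `K`; the kinetic terms cancel by symmetry).
With `W = V - V'` and `X = ∑ c y (|W u'_y⟩⟨u'_{y+z}| - |u'_y⟩⟨W u'_{y+z}|)` one gets
`f' t = 2 Re ⟨B - B', -i X⟩` up to sign because `Re ⟨B', -i X⟩ = 0`; `‖X‖ ≤ 2 w`,
`w^2 = ∑_K W^2`: `‖∑ c y |W u'_y⟩⟨u'_{y+z}|‖^2 = ∑ |c y|^2 ‖W u'_y‖^2 ≤ ∑_ζ (W ζ)^2 ∑_y |u'_y(ζ)|^2 ≤ w^2`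
(the `u'_{y+z}` are orthonormal; Bessel), the same for the other term. So `|f'| ≤ 4 w √f`, `f 0 = 0`, hence
`√f ≤ 2 t w` (mean value inequality as in `Pool.Agent.Q218.AT.mv`). -/
def S_LIPK : Prop :=
  ∀ (d : ℕ), 1 ≤ d → ∀ (V V' : Zd d → ℝ) (ψ ψ' : Zd d → ℝ → Zd d → ℂ)
    (hψ : ∀ a, Sol d V a (ψ a)) (hψ' : ∀ a, Sol d V' a (ψ' a)) (K : Finset (Zd d)),
    (∀ x, x ∉ K → V x = V' x) →
    ∀ (Λ : Finset (Zd d)) (c : Zd d → ℂ) (z : Zd d), (∀ x, ‖c x‖ ≤ 1) → ∀ t : ℝ, 0 ≤ t →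
    ‖∑ x ∈ Λ, c x • (vw (uu hψ x t) (uu hψ (x + z) t) - vw (uu hψ' x t) (uu hψ' (x + z) t))‖ ≤
      2 * t * Real.sqrt (∑ x ∈ K, (V x - V' x) ^ 2)

/-- the one-dimensional integral with a character; `ff s x = e^{-2 i s cos (2πx)}`
(`Pool.Agent.TH794.QD.ff`) -/
noncomputable def pn (n : ℤ) (s : ℝ) : ℂ :=
  ∫ x in (0 : ℝ)..1, Complex.exp (((2 * Real.pi * n * x : ℝ) : ℂ) * Complex.I) * ff s x

/-- the free amplitude of a translation -/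
noncomputable def FZ (d : ℕ) (z : Fin d → ℤ) (s : ℝ) : ℂ := ∏ i, pn (z i) s

/-- **The free amplitudes.** `Amp F C`: continuous, `‖F s‖ ≤ 1`, `‖F s‖ ≤ C (s+1)^(-5/4)` for `s ≥ 0`
(`Pool.Agent.TH794.QD.Amp`).

Proof. (1) Decay: `‖pn n s‖ ≤ C_n (1+s)^(-1/2)` for `s ≥ 0`. `pn n s = (-i)^|n| J_|n|(2s)`. E.g. by the
energy method: `J = pn n` satisfies Bessel's equation `s^2 J'' + s J' + (4 s^2 - n^2) J = 0`
(differentiate under the integral and integrate by parts once), so `u = √s J` satisfies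
`u'' = -(4 - (n^2 - 1/4)/s^2) u`, and `E = |u'|^2 + 4 |u|^2` satisfies `|E'| ≤ C E / s^2` for `s ≥ 1`,
so `E` is bounded. (Or any other proof, e.g. van der Corput.) Then the product of `d ≥ 3` factors is
at most `C (s+1)^(-3/2)`. (2) Torus: `e k z = ∏ (character of k_i)^(z_i)`, and because `adj` is
invariant under `k ↦ -k` the real part can be replaced by the character; the mean factorises
(`Pool.Agent.TH794.QD.mv_prod`, `exp_adj`, `mv_exp`), each factor is a Riemann sum of `pn (z i) s`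
(`Pool.Agent.TH794.QD.riemann`: the integrand is Lipschitz with the constant `2π|n| + 4π s`), all
factors have modulus `≤ 1`; see `dist0`, `dist1` in `TH794/QD/Free3.lean`. -/
def S_AMPZ : Prop :=
  ∀ (d : ℕ), 3 ≤ d → ∀ z : Fin d → ℤ, ∃ C : ℝ, Amp (FZ d z) C ∧
    ∀ (L : ℕ) [NeZero L] (s : ℝ), 0 ≤ s →
      ‖(mv (NN d L) fun k : T d L =>
        (((e k (fun i => ((z i : ℤ) : ZMod L)) : ℂ).re : ℝ) : ℂ) *
          Complex.exp (Complex.I * ((-s * adj k : ℝ) : ℂ))) - FZ d z s‖ ≤ C / L * (1 + s)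

/-- **The kinetic energy of the eigenfunctions.** `S^[m]` is the `m`-th iterate of the adjacency
operator `S`, `S f x = ∑_i (f (x + e_i) + f (x - e_i))`.

Proof. Let `h_j(y) = W y f_j(y)` for `‖y - b‖ < L` and `0` otherwise. `S f_j = -E_j f_j + h_j` on
`{‖y - b‖ < L}`; `S^[k]` at `x` uses only the points `y` with `‖x - y‖ ≤ k`, so by induction on `m ≤ n`, for
`‖x - b‖ ≤ L - n + (n - m)`… precisely for `‖x - b‖ + m ≤ L`:
`S^[m] f_j x - (-E_j)^m f_j x = ∑_{i<m} (-E_j)^(m-1-i) S^[i] h_j x`.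
`‖S^[i] h‖_2 ≤ (2d)^i ‖h‖_2`, and `∑_j ‖h_j‖^2 ≤ ∑_{y ∈ bx b L} (W y)^2 ∑_j |f_j(y)|^2 ≤ ∑ (W y)^2` (Bessel).
Minkowski in `ℓ²` over `(j, x)`. -/
def S_DROP : Prop :=
  ∀ (d : ℕ), 1 ≤ d → ∀ (W : Zd d → ℝ) (b : Zd d) (L n : ℕ), n ≤ L →
    ∀ (J : Type) (f : J → HS d), Orthonormal ℂ f → ∀ (E : J → ℝ),
    (∀ j x, ‖x - b‖ < L → -S (fun y => f j y) x + (W x : ℂ) * f j x = (E j : ℂ) * f j x) →
    ∀ s : Finset J, (∀ j ∈ s, |E j| ≤ 2 * d) → ∀ m : ℕ, m ≤ n →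
      ∑ j ∈ s, ∑ x ∈ bx b (L - n), ‖S^[m] (fun y => f j y) x - ((-E j : ℝ) : ℂ) ^ m * f j x‖ ^ 2 ≤
        (m * (2 * d) ^ (m - 1)) ^ 2 * ∑ x ∈ bx b L, W x ^ 2

/-- **The square sum of Gaussian variables.**

Proof. `∫ exp (ζ^2 / 4) dγ = √2`, so by Markov's inequality for `exp (∑ ζ_x^2 / 4)` (independence:
`∫ ∏_{x ∈ Λ} g (ζ x) = (∫ g)^|Λ|` for the product measure, e.g. `integral_infinitePi…` or restrict to
`Λ`) the probability is at most `(√2)^|Λ| exp (-C |Λ| / 4)`. -/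
def S_CHI : Prop :=
  ∃ C : ℝ, 0 < C ∧ ∀ (d : ℕ) (Λ : Finset (Zd d)),
    (Measure.infinitePi fun _ : Zd d => gaussianReal 0 1).real
      {ω | C * Λ.card < ∑ x ∈ Λ, ω x ^ 2} ≤ Real.exp (-(Λ.card : ℝ))

end Pool.Agent.Q218.WE
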