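import Pool.Agent.Q218.WE.TorO
import Pool.Agent.Q218.WE.Stm
import Pool.Agent.TH794.HK.LatK

/-! Symbols on the lattice and on the torus. -/

set_option autoImplicit false
set_option linter.unusedSectionVars false

open scoped BigOperators Matrix
open MeasureTheory

namespace Pool.Agent.Q218.WE

open Pool.Agent.TH794.HK
open Pool.Agent.W788.BK
open Pool.Agent.W788
open Pool.Agent.W788.MFP.Four Pool.Agent.W788.MFP.Dos Pool.Agent.W788.MFP.Form
open Pool.Agent.W788.MFP.Ball Pool.Agent.W788.MFP.Crit Pool.Agent.W788.MFP.Cut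
open Pool.Agent.W788.MFP.Site Pool.Agent.H4R2
open Pool.Agent.H4R2.LO (Zd)
open Pool.Agent.H695R3.AN (lf lf_inj)
open Pool.Agent.TH794.LL2 (Bq Bq_nonneg fc)
open Pool.Agent.TH794.FG
open Pool.Agent.TH794.QD

variable {d L : ℕ} [NeZero L]

theorem z_lf (y : T d L) : z L (lf y) = y := by
  funext i
  unfold z lf
  exact ZMod.coe_valMinAbs _

theorem z_add (x w : Zd d) : z L (x + w) = z L x + z L w := by
  funext i
  simp [z]

theorem e_z (n : Fin d → ℤ) (w : Zd d) :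
    e (fun i => ((n i : ℤ) : ZMod L)) (z L w) = ph (fun i => 2 * Real.pi * n i / L) w := by
  unfold e ph
  have h1 : ∑ i, ((n i : ℤ) : ZMod L) * (z L w) i = ((∑ i, n i * w i : ℤ) : ZMod L) := by
    push_cast
    refine Finset.sum_congr rfl fun i _ => ?_
    rfl
  rw [h1, ZMod.stdAddChar_coe]
  congr 1
  push_cast
  rw [Finset.mul_sum, Finset.mul_sum, Finset.sum_div]
  refine Finset.sum_congr rfl fun i _ => ?_
  ring

theorem ph_conj (p : Fin d → ℝ) (x : Zd d) :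
    (starRingEnd ℂ) (ph p x) = ph (fun i => -p i) x := by
  unfold ph
  rw [← Complex.exp_conj]
  congr 1
  rw [map_mul, Complex.conj_I, Complex.conj_ofReal]
  push_cast
  rw [neg_mul, ← mul_neg]
  congr 1
  rw [← Finset.sum_neg_distrib]
  exact Finset.sum_congr rfl fun i _ => by ring

/-- the symbol on the torus -/
noncomputable def osym (Z : Finset (Zd d)) (o : Zd d → ℂ) (k : T d L) : ℂ :=
  ∑ w ∈ Z, o w * (starRingEnd ℂ) (e k (z L w))

theorem osym_ph (Z : Finset (Zd d)) (o : Zd d → ℂ) (k : T d L) :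
    osym Z o k = ∑ w ∈ Z, o w * ph (fun i => -(2 * Real.pi * ((k i).val : ℤ) / L)) w := by
  unfold osym
  refine Finset.sum_congr rfl fun w _ => ?_
  congr 1
  have hk : k = fun i => ((((k i).val : ℤ)) : ZMod L) := by
    funext i
    simp
  conv_lhs => rw [hk]
  rw [e_z (fun i => ((k i).val : ℤ)) w, ph_conj]

theorem osym_le (Z : Finset (Zd d)) (o : Zd d → ℂ) (C : ℝ)
    (h : ∀ p : Fin d → ℝ, ‖∑ w ∈ Z, o w * ph p w‖ ≤ C) (k : T d L) : ‖osym Z o k‖ ≤ C := by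
  rw [osym_ph]
  exact h _

/-- the source on the lattice -/
noncomputable def srcC (Z : Finset (Zd d)) (o : Zd d → ℂ) (x : Zd d) : ℂ :=
  open Classical in if x ∈ Z then (starRingEnd ℂ) (o x) else 0

theorem src_fc (Z : Finset (Zd d)) (o : Zd d → ℂ) (R0 : ℝ) (hR0 : ∀ w ∈ Z, ‖w‖ ≤ R0)
    (hL : 2 * R0 < L) (k : T d L) :
    fc (fun y : T d L => (srcC Z o (lf y)).re) (fun y => (srcC Z o (lf y)).im) k =
      (starRingEnd ℂ) (osym Z o k) := by
  classical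
  rw [fc_sum]
  have h1 : ∀ y : T d L, (((srcC Z o (lf y)).re : ℂ) + Complex.I * ((srcC Z o (lf y)).im : ℂ)) *
      e k y = (fun x => srcC Z o x * e k (z L x)) (lf y) := by
    intro y
    simp only
    rw [z_lf, mul_comm Complex.I, Complex.re_add_im]
  rw [Finset.sum_congr rfl fun y _ => h1 y]
  rw [sum_torC (L := L) R0 hL (fun x => srcC Z o x * e k (z L x)) (fun x hx => by
    unfold srcC
    rw [if_neg, zero_mul]
    intro hxZ
    have := hR0 x hxZ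
    linarith)]
  rw [tsum_eq_sum (s := Z)]
  · unfold osym
    rw [map_sum]
    refine Finset.sum_congr rfl fun w hw => ?_
    unfold srcC
    rw [if_pos hw, map_mul, Complex.conj_conj]
  · intro x hx
    unfold srcC
    rw [if_neg hx, zero_mul]

/-- the operator on the torus -/
noncomputable def cvT (Z : Finset (Zd d)) (o : Zd d → ℂ) (f : T d L → ℂ) (y : T d L) : ℂ :=
  ∑ w ∈ Z, o w * f (y + z L w)

theorem cvT_hat (Z : Finset (Zd d)) (o : Zd d → ℂ) (f : T d L → ℂ) (k : T d L) :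
    ∑ y, cvT Z o f y * e k y = osym Z o k * ∑ y, f y * e k y := by
  unfold cvT osym
  have h1 : ∀ y : T d L, (∑ w ∈ Z, o w * f (y + z L w)) * e k y =
      ∑ w ∈ Z, o w * (f (y + z L w) * e k y) := by
    intro y
    rw [Finset.sum_mul]
    exact Finset.sum_congr rfl fun w _ => by ring
  simp only [h1]
  rw [Finset.sum_comm, Finset.sum_mul]
  refine Finset.sum_congr rfl fun w _ => ?_
  rw [← Finset.mul_sum, mul_assoc]
  congr 1
  rw [← Equiv.sum_comp (Equiv.addRight (z L w)) (fun y => f y * e k y), Finset.mul_sum]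
  refine Finset.sum_congr rfl fun y _ => ?_
  rw [Equiv.coe_addRight, e_add]
  have h2 := e_normSq k (z L w)
  linear_combination (-(f (y + z L w) * e k y)) * h2

/-- complex form -/
noncomputable def cx (ur ui : Zd d → ℝ) (x : Zd d) : ℂ := (ur x : ℂ) + Complex.I * (ui x : ℂ)

theorem cx_sq (ur ui : Zd d → ℝ) (x : Zd d) : ‖cx ur ui x‖ ^ 2 = ur x ^ 2 + ui x ^ 2 := by
  unfold cx
  rw [← Complex.normSq_eq_norm_sq, Complex.normSq_apply]
  simp
  ring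

theorem off_le (hd : 1 ≤ d) (ℓ t a b : ℝ) (hℓ : 0 < ℓ) (ht : 0 < t) (ha : 0 ≤ a) (hb : 0 ≤ b)
    (x : Zd d) : (1 - φ ℓ x) * (a * b) ≤
      1 / (2 * ℓ) * (t * (∑ i : Fin d, cj i x ^ 2 * a ^ 2) + d * t⁻¹ * b ^ 2) := by
  have hd1 : (1 : ℝ) ≤ d := by exact_mod_cast hd
  rcases le_or_gt ‖x‖ ℓ with h | h
  · rw [φ_one ℓ hℓ x h, sub_self, zero_mul]
    positivity
  · have h3 : ∃ i : Fin d, ℓ < |cj i x| := by
      by_contra hcon
      push Not at hcon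
      have : ‖x‖ ≤ ℓ := by
        rw [pi_norm_le_iff_of_nonneg hℓ.le]
        intro i
        rw [Int.norm_eq_abs]
        exact hcon i
      linarith
    obtain ⟨i, hi⟩ := h3
    have h4 : (1 - φ ℓ x) * (a * b) ≤ a * b := by
      have h5 := φ_nonneg ℓ x
      have h6 : 0 ≤ a * b := mul_nonneg ha hb
      nlinarith
    refine h4.trans ?_
    have h5 : ℓ * (a * b) ≤ |cj i x| * a * b := by
      have h6 : 0 ≤ a * b := mul_nonneg ha hb
      nlinarith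
    have h6 : |cj i x| * a * b ≤ 1 / 2 * (t * (cj i x ^ 2 * a ^ 2) + t⁻¹ * b ^ 2) := by
      have h7 : (|cj i x| * a) ^ 2 = cj i x ^ 2 * a ^ 2 := by
        rw [mul_pow, sq_abs]
      rw [← h7]
      have h8 : t * t⁻¹ = 1 := mul_inv_cancel₀ ht.ne'
      have h9 : 0 ≤ t⁻¹ * (t * (|cj i x| * a) - b) ^ 2 := by positivity
      have h10 : t⁻¹ * (t * (|cj i x| * a) - b) ^ 2 = (t * t⁻¹) * t * (|cj i x| * a) ^ 2 -
          2 * (t * t⁻¹) * (|cj i x| * a) * b + t⁻¹ * b ^ 2 := by ring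
      rw [h10, h8] at h9
      linarith
    have h7 : cj i x ^ 2 * a ^ 2 ≤ ∑ i : Fin d, cj i x ^ 2 * a ^ 2 :=
      Finset.single_le_sum (f := fun i : Fin d => cj i x ^ 2 * a ^ 2)
        (fun i _ => by positivity) (Finset.mem_univ i)
    have h8 : t⁻¹ * b ^ 2 ≤ d * t⁻¹ * b ^ 2 := by
      have : 0 ≤ t⁻¹ * b ^ 2 := by positivity
      nlinarith
    have h9 : ℓ * (a * b) ≤ 1 / 2 * (t * (∑ i : Fin d, cj i x ^ 2 * a ^ 2) + d * t⁻¹ * b ^ 2) := by
      have h10 := mul_le_mul_of_nonneg_left h7 ht.le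
      linarith
    calc a * b = ℓ⁻¹ * (ℓ * (a * b)) := by field_simp
      _ ≤ ℓ⁻¹ * (1 / 2 * (t * (∑ i : Fin d, cj i x ^ 2 * a ^ 2) + d * t⁻¹ * b ^ 2)) := by gcongr
      _ = _ := by ring

/-- **one translation** -/
theorem shift_cmp (hd : 1 ≤ d) (ℓ t ϖ : ℝ) (hℓ : 0 < ℓ) (ht : 0 < t) (hϖ : 0 ≤ ϖ) (w : Zd d)
    (u u' : Zd d → ℂ) (p p' : Fin d → ℝ) (hpp : ∀ i, |p i - p' i| ≤ ϖ)
    (su : Summable fun x => ‖u x‖ ^ 2) (su' : Summable fun x => ‖u' x‖ ^ 2)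
    (cu : ∀ i : Fin d, Summable fun x => cj i x ^ 2 * ‖u x‖ ^ 2)
    (cu' : ∀ i : Fin d, Summable fun x => cj i x ^ 2 * ‖u' x‖ ^ 2) :
    ‖(∑' x, ph p x * ((starRingEnd ℂ) (u x) * u' (x + w))) -
      ∑' x, ph p' x * (((φ ℓ x : ℂ) * (starRingEnd ℂ) (u x)) *
        ((φ ℓ (x + w) : ℂ) * u' (x + w)))‖ ≤
    d * (ϖ * (2 * ℓ)) * (1 / 2 * (∑' x, φ ℓ x ^ 2 * ‖u x‖ ^ 2 + ∑' x, φ ℓ x ^ 2 * ‖u' x‖ ^ 2)) +
      (1 / (2 * ℓ) * (t * (∑ i : Fin d, ∑' x, cj i x ^ 2 * ‖u x‖ ^ 2) +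
        d * t⁻¹ * ∑' x, ‖u' x‖ ^ 2) +
      1 / (2 * ℓ) * (t * (∑ i : Fin d, ∑' x, cj i x ^ 2 * ‖u' x‖ ^ 2) +
        d * t⁻¹ * ∑' x, ‖u x‖ ^ 2)) := by
  obtain ⟨c2, hc2⟩ : ∃ c2, c2 = d * (ϖ * (2 * ℓ)) := ⟨_, rfl⟩
  have hc20 : 0 ≤ c2 := by rw [hc2]; positivity
  rw [← hc2]
  obtain ⟨v, hv⟩ : ∃ v : Zd d → ℂ, v = fun x => u' (x + w) := ⟨_, rfl⟩
  have hvx : ∀ x, u' (x + w) = v x := fun x => by rw [hv]
  have hφ1 : ∀ x : Zd d, φ ℓ x ^ 2 ≤ 1 := fun x => pow_le_one₀ (φ_nonneg _ _) (φ_le_one _ _)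
  have sφ : ∀ f : Zd d → ℂ, (Summable fun x => ‖f x‖ ^ 2) →
      Summable fun x => φ ℓ x ^ 2 * ‖f x‖ ^ 2 := fun f hf =>
    Summable.of_nonneg_of_le (fun x => by positivity)
      (fun x => mul_le_of_le_one_left (sq_nonneg _) (hφ1 x)) hf
  have shs : ∀ g : Zd d → ℝ, Summable g → (Summable fun x => g (x + w)) ∧
      ∑' x, g (x + w) = ∑' x, g x := fun g hg =>
    ⟨(Equiv.addRight w).summable_iff.2 hg, (Equiv.addRight w).tsum_eq g⟩
  obtain ⟨a1, a2⟩ := shs _ su'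
  obtain ⟨b1, b2⟩ := shs _ (sφ u' su')
  have c1 := fun i => shs _ (cu' i)
  have sprod : ∀ f g : Zd d → ℂ, (Summable fun x => ‖f x‖ ^ 2) → (Summable fun x => ‖g x‖ ^ 2) →
      Summable fun x => ‖f x‖ * ‖g x‖ := fun f g hf hg => by
    refine Summable.of_nonneg_of_le (fun x => by positivity) (fun x => ?_) (hf.add hg)
    nlinarith [sq_nonneg (‖f x‖ - ‖g x‖), sq_nonneg ‖f x‖, sq_nonneg ‖g x‖]
  have sv : Summable fun x => ‖v x‖ ^ 2 := by
    rw [hv]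
    exact a1
  have s1 : Summable fun x => ph p x * ((starRingEnd ℂ) (u x) * u' (x + w)) := by
    refine Summable.of_norm ((sprod u v su sv).congr fun x => ?_)
    rw [norm_mul, ph_norm, one_mul, norm_mul, Complex.norm_conj, hvx]
  have s2 : Summable fun x => ph p' x * (((φ ℓ x : ℂ) * (starRingEnd ℂ) (u x)) *
        ((φ ℓ (x + w) : ℂ) * u' (x + w))) := by
    refine Summable.of_norm_bounded (sprod u v su sv) fun x => ?_
    rw [norm_mul, ph_norm, one_mul, norm_mul, norm_mul, norm_mul, Complex.norm_conj, hvx,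
      Complex.norm_real, Complex.norm_real, Real.norm_of_nonneg (φ_nonneg _ _),
      Real.norm_of_nonneg (φ_nonneg _ _)]
    exact mul_le_mul (mul_le_of_le_one_left (norm_nonneg _) (φ_le_one _ _))
      (mul_le_of_le_one_left (norm_nonneg _) (φ_le_one _ _))
      (mul_nonneg (φ_nonneg _ _) (norm_nonneg _)) (norm_nonneg _)
  have hpt : ∀ x, ‖ph p x * ((starRingEnd ℂ) (u x) * u' (x + w)) -
      ph p' x * (((φ ℓ x : ℂ) * (starRingEnd ℂ) (u x)) *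
        ((φ ℓ (x + w) : ℂ) * u' (x + w)))‖ ≤
      c2 * (1 / 2 * (φ ℓ x ^ 2 * ‖u x‖ ^ 2 + φ ℓ (x + w) ^ 2 * ‖u' (x + w)‖ ^ 2)) +
      (1 / (2 * ℓ) * (t * (∑ i : Fin d, cj i x ^ 2 * ‖u x‖ ^ 2) +
        d * t⁻¹ * ‖u' (x + w)‖ ^ 2) +
      1 / (2 * ℓ) * (t * (∑ i : Fin d, cj i (x + w) ^ 2 * ‖u' (x + w)‖ ^ 2) +
        d * t⁻¹ * ‖u x‖ ^ 2)) := by
    intro x
    obtain ⟨X, hX⟩ : ∃ X, X = (starRingEnd ℂ) (u x) * u' (x + w) := ⟨_, rfl⟩
    have hXn : ‖X‖ = ‖u x‖ * ‖u' (x + w)‖ := by rw [hX, norm_mul, Complex.norm_conj]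
    obtain ⟨α, hα⟩ : ∃ α, α = φ ℓ x := ⟨_, rfl⟩
    obtain ⟨β, hβ⟩ : ∃ β, β = φ ℓ (x + w) := ⟨_, rfl⟩
    have hα0 : 0 ≤ α := by rw [hα]; exact φ_nonneg _ _
    have hα1 : α ≤ 1 := by rw [hα]; exact φ_le_one _ _
    have hβ0 : 0 ≤ β := by rw [hβ]; exact φ_nonneg _ _
    have hβ1 : β ≤ 1 := by rw [hβ]; exact φ_le_one _ _
    have e1 : ph p x * ((starRingEnd ℂ) (u x) * u' (x + w)) -
      ph p' x * (((φ ℓ x : ℂ) * (starRingEnd ℂ) (u x)) *
        ((φ ℓ (x + w) : ℂ) * u' (x + w))) =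
        ph p x * (((1 - α * β : ℝ) : ℂ) * X) + (ph p x - ph p' x) * (((α * β : ℝ) : ℂ) * X) := by
      rw [hX, hα, hβ]
      push_cast
      ring
    rw [e1]
    have hab : 0 ≤ 1 - α * β := by
      have := mul_le_one₀ hα1 hβ0 hβ1
      linarith
    have n1 : ‖ph p x * (((1 - α * β : ℝ) : ℂ) * X)‖ ≤
        (1 - α) * (‖u x‖ * ‖u' (x + w)‖) + (1 - β) * (‖u' (x + w)‖ * ‖u x‖) := by
      rw [norm_mul, ph_norm, one_mul, norm_mul, Complex.norm_real, Real.norm_of_nonneg hab, hXn]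
      have h1 : 1 - α * β ≤ (1 - α) + (1 - β) := by nlinarith
      have h2 := mul_le_mul_of_nonneg_right h1
        (mul_nonneg (norm_nonneg (u x)) (norm_nonneg (u' (x + w))))
      refine h2.trans (le_of_eq ?_)
      ring
    have n2 : ‖(ph p x - ph p' x) * (((α * β : ℝ) : ℂ) * X)‖ ≤
        c2 * (1 / 2 * (α ^ 2 * ‖u x‖ ^ 2 + β ^ 2 * ‖u' (x + w)‖ ^ 2)) := by
      rw [norm_mul, norm_mul, Complex.norm_real, Real.norm_of_nonneg (mul_nonneg hα0 hβ0), hXn]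
      have h0 : α * β * (‖u x‖ * ‖u' (x + w)‖) ≤
          1 / 2 * (α ^ 2 * ‖u x‖ ^ 2 + β ^ 2 * ‖u' (x + w)‖ ^ 2) := by
        nlinarith [sq_nonneg (α * ‖u x‖ - β * ‖u' (x + w)‖)]
      rcases le_or_gt (2 * ℓ) ‖x‖ with h5 | h5
      · have h6 : α = 0 := by rw [hα]; exact φ_zero ℓ hℓ x h5
        rw [h6, zero_mul, zero_mul, mul_zero]
        positivity
      · refine mul_le_mul ?_ h0 (by positivity) hc20
        rw [hc2]
        exact ph_diff p p' x ϖ (2 * ℓ) hϖ hpp h5.le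
    have m1 := off_le hd ℓ t ‖u x‖ ‖u' (x + w)‖ hℓ ht (norm_nonneg _) (norm_nonneg _) x
    have m2 := off_le hd ℓ t ‖u' (x + w)‖ ‖u x‖ hℓ ht (norm_nonneg _) (norm_nonneg _) (x + w)
    rw [← hα] at m1
    rw [← hβ] at m2
    have n3 := norm_add_le (ph p x * (((1 - α * β : ℝ) : ℂ) * X))
      ((ph p x - ph p' x) * (((α * β : ℝ) : ℂ) * X))
    rw [← hα, ← hβ]
    linarith
  have hs0 : Summable fun x => c2 * (1 / 2 * (φ ℓ x ^ 2 * ‖u x‖ ^ 2 +
      φ ℓ (x + w) ^ 2 * ‖u' (x + w)‖ ^ 2)) := (((sφ u su).add b1).mul_left _).mul_left _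
  have hsA : Summable fun x => 1 / (2 * ℓ) * (t * (∑ i : Fin d, cj i x ^ 2 * ‖u x‖ ^ 2) +
        d * t⁻¹ * ‖u' (x + w)‖ ^ 2) :=
    (((summable_sum fun i _ => cu i).mul_left t).add (a1.mul_left _)).mul_left _
  have hsB : Summable fun x => 1 / (2 * ℓ) * (t * (∑ i : Fin d, cj i (x + w) ^ 2 *
      ‖u' (x + w)‖ ^ 2) + d * t⁻¹ * ‖u x‖ ^ 2) :=
    (((summable_sum fun i _ => (c1 i).1).mul_left t).add (su.mul_left _)).mul_left _
  rw [← s1.tsum_sub s2]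
  have hle := tsum_of_norm_bounded (hs0.add (hsA.add hsB)).hasSum hpt
  refine hle.trans (le_of_eq ?_)
  rw [hs0.tsum_add (hsA.add hsB), hsA.tsum_add hsB, tsum_mul_left, tsum_mul_left, tsum_mul_left,
    tsum_mul_left, (sφ u su).tsum_add b1,
    ((summable_sum fun i _ => cu i).mul_left t).tsum_add (a1.mul_left _),
    ((summable_sum fun i _ => (c1 i).1).mul_left t).tsum_add (su.mul_left _),
    tsum_mul_left, tsum_mul_left, tsum_mul_left, tsum_mul_left,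
    Summable.tsum_finsetSum fun i _ => cu i, Summable.tsum_finsetSum fun i _ => (c1 i).1, a2, b2]
  rw [Finset.sum_congr rfl fun i _ => (c1 i).2]

end Pool.Agent.Q218.WE
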