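import Pool.Agent.Q218.WE.LatA

/-! The pairing of two solutions: from the torus to the lattice. -/

set_option autoImplicit false
set_option linter.unusedSectionVars false

open scoped BigOperators Matrix
open MeasureTheory

namespace Pool.Agent.Q218.WE

open Pool.Agent.TH794.HK
open Pool.Agent.W788.BK
open Pool.Agent.W788
open Pool.Agent.W788.MFP.Four Pool.Agent.W788.MFP.Dos Pool.Agent.W788.MFP.Form
open Pool.Agent.W788.MFP.Ball Pool.Agent.W788.MFP.Crit Pool.Agent.W788.MFP.Cut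
open Pool.Agent.W788.MFP.Site Pool.Agent.H4R2
open Pool.Agent.H4R2.LO (Zd)
open Pool.Agent.H695R3.AN (lf lf_inj)
open Pool.Agent.TH794.LL2 (Bq Bq_nonneg fc cut2 sum_fc_one)
open Pool.Agent.TH794.FG
open Pool.Agent.TH794.QD

variable {d L : ℕ} [NeZero L]

/-- a source of finite support and norm at most one: the moments of the solution -/
theorem src_mom {σ : ℝ} {ξ fr fi : Zd d → ℝ} {E t : ℝ} {ur ui : Zd d → ℝ} (R0 : ℝ)
    (ht : 0 < t) (ht1 : t ≤ 1)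
    (hfr : ∀ x, R0 < ‖x‖ → fr x = 0) (hfi : ∀ x, R0 < ‖x‖ → fi x = 0)
    (hf1 : ∑' x, fr x ^ 2 + ∑' x, fi x ^ 2 ≤ 1)
    (h : LS d σ ξ fr fi E t ur ui) :
    ∑' x, ur x ^ 2 + ∑' x, ui x ^ 2 ≤ (t⁻¹) ^ 2 ∧
    ∀ j : Fin d, (Summable fun x => (cj j x * ur x) ^ 2) ∧
      (Summable fun x => (cj j x * ui x) ^ 2) ∧
      ∑' x, (cj j x * ur x) ^ 2 + ∑' x, (cj j x * ui x) ^ 2 ≤ (2 * R0 ^ 2 + 8) * (t⁻¹) ^ 4 := by
  have hti : 1 ≤ t⁻¹ := by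
    rw [one_le_inv₀ ht]
    exact ht1
  have hfs : ∀ g : Zd d → ℝ, (∀ x, R0 < ‖x‖ → g x = 0) → Summable g := fun g hg =>
    summable_of_hasFiniteSupport (fin_supp R0 g hg)
  have s1 : Summable fun x => fr x ^ 2 := hfs _ fun x hx => by rw [hfr x hx]; ring
  have s2 : Summable fun x => fi x ^ 2 := hfs _ fun x hx => by rw [hfi x hx]; ring
  have hT := norm2 h s1 s2 ht
  have hT2 : ∑' x, ur x ^ 2 + ∑' x, ui x ^ 2 ≤ (t⁻¹) ^ 2 := by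
    rw [inv_pow, ← one_div, le_div_iff₀ (by positivity)]
    linarith
  refine ⟨hT2, fun j => ?_⟩
  have s3 : Summable fun x => (cj j x * fr x) ^ 2 := hfs _ fun x hx => by rw [hfr x hx]; ring
  have s4 : Summable fun x => (cj j x * fi x) ^ 2 := hfs _ fun x hx => by rw [hfi x hx]; ring
  have hcj : ∀ (g : Zd d → ℝ), (∀ x, R0 < ‖x‖ → g x = 0) → ∀ x,
      (cj j x * g x) ^ 2 ≤ R0 ^ 2 * g x ^ 2 := by
    intro g hg x
    rcases lt_or_ge R0 ‖x‖ with hx | hx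
    · rw [hg x hx]
      simp
    · rw [mul_pow]
      apply mul_le_mul_of_nonneg_right _ (sq_nonneg _)
      rw [← sq_abs (cj j x)]
      apply pow_le_pow_left₀ (abs_nonneg _)
      have h1 := norm_le_pi_norm x j
      rw [Int.norm_eq_abs] at h1
      exact h1.trans hx
  have hF : ∑' x, (cj j x * fr x) ^ 2 + ∑' x, (cj j x * fi x) ^ 2 ≤ R0 ^ 2 := by
    have a1 := s3.tsum_le_tsum (hcj fr hfr) (s1.mul_left (R0 ^ 2))
    have a2 := s4.tsum_le_tsum (hcj fi hfi) (s2.mul_left (R0 ^ 2))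
    rw [tsum_mul_left] at a1 a2
    have a3 := mul_le_mul_of_nonneg_left hf1 (sq_nonneg R0)
    linarith
  obtain ⟨m1, m2, m3⟩ := mom h ht j (R0 ^ 2) s3 s4 hF
  refine ⟨m1, m2, ?_⟩
  have h5 : ∑' x, (cj j x * ur x) ^ 2 + ∑' x, (cj j x * ui x) ^ 2 ≤
      (t⁻¹) ^ 2 * (2 * R0 ^ 2 + 8 * (t⁻¹) ^ 2) := by
    have e1 : (t⁻¹) ^ 2 * t ^ 2 = 1 := by
      rw [← mul_pow, inv_mul_cancel₀ ht.ne', one_pow]
    have h6 : t ^ 2 * (∑' x, (cj j x * ur x) ^ 2 + ∑' x, (cj j x * ui x) ^ 2) ≤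
        2 * R0 ^ 2 + 8 * (t⁻¹) ^ 2 := by linarith
    have h7 := mul_le_mul_of_nonneg_left h6 (sq_nonneg (t⁻¹))
    rw [← mul_assoc, e1, one_mul] at h7
    exact h7
  refine h5.trans ?_
  have h8 : (1 : ℝ) ≤ (t⁻¹) ^ 2 := one_le_pow₀ hti
  have h9 : 2 * R0 ^ 2 + 8 * (t⁻¹) ^ 2 ≤ (2 * R0 ^ 2 + 8) * (t⁻¹) ^ 2 := by
    nlinarith [sq_nonneg R0]
  calc (t⁻¹) ^ 2 * (2 * R0 ^ 2 + 8 * (t⁻¹) ^ 2) ≤ (t⁻¹) ^ 2 * ((2 * R0 ^ 2 + 8) * (t⁻¹) ^ 2) := by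
        gcongr
    _ = _ := by ring

/-- the solution on the torus -/
theorem tor_src {σ : ℝ} {ξ fr fi : Zd d → ℝ} {E t : ℝ} {ur ui : Zd d → ℝ} (ℓ R0 : ℝ)
    (hℓ0 : 0 < ℓ) (hRℓ : R0 ≤ ℓ)
    (hL : 4 * ℓ + 4 < L) (ht : 0 < t) (ht1 : t ≤ 1)
    (hfr : ∀ x, R0 < ‖x‖ → fr x = 0) (hfi : ∀ x, R0 < ‖x‖ → fi x = 0)
    (hf1 : ∑' x, fr x ^ 2 + ∑' x, fi x ^ 2 ≤ 1)
    (h : LS d σ ξ fr fi E t ur ui) :
    ∃ rr ri : T d L → ℝ,
      Sol3 E t (fun y => σ * ξ (lf y)) (fun y => fr (lf y)) (fun y => fi (lf y))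
        (fun y => φ ℓ (lf y) * ur (lf y)) (fun y => φ ℓ (lf y) * ui (lf y)) rr ri ∧
      Real.sqrt (Bq (fun y : T d L => φ ℓ (lf y) * ur (lf y))
        (fun y => φ ℓ (lf y) * ui (lf y))) ≤ t⁻¹ ∧
      Real.sqrt (Bq rr ri) ≤ 2 * d / ℓ * t⁻¹ := by
  obtain ⟨hT, -⟩ := src_mom R0 ht ht1 hfr hfi hf1 h
  obtain ⟨rr, hr1, hr2, hr3⟩ := cut2 (L := L) σ E ℓ hℓ0 hL ξ ur _ h.sr h.er
  obtain ⟨ri, hi1, hi2, hi3⟩ := cut2 (L := L) σ E ℓ hℓ0 hL ξ ui _ h.si h.ei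
  have hφf : ∀ g : Zd d → ℝ, (∀ x, R0 < ‖x‖ → g x = 0) → ∀ x, φ ℓ x * g x = g x := by
    intro g hg x
    rcases lt_or_ge R0 ‖x‖ with hx | hx
    · rw [hg x hx, mul_zero]
    · rw [φ_one ℓ hℓ0 x (hx.trans hRℓ), one_mul]
  refine ⟨rr, ri, ⟨fun x => ?_, fun x => ?_⟩, ?_, ?_⟩
  · rw [hr1 x, mul_sub, hφf fr hfr]
    ring
  · rw [hi1 x, mul_add, hφf fi hfi]
    ring
  · rw [Real.sqrt_le_left (inv_nonneg.2 ht.le)]
    refine le_trans ?_ hT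
    exact add_le_add hr2 hi2
  · rw [Real.sqrt_le_left (by positivity)]
    calc Bq rr ri ≤ (2 * d / ℓ) ^ 2 * ∑' x, ur x ^ 2 + (2 * d / ℓ) ^ 2 * ∑' x, ui x ^ 2 :=
          add_le_add hr3 hi3
      _ = (2 * d / ℓ) ^ 2 * (∑' x, ur x ^ 2 + ∑' x, ui x ^ 2) := by ring
      _ ≤ (2 * d / ℓ) ^ 2 * (t⁻¹) ^ 2 := by gcongr
      _ = _ := by ring

theorem Bq_phi (ℓ : ℝ) (hℓ0 : 0 < ℓ) (hL : 4 * ℓ + 4 < L) (ur ui : Zd d → ℝ) :
    Bq (fun y : T d L => φ ℓ (lf y) * ur (lf y)) (fun y => φ ℓ (lf y) * ui (lf y)) =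
      ∑' x, φ ℓ x ^ 2 * ‖cx ur ui x‖ ^ 2 := by
  rw [← sum_tor (L := L) (2 * ℓ) (by linarith) (fun x => φ ℓ x ^ 2 * ‖cx ur ui x‖ ^ 2)
    (fun x hx => by
      rw [φ_zero ℓ hℓ0 x hx.le]
      ring)]
  unfold Bq
  rw [← Finset.sum_add_distrib]
  refine Finset.sum_congr rfl fun x _ => ?_
  rw [cx_sq]
  ring

/-- **the pairing** -/
theorem pair_cmp (hd : 1 ≤ d) (ℓ t ϖ R0 X C1 : ℝ) (hℓ0 : 0 < ℓ) (hRℓ : R0 ≤ ℓ)
    (hL : 6 * ℓ + 4 < L) (ht : 0 < t) (hϖ : 0 ≤ ϖ)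
    (Z : Finset (Zd d)) (o : Zd d → ℂ) (hZ : ∀ w ∈ Z, ‖w‖ ≤ R0)
    (ur ui ur' ui' : Zd d → ℝ)
    (s1 : Summable fun x => ur x ^ 2) (s2 : Summable fun x => ui x ^ 2)
    (s1' : Summable fun x => ur' x ^ 2) (s2' : Summable fun x => ui' x ^ 2)
    (hn : ∑' x, ur x ^ 2 + ∑' x, ui x ^ 2 ≤ (t⁻¹) ^ 2)
    (hn' : ∑' x, ur' x ^ 2 + ∑' x, ui' x ^ 2 ≤ (t⁻¹) ^ 2)
    (hm : ∀ j : Fin d, (Summable fun x => (cj j x * ur x) ^ 2) ∧
      (Summable fun x => (cj j x * ui x) ^ 2) ∧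
      ∑' x, (cj j x * ur x) ^ 2 + ∑' x, (cj j x * ui x) ^ 2 ≤ C1 * (t⁻¹) ^ 4)
    (hm' : ∀ j : Fin d, (Summable fun x => (cj j x * ur' x) ^ 2) ∧
      (Summable fun x => (cj j x * ui' x) ^ 2) ∧
      ∑' x, (cj j x * ur' x) ^ 2 + ∑' x, (cj j x * ui' x) ^ 2 ≤ C1 * (t⁻¹) ^ 4)
    (hB : Bq (fun y : T d L => φ ℓ (lf y) * ur (lf y)) (fun y => φ ℓ (lf y) * ui (lf y)) ≤ X)
    (hB' : Bq (fun y : T d L => φ ℓ (lf y) * ur' (lf y)) (fun y => φ ℓ (lf y) * ui' (lf y)) ≤ X)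
    (p : Fin d → ℝ) (n : Fin d → ℤ) (hp : ∀ i, |p i - 2 * Real.pi * n i / L| ≤ ϖ) :
    ‖(∑' x, ph p x * ((starRingEnd ℂ) (cx ur ui x) * cv Z o (cx ur' ui') x)) -
      chiO (fun i => ((n i : ℤ) : ZMod L)) (fun y : T d L => φ ℓ (lf y) * ur (lf y))
        (fun y => φ ℓ (lf y) * ui (lf y))
        (cvT Z o fun y => (φ ℓ (lf y) : ℂ) * cx ur' ui' (lf y))‖ ≤
      (∑ w ∈ Z, ‖o w‖) * (d * (ϖ * (2 * ℓ)) * X + 1 / ℓ * (d * (t⁻¹) ^ 3 * (C1 + 1))) := by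
  obtain ⟨u, hu⟩ : ∃ u, u = cx ur ui := ⟨_, rfl⟩
  obtain ⟨u', hu'⟩ : ∃ u', u' = cx ur' ui' := ⟨_, rfl⟩
  obtain ⟨p', hp'⟩ : ∃ p' : Fin d → ℝ, p' = fun i => 2 * Real.pi * n i / L := ⟨_, rfl⟩
  have hcs : ∀ ur ui : Zd d → ℝ, (Summable fun x => ur x ^ 2) → (Summable fun x => ui x ^ 2) →
      (Summable fun x => ‖cx ur ui x‖ ^ 2) ∧
      ∑' x, ‖cx ur ui x‖ ^ 2 = ∑' x, ur x ^ 2 + ∑' x, ui x ^ 2 := by
    intro ur ui h1 h2
    have e1 : (fun x => ‖cx ur ui x‖ ^ 2) = fun x => ur x ^ 2 + ui x ^ 2 := by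
      funext x
      rw [cx_sq]
    rw [e1]
    exact ⟨h1.add h2, h1.tsum_add h2⟩
  have hcm : ∀ ur ui : Zd d → ℝ, ∀ j : Fin d, (Summable fun x => (cj j x * ur x) ^ 2) →
      (Summable fun x => (cj j x * ui x) ^ 2) →
      (Summable fun x => cj j x ^ 2 * ‖cx ur ui x‖ ^ 2) ∧
      ∑' x, cj j x ^ 2 * ‖cx ur ui x‖ ^ 2 =
        ∑' x, (cj j x * ur x) ^ 2 + ∑' x, (cj j x * ui x) ^ 2 := by
    intro ur ui j h1 h2
    have e1 : (fun x => cj j x ^ 2 * ‖cx ur ui x‖ ^ 2) =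
        fun x => (cj j x * ur x) ^ 2 + (cj j x * ui x) ^ 2 := by
      funext x
      rw [cx_sq]
      ring
    rw [e1]
    exact ⟨h1.add h2, h1.tsum_add h2⟩
  obtain ⟨su, eu⟩ := hcs ur ui s1 s2
  obtain ⟨su', eu'⟩ := hcs ur' ui' s1' s2'
  have cu := fun j => hcm ur ui j (hm j).1 (hm j).2.1
  have cu' := fun j => hcm ur' ui' j (hm' j).1 (hm' j).2.1
  rw [← hu] at su eu
  rw [← hu'] at su' eu'
  simp only [← hu] at cu
  simp only [← hu'] at cu'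
  rw [Bq_phi ℓ hℓ0 (by linarith), ← hu] at hB
  rw [Bq_phi ℓ hℓ0 (by linarith), ← hu'] at hB'
  rw [← hu, ← hu']
  -- the two sides as sums over the shifts
  have hsp : ∀ w : Zd d, Summable fun x => ph p x * ((starRingEnd ℂ) (u x) * u' (x + w)) := by
    intro w
    have b1 : Summable fun x => ‖u' (x + w)‖ ^ 2 :=
      (Equiv.addRight w).summable_iff.2 su'
    refine Summable.of_norm_bounded (su.add b1) fun x => ?_
    rw [norm_mul, ph_norm, one_mul, norm_mul, Complex.norm_conj]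
    nlinarith [sq_nonneg (‖u x‖ - ‖u' (x + w)‖), sq_nonneg ‖u x‖, sq_nonneg ‖u' (x + w)‖]
  have e1 : ∑' x, ph p x * ((starRingEnd ℂ) (u x) * cv Z o u' x) =
      ∑ w ∈ Z, o w * ∑' x, ph p x * ((starRingEnd ℂ) (u x) * u' (x + w)) := by
    have e2 : ∀ x, ph p x * ((starRingEnd ℂ) (u x) * cv Z o u' x) =
        ∑ w ∈ Z, o w * (ph p x * ((starRingEnd ℂ) (u x) * u' (x + w))) := by
      intro x
      unfold cv
      rw [Finset.mul_sum, Finset.mul_sum]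
      exact Finset.sum_congr rfl fun w _ => by ring
    rw [tsum_congr (L := .unconditional _) e2, Summable.tsum_finsetSum fun w _ =>
      (hsp w).mul_left _]
    exact Finset.sum_congr rfl fun w _ => tsum_mul_left
  have e3 : chiO (fun i => ((n i : ℤ) : ZMod L)) (fun y : T d L => φ ℓ (lf y) * ur (lf y))
        (fun y => φ ℓ (lf y) * ui (lf y))
        (cvT Z o fun y => (φ ℓ (lf y) : ℂ) * u' (lf y)) =
      ∑ w ∈ Z, o w * ∑' x, ph p' x * (((φ ℓ x : ℂ) * (starRingEnd ℂ) (u x)) *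
        ((φ ℓ (x + w) : ℂ) * u' (x + w))) := by
    unfold chiO cvT
    have e4 : ∀ y : T d L, e (fun i => ((n i : ℤ) : ZMod L)) y *
        ((starRingEnd ℂ) (((φ ℓ (lf y) * ur (lf y) : ℝ) : ℂ) + Complex.I *
          ((φ ℓ (lf y) * ui (lf y) : ℝ) : ℂ)) *
          ∑ w ∈ Z, o w * ((φ ℓ (lf (y + z L w)) : ℂ) * u' (lf (y + z L w)))) =
        ∑ w ∈ Z, o w * (fun x => ph p' x * (((φ ℓ x : ℂ) * (starRingEnd ℂ) (u x)) *
        ((φ ℓ (x + w) : ℂ) * u' (x + w)))) (lf y) := by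
      intro y
      rw [Finset.mul_sum, Finset.mul_sum]
      refine Finset.sum_congr rfl fun w hw => ?_
      have e5 : ((φ ℓ (lf y) * ur (lf y) : ℝ) : ℂ) + Complex.I *
          ((φ ℓ (lf y) * ui (lf y) : ℝ) : ℂ) = (φ ℓ (lf y) : ℂ) * u (lf y) := by
        rw [hu]
        unfold cx
        push_cast
        ring
      rw [e5, map_mul, Complex.conj_ofReal, e_ph, ← hp']
      rcases le_or_gt (2 * ℓ) ‖lf y‖ with h5 | h5
      · simp only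
        rw [φ_zero ℓ hℓ0 _ h5]
        simp
      · have e6 : lf (y + z L w) = lf y + w := by
          have e7 : y + z L w = z L (lf y + w) := by
            rw [z_add, z_lf]
          rw [e7]
          apply lf_z
          have a1 := norm_add_le (lf y) w
          have a2 := hZ w hw
          linarith
        simp only
        rw [e6]
        ring
    rw [Finset.sum_congr rfl fun y _ => e4 y, Finset.sum_comm]
    refine Finset.sum_congr rfl fun w hw => ?_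
    rw [← Finset.mul_sum]
    congr 1
    exact sum_torC (d := d) (L := L) (2 * ℓ) (by linarith) (fun x => ph p' x * (((φ ℓ x : ℂ) *
      (starRingEnd ℂ) (u x)) * ((φ ℓ (x + w) : ℂ) * u' (x + w)))) (fun x hx => by
        rw [φ_zero ℓ hℓ0 x hx.le]
        simp)
  rw [e1, e3, ← Finset.sum_sub_distrib, Finset.sum_mul]
  refine (norm_sum_le _ _).trans (Finset.sum_le_sum fun w _ => ?_)
  rw [← mul_sub, norm_mul]
  apply mul_le_mul_of_nonneg_left _ (norm_nonneg _)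
  have hpp : ∀ i, |p i - p' i| ≤ ϖ := fun i => by rw [hp']; exact hp i
  have key := shift_cmp hd ℓ t ϖ hℓ0 ht hϖ w u u' p p' hpp su su' (fun i => (cu i).1)
    (fun i => (cu' i).1)
  refine key.trans (add_le_add ?_ ?_)
  · apply mul_le_mul_of_nonneg_left _ (by positivity)
    linarith
  · have m1 : ∑ i : Fin d, ∑' x, cj i x ^ 2 * ‖u x‖ ^ 2 ≤ d * (C1 * (t⁻¹) ^ 4) := by
      refine (Finset.sum_le_sum (g := fun _ => C1 * (t⁻¹) ^ 4) fun i _ => by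
        rw [(cu i).2]; exact (hm i).2.2).trans (le_of_eq ?_)
      rw [Finset.sum_const, Finset.card_univ, Fintype.card_fin, nsmul_eq_mul]
    have m2 : ∑ i : Fin d, ∑' x, cj i x ^ 2 * ‖u' x‖ ^ 2 ≤ d * (C1 * (t⁻¹) ^ 4) := by
      refine (Finset.sum_le_sum (g := fun _ => C1 * (t⁻¹) ^ 4) fun i _ => by
        rw [(cu' i).2]; exact (hm' i).2.2).trans (le_of_eq ?_)
      rw [Finset.sum_const, Finset.card_univ, Fintype.card_fin, nsmul_eq_mul]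
    rw [eu, eu']
    have q1 : t * (∑ i : Fin d, ∑' x, cj i x ^ 2 * ‖u x‖ ^ 2) +
        d * t⁻¹ * (∑' x, ur' x ^ 2 + ∑' x, ui' x ^ 2) ≤ d * (t⁻¹) ^ 3 * (C1 + 1) := by
      have r1 := mul_le_mul_of_nonneg_left m1 ht.le
      have r2 : d * t⁻¹ * (∑' x, ur' x ^ 2 + ∑' x, ui' x ^ 2) ≤ d * t⁻¹ * (t⁻¹) ^ 2 := by gcongr
      have r3 : t * (d * (C1 * (t⁻¹) ^ 4)) = d * (t⁻¹) ^ 3 * C1 * (t * t⁻¹) := by ring
      rw [r3, mul_inv_cancel₀ ht.ne', mul_one] at r1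
      linarith
    have q2 : t * (∑ i : Fin d, ∑' x, cj i x ^ 2 * ‖u' x‖ ^ 2) +
        d * t⁻¹ * (∑' x, ur x ^ 2 + ∑' x, ui x ^ 2) ≤ d * (t⁻¹) ^ 3 * (C1 + 1) := by
      have r1 := mul_le_mul_of_nonneg_left m2 ht.le
      have r2 : d * t⁻¹ * (∑' x, ur x ^ 2 + ∑' x, ui x ^ 2) ≤ d * t⁻¹ * (t⁻¹) ^ 2 := by gcongr
      have r3 : t * (d * (C1 * (t⁻¹) ^ 4)) = d * (t⁻¹) ^ 3 * C1 * (t * t⁻¹) := by ring
      rw [r3, mul_inv_cancel₀ ht.ne', mul_one] at r1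
      linarith
    have q3 : 0 ≤ 1 / (2 * ℓ) := by positivity
    have q4 := mul_le_mul_of_nonneg_left q1 q3
    have q5 := mul_le_mul_of_nonneg_left q2 q3
    have q6 : 1 / (2 * ℓ) * (d * (t⁻¹) ^ 3 * (C1 + 1)) + 1 / (2 * ℓ) * (d * (t⁻¹) ^ 3 * (C1 + 1)) =
        1 / ℓ * (d * (t⁻¹) ^ 3 * (C1 + 1)) := by
      field_simp
      ring
    linarith

end Pool.Agent.Q218.WE
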