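import Pool.Agent.Q218.WE.TwO
import Pool.Agent.Q218.LE.Mean

/-! The mean of the twisted chain with symbols. -/

set_option autoImplicit false
set_option linter.unusedSectionVars false

open scoped BigOperators Matrix
open MeasureTheory

namespace Pool.Agent.Q218.WE

open Pool.Agent.TH794.HK
open Pool.Agent.TH794.QD
open Pool.Agent.W788.BK
open Pool.Agent.TH794.LL2
open Pool.Agent.W240.BK (ae_PP)
open Pool.Agent.W261.BK (nn nn_nonneg nn_sq nn_add nn_smul nn_le triple IB IM int_bl XX_cont)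
open Pool.Agent.W788.MFP.Four (T e NN adj K ft Op q NN_pos e_zero)

variable {d L : ℕ} [NeZero L]

/-- the weight vector with a symbol -/
noncomputable def wb (E δ : ℝ) (b : T d L → ℂ) : T d L → ℂ := fun k => b k * w0 E δ k

theorem wb_one (E δ : ℝ) : wb (d := d) (L := L) E δ (fun _ => 1) = w0 E δ := by
  unfold wb
  funext k
  rw [one_mul]

/-- the twisted chain with symbols -/
noncomputable def FPo (E δ θ η : ℝ) (P0 : T d L) (o b : T d L → ℂ) (V : T d L → ℝ) : ℂ :=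
  star (w0 (d := d) (L := L) E δ) ⬝ᵥ (BTo E δ θ η P0 o V 0 1 *ᵥ wb E δ b)

/-- the mean of a covariant block -/
theorem bt_meanO (E δ θ η a v2 Q : ℝ) (P0 Qs : T d L) (o b : T d L → ℂ) (ho : ∀ k, ‖o k‖ ≤ 1)
    (i j : Fin 3)
    (hδ : 0 < δ) (hη : 0 < η) (hη1 : η ≤ 1)
    (hadm : Adm (D0 E δ) (AA (d := d) (L := L) E δ θ) a v2 Q)
    (μ : Measure ℝ) [IsProbabilityMeasure μ]
    (hcov : TCov Qs fun V : T d L → ℝ => BTo E δ θ η P0 o V i j) :
    Integrable (fun V => star (w0 (d := d) (L := L) E δ) ⬝ᵥ (BTo E δ θ η P0 o V i j *ᵥ wb E δ b))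
      (PP (T d L) μ) ∧
    ∫ V, star (w0 (d := d) (L := L) E δ) ⬝ᵥ (BTo E δ θ η P0 o V i j *ᵥ wb E δ b) ∂(PP (T d L) μ) =
      mv (NN d L) fun k => b (k + Qs) * ((wt E δ Qs k : ℂ) *
        ∫ V, BTo E δ θ η P0 o V i j k (k + Qs) ∂(PP (T d L) μ)) := by
  have hXh := hadm.hX0
  have hAh := hadm.hA
  have hH := adG3 hadm (TSo E δ P0 o) η hη hη1 (TSo_nsq E δ hδ P0 o ho)
  obtain ⟨Z0, hZ0⟩ : ∃ Z0, Z0 = Z3 (D0 (d := d) (L := L) E δ) ((η : ℂ) • TSo E δ P0 o) η := ⟨_, rfl⟩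
  rw [← hZ0] at hH
  have hP' : IsProbabilityMeasure (PP (T d L) μ) := by
    unfold PP
    infer_instance
  have hR : IM (PP (T d L) μ) (fun V => GG Z0 (A3 (AA (d := d) (L := L) E δ θ)) V) := hH.im
  have e1 := int_bl hR (star (emb i (w0 (d := d) (L := L) E δ))) (emb j (wb E δ b))
  have e2 : ∀ V, star (emb i (w0 (d := d) (L := L) E δ)) ⬝ᵥ
      (GG Z0 (A3 (AA (d := d) (L := L) E δ θ)) V *ᵥ emb j (wb E δ b)) =
      star (w0 (d := d) (L := L) E δ) ⬝ᵥ (BTo E δ θ η P0 o V i j *ᵥ wb E δ b) := by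
    intro V
    rw [hZ0, GG_BTo E δ θ η P0 o V hη hXh hAh, form_emb]
  simp only [e2] at e1
  have hi1 := (hR.bl (star (emb i (w0 (d := d) (L := L) E δ))) (emb j (wb E δ b))).int
  simp only [e2] at hi1
  refine ⟨hi1, ?_⟩
  rw [← e1]
  obtain ⟨MB, hMB⟩ : ∃ MB : Fin 3 → Fin 3 → Matrix (T d L) (T d L) ℂ, MB = fun i j =>
    Matrix.of fun k p => ∫ V, BTo E δ θ η P0 o V i j k p ∂(PP (T d L) μ) := ⟨_, rfl⟩
  have e4 : (Matrix.of fun i j => ∫ V, GG Z0 (A3 (AA (d := d) (L := L) E δ θ)) V i j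
      ∂(PP (T d L) μ)) = blk MB := by
    ext ⟨i, k⟩ ⟨j, p⟩
    rw [blk_apply, hMB]
    simp only [Matrix.of_apply]
    refine integral_congr_ae (Filter.Eventually.of_forall fun V => ?_)
    simp only
    rw [hZ0, GG_BTo E δ θ η P0 o V hη hXh hAh]
    rfl
  rw [e4, form_emb]
  have hdiag : ∀ k p, p ≠ k + Qs → MB i j k p = 0 := by
    intro k p hkp
    rw [hMB]
    simp only [Matrix.of_apply]
    exact hcov.off μ k p hkp
  have hMW : ∀ k, MB i j k (k + Qs) = ∫ V, BTo E δ θ η P0 o V i j k (k + Qs) ∂(PP (T d L) μ) := by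
    intro k
    rw [hMB]
    rfl
  unfold dotProduct mv
  rw [Finset.mul_sum]
  refine Finset.sum_congr rfl fun k _ => ?_
  have e5 : (MB i j *ᵥ wb (d := d) (L := L) E δ b) k = MB i j k (k + Qs) * wb E δ b (k + Qs) := by
    unfold Matrix.mulVec dotProduct
    rw [Finset.sum_eq_single (k + Qs)]
    · intro l _ hl
      simp only
      rw [hdiag k l hl, zero_mul]
    · intro h
      exact absurd (Finset.mem_univ _) h
  rw [e5, Pi.star_apply, hMW]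
  unfold wb w0
  rw [RCLike.star_def, Complex.conj_ofReal]
  have h5 : (Real.sqrt (NN d L))⁻¹ * (Real.sqrt (NN d L))⁻¹ = (NN d L)⁻¹ := by
    rw [← mul_inv, Real.mul_self_sqrt (NN_pos (d := d) (L := L)).le]
  generalize (∫ V, BTo E δ θ η P0 o V i j k (k + Qs) ∂(PP (T d L) μ)) = W
  calc (((Real.sqrt (NN d L))⁻¹ * (Real.sqrt (JJ E δ k))⁻¹ : ℝ) : ℂ) *
        (W * (b (k + Qs) * (((Real.sqrt (NN d L))⁻¹ * (Real.sqrt (JJ E δ (k + Qs)))⁻¹ : ℝ) : ℂ))) =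
      ((((Real.sqrt (NN d L))⁻¹ * (Real.sqrt (NN d L))⁻¹) * wt E δ Qs k : ℝ) : ℂ) *
        (b (k + Qs) * W) := by
        unfold wt
        push_cast
        ring
    _ = _ := by
        rw [h5]
        push_cast
        ring

/-- the chain is dominated by the resolvent -/
theorem FPo_le (E δ θ η : ℝ) (P0 : T d L) (o : T d L → ℂ) (ho : ∀ k, ‖o k‖ ≤ 1) (V : T d L → ℝ) (hδ : 0 < δ) (hη : 0 < η)
    (h0 : (D0 (d := d) (L := L) E δ).IsHermitian)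
    (hA : ∀ y, (AA (d := d) (L := L) E δ θ y).IsHermitian) :
    ‖FPo E δ θ η P0 o (fun _ => 1) V‖ ≤ (star (w0 (d := d) (L := L) E δ) ⬝ᵥ
      (BTo E δ θ η P0 o V 1 1 *ᵥ w0 E δ)).im := by
  have e1 : BTo E δ θ η P0 o V 1 1 = RR (D0 E δ) (AA (d := d) (L := L) E δ θ) η V := rfl
  have e2 : BTo E δ θ η P0 o V 0 1 = (RR (D0 E δ) (AA (d := d) (L := L) E δ θ) η V)ᴴ *
      ((η : ℂ) • TSo E δ P0 o) * RR (D0 E δ) (AA (d := d) (L := L) E δ θ) η V := rfl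
  have hw := (ward h0 hA hη V (w0 (d := d) (L := L) E δ)).1
  rw [e1, hw]
  unfold FPo
  rw [wb_one]
  rw [e2]
  generalize RR (D0 E δ) (AA (d := d) (L := L) E δ θ) η V = R at hw ⊢
  have e3 : star (w0 (d := d) (L := L) E δ) ⬝ᵥ ((Rᴴ * ((η : ℂ) • TSo E δ P0 o) * R) *ᵥ w0 E δ) =
      star (R *ᵥ w0 (d := d) (L := L) E δ) ⬝ᵥ (((η : ℂ) • TSo E δ P0 o) *ᵥ (R *ᵥ w0 E δ)) := by
    rw [mul_assoc, ← Matrix.mulVec_mulVec, adjoint, Matrix.conjTranspose_conjTranspose,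
      Matrix.mulVec_mulVec]
  rw [e3]
  refine (cs_norm _ _).trans ?_
  have e4 : nsq (((η : ℂ) • TSo E δ P0 o) *ᵥ (R *ᵥ w0 (d := d) (L := L) E δ)) ≤
      η ^ 2 * nsq (R *ᵥ w0 (d := d) (L := L) E δ) := by
    rw [Matrix.smul_mulVec, nsq_smul, Complex.norm_real, Real.norm_of_nonneg hη.le]
    exact mul_le_mul_of_nonneg_left (TSo_nsq E δ hδ P0 o ho _) (by positivity)
  have h0' := nsq_nonneg (R *ᵥ w0 (d := d) (L := L) E δ)
  calc Real.sqrt (nsq (R *ᵥ w0 (d := d) (L := L) E δ)) *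
        Real.sqrt (nsq (((η : ℂ) • TSo E δ P0 o) *ᵥ (R *ᵥ w0 (d := d) (L := L) E δ))) ≤
      Real.sqrt (nsq (R *ᵥ w0 (d := d) (L := L) E δ)) *
        Real.sqrt (η ^ 2 * nsq (R *ᵥ w0 (d := d) (L := L) E δ)) := by gcongr
    _ = η * (Real.sqrt (nsq (R *ᵥ w0 (d := d) (L := L) E δ)) *
        Real.sqrt (nsq (R *ᵥ w0 (d := d) (L := L) E δ))) := by
        rw [Real.sqrt_mul (by positivity), Real.sqrt_sq hη.le]
        ring
    _ = _ := by rw [Real.mul_self_sqrt h0']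

/-- **the mean of the twisted chain** -/
theorem meanO1 (hES : S_ES) (hFA : S_FAC) (E δ θ η a v2 Q β s2 g g1 ε e1 c0 : ℝ) (P0 : T d L)
    (o : T d L → ℂ) (ho : ∀ k, ‖o k‖ ≤ 1) (hδ : 0 < δ) (hη : 0 < η) (hη1 : η ≤ 1)
    (hadm : Adm (D0 E δ) (AA (d := d) (L := L) E δ θ) a v2 Q)
    (μ : Measure ℝ) [IsProbabilityMeasure μ] (hβ : 0 < β) (hμ : ∀ᵐ s ∂μ, |s| ≤ β)
    (h0 : ∫ s, s ∂μ = 0) (h2 : ∫ s, s ^ 2 ∂μ = s2) (hs2 : 0 < s2)
    (hβa : β * a * (3 / η) ≤ 1) (hβv : β ^ 2 * v2 ≤ 1)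
    (hε0 : 0 ≤ ε) (hε1 : ε ≤ 1 / 2) (he0 : 0 ≤ e1) (he1 : e1 ≤ 1 / 4)
    (hε : 4 * β ^ 3 * a * v2 * (3 / η) ^ 3 +
      s2 * (2 * β * (3 * Q) * Real.sqrt v2 * (3 / η) ^ 4) ≤ ε)
    (hg : ∀ E' : ℝ, ∑ k : T d L, (JJ E' (η * δ) k)⁻¹ ≤ g * NN d L) (hg1 : 1 ≤ g)
    (hlow : s2 * (∑ P : T d L, (1 - hi θ P)) ≤ e1 * (η ^ 2 * δ ^ 2) * NN d L)
    (hc0 : c0 = 4 / 3 * (ε + e1 + (2 * η + 8 * s2 ^ 2 * g ^ 2 / δ ^ 2))) (hc01 : c0 ≤ 1)
    (hgg : ∑ k : T d L, (JJ E δ k)⁻¹ ≤ g1 * NN d L) (hgδ : s2 * (2 * g) ≤ δ) :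
    ∃ m z : ℂ, 0 ≤ m.im ∧ ‖m‖ ≤ 2 * g ∧
      z = (E : ℂ) + (s2 : ℂ) * m + ((η * δ : ℝ) : ℂ) * Complex.I ∧
      ‖m - gL d L z‖ ≤ c0 * g ∧
      (0 < m.im → rv (NN d L) (fun k : T d L => ‖(((adj k : ℝ) : ℂ) - z)⁻¹‖ ^ 2) =
          (gL d L z).im / (η * δ + s2 * m.im) ∧
        ∀ b : T d L → ℂ, (∀ k, ‖b k‖ ≤ 1) →
        ‖(∫ V, FPo E δ θ η P0 o b V ∂(PP (T d L) μ)) -
          mv (NN d L) (fun k : T d L => b (k + P0) * ((((η * δ : ℝ) : ℂ) * o (k + P0) + (s2 : ℂ) *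
            ∫ V, FPo E δ θ η P0 o (fun _ => 1) V ∂(PP (T d L) μ)) *
            ((starRingEnd ℂ) ((((adj k : ℝ) : ℂ) - z)⁻¹) * (((adj (k + P0) : ℝ) : ℂ) - z)⁻¹)))‖ ≤
          ε * (g1 + g + 2 * δ * ((gL d L z).im / (η * δ + s2 * m.im))) +
          3 * c0 * (η * δ + s2 * (2 * g) + 3 * e1 * (η * δ)) *
            ((gL d L z).im / (η * δ + s2 * m.im)) +
          6 * e1 * (η * δ) * ((gL d L z).im / (η * δ + s2 * m.im))) := by
  have hXh := hadm.hX0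
  have hAh := hadm.hA
  have hH := adG3 hadm (TSo E δ P0 o) η hη hη1 (TSo_nsq E δ hδ P0 o ho)
  have hN := NN_pos (d := d) (L := L)
  have ht : 0 < η * δ := mul_pos hη hδ
  obtain ⟨M, hM⟩ : ∃ M : T d L → ℂ, M = fun k =>
    ∫ V, BTo E δ θ η P0 o V 1 1 k k ∂(PP (T d L) μ) := ⟨_, rfl⟩
  obtain ⟨Y, hY⟩ : ∃ Y : T d L → ℂ, Y = fun k =>
    ∫ V, BTo E δ θ η P0 o V 0 1 k (k + P0) ∂(PP (T d L) μ) := ⟨_, rfl⟩
  have hMk : ∀ k, M k = ∫ V, RR (D0 E δ) (AA E δ θ) η V k k ∂(PP (T d L) μ) := by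
    intro k
    rw [hM]
    rfl
  have hYk : ∀ k, Y k = ∫ V, BTo E δ θ η P0 o V 0 1 k (k + P0) ∂(PP (T d L) μ) := by
    intro k
    rw [hY]
  have heqM := fun k => (four_eq hES hFA E δ θ η a v2 Q β s2 ε (fun _ => 0) hδ hη hη1
    (fun k => by simp) hadm μ hβ hμ h0 h2 hs2.le hβa hβv hε M _ _ _
    (by
      funext k
      rw [hMk]
      rfl) rfl rfl rfl k).1
  have heqY := tw_eqO hES hFA E δ θ η a v2 Q β s2 ε P0 o ho hδ hη hη1 hadm μ hβ hμ h0 h2 hs2.le hβa hβv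
    hε M Y hMk hYk
  have him : ∀ k, 0 ≤ (M k).im := by
    intro k
    have e2 := integrable_RR hXh hAh hη μ k k
    have e3 : (M k).im = ∫ V, (RR (D0 E δ) (AA E δ θ) η V k k).im ∂(PP (T d L) μ) := by
      rw [hMk]
      have := Complex.imCLM.integral_comp_comm e2
      simp only [Complex.imCLM_apply] at this
      exact this.symm
    rw [e3]
    apply integral_nonneg
    intro V
    have e4 := (ward hXh hAh hη V (Pi.single k 1)).1
    rw [form_single] at e4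
    simp only [Pi.zero_apply]
    rw [e4]
    exact mul_nonneg hη.le (nsq_nonneg _)
  have hP' : IsProbabilityMeasure (PP (T d L) μ) := by
    unfold PP
    infer_instance
  have hbd : ∀ k, ‖M k‖ ≤ η⁻¹ := by
    intro k
    rw [hMk]
    refine (norm_integral_le_of_norm_le_const (C := η⁻¹)
      (Filter.Eventually.of_forall fun V => entry_bd hXh hAh hη V k k)).trans ?_
    rw [probReal_univ, mul_one]
  have hYb : ∀ k, ‖Y k‖ ≤ 3 / η := by
    intro k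
    rw [hYk]
    refine (norm_integral_le_of_norm_le_const (C := 3 / η)
      (Filter.Eventually.of_forall fun V => ?_)).trans ?_
    · have := hH.entry V (0, k) (1, k + P0)
      rw [GG_BTo E δ θ η P0 o V hη hXh hAh, blk_apply] at this
      exact this
    · rw [probReal_univ, mul_one]
  obtain ⟨m, hm1, hm2, hm3, hm4⟩ := core2 (NN d L) δ η s2 g ε e1 E adj (JJ E δ)
    (fun k p => hi θ (k - p)) (∑ P : T d L, (1 - hi θ P)) M NN_pos hδ hη hs2.le hε0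
    hε1 (by linarith) he0 he1 (fun k => rfl) him hbd (fun k p => hi_le_one θ _)
    (fun k => Equiv.sum_comp (Equiv.subLeft k) fun P : T d L => (1 - hi θ P)) hlow hg heqM
  obtain ⟨z, hz⟩ : ∃ z, z = (E : ℂ) + (s2 : ℂ) * m + ((η * δ : ℝ) : ℂ) * Complex.I := ⟨_, rfl⟩
  have hDz : ∀ k : T d L, ((adj k : ℝ) : ℂ) - z = ((adj k - E : ℝ) : ℂ) - (s2 : ℂ) * m -
      ((η * δ : ℝ) : ℂ) * Complex.I := by
    intro k
    rw [hz]
    push_cast
    ring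
  have hmg : ‖m - gL d L z‖ ≤ c0 * g := by
    rw [hc0]
    unfold gL
    simp only [hDz]
    exact hm4
  refine ⟨m, z, hm2, hm3, hz, hmg, ?_⟩
  intro hmim0
  -- the mean value of the resolvent
  have hm' : m = mv (NN d L) fun k => (((JJ E δ k)⁻¹ : ℝ) : ℂ) * M k := by
    rw [hm1]
    unfold mv
    simp only [Complex.ofReal_inv]
  obtain ⟨i11, v11⟩ := bt_meanO E δ θ η a v2 Q P0 0 o (fun _ => 1) ho 1 1 hδ hη hη1 hadm μ
    (TCov.of_cov (Cov.res (d := d) (L := L) E δ θ η))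
  obtain ⟨i01, v01⟩ := bt_meanO E δ θ η a v2 Q P0 P0 o (fun _ => 1) ho 0 1 hδ hη hη1 hadm μ
    (cov01o E δ θ η P0 o)
  rw [wb_one] at i11 v11
  have v11' : ∫ V, star (w0 (d := d) (L := L) E δ) ⬝ᵥ (BTo E δ θ η P0 o V 1 1 *ᵥ w0 E δ)
      ∂(PP (T d L) μ) = m := by
    rw [v11, hm']
    unfold mv
    congr 1
    refine Finset.sum_congr rfl fun k _ => ?_
    beta_reduce
    rw [wt_zero E δ hδ, add_zero, hM, one_mul]
  obtain ⟨ν, hν⟩ : ∃ ν, ν = ∫ V, FPo E δ θ η P0 o (fun _ => 1) V ∂(PP (T d L) μ) := ⟨_, rfl⟩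
  have v01' : ν = mv (NN d L) fun k => (wt E δ P0 k : ℂ) * Y k := by
    rw [hν, hY]
    simp only [one_mul] at v01
    exact v01
  have hνg : ‖ν‖ ≤ 2 * g := by
    rw [hν]
    refine (norm_integral_le_integral_norm _).trans ?_
    have h5 : ∫ V, ‖FPo E δ θ η P0 o (fun _ => 1) V‖ ∂(PP (T d L) μ) ≤
        ∫ V, (star (w0 (d := d) (L := L) E δ) ⬝ᵥ
          (BTo E δ θ η P0 o V 1 1 *ᵥ w0 E δ)).im ∂(PP (T d L) μ) := by
      refine integral_mono i01.norm i11.im fun V => ?_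
      exact FPo_le E δ θ η P0 o ho V hδ hη hXh hAh
    refine h5.trans ?_
    have h6 := Complex.imCLM.integral_comp_comm i11
    simp only [Complex.imCLM_apply] at h6
    rw [h6, v11']
    exact (le_abs_self _).trans ((Complex.abs_im_le_norm m).trans hm3)
  -- the denominators
  obtain ⟨D, hD⟩ : ∃ D : T d L → ℂ, D = fun k => ((adj k : ℝ) : ℂ) - z := ⟨_, rfl⟩
  have hDk : ∀ k, D k = ((adj k - E : ℝ) : ℂ) - (s2 : ℂ) * m -
      ((η * δ : ℝ) : ℂ) * Complex.I := fun k => by rw [hD]; exact hDz k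
  obtain ⟨ω, hω⟩ : ∃ ω, ω = η * δ + s2 * m.im := ⟨_, rfl⟩
  have hm0 : 0 < m.im := hmim0
  have hω0 : 0 < ω := by rw [hω]; positivity
  have hDx : ∀ k, D k = ((adj k - E - s2 * m.re : ℝ) : ℂ) - (ω : ℂ) * Complex.I := by
    intro k
    rw [hDk, hω]
    conv_lhs => rw [← Complex.re_add_im m]
    push_cast
    ring
  have hD0 : ∀ k, D k ≠ 0 := by
    intro k h
    have h2 := congrArg Complex.im h
    rw [hDx] at h2
    simp at h2
    exact hω0.ne' h2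
  have hDim : ∀ k, ((D k)⁻¹).im = ω * ‖(D k)⁻¹‖ ^ 2 := by
    intro k
    have e1 : (D k).im = -ω := by rw [hDx]; simp
    rw [Complex.inv_im, e1, neg_neg, Complex.normSq_eq_norm_sq, norm_inv, inv_pow]
    rfl
  have hΓ : (gL d L z).im = rv (NN d L) fun k => ((D k)⁻¹).im := by
    have e1 : gL d L z = mv (NN d L) fun k => (D k)⁻¹ := by
      rw [hD]
      rfl
    rw [e1, mv_im]
  have hH2 : rv (NN d L) (fun k => ‖(D k)⁻¹‖ ^ 2) = (gL d L z).im / ω := by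
    rw [hΓ, eq_div_iff hω0.ne', mul_comm, ← rv_mul]
    congr 1
    funext k
    rw [hDim]
  have hΓ0 : 0 ≤ (gL d L z).im := by
    rw [hΓ]
    refine rv_nonneg hN fun k => ?_
    rw [hDim]
    positivity
  have hG1 : rv (NN d L) (fun k => ‖(D k)⁻¹‖) ≤ g := by
    have h5 := hg (E + s2 * m.re)
    unfold rv
    rw [inv_mul_le_iff₀ hN, mul_comm]
    refine le_trans (Finset.sum_le_sum fun k _ => ?_) h5
    rw [norm_inv]
    unfold JJ
    refine inv_anti₀ (Real.sqrt_pos.2 (by positivity)) ?_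
    have e1 : D k = ((adj k - (E + s2 * m.re) : ℝ) : ℂ) + ((-ω : ℝ) : ℂ) * Complex.I := by
      rw [hDx]
      push_cast
      ring
    rw [e1, Complex.norm_add_mul_I]
    apply Real.sqrt_le_sqrt
    have h6 : (η * δ) ^ 2 ≤ ω ^ 2 := by
      rw [hω]
      gcongr
      have := mul_nonneg hs2.le hm2
      linarith
    rw [neg_sq]
    linarith
  have hc00 : 0 ≤ c0 := by
    rw [hc0]
    positivity
  have hJ1 : rv (NN d L) (fun k : T d L => (JJ E δ k)⁻¹) ≤ g1 := by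
    unfold rv
    rw [inv_mul_le_iff₀ hN, mul_comm]
    exact hgg
  rw [← hν, ← hω]
  refine ⟨?_, fun b hb => ?_⟩
  · rw [← hH2, hD]
  · have h8 := coreO (NN d L) δ η s2 g g1 ε e1 E c0 ((gL d L z).im / ω) adj (JJ E δ) (wt E δ P0)
      (fun k p => hi θ (k - p)) (∑ P : T d L, (1 - hi θ P)) (Equiv.addRight P0) M Y
      (fun k => o (k + P0)) (fun k => b (k + P0)) m ν (fun k => ho _) (fun k => hb _) hN hδ hη
      hs2.le hε0 he0 he1 (by linarith) (fun k => rfl) hbd hYb (fun k p => hi_le_one θ _)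
      (fun k => Equiv.sum_comp (Equiv.subLeft k) fun P : T d L => (1 - hi θ P)) hlow hm' hm2 hm3
      (fun k => rfl) hJ1 hgδ heqM heqY
      (by rw [hc0]; ring) hc01 D hDk v01' hνg hH2.le hG1
    obtain ⟨-, vb⟩ := bt_meanO E δ θ η a v2 Q P0 P0 o b ho 0 1 hδ hη hη1 hadm μ
      (cov01o E δ θ η P0 o)
    have e1 : ∫ V, FPo E δ θ η P0 o b V ∂(PP (T d L) μ) =
        mv (NN d L) fun k => b (k + P0) * ((wt E δ P0 k : ℂ) * Y k) := by
      rw [hY]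
      exact vb
    have e2 : (fun k : T d L => b (k + P0) * ((((η * δ : ℝ) : ℂ) * o (k + P0) + (s2 : ℂ) * ν) *
            ((starRingEnd ℂ) ((((adj k : ℝ) : ℂ) - z)⁻¹) * (((adj (k + P0) : ℝ) : ℂ) - z)⁻¹))) =
        fun k => b (k + P0) * ((((η * δ : ℝ) : ℂ) * o (k + P0) + (s2 : ℂ) * ν) *
            ((starRingEnd ℂ) ((D k)⁻¹) * (D ((Equiv.addRight P0) k))⁻¹)) := by
      rw [hD]
      rfl
    rw [e1, e2]
    exact h8

end Pool.Agent.Q218.WE
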