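import Pool.Agent.Q218.WE.FreeO
import Mathlib.MeasureTheory.Integral.Pi

/-! The microcanonical average. -/

set_option autoImplicit false
set_option linter.unusedSectionVars false

open MeasureTheory Set Filter Topology

namespace Pool.Agent.Q218.WE

open Pool.Agent.H4R2.LO (Zd)
open Pool.Agent.TH794.QE (lim3)
open Pool.Agent.TH794.QD
open Pool.Agent.Q218.UD (D0 D1 D01 D_low)

variable {d : ℕ}

/-- the energy of a momentum -/
noncomputable def en (k : Fin d → ℝ) : ℝ := ∑ i, 2 * Real.cos (2 * Real.pi * k i)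

/-- the smoothed energy surface -/
noncomputable def shell (d : ℕ) (v : Fin d → ℤ) (E η : ℝ) : ℝ :=
  ∫ k in Icc (0 : Fin d → ℝ) 1, Real.cos (2 * Real.pi * ∑ i, v i * k i) *
    (η / ((en k - E) ^ 2 + η ^ 2))

theorem ff_eq (s x : ℝ) : ff s x = Complex.exp (-(Complex.I * s *
    ((2 * Real.cos (2 * Real.pi * x) : ℝ) : ℂ))) := by
  unfold ff
  congr 1
  push_cast
  ring

/-- the character of a momentum -/
noncomputable def chk (v : Fin d → ℤ) (k : Fin d → ℝ) : ℂ :=
  Complex.exp (((2 * Real.pi * ∑ i, v i * k i : ℝ) : ℂ) * Complex.I)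

theorem chk_norm (v : Fin d → ℤ) (k : Fin d → ℝ) : ‖chk v k‖ = 1 := by
  unfold chk
  rw [Complex.norm_exp_ofReal_mul_I]

theorem FZ_int (v : Fin d → ℤ) (s : ℝ) : FZ d v s = ∫ k in Icc (0 : Fin d → ℝ) 1,
    chk v k * Complex.exp (-(Complex.I * s * (en k : ℂ))) := by
  have h1 : (volume : Measure (Fin d → ℝ)).restrict (Icc (0 : Fin d → ℝ) 1) =
      Measure.pi fun _ : Fin d => (volume : Measure ℝ).restrict (Icc 0 1) := by
    rw [← pi_univ_Icc, volume_pi, Measure.restrict_pi_pi]
    rfl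
  rw [h1]
  have h2 : ∀ k : Fin d → ℝ, chk v k * Complex.exp (-(Complex.I * s * (en k : ℂ))) =
      ∏ i, (Complex.exp (((2 * Real.pi * v i * k i : ℝ) : ℂ) * Complex.I) * ff s (k i)) := by
    intro k
    rw [Finset.prod_mul_distrib, ← Complex.exp_sum]
    simp only [ff_eq]
    rw [← Complex.exp_sum]
    unfold chk en
    congr 2
    · rw [← Finset.sum_mul]
      congr 1
      push_cast
      rw [Finset.mul_sum]
      refine Finset.sum_congr rfl fun i _ => ?_
      ring
    · rw [Finset.sum_neg_distrib]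
      push_cast
      rw [Finset.mul_sum]
  simp only [h2]
  rw [integral_fintype_prod_eq_prod (𝕜 := ℂ) (fun (i : Fin d) (x : ℝ) =>
    Complex.exp (((2 * Real.pi * v i * x : ℝ) : ℂ) * Complex.I) * ff s x)]
  unfold FZ pn
  refine Finset.prod_congr rfl fun i _ => ?_
  rw [intervalIntegral.integral_of_le zero_le_one, integral_Icc_eq_integral_Ioc]

theorem pn_neg (n : ℤ) (s : ℝ) : pn (-n) s = pn n s := by
  unfold pn
  have h1 := intervalIntegral.integral_comp_sub_left (a := 0) (b := 1)
    (fun x => Complex.exp (((2 * Real.pi * n * x : ℝ) : ℂ) * Complex.I) * ff s x) 1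
  rw [sub_self, sub_zero] at h1
  rw [← h1]
  refine intervalIntegral.integral_congr fun x _ => ?_
  have h2 : Complex.exp (((2 * Real.pi * n * (1 - x) : ℝ) : ℂ) * Complex.I) =
      Complex.exp (((2 * Real.pi * (-n : ℤ) * x : ℝ) : ℂ) * Complex.I) := by
    have h3 : ((2 * Real.pi * n * (1 - x) : ℝ) : ℂ) * Complex.I =
        ((2 * Real.pi * (-n : ℤ) * x : ℝ) : ℂ) * Complex.I + n * (2 * Real.pi * Complex.I) := by
      push_cast
      ring
    rw [h3, Complex.exp_add, Complex.exp_int_mul_two_pi_mul_I, mul_one]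
  have h4 : ff s (1 - x) = ff s x := by
    unfold ff
    have h5 : Real.cos (2 * Real.pi * (1 - x)) = Real.cos (2 * Real.pi * x) := by
      have : 2 * Real.pi * (1 - x) = 2 * Real.pi - 2 * Real.pi * x := by ring
      rw [this, Real.cos_two_pi_sub]
    rw [h5]
  rw [h2, h4]

theorem FZ_neg (v : Fin d → ℤ) (s : ℝ) : FZ d (-v) s = FZ d v s := by
  unfold FZ
  refine Finset.prod_congr rfl fun i _ => ?_
  rw [Pi.neg_apply, pn_neg]

theorem en_cont : Continuous (en (d := d)) := by
  unfold en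
  fun_prop

theorem chk_cont (v : Fin d → ℤ) : Continuous (chk (d := d) v) := by
  unfold chk
  fun_prop

/-- the spectral representation -/
theorem GF_int (v : Fin d → ℤ) (z : ℂ) (hz : 0 < z.im) : GF (FZ d v) z =
    ∫ k in Icc (0 : Fin d → ℝ) 1, chk v k * (((en k : ℝ) : ℂ) - z)⁻¹ := by
  have hfin : IsFiniteMeasure ((volume : Measure (Fin d → ℝ)).restrict (Icc (0 : Fin d → ℝ) 1)) :=
    ⟨by
      rw [Measure.restrict_apply_univ]
      exact isCompact_Icc.measure_lt_top⟩
  have h1 : ∀ k : Fin d → ℝ, chk v k * (((en k : ℝ) : ℂ) - z)⁻¹ = Complex.I *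
      ∫ s in Ioi (0 : ℝ), chk v k * Complex.exp (Complex.I * (z - en k) * s) := by
    intro k
    rw [Pool.Agent.TH794.LL2.inv_time (en k) z hz, integral_const_mul]
    ring
  simp only [h1]
  rw [integral_const_mul]
  unfold GF
  congr 1
  rw [integral_integral_swap]
  · refine setIntegral_congr_fun measurableSet_Ioi fun s _ => ?_
    rw [FZ_int, ← integral_mul_const]
    congr 1
    funext k
    rw [mul_assoc, ← Complex.exp_add]
    congr 2
    ring
  · have hg : Integrable (fun p : (Fin d → ℝ) × ℝ => (1 : ℝ) * Real.exp (-z.im * p.2))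
        (((volume : Measure (Fin d → ℝ)).restrict (Icc (0 : Fin d → ℝ) 1)).prod
          ((volume : Measure ℝ).restrict (Ioi 0))) := by
      refine Integrable.mul_prod (f := fun _ : Fin d → ℝ => (1 : ℝ))
        (g := fun s : ℝ => Real.exp (-z.im * s)) (integrable_const _) ?_
      exact integrableOn_exp_mul_Ioi (by linarith) 0
    refine hg.mono' ?_ (Eventually.of_forall fun p => ?_)
    · refine Continuous.aestronglyMeasurable ?_
      have c1 := chk_cont (d := d) v
      have c2 := en_cont (d := d)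
      unfold Function.uncurry
      fun_prop
    · obtain ⟨k, s⟩ := p
      simp only [Function.uncurry]
      rw [norm_mul, chk_norm, Complex.norm_exp]
      have : (Complex.I * (z - en k) * s).re = -z.im * s := by simp
      rw [this]

theorem inv_im (a E η : ℝ) : ((((a : ℝ) : ℂ) - ((E : ℂ) + (η : ℂ) * Complex.I))⁻¹).im =
    η / ((a - E) ^ 2 + η ^ 2) := by
  rw [Complex.inv_im, Complex.normSq_apply]
  simp
  ring

theorem shell_eq (v : Fin d → ℤ) (E η : ℝ) (hη : 0 < η) :
    shell d v E η = (GF (FZ d v) ((E : ℂ) + (η : ℂ) * Complex.I)).im := by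
  obtain ⟨z, hz⟩ : ∃ z : ℂ, z = (E : ℂ) + (η : ℂ) * Complex.I := ⟨_, rfl⟩
  have hzi : 0 < z.im := by rw [hz]; simpa using hη
  rw [← hz]
  have hA : GF (FZ d (-v)) z = GF (FZ d v) z := by
    unfold GF
    simp only [FZ_neg]
  have hi : ∀ w : Fin d → ℤ, IntegrableOn (fun k => chk w k * (((en k : ℝ) : ℂ) - z)⁻¹)
      (Icc (0 : Fin d → ℝ) 1) := by
    intro w
    refine ContinuousOn.integrableOn_compact isCompact_Icc ?_
    refine ((chk_cont w).mul (Continuous.inv₀ ?_ fun k h0 => ?_)).continuousOn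
    · have := en_cont (d := d)
      fun_prop
    · have := congrArg Complex.im h0
      simp at this
      linarith
  have h1 : GF (FZ d v) z = ∫ k in Icc (0 : Fin d → ℝ) 1,
      ((Real.cos (2 * Real.pi * ∑ i, v i * k i) : ℝ) : ℂ) * (((en k : ℝ) : ℂ) - z)⁻¹ := by
    have h2 : GF (FZ d v) z = (1 / 2 : ℂ) * (GF (FZ d v) z + GF (FZ d (-v)) z) := by
      rw [hA]
      ring
    rw [h2, GF_int v z hzi, GF_int (-v) z hzi, ← integral_add (hi v) (hi (-v)),
      ← integral_const_mul]
    congr 1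
    funext k
    rw [← add_mul, ← mul_assoc]
    congr 1
    unfold chk
    have h3 : ∑ i, ((-v) i : ℝ) * k i = -∑ i, v i * k i := by
      rw [← Finset.sum_neg_distrib]
      refine Finset.sum_congr rfl fun i _ => ?_
      simp
    rw [show (∑ i, (((-v) i : ℤ) : ℝ) * k i) = -∑ i, (v i : ℝ) * k i by
      rw [← Finset.sum_neg_distrib]
      refine Finset.sum_congr rfl fun i _ => ?_
      simp]
    rw [Complex.ofReal_cos, Complex.cos]
    push_cast
    ring_nf
  rw [h1]
  have h4 := integral_im (μ := (volume : Measure (Fin d → ℝ)).restrict (Icc (0 : Fin d → ℝ) 1))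
    (f := fun k => ((Real.cos (2 * Real.pi * ∑ i, v i * k i) : ℝ) : ℂ) *
      (((en k : ℝ) : ℂ) - z)⁻¹) ?_
  · have h5 : ∀ w : ℂ, RCLike.im w = w.im := fun w => rfl
    simp only [h5] at h4
    rw [← h4]
    unfold shell
    congr 1
    funext k
    rw [Complex.im_ofReal_mul, hz, inv_im]
  · refine ContinuousOn.integrableOn_compact isCompact_Icc ?_
    refine (Continuous.mul ?_ (Continuous.inv₀ ?_ fun k h0 => ?_)).continuousOn
    · fun_prop
    · have := en_cont (d := d)
      fun_prop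
    · have := congrArg Complex.im h0
      simp at this
      linarith

theorem FZ_zero (s : ℝ) : FZ d 0 s = F0 d s := by
  unfold FZ F0 pn pp
  simp

/-- the smoothed energy surfaces converge -/
theorem shell_lim (hA : S_AMPZ) (d : ℕ) (hd : 3 ≤ d) (v : Fin d → ℤ) (E : ℝ) :
    Tendsto (fun η => shell d v E η) (𝓝[>] 0) (𝓝 (gz d v E)) := by
  obtain ⟨C, hC, -⟩ := finZ hA d hd v
  have h1 := lim3 (FZ d v) (2 * C * K9) (fun z z' hz hz' => hC.holder z z' hz hz') E
  have h2 := (Complex.continuous_im.tendsto _).comp h1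
  refine h2.congr' ?_
  filter_upwards [self_mem_nhdsWithin] with η hη
  exact (shell_eq v E η hη).symm

theorem gz_zero (d : ℕ) (E : ℝ) : gz d 0 E = D0 d E := by
  unfold gz D0
  have : FZ d 0 = F0 d := funext FZ_zero
  rw [this]

theorem D0_pos (d : ℕ) (hd : 3 ≤ d) (E : ℝ) (hE : |E| < 2 * d) : 0 < D0 d E := by
  obtain ⟨m, hm, h⟩ := D_low d hd (min (2 * d - |E|) 1) (lt_min (by linarith) one_pos)
    (min_le_right _ _)
  have h1 := h E (by
    have := min_le_left (2 * d - |E|) 1
    linarith)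
  linarith [(D01 d hd E).2]

/-- **the microcanonical average** -/
theorem micro_lim (hA : S_AMPZ) (d : ℕ) (hd : 3 ≤ d) (v : Fin d → ℤ) (E : ℝ)
    (hE : |E| < 2 * d) :
    Tendsto (fun η => shell d v E η / shell d 0 E η) (𝓝[>] 0) (𝓝 (Fr d v E)) := by
  have h1 := shell_lim hA d hd v E
  have h2 := shell_lim hA d hd 0 E
  rw [gz_zero] at h2
  exact h1.div h2 (D0_pos d hd E hE).ne'

end Pool.Agent.Q218.WE
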