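import Pool.Agent.Q218.WE.LipZ
import Pool.Agent.Q150.WE.LIPK
import Pool.Agent.Q218.AT.Vol3

/-! The phase space observable in the Hilbert space of kernels. -/

set_option autoImplicit false
set_option linter.unusedSectionVars false

open scoped BigOperators Topology InnerProductSpace
open MeasureTheory Filter Set

namespace Pool.Agent.Q218.WE

open Pool.Agent.H4R2.LO (Zd)
open Pool.Agent.TH794.QD (Sol HS hmk hmk_apply hs_sum)
open Pool.Agent.Q218.AT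
open Pool.Agent.Q150.WE (vw_inner)

variable {d : ℕ} {V V' : Zd d → ℝ} {ψ ψ' : Zd d → ℝ → Zd d → ℂ}

/-- the observable at the time `t` -/
noncomputable def Bo (hψ : ∀ a, Sol d V a (ψ a)) (Z : Finset (Zd d)) (o : Zd d → ℂ)
    (Λ : Finset (Zd d)) (c : Zd d → ℂ) (t : ℝ) : HT d :=
  ∑ x ∈ Λ, c x • ∑ w ∈ Z, o w • vw (uu hψ x t) (uu hψ (x + w) t)

theorem Bo_inner (hd : 1 ≤ d) (hψ : ∀ a, Sol d V a (ψ a)) (Z : Finset (Zd d)) (o : Zd d → ℂ)
    (Λ : Finset (Zd d)) (c : Zd d → ℂ) (s t : ℝ) :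
    ⟪Bo hψ Z o Λ c s, Bo hψ Z o Λ c t⟫_ℂ = Sk Z o ψ Λ c (t - s) := by
  unfold Bo Sk
  rw [sum_inner]
  refine Finset.sum_congr rfl fun x _ => ?_
  rw [inner_sum]
  refine Finset.sum_congr rfl fun y _ => ?_
  rw [inner_smul_left, inner_smul_right, mul_assoc]
  congr 2
  unfold kq cv sv
  rw [sum_inner, map_sum, Finset.mul_sum]
  refine Finset.sum_congr rfl fun w _ => ?_
  rw [inner_sum, map_mul, map_sum, Finset.mul_sum, Finset.mul_sum]
  refine Finset.sum_congr rfl fun z _ => ?_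
  rw [inner_smul_left, inner_smul_right, vw_inner, uu_inner hd hψ, uu_inner hd hψ, map_mul,
    Complex.conj_conj]
  ring

theorem vw_cont (hd : 1 ≤ d) (hψ : ∀ a, Sol d V a (ψ a)) (x y : Zd d) :
    Continuous fun t => vw (uu hψ x t) (uu hψ y t) := by
  rw [continuous_iff_continuousAt]
  intro t
  rw [ContinuousAt, tendsto_iff_norm_sub_tendsto_zero]
  have h1 : ∀ s, ‖vw (uu hψ x s) (uu hψ y s) - vw (uu hψ x t) (uu hψ y t)‖ =
      Real.sqrt (2 - 2 * (ψ x (t - s) x * (starRingEnd ℂ) (ψ y (t - s) y)).re) := by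
    intro s
    have h2 : ‖vw (uu hψ x s) (uu hψ y s) - vw (uu hψ x t) (uu hψ y t)‖ ^ 2 =
        2 - 2 * (ψ x (t - s) x * (starRingEnd ℂ) (ψ y (t - s) y)).re := by
      have h3 : ∀ r, ‖vw (uu hψ x r) (uu hψ y r)‖ ^ 2 = 1 := by
        intro r
        have h4 : ⟪vw (uu hψ x r) (uu hψ y r), vw (uu hψ x r) (uu hψ y r)⟫_ℂ = 1 := by
          rw [vw_inner, uu_inner hd hψ, uu_inner hd hψ, sub_self, (hψ x).init, (hψ y).init,
            if_pos rfl, if_pos rfl]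
          simp
        exact nsq _ h4
      rw [@norm_sub_sq ℂ, h3, h3, vw_inner, uu_inner hd hψ, uu_inner hd hψ]
      simp only [RCLike.re_to_complex]
      ring
    rw [← h2, Real.sqrt_sq (norm_nonneg _)]
  simp only [h1]
  have h5 : Continuous fun s =>
      Real.sqrt (2 - 2 * (ψ x (t - s) x * (starRingEnd ℂ) (ψ y (t - s) y)).re) := by
    have h6 : Continuous fun s => ψ x (t - s) x := ((hψ x).cont x).comp (by fun_prop)
    have h7 : Continuous fun s => ψ y (t - s) y := ((hψ y).cont y).comp (by fun_prop)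
    have h8 : Continuous fun s => ψ x (t - s) x * (starRingEnd ℂ) (ψ y (t - s) y) :=
      h6.mul (Complex.continuous_conj.comp h7)
    have h9 := Complex.continuous_re.comp h8
    exact Real.continuous_sqrt.comp (continuous_const.sub (continuous_const.mul h9))
  have h6 := h5.tendsto t
  have h7 : Real.sqrt (2 - 2 * (ψ x (t - t) x * (starRingEnd ℂ) (ψ y (t - t) y)).re) = 0 := by
    rw [sub_self, (hψ x).init, (hψ y).init, if_pos rfl, if_pos rfl]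
    simp
  rw [h7] at h6
  exact h6

theorem Bo_cont (hd : 1 ≤ d) (hψ : ∀ a, Sol d V a (ψ a)) (Z : Finset (Zd d)) (o : Zd d → ℂ)
    (Λ : Finset (Zd d)) (c : Zd d → ℂ) : Continuous (Bo hψ Z o Λ c) := by
  unfold Bo
  refine continuous_finsetSum _ fun x _ => ?_
  refine Continuous.const_smul ?_ (c x)
  refine continuous_finsetSum _ fun w _ => ?_
  exact (vw_cont hd hψ x (x + w)).const_smul (o w)

theorem vw_norm (hd : 1 ≤ d) (hψ : ∀ a, Sol d V a (ψ a)) (x y : Zd d) (t : ℝ) :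
    ‖vw (uu hψ x t) (uu hψ y t)‖ = 1 := by
  have h4 : ⟪vw (uu hψ x t) (uu hψ y t), vw (uu hψ x t) (uu hψ y t)⟫_ℂ = 1 := by
    rw [vw_inner, uu_inner hd hψ, uu_inner hd hψ, sub_self, (hψ x).init, (hψ y).init,
      if_pos rfl, if_pos rfl]
    simp
  exact (pow_eq_one_iff_of_nonneg (norm_nonneg _) two_ne_zero).1 (nsq _ h4)

/-- **the time average** -/
theorem Bo_abel (hABEL : S_ABEL) (hd : 1 ≤ d) (hψ : ∀ a, Sol d V a (ψ a)) (Z : Finset (Zd d))
    (o : Zd d → ℂ) (Λ : Finset (Zd d)) (c : Zd d → ℂ) (T : ℝ) (hT : 0 < T) :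
    ‖Bm (Bo hψ Z o Λ c) T‖ ^ 2 ≤
      9 * ∫ s in Ioi (0 : ℝ), Real.exp (-s) * (Sk Z o ψ Λ c (s * T)).re := by
  refine (hABEL (HT d) (Bo hψ Z o Λ c) (Sk Z o ψ Λ c) (∑ x ∈ Λ, ‖c x‖ * ∑ w ∈ Z, ‖o w‖) T
    (Bo_cont hd hψ Z o Λ c) (fun t => ?_) (Bo_inner hd hψ Z o Λ c) hT).2
  unfold Bo
  refine (norm_sum_le _ _).trans (Finset.sum_le_sum fun x _ => ?_)
  rw [norm_smul]
  refine mul_le_mul_of_nonneg_left ?_ (norm_nonneg _)
  refine (norm_sum_le _ _).trans (Finset.sum_le_sum fun w _ => ?_)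
  rw [norm_smul, vw_norm hd hψ, mul_one]

/-- **the Lipschitz bound** -/
theorem Bo_lip (hLIPK : S_LIPK) (hd : 1 ≤ d) (hψ : ∀ a, Sol d V a (ψ a))
    (hψ' : ∀ a, Sol d V' a (ψ' a)) (K : Finset (Zd d)) (hK : ∀ x, x ∉ K → V x = V' x)
    (Z : Finset (Zd d)) (o : Zd d → ℂ) (Λ : Finset (Zd d)) (c : Zd d → ℂ) (hc : ∀ x, ‖c x‖ ≤ 1)
    (T : ℝ) (hT : 0 ≤ T) :
    |‖Bm (Bo hψ Z o Λ c) T‖ - ‖Bm (Bo hψ' Z o Λ c) T‖| ≤
      T * ((∑ w ∈ Z, ‖o w‖) * Real.sqrt (∑ x ∈ K, (V x - V' x) ^ 2)) := by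
  refine (abs_norm_sub_norm_le _ _).trans (Bm_diff _ _ (Bo_cont hd hψ Z o Λ c)
    (Bo_cont hd hψ' Z o Λ c) T _ hT fun t ht => ?_)
  have h1 : Bo hψ Z o Λ c t - Bo hψ' Z o Λ c t = ∑ w ∈ Z, o w • ∑ x ∈ Λ, c x •
      (vw (uu hψ x t) (uu hψ (x + w) t) - vw (uu hψ' x t) (uu hψ' (x + w) t)) := by
    unfold Bo
    rw [← Finset.sum_sub_distrib]
    simp only [Finset.smul_sum]
    rw [Finset.sum_comm]
    refine Finset.sum_congr rfl fun x _ => ?_
    rw [← Finset.sum_sub_distrib]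
    refine Finset.sum_congr rfl fun w _ => ?_
    rw [← smul_sub, ← smul_sub, smul_comm]
  rw [h1]
  refine (norm_sum_le _ _).trans ?_
  rw [Finset.sum_mul, Finset.mul_sum]
  refine Finset.sum_le_sum fun w _ => ?_
  rw [norm_smul]
  have h2 := hLIPK d hd V V' ψ ψ' hψ hψ' K hK Λ c w hc t ht
  calc ‖o w‖ * _ ≤ ‖o w‖ * (2 * t * Real.sqrt (∑ x ∈ K, (V x - V' x) ^ 2)) :=
        mul_le_mul_of_nonneg_left h2 (norm_nonneg _)
    _ = _ := by ring

end Pool.Agent.Q218.WE
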