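import Pool.Agent.Q218.WE.FinO

/-! The pairing of the resolvent at the sites where the potential is locally not too large. -/

set_option autoImplicit false
set_option linter.unusedSectionVars false

open scoped BigOperators Topology
open MeasureTheory Filter Set

namespace Pool.Agent.Q218.WE

open Pool.Agent.TH794.HK
open Pool.Agent.W788.BK
open Pool.Agent.W788.LD.Spec (S)
open Pool.Agent.H4R2.LO (Zd)
open Pool.Agent.TH794.QE
open Pool.Agent.TH794.QD (Sol La)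
open Pool.Agent.Q218.AD (small_rpow)
open Pool.Agent.Q218.UD (trc trc_meas trc_le ex_rs rs_shift rs_le rs_ward res_bd close_sq cut_D)
open Q299.GB (chi chi_nonneg chi_le chi_self chi_lip chi_zero nrm_single)

variable {d : ℕ} {V V' : Zd d → ℝ} {a : Zd d} {e η : ℝ} {u u' : Zd d → ℂ}

theorem cut_w2 (h : Rs d V a e η u) (h' : Rs d V' a e η u') (hη : 0 < η) (R : ℝ)
    (hR0 : 0 < R) (heq : ∀ x, ‖x - a‖ ≤ R → V x = V' x) : ∃ w : Zd d → ℂ,
    (∀ x, ‖w x‖ ^ 2 ≤ ‖u x‖ ^ 2) ∧ (∀ x, ‖u x - w x‖ ^ 2 ≤ ‖u x‖ ^ 2 - ‖w x‖ ^ 2) ∧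
    w a = u a ∧ (Summable fun x => ‖w x - u' x‖ ^ 2) ∧
    ∑' x, ‖w x - u' x‖ ^ 2 ≤ 4 * d ^ 2 / R ^ 2 * (η⁻¹) ^ 4 := by
  obtain ⟨k, hk⟩ : ∃ k : Zd d → ℝ, k = chi a R := ⟨_, rfl⟩
  have k0 : ∀ x, 0 ≤ k x := fun x => by rw [hk]; exact chi_nonneg _ _ _
  have k1 : ∀ x, k x ≤ 1 := fun x => by rw [hk]; exact chi_le _ hR0 _
  have kl : ∀ (x : Zd d) (i : Fin d), |k (x + Pi.single i 1) - k x| ≤ 1 / R := fun x i => by
    rw [hk]; exact chi_lip a hR0 x _ (nrm_single i)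
  have kl' : ∀ (x : Zd d) (i : Fin d), |k (x - Pi.single i 1) - k x| ≤ 1 / R := fun x i => by
    have h0 : ‖-(Pi.single i 1 : Zd d)‖ ≤ 1 := by rw [norm_neg]; exact nrm_single i
    rw [hk, sub_eq_add_neg x]
    exact chi_lip a hR0 x _ h0
  have kz : ∀ x, R ≤ ‖x - a‖ → k x = 0 := fun x hx => by rw [hk]; exact chi_zero a hR0 x hx
  have ka : k a = 1 := by rw [hk]; exact chi_self a R
  clear hk
  obtain ⟨D, hD⟩ : ∃ D : Zd d → ℂ, D = fun x : Zd d => ∑ i : Fin d,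
    (((k (x + Pi.single i 1) - k x : ℝ) : ℂ) * u (x + Pi.single i 1) +
      ((k (x - Pi.single i 1) - k x : ℝ) : ℂ) * u (x - Pi.single i 1)) := ⟨_, rfl⟩
  obtain ⟨sD, tD⟩ := cut_D u h.sq k R hR0 kl kl' D hD
  have hwle : ∀ x, ‖(k x : ℂ) * u x‖ ^ 2 ≤ ‖u x‖ ^ 2 := by
    intro x
    rw [norm_mul, Complex.norm_real, Real.norm_of_nonneg (k0 x)]
    apply pow_le_pow_left₀ (mul_nonneg (k0 x) (norm_nonneg _))
    exact mul_le_of_le_one_left (norm_nonneg _) (k1 x)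
  have hwd : ∀ x, ‖u x - (k x : ℂ) * u x‖ ^ 2 ≤ ‖u x‖ ^ 2 - ‖(k x : ℂ) * u x‖ ^ 2 := by
    intro x
    have e1 : u x - (k x : ℂ) * u x = ((1 - k x : ℝ) : ℂ) * u x := by
      push_cast
      ring
    rw [e1, norm_mul, norm_mul, Complex.norm_real, Complex.norm_real,
      Real.norm_of_nonneg (k0 x), Real.norm_of_nonneg (by linarith [k1 x])]
    nlinarith [k0 x, k1 x, sq_nonneg ‖u x‖, mul_nonneg (mul_nonneg (k0 x)
      (sub_nonneg.2 (k1 x))) (sq_nonneg ‖u x‖)]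
  have sw : Summable fun x => ‖(k x : ℂ) * u x‖ ^ 2 :=
    Summable.of_nonneg_of_le (fun x => sq_nonneg _) hwle h.sq
  have hSw : ∀ x, S (fun x => (k x : ℂ) * u x) x = (k x : ℂ) * S u x + D x := by
    intro x
    rw [hD]
    unfold S
    simp only
    rw [Finset.mul_sum, ← Finset.sum_add_distrib]
    refine Finset.sum_congr rfl fun i _ => ?_
    push_cast
    ring
  have e2 : ∀ x, (V' x : ℂ) * ((k x : ℂ) * u x) = (V x : ℂ) * ((k x : ℂ) * u x) := by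
    intro x
    by_cases hx : R ≤ ‖x - a‖
    · rw [kz x hx, Complex.ofReal_zero, zero_mul, mul_zero, mul_zero]
    · rw [heq x (not_le.1 hx).le]
  have e3 : ∀ x, (k x : ℂ) * (if x = a then (1 : ℂ) else 0) = if x = a then 1 else 0 := by
    intro x
    by_cases hx : x = a
    · rw [if_pos hx, hx, ka, Complex.ofReal_one, one_mul]
    · rw [if_neg hx, mul_zero]
  have hdif : ∀ x, -S (fun x => (k x : ℂ) * u x - u' x) x +
      (V' x : ℂ) * ((k x : ℂ) * u x - u' x) -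
      ((e : ℂ) + (η : ℂ) * Complex.I) * ((k x : ℂ) * u x - u' x) = -D x := by
    intro x
    have e1 : S (fun x => (k x : ℂ) * u x - u' x) x = (k x : ℂ) * S u x + D x - S u' x := by
      rw [← hSw]
      unfold S
      rw [← Finset.sum_sub_distrib]
      exact Finset.sum_congr rfl fun i _ => by ring
    have h1 := h.eq x
    have h2 := h'.eq x
    have h3 := e2 x
    have h4 := e3 x
    rw [e1]
    linear_combination (k x : ℂ) * h1 - h2 + h3 + h4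
  have s2 := (close_sq (fun x => (k x : ℂ) * u x) u' sw h'.sq 1 one_pos).2.1
  have hf := res_bd V' e η hη (fun x => (k x : ℂ) * u x - u' x) (fun x => -D x) s2
    (by simpa using sD) hdif
  simp only [norm_neg] at hf
  refine ⟨fun x => (k x : ℂ) * u x, hwle, hwd, ?_, s2, ?_⟩
  · simp only
    rw [ka, Complex.ofReal_one, one_mul]
  · have hU := rs_le h hη
    obtain ⟨F, hF⟩ : ∃ F, F = ∑' x, ‖(k x : ℂ) * u x - u' x‖ ^ 2 := ⟨_, rfl⟩
    rw [← hF] at hf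
    change ∑' x, ‖(k x : ℂ) * u x - u' x‖ ^ 2 ≤ _
    rw [← hF]
    have h1 : η ^ 2 * F ≤ 4 * d ^ 2 / R ^ 2 * (η⁻¹) ^ 2 := by
      refine hf.trans (tD.trans ?_)
      exact mul_le_mul_of_nonneg_left hU (by positivity)
    calc F = (η⁻¹) ^ 2 * (η ^ 2 * F) := by field_simp
      _ ≤ (η⁻¹) ^ 2 * (4 * d ^ 2 / R ^ 2 * (η⁻¹) ^ 2) :=
          mul_le_mul_of_nonneg_left h1 (by positivity)
      _ = _ := by ring

/-- **the resolvents are close** -/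
theorem rs_near (h : Rs d V a e η u) (h' : Rs d V' a e η u') (hη : 0 < η) (hη1 : η ≤ 1) (R : ℝ)
    (hR : 1 ≤ R) (heq : ∀ x, ‖x - a‖ ≤ R → V x = V' x) :
    (Summable fun x => ‖u x - u' x‖ ^ 2) ∧
    ∑' x, ‖u x - u' x‖ ^ 2 ≤ (24 * d ^ 2 + 4 * d + 2) / R * (η⁻¹) ^ 4 := by
  have hR0 : 0 < R := by linarith
  obtain ⟨w, hwle, hwd, hwa, s2, hF1⟩ := cut_w2 h h' hη R hR0 heq
  have sw : Summable fun x => ‖w x‖ ^ 2 :=
    Summable.of_nonneg_of_le (fun x => sq_nonneg _) hwle h.sq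
  obtain ⟨s1, -, s3⟩ := close_sq w u' sw h'.sq (1 / R) (by positivity)
  have hUle' := rs_le h' hη
  have h1 := rs_ward h
  have h2 := rs_ward h'
  obtain ⟨U, hU⟩ : ∃ U, U = ∑' x, ‖u x‖ ^ 2 := ⟨_, rfl⟩
  obtain ⟨U', hU'⟩ : ∃ U, U = ∑' x, ‖u' x‖ ^ 2 := ⟨_, rfl⟩
  obtain ⟨W, hW⟩ : ∃ U, U = ∑' x, ‖w x‖ ^ 2 := ⟨_, rfl⟩
  obtain ⟨F, hF⟩ : ∃ F, F = ∑' x, ‖w x - u' x‖ ^ 2 := ⟨_, rfl⟩
  have hF0 : 0 ≤ F := by rw [hF]; exact tsum_nonneg fun x => sq_nonneg _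
  have hFa : ‖w a - u' a‖ ^ 2 ≤ F := by
    rw [hF]
    exact s2.le_tsum a fun x _ => sq_nonneg _
  rw [← hF] at hF1 s3
  rw [← hU'] at hUle' s3 h2
  rw [← hU] at h1
  obtain ⟨x, hx⟩ : ∃ x, x = η⁻¹ := ⟨_, rfl⟩
  have hi : 1 ≤ x := by rw [hx]; exact (one_le_inv₀ hη).2 hη1
  rw [← hx] at hF1 hUle' ⊢
  have hi2 : x ^ 2 ≤ x ^ 4 := pow_le_pow_right₀ hi (by norm_num)
  have hi3 : x ^ 3 ≤ x ^ 4 := pow_le_pow_right₀ hi (by norm_num)
  obtain ⟨ρ, hρ⟩ : ∃ ρ, ρ = R⁻¹ := ⟨_, rfl⟩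
  have hρ0 : 0 < ρ := by rw [hρ]; positivity
  have hρ1 : ρ ≤ 1 := by rw [hρ]; exact inv_le_one_of_one_le₀ hR
  have hρR : R * ρ = 1 := by rw [hρ]; exact mul_inv_cancel₀ hR0.ne'
  have e0 : 4 * (d : ℝ) ^ 2 / R ^ 2 * x ^ 4 = (2 * d * ρ * x ^ 2) ^ 2 := by
    rw [hρ]
    field_simp
    ring
  rw [e0] at hF1
  have eR : 1 / R = ρ := by rw [hρ, one_div]
  rw [eR] at s3
  -- the first comparison
  obtain ⟨B, hB⟩ : ∃ B, B = (8 * d ^ 2 + 1) * ρ * x ^ 4 := ⟨_, rfl⟩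
  have hB0 : 0 ≤ B := by rw [hB]; positivity
  have c1 : ∑' x, |‖w x‖ ^ 2 - ‖u' x‖ ^ 2| ≤ B := by
    refine s3.trans ?_
    have a1 : ρ * U' ≤ ρ * x ^ 4 := mul_le_mul_of_nonneg_left (hUle'.trans hi2) hρ0.le
    have a2 : (1 + ρ⁻¹) * F ≤ (2 * R) * (2 * d * ρ * x ^ 2) ^ 2 := by
      have : 1 + ρ⁻¹ ≤ 2 * R := by
        rw [hρ, inv_inv]
        linarith
      exact mul_le_mul this hF1 hF0 (by positivity)
    have a3 : (2 * R) * (2 * d * ρ * x ^ 2) ^ 2 = 8 * d ^ 2 * (R * ρ) * ρ * x ^ 4 := by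
      ring
    rw [a3, hρR] at a2
    rw [hB]
    linarith
  -- the value at `a`
  have c2 : |(u a).im - (u' a).im| ≤ 2 * d * ρ * x ^ 2 := by
    rw [← Complex.sub_im, ← hwa]
    refine (Complex.abs_im_le_norm _).trans ?_
    exact le_of_sq_le_sq (hFa.trans hF1) (by positivity)
  have c3 : U - U' ≤ 2 * d * ρ * x ^ 4 := by
    have h3 := (abs_le.1 c2).2
    have h4 : η * (U - U') ≤ 2 * d * ρ * x ^ 2 := by
      rw [mul_sub, h1, h2]
      exact h3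
    have h5 : x * (η * (U - U')) ≤ x * (2 * d * ρ * x ^ 2) :=
      mul_le_mul_of_nonneg_left h4 (by linarith)
    have h6 : x * (η * (U - U')) = U - U' := by
      rw [hx]
      field_simp
    rw [h6] at h5
    have h7 : x * (2 * d * ρ * x ^ 2) = 2 * d * ρ * x ^ 3 := by ring
    rw [h7] at h5
    have h8 : 2 * d * ρ * x ^ 3 ≤ 2 * d * ρ * x ^ 4 := mul_le_mul_of_nonneg_left hi3 (by positivity)
    linarith
  have c4 : U' - W ≤ B := by
    refine le_trans ?_ c1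
    rw [hU', hW, ← h'.sq.tsum_sub sw]
    refine (h'.sq.sub sw).tsum_le_tsum (fun x => ?_) s1
    rw [abs_sub_comm]
    exact le_abs_self _
  have hpt : ∀ x, ‖u x - u' x‖ ^ 2 ≤ 2 * (‖u x‖ ^ 2 - ‖w x‖ ^ 2) + 2 * ‖w x - u' x‖ ^ 2 := by
    intro x
    have e1 : u x - u' x = (u x - w x) + (w x - u' x) := by ring
    have h3 := norm_add_le (u x - w x) (w x - u' x)
    rw [← e1] at h3
    have h4 := hwd x
    nlinarith [norm_nonneg (u x - u' x), norm_nonneg (u x - w x), norm_nonneg (w x - u' x),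
      sq_nonneg (‖u x - w x‖ - ‖w x - u' x‖)]
  have hs : Summable fun x => 2 * (‖u x‖ ^ 2 - ‖w x‖ ^ 2) + 2 * ‖w x - u' x‖ ^ 2 :=
    ((h.sq.sub sw).mul_left 2).add (s2.mul_left 2)
  have s5 : Summable fun x => ‖u x - u' x‖ ^ 2 :=
    Summable.of_nonneg_of_le (fun x => sq_nonneg _) hpt hs
  refine ⟨s5, ?_⟩
  have h6 := s5.tsum_le_tsum hpt hs
  rw [((h.sq.sub sw).mul_left 2).tsum_add (s2.mul_left 2), tsum_mul_left, tsum_mul_left,
    h.sq.tsum_sub sw, ← hU, ← hW, ← hF] at h6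
  have h7 : F ≤ 4 * d ^ 2 * ρ * x ^ 4 := by
    refine hF1.trans ?_
    calc (2 * d * ρ * x ^ 2) ^ 2 = ρ * (4 * d ^ 2 * ρ * x ^ 4) := by ring
      _ ≤ 1 * (4 * d ^ 2 * ρ * x ^ 4) := by gcongr
      _ = _ := one_mul _
  have h8 : (24 * (d : ℝ) ^ 2 + 4 * d + 2) / R * x ^ 4 =
      2 * (2 * d * ρ * x ^ 4 + (8 * d ^ 2 + 1) * ρ * x ^ 4) + 2 * (4 * d ^ 2 * ρ * x ^ 4) := by
    rw [hρ]
    field_simp
    ring
  rw [h8]
  rw [hB] at c4
  linarith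

/-- the pairings are close -/
theorem pair_near (c : Zd d → ℂ) (hc : ∀ x, ‖c x‖ ≤ 1) (p q p' q' : Zd d → ℂ) (A D α : ℝ)
    (hα : 0 < α) (hp : Summable fun x => ‖p x‖ ^ 2) (hq : Summable fun x => ‖q x‖ ^ 2)
    (hp' : Summable fun x => ‖p' x‖ ^ 2) (hq' : Summable fun x => ‖q' x‖ ^ 2)
    (hpp : Summable fun x => ‖p x - p' x‖ ^ 2) (hqq : Summable fun x => ‖q x - q' x‖ ^ 2)
    (h1 : ∑' x, ‖q x‖ ^ 2 ≤ A) (h2 : ∑' x, ‖p' x‖ ^ 2 ≤ A)
    (h3 : ∑' x, ‖p x - p' x‖ ^ 2 ≤ D) (h4 : ∑' x, ‖q x - q' x‖ ^ 2 ≤ D) :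
    ‖(∑' x, c x * (p x * (starRingEnd ℂ) (q x))) -
      ∑' x, c x * (p' x * (starRingEnd ℂ) (q' x))‖ ≤ α * A + α⁻¹ * D := by
  have sm : ∀ f g : Zd d → ℂ, (Summable fun x => ‖f x‖ ^ 2) → (Summable fun x => ‖g x‖ ^ 2) →
      Summable fun x => c x * (f x * (starRingEnd ℂ) (g x)) := by
    intro f g hf hg
    refine Summable.of_norm_bounded (hf.add hg) fun x => ?_
    rw [norm_mul, norm_mul, Complex.norm_conj]
    have h5 : ‖c x‖ * (‖f x‖ * ‖g x‖) ≤ ‖f x‖ * ‖g x‖ :=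
      mul_le_of_le_one_left (by positivity) (hc x)
    nlinarith [sq_nonneg (‖f x‖ - ‖g x‖), sq_nonneg ‖f x‖, sq_nonneg ‖g x‖]
  rw [← (sm p q hp hq).tsum_sub (sm p' q' hp' hq')]
  have hy : ∀ x y : ℝ, 0 ≤ x → 0 ≤ y → x * y ≤ 1 / 2 * (α⁻¹ * x ^ 2) + 1 / 2 * (α * y ^ 2) := by
    intro x y _ _
    have h5 : 0 ≤ α⁻¹ * (x - α * y) ^ 2 := by positivity
    have h6 : α⁻¹ * (x - α * y) ^ 2 = α⁻¹ * x ^ 2 - 2 * (α⁻¹ * α) * x * y +
      (α⁻¹ * α) * α * y ^ 2 := by ring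
    rw [h6, inv_mul_cancel₀ hα.ne'] at h5
    linarith
  have hs : Summable fun x => (1 / 2 * (α⁻¹ * ‖p x - p' x‖ ^ 2) + 1 / 2 * (α * ‖q x‖ ^ 2)) +
      (1 / 2 * (α⁻¹ * ‖q x - q' x‖ ^ 2) + 1 / 2 * (α * ‖p' x‖ ^ 2)) :=
    (((hpp.mul_left _).mul_left _).add ((hq.mul_left _).mul_left _)).add
      (((hqq.mul_left _).mul_left _).add ((hp'.mul_left _).mul_left _))
  refine (tsum_of_norm_bounded hs.hasSum fun x => ?_).trans ?_
  · have e1 : c x * (p x * (starRingEnd ℂ) (q x)) - c x * (p' x * (starRingEnd ℂ) (q' x)) =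
        c x * ((p x - p' x) * (starRingEnd ℂ) (q x)) +
        c x * (p' x * (starRingEnd ℂ) (q x - q' x)) := by
      rw [map_sub]
      ring
    rw [e1]
    refine (norm_add_le _ _).trans (add_le_add ?_ ?_)
    · rw [norm_mul, norm_mul, Complex.norm_conj]
      exact (mul_le_of_le_one_left (by positivity) (hc x)).trans
        (hy _ _ (norm_nonneg _) (norm_nonneg _))
    · rw [norm_mul, norm_mul, Complex.norm_conj, mul_comm ‖p' x‖]
      exact (mul_le_of_le_one_left (by positivity) (hc x)).trans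
        (hy _ _ (norm_nonneg _) (norm_nonneg _))
  · rw [(((hpp.mul_left _).mul_left _).add ((hq.mul_left _).mul_left _)).tsum_add
      (((hqq.mul_left _).mul_left _).add ((hp'.mul_left _).mul_left _)),
      ((hpp.mul_left _).mul_left _).tsum_add ((hq.mul_left _).mul_left _),
      ((hqq.mul_left _).mul_left _).tsum_add ((hp'.mul_left _).mul_left _)]
    simp only [tsum_mul_left]
    have i0 : 0 < α⁻¹ := inv_pos.2 hα
    have j1 := mul_le_mul_of_nonneg_left h1 hα.le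
    have j2 := mul_le_mul_of_nonneg_left h2 hα.le
    have j3 := mul_le_mul_of_nonneg_left h3 i0.le
    have j4 := mul_le_mul_of_nonneg_left h4 i0.le
    linarith

theorem cv_sub (Z : Finset (Zd d)) (o : Zd d → ℂ) (f g : Zd d → ℂ) (x : Zd d) :
    cv Z o f x - cv Z o g x = cv Z o (fun y => f y - g y) x := by
  unfold cv
  rw [← Finset.sum_sub_distrib]
  exact Finset.sum_congr rfl fun w _ => by ring

theorem gs_sub (Z : Finset (Zd d)) (o : Zd d → ℂ) (u u' : Zd d → Zd d → ℂ) (a x : Zd d) :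
    gs Z o u a x - gs Z o u' a x = gs Z o (fun b y => u b y - u' b y) a x := by
  unfold gs
  rw [← Finset.sum_sub_distrib]
  exact Finset.sum_congr rfl fun w _ => by ring

/-- the norm of the combination -/
theorem gs_sq (Z : Finset (Zd d)) (o : Zd d → ℂ) (u : Zd d → Zd d → ℂ) (a : Zd d) (C : ℝ)
    (hu : ∀ z ∈ Z, (Summable fun x => ‖u (a + z) x‖ ^ 2) ∧ ∑' x, ‖u (a + z) x‖ ^ 2 ≤ C) :
    (Summable fun x => ‖gs Z o u a x‖ ^ 2) ∧
      ∑' x, ‖gs Z o u a x‖ ^ 2 ≤ (∑ z ∈ Z, ‖o z‖) ^ 2 * C := by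
  have h1 := sum_sq Z (fun z => (starRingEnd ℂ) (o z)) (fun z => u (a + z)) C hu
  simp only [Complex.norm_conj] at h1
  exact h1

theorem cg_sq (Z : Finset (Zd d)) (o : Zd d → ℂ) (u : Zd d → Zd d → ℂ) (a : Zd d) (C : ℝ)
    (hu : ∀ z ∈ Z, (Summable fun x => ‖u (a + z) x‖ ^ 2) ∧ ∑' x, ‖u (a + z) x‖ ^ 2 ≤ C) :
    (Summable fun x => ‖cv Z o (gs Z o u a) x‖ ^ 2) ∧
      ∑' x, ‖cv Z o (gs Z o u a) x‖ ^ 2 ≤ (∑ z ∈ Z, ‖o z‖) ^ 4 * C := by
  obtain ⟨h1, h2⟩ := gs_sq Z o u a C hu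
  obtain ⟨h3, h4⟩ := cv_sq Z o _ h1
  refine ⟨h3, h4.trans ?_⟩
  calc _ ≤ (∑ z ∈ Z, ‖o z‖) ^ 2 * ((∑ z ∈ Z, ‖o z‖) ^ 2 * C) := by gcongr
    _ = _ := by ring

/-- **the pairing at the good sites** -/
theorem profO (d : ℕ) (hd : 2 ≤ d) (Z : Finset (Zd d)) (o : Zd d → ℂ) (U : Set ℝ) (v e0 : ℝ)
    (hv : 0 < v) (he0 : 0 < e0)
    (hEng : ∀ b : ℝ, 0 < b →
      EngO d Z (fun w => (starRingEnd ℂ) (o w)) (fun E => E ∈ U) b (e0 / 2)) :
    ∃ l0 : ℝ, 0 < l0 ∧ ∀ lam : ℝ, 0 < lam → lam ≤ l0 →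
    ∀ (μ : Measure ℝ), IsProbabilityMeasure μ → ∀ M mB VB B : ℝ, B = lam ^ (-(1 / 7000) : ℝ) →
    ∫ s, trc M B s ∂μ = mB → ∫ s, (trc M B s - mB) ^ 2 ∂μ = VB → v ≤ B ^ 2 * VB →
    ∀ η : ℝ, lam ^ (20245 / 10000 : ℝ) ≤ η → η ≤ lam ^ (20123 / 10000 : ℝ) →
      ∃ G : Set (Zd d → ℝ), MeasurableSet G ∧
        1 - 2 * Real.exp (-lam ^ (-(1 / 102) : ℝ)) ≤
          (Measure.infinitePi fun _ : Zd d => μ).real G ∧
        ∀ ω ∈ G, ∀ a : Zd d, ‖a‖ ≤ Real.exp (lam ^ (-(1 / 102) : ℝ)) →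
          (∀ x, ‖x - a‖ ≤ lam ^ (-10 : ℝ) → |ω x - M| ≤ B) →
          ∀ E0 e : ℝ, E0 + lam * M + lam * B * mB - e ∈ U →
          ∀ u : Zd d → Zd d → ℂ, Rs d (fun x => E0 + lam * ω x) a e η (u a) →
          (∀ z ∈ Z, Rs d (fun x => E0 + lam * ω x) (a + z) e η (u (a + z))) →
          ∀ p : Fin d → ℝ,
            ‖((η : ℝ) : ℂ) * ∑' x, ph p (x - a) * (u a x *
              (starRingEnd ℂ) (cv Z o (gs Z o u a) x))‖ ≤ e0 := by
  have hd1 : 1 ≤ d := by omega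
  obtain ⟨c0, hc0, hfin⟩ := finO d Z o (fun E => E ∈ U) 1 (e0 / 2) (hEng _ (by norm_num))
  obtain ⟨N, hN⟩ : ∃ N, N = (∑ z ∈ Z, ‖o z‖) ^ 4 + 1 := ⟨_, rfl⟩
  have hN1 : 1 ≤ N := by
    have : 0 ≤ (∑ z ∈ Z, ‖o z‖) ^ 4 := by positivity
    linarith
  have hN0 : 0 < N := by linarith
  obtain ⟨Cd, hCd⟩ : ∃ Cd : ℝ, Cd = 24 * d ^ 2 + 4 * d + 2 := ⟨_, rfl⟩
  have hCd0 : 0 < Cd := by rw [hCd]; positivity
  obtain ⟨R0, hR0⟩ : ∃ R0 : ℝ, ∀ w ∈ Z, ‖w‖ ≤ R0 := by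
    refine ⟨∑ w ∈ Z, ‖w‖, fun w hw => ?_⟩
    exact Finset.single_le_sum (f := fun w : Zd d => ‖w‖) (fun _ _ => norm_nonneg _) hw
  obtain ⟨l1, hl1, hs1⟩ := small_rpow (6999 / 7000) c0 (by norm_num) hc0
  obtain ⟨l2, hl2, hs2⟩ := small_rpow (6999 / 21000000 - 2 / 7000) v (by norm_num) hv
  obtain ⟨l3, hl3, hs3⟩ := small_rpow (1 / 2) (e0 / (4 * N)) (by norm_num) (by positivity)
  obtain ⟨l4, hl4, hs4⟩ := small_rpow (10 - 1 / 2 - 4 * (20245 / 10000))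
    (e0 / (4 * (N * (2 * Cd)))) (by norm_num) (by positivity)
  obtain ⟨l5, hl5, hs5⟩ := small_rpow 10 (1 / (2 * (|R0| + 1))) (by norm_num) (by positivity)
  refine ⟨min (min (min l1 l2) (min l3 l4)) (min l5 1), by positivity, ?_⟩
  intro lam hlam hlam0 μ hμ M mB VB B hB hmB hVB hvB η hη1 hη2
  have b0 := hlam0.trans (min_le_left _ _)
  have b1 : lam ≤ l1 := b0.trans ((min_le_left _ _).trans (min_le_left _ _))
  have b2 : lam ≤ l2 := b0.trans ((min_le_left _ _).trans (min_le_right _ _))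
  have b3 : lam ≤ l3 := b0.trans ((min_le_right _ _).trans (min_le_left _ _))
  have b4 : lam ≤ l4 := b0.trans ((min_le_right _ _).trans (min_le_right _ _))
  have b6 : lam ≤ l5 := (hlam0.trans (min_le_right _ _)).trans (min_le_left _ _)
  have b5 : lam ≤ 1 := (hlam0.trans (min_le_right _ _)).trans (min_le_right _ _)
  have hB0 : 0 < B := by rw [hB]; positivity
  obtain ⟨c, hc⟩ : ∃ c, c = lam * B := ⟨_, rfl⟩
  have hcl : c = lam ^ (6999 / 7000 : ℝ) := by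
    have h1 : lam = lam ^ (1 : ℝ) := (Real.rpow_one lam).symm
    rw [hc, hB]
    conv_lhs => rw [h1, ← Real.rpow_mul hlam.le, ← Real.rpow_add hlam]
    norm_num
  have hc0' : 0 < c := by rw [hc]; positivity
  have hcc : c ≤ c0 := by
    rw [hcl]
    exact hs1 lam hlam b1
  have hcp : ∀ p : ℝ, c ^ p = lam ^ (6999 / 7000 * p) := by
    intro p
    rw [hcl, ← Real.rpow_mul hlam.le]
  -- the law
  have hν : IsProbabilityMeasure (μ.map (trc M B)) :=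
    Measure.isProbabilityMeasure_map (trc_meas M B).aemeasurable
  have hVBc : c ^ (1 / 3000 : ℝ) ≤ VB := by
    have h1 := hs2 lam hlam b2
    have h2 : B ^ 2 = lam ^ (-(2 / 7000) : ℝ) := by
      rw [hB, ← Real.rpow_natCast, ← Real.rpow_mul hlam.le]
      norm_num
    have h3 : lam ^ (6999 / 21000000 - 2 / 7000 : ℝ) = c ^ (1 / 3000 : ℝ) * B ^ 2 := by
      rw [hcp, h2, ← Real.rpow_add hlam]
      norm_num
    rw [h3] at h1
    have h4 : c ^ (1 / 3000 : ℝ) * B ^ 2 ≤ VB * B ^ 2 := by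
      rw [mul_comm VB]
      exact h1.trans hvB
    exact le_of_mul_le_mul_right h4 (by positivity)
  obtain ⟨G', hG', hP', hL⟩ := hfin c hc0' hcc (μ.map (trc M B)) hν (by
      rw [ae_map_iff (trc_meas M B).aemeasurable (measurableSet_le (by fun_prop) measurable_const)]
      exact Filter.Eventually.of_forall fun s => trc_le hB0 M s) mB VB
    (by rw [integral_map (trc_meas M B).aemeasurable (by fun_prop)]; exact hmB)
    (by rw [integral_map (trc_meas M B).aemeasurable (by fun_prop)]; exact hVB) hVBc η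
    (by
      refine le_trans ?_ hη1
      rw [hcp]
      exact Real.rpow_le_rpow_of_exponent_ge hlam b5 (by norm_num))
    (by
      refine hη2.trans ?_
      rw [hcp]
      exact Real.rpow_le_rpow_of_exponent_ge hlam b5 (by norm_num))
  have hTm : Measurable (fun (ω : Zd d → ℝ) x => trc M B (ω x)) :=
    measurable_pi_lambda _ fun x => (trc_meas M B).comp (measurable_pi_apply x)
  have hlaw : (Measure.infinitePi fun _ : Zd d => μ).map (fun ω x => trc M B (ω x)) =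
      Measure.infinitePi fun _ : Zd d => μ.map (trc M B) :=
    Measure.infinitePi_map_pi (μ := fun _ : Zd d => μ)
      (f := fun _ (s : ℝ) => trc M B s) (fun _ => trc_meas M B)
  have hcexp : lam ^ (-(1 / 102) : ℝ) ≤ c ^ (-(1 / 101) : ℝ) := by
    rw [hcp]
    exact Real.rpow_le_rpow_of_exponent_ge hlam b5 (by norm_num)
  refine ⟨(fun ω x => trc M B (ω x)) ⁻¹' G', hTm hG', ?_, ?_⟩
  · rw [← map_measureReal_apply hTm hG', hlaw]
    refine le_trans ?_ hP'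
    have : Real.exp (-c ^ (-(1 / 101) : ℝ)) ≤ Real.exp (-lam ^ (-(1 / 102) : ℝ)) :=
      Real.exp_le_exp.2 (by linarith)
    linarith
  intro ω hω a ha hloc E0 e he u hua hu p
  have hη0 : 0 < η := lt_of_lt_of_le (by positivity) hη1
  obtain ⟨r, hr⟩ : ∃ r, r = E0 - 2 * d + lam * M := ⟨_, rfl⟩
  choose u' hu' using fun b => ex_rs hd1 (fun x => 2 * d + c * trc M B (ω x)) b (e - r) η hη0
  have ee : 2 * (d : ℝ) + c * mB - (e - r) = E0 + lam * M + lam * B * mB - e := by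
    rw [hr, hc]
    ring
  have key := hL _ hω a (ha.trans (Real.exp_le_exp.2 hcexp)) (e - r)
    (by rw [ee]; exact he) u' (hu' a) (fun z _ => hu' _) p
  have hη1' : η ≤ 1 := hη2.trans (Real.rpow_le_one hlam.le b5 (by norm_num))
  -- the radius
  obtain ⟨R, hR⟩ : ∃ R, R = lam ^ (-10 : ℝ) / 2 := ⟨_, rfl⟩
  have hRR : |R0| + 1 ≤ R := by
    have h1 := hs5 lam hlam b6
    have h2 : lam ^ (-10 : ℝ) = (lam ^ (10 : ℝ))⁻¹ := Real.rpow_neg hlam.le _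
    have h3 : 0 < lam ^ (10 : ℝ) := by positivity
    have h4 := inv_anti₀ h3 h1
    rw [one_div, inv_inv] at h4
    rw [hR, h2]
    linarith
  have hR1 : 1 ≤ R := by
    have := abs_nonneg R0
    linarith
  have hR00 : 0 < R := by linarith
  have hnear : ∀ b : Zd d, ‖b - a‖ ≤ R → Rs d (fun x => E0 + lam * ω x) b e η (u b) →
      (Summable fun x => ‖u b x - u' b x‖ ^ 2) ∧
      ∑' x, ‖u b x - u' b x‖ ^ 2 ≤ Cd / R * (η⁻¹) ^ 4 := by
    intro b hb hub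
    rw [hCd]
    refine rs_near (V' := fun x => 2 * d + c * trc M B (ω x)) (u' := u' b)
      (rs_shift (V' := fun x => 2 * d + lam * (ω x - M)) (e' := e - r) hub r (fun x => by
        rw [hr]
        ring) rfl) (hu' b) hη0 hη1' R hR1 (fun x hx => ?_)
    have h1 := hloc x (by
      have h2 : x - a = (x - b) + (b - a) := by abel
      rw [h2]
      refine (norm_add_le _ _).trans ?_
      rw [hR] at hx hb
      linarith)
    unfold trc
    rw [if_pos h1, hc]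
    field_simp
  have hz : ∀ z ∈ Z, ‖(a + z) - a‖ ≤ R := by
    intro z hz
    rw [add_sub_cancel_left]
    have h1 := hR0 z hz
    have h2 := le_abs_self R0
    linarith
  obtain ⟨D, hD⟩ : ∃ D, D = N * (Cd / R * (η⁻¹) ^ 4) := ⟨_, rfl⟩
  have hE0 : 0 ≤ Cd / R * (η⁻¹) ^ 4 := by positivity
  have na := hnear a (by rw [sub_self, norm_zero]; exact hR00.le) hua
  have nz := fun z hz' => hnear (a + z) (hz z hz') (hu z hz')
  have hNN : (∑ z ∈ Z, ‖o z‖) ^ 4 ≤ N := by rw [hN]; linarith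
  obtain ⟨w1, w2⟩ := cg_sq Z o (fun b y => u b y - u' b y) a _ nz
  obtain ⟨v1, v2⟩ := cg_sq Z o u a ((η⁻¹) ^ 2) fun z hz' => ⟨(hu z hz').sq, rs_le (hu z hz') hη0⟩
  obtain ⟨v1', -⟩ := cg_sq Z o u' a ((η⁻¹) ^ 2) fun z _ => ⟨(hu' _).sq, rs_le (hu' _) hη0⟩
  have hqq : (fun x => ‖cv Z o (gs Z o u a) x - cv Z o (gs Z o u' a) x‖ ^ 2) =
      fun x => ‖cv Z o (gs Z o (fun b y => u b y - u' b y) a) x‖ ^ 2 := by
    funext x
    rw [cv_sub]
    congr 2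
    unfold cv
    refine Finset.sum_congr rfl fun w _ => ?_
    simp only
    rw [gs_sub]
  obtain ⟨κ, hκ⟩ : ∃ κ, κ = lam ^ (1 / 2 : ℝ) := ⟨_, rfl⟩
  have hκ0 : 0 < κ := by rw [hκ]; positivity
  have hpn := pair_near (fun x => ph p (x - a)) (fun x => (ph_norm p (x - a)).le) (u a)
    (cv Z o (gs Z o u a)) (u' a) (cv Z o (gs Z o u' a)) (N * (η⁻¹) ^ 2) D (η * κ) (by positivity)
    hua.sq v1 (hu' a).sq v1' na.1 (by rw [hqq]; exact w1)
    (v2.trans (mul_le_mul_of_nonneg_right hNN (by positivity)))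
    ((rs_le (hu' a) hη0).trans (le_mul_of_one_le_left (by positivity) hN1))
    (na.2.trans (by rw [hD]; exact le_mul_of_one_le_left hE0 hN1))
    (by
      rw [hqq, hD]
      exact w2.trans (mul_le_mul_of_nonneg_right hNN hE0))
  -- the numbers
  have n1 : N * κ ≤ e0 / 4 := by
    have h1 := hs3 lam hlam b3
    rw [← hκ] at h1
    calc N * κ ≤ N * (e0 / (4 * N)) := by gcongr
      _ = _ := by field_simp
  have n2 : κ⁻¹ * D ≤ e0 / 4 := by
    have h1 := hs4 lam hlam b4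
    have h2 : η⁻¹ ≤ lam ^ (-(20245 / 10000) : ℝ) := by
      rw [Real.rpow_neg hlam.le]
      exact inv_anti₀ (by positivity) hη1
    have h3 : (η⁻¹) ^ 4 ≤ lam ^ (-(4 * (20245 / 10000)) : ℝ) := by
      refine (pow_le_pow_left₀ (by positivity) h2 4).trans (le_of_eq ?_)
      rw [← Real.rpow_natCast, ← Real.rpow_mul hlam.le]
      norm_num
    have h4 : κ⁻¹ = lam ^ (-(1 / 2) : ℝ) := by
      rw [hκ, Real.rpow_neg hlam.le]
    have h5 : Cd / R = 2 * Cd * lam ^ (10 : ℝ) := by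
      rw [hR, Real.rpow_neg hlam.le]
      field_simp
    rw [hD, h5, h4]
    calc lam ^ (-(1 / 2) : ℝ) * (N * (2 * Cd * lam ^ (10 : ℝ) * (η⁻¹) ^ 4)) ≤
        lam ^ (-(1 / 2) : ℝ) * (N * (2 * Cd * lam ^ (10 : ℝ) *
          lam ^ (-(4 * (20245 / 10000)) : ℝ))) := by gcongr
      _ = (N * (2 * Cd)) * (lam ^ (-(1 / 2) : ℝ) * lam ^ (10 : ℝ) *
          lam ^ (-(4 * (20245 / 10000)) : ℝ)) := by ring
      _ = (N * (2 * Cd)) * lam ^ (10 - 1 / 2 - 4 * (20245 / 10000) : ℝ) := by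
          rw [← Real.rpow_add hlam, ← Real.rpow_add hlam]
          norm_num
      _ ≤ (N * (2 * Cd)) * (e0 / (4 * (N * (2 * Cd)))) := by gcongr
      _ = _ := by field_simp
  have n3 : ‖((η : ℝ) : ℂ) * (∑' x, ph p (x - a) * (u a x *
      (starRingEnd ℂ) (cv Z o (gs Z o u a) x))) - ((η : ℝ) : ℂ) * ∑' x, ph p (x - a) * (u' a x *
      (starRingEnd ℂ) (cv Z o (gs Z o u' a) x))‖ ≤ e0 / 2 := by
    rw [← mul_sub, norm_mul, Complex.norm_real, Real.norm_of_nonneg hη0.le]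
    refine (mul_le_mul_of_nonneg_left hpn hη0.le).trans ?_
    have e1 : η * (η * κ * (N * η⁻¹ ^ 2) + (η * κ)⁻¹ * D) = N * κ + κ⁻¹ * D := by
      field_simp
    rw [e1]
    linarith
  have e3 := norm_sub_le_norm_sub_add_norm_sub
    ((η : ℂ) * ∑' x, ph p (x - a) * (u a x * (starRingEnd ℂ) (cv Z o (gs Z o u a) x)))
    ((η : ℂ) * ∑' x, ph p (x - a) * (u' a x * (starRingEnd ℂ) (cv Z o (gs Z o u' a) x))) 0
  rw [sub_zero, sub_zero] at e3
  linarith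

end Pool.Agent.Q218.WE
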