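import Pool.Agent.Q218.WE.ProfO
import Pool.Agent.Q218.WE.Stm
import Pool.Agent.Q218.AD2.Main

/-! From the energies to the time averages of the pairing. -/

set_option autoImplicit false
set_option linter.unusedSectionVars false

open scoped BigOperators Topology InnerProductSpace
open MeasureTheory Filter Set

namespace Pool.Agent.Q218.WE

open Pool.Agent.H4R2.LO (Zd)
open Pool.Agent.TH794.HK (ph ph_norm)
open Pool.Agent.TH794.QE (Rs)
open Pool.Agent.TH794.QD (Sol La La_int ew HS hmk hmk_apply hs_sum)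
open Pool.Agent.Q218.AD (exp_int exp_val)
open Pool.Agent.Q218.AD2 (set_sub)
open Pool.Agent.Q218.AT (uu uu_inner)

variable {d : ℕ}

/-- **the time average of a pairing** -/
theorem timeO (hPLA : S_PLA) (f g : ℝ → Zd d → ℂ) (hfc : ∀ x, Continuous fun t => f t x)
    (hgc : ∀ x, Continuous fun t => g t x)
    (hf : ∀ t, (Summable fun x => ‖f t x‖ ^ 2) ∧ ∑' x, ‖f t x‖ ^ 2 = 1)
    (hg : ∀ t, (Summable fun x => ‖g t x‖ ^ 2) ∧ ∑' x, ‖g t x‖ ^ 2 ≤ 1)
    (c : Zd d → ℂ) (hc : ∀ x, ‖c x‖ ≤ 1) (T η : ℝ) (hT : 0 < T) (hη : η = 1 / (2 * T))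
    (X e0 δ δ' α m : ℝ) (G0 : ℝ → ℝ) (U : Set ℝ) (hU : MeasurableSet U) (hUf : volume U ≠ ⊤)
    (hUX : volume.real U ≤ 2 * X) (hδ : 0 ≤ δ) (hδ' : 0 ≤ δ') (hα : 0 < α)
    (i0 : Integrable G0)
    (hN : ∀ e, e0 - e ∈ U → |η * ∑' x, ‖La f e η x‖ ^ 2 - G0 (e0 - e)| ≤ δ)
    (hP : ∀ e, e0 - e ∈ U → ‖(η : ℂ) * ∑' x, c x * (La f e η x *
      (starRingEnd ℂ) (La g e η x))‖ ≤ δ')
    (hm : (1 - Real.pi⁻¹ * ∫ E in U, G0 E) + 2 * X / Real.pi * δ ≤ m) :
    ‖∫ s in Ioi (0 : ℝ), ((Real.exp (-s) : ℝ) : ℂ) *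
      ∑' x, c x * (f (s * T) x * (starRingEnd ℂ) (g (s * T) x))‖ ≤
      α / 2 + m / (2 * α) + 2 * X / Real.pi * δ' := by
  have hp := Real.pi_pos
  have hη0 : 0 < η := by rw [hη]; positivity
  obtain ⟨p1, p2, p3, p4, p5, p6⟩ := hPLA d f g 1 1 hfc hgc (fun t => ⟨(hf t).1, (hf t).2.le⟩) hg
    c hc η hη0
  obtain ⟨-, -, q3, q4, -, -⟩ := hPLA d g f 1 1 hgc hfc hg (fun t => ⟨(hf t).1, (hf t).2.le⟩)
    c hc η hη0
  obtain ⟨J, hJ⟩ : ∃ J : Set ℝ, J = (fun e => e0 - e) ⁻¹' U := ⟨_, rfl⟩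
  have hmp := Measure.measurePreserving_sub_left (volume : Measure ℝ) e0
  have hJm : MeasurableSet J := by rw [hJ]; exact hmp.measurable hU
  have hJe : ∀ e ∈ J, e0 - e ∈ U := by
    intro e he
    rw [hJ] at he
    exact he
  have hvol' : volume J = volume U := by
    rw [hJ]
    exact hmp.measure_preimage hU.nullMeasurableSet
  have hvol : volume.real J = volume.real U := by
    rw [measureReal_def, hvol', measureReal_def]
  have hfin : volume J < ⊤ := by
    rw [hvol']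
    exact hUf.lt_top
  have hX : 0 ≤ 2 * X := measureReal_nonneg.trans hUX
  -- the functions of the energy
  obtain ⟨Gf, hGf⟩ : ∃ Gf : ℝ → ℝ, Gf = fun E => ∑' x, ‖La f E η x‖ ^ 2 := ⟨_, rfl⟩
  obtain ⟨Gg, hGg⟩ : ∃ Gg : ℝ → ℝ, Gg = fun E => ∑' x, ‖La g E η x‖ ^ 2 := ⟨_, rfl⟩
  obtain ⟨q, hq⟩ : ∃ q : ℝ → ℂ, q = fun E => ∑' x, c x * (La f E η x *
    (starRingEnd ℂ) (La g E η x)) := ⟨_, rfl⟩
  rw [← hGf] at p3 p4
  rw [← hGg] at q3 q4
  rw [← hq] at p5 p6
  have hGf0 : ∀ E, 0 ≤ Gf E := fun E => by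
    rw [hGf]
    exact tsum_nonneg fun x => sq_nonneg _
  have hGg0 : ∀ E, 0 ≤ Gg E := fun E => by
    rw [hGg]
    exact tsum_nonneg fun x => sq_nonneg _
  have hiexp := exp_int (2 * η) (by positivity)
  have hf1 : ∫ E, Gf E = Real.pi / η := by
    rw [p4]
    simp only [(hf _).2, mul_one]
    rw [exp_val (2 * η) (by positivity)]
    field_simp
  have hg1 : ∫ E, Gg E ≤ Real.pi / η := by
    rw [q4]
    have h1 : ∫ t in Ioi (0 : ℝ), Real.exp (-(2 * η) * t) * ∑' x, ‖g t x‖ ^ 2 ≤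
        ∫ t in Ioi (0 : ℝ), Real.exp (-(2 * η) * t) := by
      refine integral_mono_of_nonneg (Filter.Eventually.of_forall fun t => ?_) hiexp
        (Filter.Eventually.of_forall fun t => ?_)
      · exact mul_nonneg (Real.exp_pos _).le (tsum_nonneg fun x => sq_nonneg _)
      · exact mul_le_of_le_one_right (Real.exp_pos _).le (hg t).2
    rw [exp_val (2 * η) (by positivity)] at h1
    calc 2 * Real.pi * _ ≤ 2 * Real.pi * (2 * η)⁻¹ := mul_le_mul_of_nonneg_left h1 (by positivity)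
      _ = _ := by field_simp
  -- the time
  have htime : (∫ s in Ioi (0 : ℝ), ((Real.exp (-s) : ℝ) : ℂ) *
      ∑' x, c x * (f (s * T) x * (starRingEnd ℂ) (g (s * T) x))) =
      ((η / Real.pi : ℝ) : ℂ) * ∫ E, q E := by
    rw [p6]
    have e2 := integral_comp_mul_right_Ioi (fun s => ((Real.exp (-(2 * η) * s) : ℝ) : ℂ) *
      ∑' x, c x * (f s x * (starRingEnd ℂ) (g s x))) 0 hT
    rw [zero_mul] at e2
    have e3 : ∀ s, ((Real.exp (-(2 * η) * (s * T)) : ℝ) : ℂ) *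
        (∑' x, c x * (f (s * T) x * (starRingEnd ℂ) (g (s * T) x))) =
        ((Real.exp (-s) : ℝ) : ℂ) *
        ∑' x, c x * (f (s * T) x * (starRingEnd ℂ) (g (s * T) x)) := by
      intro s
      congr 3
      rw [hη]
      field_simp
    simp only [e3] at e2
    rw [e2, Complex.real_smul, ← mul_assoc]
    congr 1
    rw [hη]
    push_cast
    have h1 : (T : ℂ) ≠ 0 := by exact_mod_cast hT.ne'
    have h2 : (Real.pi : ℂ) ≠ 0 := by exact_mod_cast Real.pi_ne_zero
    field_simp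
  rw [htime]
  -- the bulk
  have b1 : ‖∫ E in J, q E‖ ≤ δ' / η * (2 * X) := by
    refine (norm_setIntegral_le_of_norm_le_const (C := δ' / η) hfin fun e he => ?_).trans ?_
    · have h1 := hP e (hJe e he)
      rw [norm_mul, Complex.norm_real, Real.norm_of_nonneg hη0.le] at h1
      rw [le_div_iff₀ hη0, mul_comm, hq]
      exact h1
    · rw [hvol]
      exact mul_le_mul_of_nonneg_left hUX (by positivity)
  -- the rest
  have hpt : ∀ E, ‖q E‖ ≤ α / 2 * Gg E + 1 / (2 * α) * Gf E := by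
    intro E
    have hs : Summable fun x => α / 2 * ‖La g E η x‖ ^ 2 + 1 / (2 * α) * ‖La f E η x‖ ^ 2 :=
      ((p2 E).mul_left _).add ((p1 E).mul_left _)
    rw [hq, hGg, hGf]
    simp only
    rw [← tsum_mul_left, ← tsum_mul_left, ← ((p2 E).mul_left _).tsum_add ((p1 E).mul_left _)]
    refine tsum_of_norm_bounded hs.hasSum fun x => ?_
    rw [norm_mul, norm_mul, Complex.norm_conj]
    have h1 : ‖c x‖ * (‖La f E η x‖ * ‖La g E η x‖) ≤ ‖La f E η x‖ * ‖La g E η x‖ :=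
      mul_le_of_le_one_left (by positivity) (hc x)
    refine h1.trans ?_
    have h2 : 0 ≤ 1 / (2 * α) * (‖La f E η x‖ - α * ‖La g E η x‖) ^ 2 := by positivity
    have h3 : 1 / (2 * α) * (‖La f E η x‖ - α * ‖La g E η x‖) ^ 2 =
        1 / (2 * α) * ‖La f E η x‖ ^ 2 - ‖La f E η x‖ * ‖La g E η x‖ +
        α / 2 * ‖La g E η x‖ ^ 2 := by
      field_simp
      ring
    rw [h3] at h2
    linarith
  have ib : Integrable fun E => α / 2 * Gg E + 1 / (2 * α) * Gf E :=
    (q3.const_mul _).add (p3.const_mul _)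
  have b2 : ‖∫ E in Jᶜ, q E‖ ≤ α / 2 * (∫ E in Jᶜ, Gg E) + 1 / (2 * α) * ∫ E in Jᶜ, Gf E := by
    refine (norm_integral_le_of_norm_le ib.integrableOn
      (Filter.Eventually.of_forall hpt)).trans (le_of_eq ?_)
    rw [integral_add (q3.const_mul _).integrableOn (p3.const_mul _).integrableOn,
      integral_const_mul, integral_const_mul]
  have b3 : ∫ E in Jᶜ, Gg E ≤ Real.pi / η :=
    (setIntegral_le_integral q3 (Filter.Eventually.of_forall hGg0)).trans hg1
  have hsplit := integral_add_compl hJm p3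
  rw [hf1] at hsplit
  have i0' : IntegrableOn (fun e => G0 (e0 - e)) J := (i0.comp_sub_left e0).integrableOn
  have ic : IntegrableOn (fun _ : ℝ => δ) J := integrableOn_const hfin.ne
  have b4 : (∫ E in U, G0 E) - δ * (2 * X) ≤ η * ∫ E in J, Gf E := by
    have h1 : ∫ e in J, (G0 (e0 - e) - δ) ≤ ∫ e in J, η * Gf e := by
      refine setIntegral_mono_on (i0'.sub ic) (p3.const_mul η).integrableOn hJm fun e he => ?_
      have h2 := (abs_le.1 (hN e (hJe e he))).1
      rw [hGf]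
      linarith
    rw [integral_sub i0' ic, setIntegral_const, smul_eq_mul, hJ, set_sub e0 U G0, ← hJ, hvol,
      integral_const_mul] at h1
    have h3 : volume.real U * δ ≤ δ * (2 * X) := by
      rw [mul_comm]
      exact mul_le_mul_of_nonneg_left hUX hδ
    linarith
  have b5 : η / Real.pi * (∫ E in Jᶜ, Gf E) ≤ m := by
    have h1 : ∫ E in Jᶜ, Gf E = Real.pi / η - ∫ E in J, Gf E := by linarith
    rw [h1]
    refine le_trans (le_of_eq ?_) ((?_ : 1 - Real.pi⁻¹ * (η * ∫ E in J, Gf E) ≤ _).trans hm)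
    · field_simp
    · have h2 := mul_le_mul_of_nonneg_left b4 (inv_pos.2 hp).le
      have h3 : 2 * X / Real.pi * δ = Real.pi⁻¹ * (δ * (2 * X)) := by
        field_simp
      rw [h3]
      rw [mul_sub] at h2
      linarith
  have hsp := integral_add_compl hJm p5
  rw [← hsp, norm_mul, Complex.norm_real, Real.norm_of_nonneg (by positivity)]
  have c1 := norm_add_le (∫ E in J, q E) (∫ E in Jᶜ, q E)
  have c2 : η / Real.pi * ‖(∫ E in J, q E) + ∫ E in Jᶜ, q E‖ ≤
      η / Real.pi * (δ' / η * (2 * X) + (α / 2 * (Real.pi / η) +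
        1 / (2 * α) * ∫ E in Jᶜ, Gf E)) := by
    apply mul_le_mul_of_nonneg_left _ (by positivity)
    have : α / 2 * (∫ E in Jᶜ, Gg E) ≤ α / 2 * (Real.pi / η) :=
      mul_le_mul_of_nonneg_left b3 (by positivity)
    linarith
  refine c2.trans ?_
  have c3 : η / Real.pi * (δ' / η * (2 * X) + (α / 2 * (Real.pi / η) +
        1 / (2 * α) * ∫ E in Jᶜ, Gf E)) = 2 * X / Real.pi * δ' + α / 2 +
        1 / (2 * α) * (η / Real.pi * ∫ E in Jᶜ, Gf E) := by
    field_simp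
    ring
  rw [c3]
  have c4 : 1 / (2 * α) * (η / Real.pi * ∫ E in Jᶜ, Gf E) ≤ 1 / (2 * α) * m :=
    mul_le_mul_of_nonneg_left b5 (by positivity)
  have c5 : 1 / (2 * α) * m = m / (2 * α) := by ring
  rw [c5] at c4
  linarith

/-- the sum of the squares of the coefficients -/
theorem o_sq (hOPN : S_OPN) (Z : Finset (Zd d)) (o : Zd d → ℂ)
    (ho : ∀ p : Fin d → ℝ, ‖∑ w ∈ Z, o w * ph p w‖ ≤ 1) : ∑ w ∈ Z, ‖o w‖ ^ 2 ≤ 1 := by
  classical
  have h1 := hOPN d Z o 1 zero_le_one (fun p _ => ho p) (fun x => if x = 0 then 1 else 0)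
    (summable_of_ne_finset_zero (s := {0}) fun x hx => by
      rw [Finset.mem_singleton] at hx
      rw [if_neg hx]
      simp)
  have h2 : ∑' x : Zd d, ‖(if x = 0 then (1 : ℂ) else 0)‖ ^ 2 = 1 := by
    rw [tsum_eq_single 0]
    · simp
    · intro x hx
      rw [if_neg hx]
      simp
  rw [h2, one_pow, one_mul] at h1
  have h3 : ∀ x : Zd d, cv Z o (fun x => if x = 0 then 1 else 0) x = if -x ∈ Z then o (-x) else 0 := by
    intro x
    unfold cv
    have h4 : ∀ w ∈ Z, o w * (if x + w = 0 then (1 : ℂ) else 0) = if w = -x then o (-x) else 0 := by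
      intro w _
      by_cases h : x + w = 0
      · have h5 : w = -x := (neg_eq_of_add_eq_zero_right h).symm
        rw [if_pos h, if_pos h5, mul_one, ← h5]
      · have h5 : w ≠ -x := fun h6 => h (by rw [h6]; simp)
        rw [if_neg h, if_neg h5, mul_zero]
    rw [Finset.sum_congr rfl h4, Finset.sum_ite_eq' Z (-x)]
  obtain ⟨g1, g2⟩ := h1
  have h5 := g1.sum_le_tsum (Z.map (Equiv.neg (Zd d)).toEmbedding) fun x _ => sq_nonneg _
  rw [Finset.sum_map] at h5
  refine le_trans (le_of_eq ?_) (h5.trans g2)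
  refine Finset.sum_congr rfl fun w hw => ?_
  rw [h3]
  simp only [Equiv.coe_toEmbedding, Equiv.neg_apply, neg_neg, if_pos hw]

/-- the norm of the second state -/
theorem g_sq (hOPN : S_OPN) (hd : 1 ≤ d) {V : Zd d → ℝ} {ψ : Zd d → ℝ → Zd d → ℂ}
    (hψ : ∀ a, Sol d V a (ψ a)) (Z : Finset (Zd d)) (o : Zd d → ℂ)
    (ho : ∀ p : Fin d → ℝ, ‖∑ w ∈ Z, o w * ph p w‖ ≤ 1) (y : Zd d) (t : ℝ) :
    (Summable fun x => ‖cv Z o (sv Z o ψ y t) x‖ ^ 2) ∧
      ∑' x, ‖cv Z o (sv Z o ψ y t) x‖ ^ 2 ≤ 1 := by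
  classical
  obtain ⟨v, hv⟩ : ∃ v : HS d, v = ∑ z ∈ Z, (starRingEnd ℂ) (o z) • uu hψ (y + z) t := ⟨_, rfl⟩
  have h1 := hs_sum v
  have h2 : ∀ x, v x = sv Z o ψ y t x := by
    intro x
    rw [hv]
    unfold sv
    rw [lp.coeFn_sum, Finset.sum_apply]
    rfl
  simp only [h2] at h1
  have h3 : ‖v‖ ^ 2 = ∑ z ∈ Z, ‖o z‖ ^ 2 := by
    have h4 : ⟪v, v⟫_ℂ = ((∑ z ∈ Z, ‖o z‖ ^ 2 : ℝ) : ℂ) := by
      rw [hv, sum_inner, Complex.ofReal_sum]
      refine Finset.sum_congr rfl fun z hz => ?_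
      rw [inner_sum, Finset.sum_eq_single_of_mem z hz]
      · rw [inner_smul_left, inner_smul_right, uu_inner hd hψ, sub_self, (hψ _).init, if_pos rfl,
          mul_one, Complex.conj_conj, Complex.mul_conj, Complex.normSq_eq_norm_sq]
      · intro w _ hw
        rw [inner_smul_left, inner_smul_right, uu_inner hd hψ, sub_self, (hψ _).init, if_neg,
          mul_zero, mul_zero]
        intro h5
        exact hw (add_left_cancel h5).symm
    have h5 := inner_self_eq_norm_sq (𝕜 := ℂ) v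
    rw [h4, RCLike.re_to_complex, Complex.ofReal_re] at h5
    exact h5.symm
  rw [h3] at h1
  have h4 := hOPN d Z o 1 zero_le_one (fun p _ => ho p) (sv Z o ψ y t) h1.summable
  rw [h1.tsum_eq, one_pow, one_mul] at h4
  exact ⟨h4.1, h4.2.trans (o_sq hOPN Z o ho)⟩

theorem sv_cont {V : Zd d → ℝ} {ψ : Zd d → ℝ → Zd d → ℂ}
    (hψ : ∀ a, Sol d V a (ψ a)) (Z : Finset (Zd d)) (o : Zd d → ℂ) (y x : Zd d) :
    Continuous fun t => cv Z o (sv Z o ψ y t) x := by
  unfold cv sv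
  refine continuous_finsetSum _ fun w _ => ?_
  refine continuous_const.mul ?_
  exact continuous_finsetSum _ fun z _ => continuous_const.mul ((hψ (y + z)).cont _)

/-- the Laplace transform of the second state -/
theorem La_cv {V : Zd d → ℝ} {ψ : Zd d → ℝ → Zd d → ℂ}
    (hψ : ∀ a, Sol d V a (ψ a)) (Z : Finset (Zd d)) (o : Zd d → ℂ) (y x : Zd d) (E η : ℝ)
    (hη : 0 < η) :
    Complex.I * La (fun t => cv Z o (sv Z o ψ y t)) E η x =
      cv Z o (gs Z o (fun b x => Complex.I * La (ψ b) E η x) y) x := by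
  have h1 : La (fun t => cv Z o (sv Z o ψ y t)) E η x =
      ∑ w ∈ Z, o w * ∑ z ∈ Z, (starRingEnd ℂ) (o z) * La (ψ (y + z)) E η (x + w) := by
    unfold La cv sv
    have h2 : ∀ s, ew E η s * ∑ w ∈ Z, o w * ∑ z ∈ Z, (starRingEnd ℂ) (o z) * ψ (y + z) s (x + w) =
        ∑ w ∈ Z, ∑ z ∈ Z, (o w * (starRingEnd ℂ) (o z)) * (ew E η s * ψ (y + z) s (x + w)) := by
      intro s
      rw [Finset.mul_sum]
      refine Finset.sum_congr rfl fun w _ => ?_
      rw [Finset.mul_sum, Finset.mul_sum]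
      exact Finset.sum_congr rfl fun z _ => by ring
    simp only [h2]
    rw [integral_finsetSum _ fun w _ => integrable_finsetSum _ fun z _ =>
      (La_int (hψ (y + z)) E η hη (x + w)).const_mul _]
    refine Finset.sum_congr rfl fun w _ => ?_
    rw [integral_finsetSum _ fun z _ => (La_int (hψ (y + z)) E η hη (x + w)).const_mul _,
      Finset.mul_sum]
    refine Finset.sum_congr rfl fun z _ => ?_
    rw [integral_const_mul]
    ring
  rw [h1]
  unfold cv gs
  rw [Finset.mul_sum]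
  refine Finset.sum_congr rfl fun w _ => ?_
  rw [Finset.mul_sum, Finset.mul_sum, Finset.mul_sum]
  exact Finset.sum_congr rfl fun z _ => by ring

end Pool.Agent.Q218.WE
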