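import Pool.Agent.Q218.WE.ConcO
import Pool.Agent.Q218.WE.CompO
import Pool.Agent.TH794.HK.TorK

/-! The event on the torus, with symbols. -/

set_option autoImplicit false
set_option linter.unusedSectionVars false

open scoped BigOperators Matrix
open MeasureTheory

namespace Pool.Agent.Q218.WE

open Pool.Agent.TH794.HK
open Pool.Agent.TH794.QE
open Pool.Agent.W788.BK
open Pool.Agent.W788.MFP.Four (T e NN adj K ft Op q NN_pos e_zero)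
open Pool.Agent.TH794.FG
open Pool.Agent.TH794.QD
open Pool.Agent.TH794.LL2 (fc Bq Bq_nonneg sum_fc_one conc2 gL sqrt_Bq_add)

variable {d L : ℕ} [NeZero L]

/-- the mean of the local density of states for a bounded source -/
theorem meanSf (hTH : S_THIRD) (hFL : S_FLUCT) (hIN : S_INV)
    (E δ θ η a v2 Q β s2 g ε e1 : ℝ) (hδ : 0 < δ) (hη : 0 < η) (hη1 : η ≤ 1)
    (hadm : Adm (D0 E δ) (AA (d := d) (L := L) E δ θ) a v2 Q)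
    (μ : Measure ℝ) [IsProbabilityMeasure μ] (hβ : 0 < β) (hμ : ∀ᵐ s ∂μ, |s| ≤ β)
    (h0 : ∫ s, s ∂μ = 0) (h2 : ∫ s, s ^ 2 ∂μ = s2) (hs2 : 0 ≤ s2)
    (hβa : β * a ≤ η) (hβv : β ^ 2 * v2 ≤ 1) (hε0 : 0 ≤ ε) (hε1 : ε ≤ 1 / 2)
    (he0 : 0 ≤ e1) (he1 : e1 ≤ 1 / 4)
    (hε : 4 * β ^ 3 * a * v2 / η ^ 3 + s2 * (2 * β * Q * Real.sqrt v2 / η ^ 4) ≤ ε)
    (hg : ∀ E' : ℝ, ∑ k : T d L, (JJ E' (η * δ) k)⁻¹ ≤ g * NN d L)
    (hlow : s2 * (∑ P : T d L, (1 - hi θ P)) ≤ e1 * (η ^ 2 * δ ^ 2) * NN d L)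
    (hc : 4 / 3 * (ε + e1 + (2 * η + 8 * s2 ^ 2 * g ^ 2 / δ ^ 2)) ≤ 1)
    (fr fi : T d L → ℝ) (hfc : ∀ k, ‖fc fr fi k‖ ≤ 1) :
    ∫ V, FS (d := d) (L := L) E δ θ η fr fi V ∂(PP (T d L) μ) ≤ 2 * g := by
  obtain ⟨m, hm, -, -, hall⟩ := mean3 hTH hFL hIN E δ θ η a v2 Q β s2 g ε e1 hδ hη hη1 hadm μ hβ hμ
    h0 h2 hs2 hβa hβv hε0 hε1 he0 he1 hε hg hlow
  obtain ⟨I, hI, hI2⟩ := hall fr fi
  have hN := NN_pos (d := d) (L := L)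
  have ht : 0 < η * δ := by positivity
  obtain ⟨S, hS⟩ : ∃ S, S = (NN d L)⁻¹ * ∑ k : T d L, ‖fc fr fi k‖ ^ 2 *
    ‖((adj k - E : ℝ) : ℂ) - (s2 : ℂ) * m - ((η * δ : ℝ) : ℂ) * Complex.I‖⁻¹ := ⟨_, rfl⟩
  rw [← hS] at hI2
  have h1 : S ≤ g := by
    rw [hS, inv_mul_le_iff₀ hN]
    refine le_trans (Finset.sum_le_sum fun k _ => ?_) ((hg (E + s2 * m.re)).trans (le_of_eq
      (mul_comm _ _)))
    refine (mul_le_of_le_one_left (inv_nonneg.2 (norm_nonneg _))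
      (pow_le_one₀ (norm_nonneg _) (hfc k))).trans ?_
    apply inv_anti₀ (Pool.Agent.W788.BK.JJ_pos _ _ ht k)
    unfold JJ
    rw [Complex.norm_def]
    apply Real.sqrt_le_sqrt
    rw [Complex.normSq_apply]
    have e1 : (((adj k - E : ℝ) : ℂ) - (s2 : ℂ) * m - ((η * δ : ℝ) : ℂ) * Complex.I).re =
        adj k - (E + s2 * m.re) := by
      simp
      ring
    have e2 : (((adj k - E : ℝ) : ℂ) - (s2 : ℂ) * m - ((η * δ : ℝ) : ℂ) * Complex.I).im =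
        -(s2 * m.im + η * δ) := by
      simp
      ring
    rw [e1, e2]
    have h3 := mul_nonneg hs2 hm
    nlinarith
  have h2' : ‖((NN d L : ℝ) : ℂ)⁻¹ * ∑ k : T d L, ((‖fc fr fi k‖ ^ 2 : ℝ) : ℂ) *
      (((adj k - E : ℝ) : ℂ) - (s2 : ℂ) * m - ((η * δ : ℝ) : ℂ) * Complex.I)⁻¹‖ ≤ S := by
    rw [hS, norm_mul, norm_inv, Complex.norm_real, Real.norm_of_nonneg hN.le]
    apply mul_le_mul_of_nonneg_left _ (by positivity)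
    refine (norm_sum_le _ _).trans (Finset.sum_le_sum fun k _ => ?_)
    rw [norm_mul, norm_inv, Complex.norm_real, Real.norm_of_nonneg (sq_nonneg _)]
  have hS0 : 0 ≤ S := by
    rw [hS]
    positivity
  rw [hI]
  have h3 : ‖I‖ ≤ 2 * g := by
    have h4 := norm_add_le (I - ((NN d L : ℝ) : ℂ)⁻¹ * ∑ k : T d L, ((‖fc fr fi k‖ ^ 2 : ℝ) : ℂ) *
      (((adj k - E : ℝ) : ℂ) - (s2 : ℂ) * m - ((η * δ : ℝ) : ℂ) * Complex.I)⁻¹)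
      (((NN d L : ℝ) : ℂ)⁻¹ * ∑ k : T d L, ((‖fc fr fi k‖ ^ 2 : ℝ) : ℂ) *
      (((adj k - E : ℝ) : ℂ) - (s2 : ℂ) * m - ((η * δ : ℝ) : ℂ) * Complex.I)⁻¹)
    rw [sub_add_cancel] at h4
    have h5 := mul_le_mul_of_nonneg_right hc hS0
    linarith
  exact ((le_abs_self _).trans (Complex.abs_im_le_norm I)).trans h3

/-- the density of states of a source -/
theorem FS_prob (hES : S_ES) (hTH : S_THIRD) (hFL : S_FLUCT) (hIN : S_INV)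
    (E δ θ η a v2 Q β s2 g ε e1 D2 : ℝ) (hδ : 0 < δ) (hη : 0 < η) (hη1 : η ≤ 1)
    (hadm : Adm (D0 E δ) (AA (d := d) (L := L) E δ θ) a v2 Q)
    (μ : Measure ℝ) [IsProbabilityMeasure μ] (hβ : 0 < β) (hμ : ∀ᵐ s ∂μ, |s| ≤ β)
    (h0 : ∫ s, s ∂μ = 0) (h2 : ∫ s, s ^ 2 ∂μ = s2) (hs2 : 0 ≤ s2)
    (hβa : β * a ≤ η) (hβv : β ^ 2 * v2 ≤ 1) (hε0 : 0 ≤ ε) (hε1 : ε ≤ 1 / 2)
    (he0 : 0 ≤ e1) (he1 : e1 ≤ 1 / 4)
    (hε : 4 * β ^ 3 * a * v2 / η ^ 3 + s2 * (2 * β * Q * Real.sqrt v2 / η ^ 4) ≤ ε)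
    (hg : ∀ E' : ℝ, ∑ k : T d L, (JJ E' (η * δ) k)⁻¹ ≤ g * NN d L)
    (hlow : s2 * (∑ P : T d L, (1 - hi θ P)) ≤ e1 * (η ^ 2 * δ ^ 2) * NN d L)
    (hc : 4 / 3 * (ε + e1 + (2 * η + 8 * s2 ^ 2 * g ^ 2 / δ ^ 2)) ≤ 1)
    (hD2 : 0 < D2) (hD21 : 40 * Real.sqrt D2 ≤ 1) (hD22 : D2 ≤ 1 / 128)
    (hDD2 : 2 * β ^ 2 / η ^ 2 * (Q + a ^ 2 / η ^ 2) ≤ D2 ^ 2)
    (fr fi : T d L → ℝ) (hfc : ∀ k, ‖fc fr fi k‖ ≤ 1) :
    (PP (T d L) μ).real {V | 4 * g < FS E δ θ η fr fi V} ≤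
      2 * Real.exp (1 / 2 - 1 / Real.sqrt (2 * D2)) := by
  have e1 := meanSf hTH hFL hIN E δ θ η a v2 Q β s2 g ε e1 hδ hη hη1
    hadm μ hβ hμ h0 h2 hs2 hβa hβv hε0 hε1 he0 he1 hε hg hlow hc fr fi hfc
  have e2' := conc2 hES hadm μ β η D2 hβ hμ hη hβv hD2 hD22 hDD2 (wf E δ fr fi)
  refine le_trans (measureReal_mono ?_) e2'
  intro V hV
  simp only [Set.mem_ofPred_eq] at hV ⊢
  obtain ⟨m, hm⟩ : ∃ m, m = ∫ V, FS (d := d) (L := L) E δ θ η fr fi V ∂(PP (T d L) μ) := ⟨_, rfl⟩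
  rw [← hm] at e1
  change 40 * Real.sqrt D2 * (∫ V, FS (d := d) (L := L) E δ θ η fr fi V ∂(PP (T d L) μ)) <
    |FS E δ θ η fr fi V - ∫ V, FS (d := d) (L := L) E δ θ η fr fi V ∂(PP (T d L) μ)|
  rw [← hm]
  have h4 := le_abs_self (FS E δ θ η fr fi V - m)
  have hm0 : 0 ≤ m := by
    rw [hm]
    apply integral_nonneg
    intro V
    have hX := Pool.Agent.W363.BK.D0_herm (d := d) (L := L) E δ
    have hA := fun y => Pool.Agent.W363.BK.AA_herm (d := d) (L := L) E δ θ y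
    have e3 := (ward hX hA hη V (wf (d := d) (L := L) E δ fr fi)).1
    change 0 ≤ FS E δ θ η fr fi V
    change FS E δ θ η fr fi V = _ at e3
    rw [e3]
    exact mul_nonneg hη.le (nsq_nonneg _)
  have h5 := mul_le_mul_of_nonneg_right hD21 hm0
  linarith

/-- the good event -/
def GoodO (B : ℝ → Prop) (μ : Measure ℝ) (δ θ η τ ζ Kf ω1 : ℝ) (M : ℕ) (o : T d L → ℂ)
    (fr fi : T d L → ℝ) : Set (T d L → ℝ) :=
  {V | (∀ x, |UU θ V x| ≤ τ) ∧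
    ∀ i ∈ Finset.Icc (-(M : ℤ)) M, B (ζ * i) →
      (FS (ζ * i) δ θ η (Pi.single 0 1) (fun _ => 0) V ≤ Kf ∧
        FS (ζ * i) δ θ η fr fi V ≤ Kf) ∧
      ∀ P0 : T d L, ‖FPo (ζ * i) δ θ η P0 o (fun k => (starRingEnd ℂ) (o k)) V -
        ∫ U, FPo (ζ * i) δ θ η P0 o (fun k => (starRingEnd ℂ) (o k)) U ∂(PP (T d L) μ)‖ ≤ 2 * ω1}

theorem goodO_meas (B : ℝ → Prop) (μ : Measure ℝ) (δ θ η τ ζ Kf ω1 : ℝ) (M : ℕ) (hη : 0 < η)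
    (o : T d L → ℂ) (fr fi : T d L → ℝ) :
    MeasurableSet (GoodO (d := d) (L := L) B μ δ θ η τ ζ Kf ω1 M o fr fi) := by
  have hX := fun E => Pool.Agent.W363.BK.D0_herm (d := d) (L := L) E δ
  have hA := fun E y => Pool.Agent.W363.BK.AA_herm (d := d) (L := L) E δ θ y
  have h1 : GoodO (d := d) (L := L) B μ δ θ η τ ζ Kf ω1 M o fr fi =
      (⋂ x, {V | |UU θ V x| ≤ τ}) ∩
      ⋂ i ∈ Finset.Icc (-(M : ℤ)) M, ⋂ (_ : B (ζ * i)),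
        (({V | FS (ζ * i) δ θ η (Pi.single 0 1) (fun _ => 0) V ≤ Kf} ∩
          {V | FS (ζ * i) δ θ η fr fi V ≤ Kf}) ∩
        ⋂ P0 : T d L, {V | ‖FPo (ζ * i) δ θ η P0 o (fun k => (starRingEnd ℂ) (o k)) V -
          ∫ U, FPo (ζ * i) δ θ η P0 o (fun k => (starRingEnd ℂ) (o k)) U
            ∂(PP (T d L) μ)‖ ≤ 2 * ω1}) := by
    ext V
    simp [GoodO]
  rw [h1]
  refine MeasurableSet.inter (MeasurableSet.iInter fun x => ?_)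
    (Finset.measurableSet_biInter _ fun i _ => MeasurableSet.iInter fun _ =>
      MeasurableSet.inter (MeasurableSet.inter ?_ ?_) (MeasurableSet.iInter fun P0 => ?_))
  · exact (isClosed_le (continuous_UU θ x).abs continuous_const).measurableSet
  · exact (isClosed_le (continuous_FS _ δ θ η hη (hX _) (hA _) _ _) continuous_const).measurableSet
  · exact (isClosed_le (continuous_FS _ δ θ η hη (hX _) (hA _) _ _) continuous_const).measurableSet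
  · exact (isClosed_le ((continuous_FPo _ δ θ η hη P0 _ _).sub continuous_const).norm
      continuous_const).measurableSet

/-- the probability of the good event -/
theorem goodO_prob (hES : S_ES) (hTH : S_THIRD) (hFL : S_FLUCT) (hIN : S_INV)
    (hSU : S_SUP) (B : ℝ → Prop)
    (δ θ η τ ζ a v2 Q β s2 g g1 ε e1 c0 ω1 D1 D2 : ℝ) (M : ℕ) (hδ : 0 < δ) (hη : 0 < η)
    (hη1 : η ≤ 1) (hτ : 0 < τ)
    (hadm : ∀ E, B E → Adm (D0 E δ) (AA (d := d) (L := L) E δ θ) a v2 Q)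
    (μ : Measure ℝ) [IsProbabilityMeasure μ] (hβ : 0 < β) (hμ : ∀ᵐ s ∂μ, |s| ≤ β)
    (h0 : ∫ s, s ∂μ = 0) (h2 : ∫ s, s ^ 2 ∂μ = s2) (hs2 : 0 < s2)
    (hβa0 : β * a ≤ η) (hβv : β ^ 2 * v2 ≤ 1)
    (hε0 : 0 ≤ ε) (hε1 : ε ≤ 1 / 2) (he0 : 0 ≤ e1) (he1 : e1 ≤ 1 / 4)
    (hεa : 4 * β ^ 3 * a * v2 / η ^ 3 + s2 * (2 * β * Q * Real.sqrt v2 / η ^ 4) ≤ ε)
    (hg : ∀ E' : ℝ, ∑ k : T d L, (JJ E' (η * δ) k)⁻¹ ≤ g * NN d L) (hg1 : 1 ≤ g)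
    (hgg : ∀ E' : ℝ, ∑ k : T d L, (JJ E' δ k)⁻¹ ≤ g1 * NN d L)
    (hlow : s2 * (∑ P : T d L, (1 - hi θ P)) ≤ e1 * (η ^ 2 * δ ^ 2) * NN d L)
    (hc0 : c0 = 4 / 3 * (ε + e1 + (2 * η + 8 * s2 ^ 2 * g ^ 2 / δ ^ 2))) (hc01 : c0 ≤ 1)
    (hD1 : 0 < D1) (hDD1 : 4 * β ^ 2 * (3 * Q) * (3 / η) ^ 6 * g1 ^ 2 ≤ D1 ^ 2)
    (hD2 : 0 < D2) (hD21 : 40 * Real.sqrt D2 ≤ 1) (hD22 : D2 ≤ 1 / 128)
    (hDD2 : 2 * β ^ 2 / η ^ 2 * (Q + a ^ 2 / η ^ 2) ≤ D2 ^ 2)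
    (o : T d L → ℂ) (ho : ∀ k, ‖o k‖ ≤ 1) (fr fi : T d L → ℝ) (hfc : ∀ k, ‖fc fr fi k‖ ≤ 1) :
    (PP (T d L) μ).real (GoodO (d := d) (L := L) B μ δ θ η τ ζ (4 * g) ω1 M o fr fi)ᶜ ≤
      2 * (2 * NN d L * Real.exp (-(τ ^ 2 * NN d L /
        (2 * β ^ 2 * ∑ P : T d L, (1 - hi θ P)))) +
      (2 * M + 1) * (2 * Real.exp (1 / 2 - 1 / Real.sqrt (2 * D2)) +
        NN d L * (8 * Real.exp (-(ω1 / (2 * D1)))))) := by
  classical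
  have hsub : (GoodO (d := d) (L := L) B μ δ θ η τ ζ (4 * g) ω1 M o fr fi)ᶜ ⊆
      {V | ∃ x : T d L, τ < |∑ y : T d L, V y * K (fun Q => 1 - hi θ Q) (x - y)|} ∪
      ⋃ i ∈ (Finset.Icc (-(M : ℤ)) M).filter fun i : ℤ => B (ζ * i),
        (({V | 4 * g < FS (ζ * i) δ θ η (Pi.single 0 1) (fun _ => 0) V} ∪
          {V | 4 * g < FS (ζ * i) δ θ η fr fi V}) ∪
        ⋃ P0 ∈ (Finset.univ : Finset (T d L)),
          {V | 2 * ω1 < ‖FPo (ζ * i) δ θ η P0 o (fun k => (starRingEnd ℂ) (o k)) V -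
            ∫ U, FPo (ζ * i) δ θ η P0 o (fun k => (starRingEnd ℂ) (o k)) U
              ∂(PP (T d L) μ)‖}) := by
    intro V hV
    simp only [GoodO, Set.mem_compl_iff, Set.mem_ofPred_eq, not_and_or, not_forall, not_le] at hV
    rcases hV with ⟨x, hx⟩ | ⟨i, hi, hBi, (hx | hx) | ⟨j, hx⟩⟩
    · exact Or.inl ⟨x, hx⟩
    · exact Or.inr (Set.mem_iUnion₂.2 ⟨i, Finset.mem_filter.2 ⟨hi, hBi⟩, Or.inl (Or.inl hx)⟩)
    · exact Or.inr (Set.mem_iUnion₂.2 ⟨i, Finset.mem_filter.2 ⟨hi, hBi⟩, Or.inl (Or.inr hx)⟩)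
    · exact Or.inr (Set.mem_iUnion₂.2 ⟨i, Finset.mem_filter.2 ⟨hi, hBi⟩,
        Or.inr (Set.mem_iUnion₂.2 ⟨j, Finset.mem_univ _, hx⟩)⟩)
  obtain ⟨x1, hx1⟩ : ∃ x1, x1 = 2 * NN d L * Real.exp (-(τ ^ 2 * NN d L /
        (2 * β ^ 2 * ∑ P : T d L, (1 - hi θ P)))) := ⟨_, rfl⟩
  obtain ⟨x2, hx2⟩ : ∃ x2, x2 = Real.exp (1 / 2 - 1 / Real.sqrt (2 * D2)) := ⟨_, rfl⟩
  obtain ⟨x3, hx3⟩ : ∃ x3, x3 = NN d L * (8 * Real.exp (-(ω1 / (2 * D1)))) := ⟨_, rfl⟩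
  have hN := (NN_pos (d := d) (L := L)).le
  have hx10 : 0 ≤ x1 := by rw [hx1]; positivity
  have hx20 : 0 ≤ x2 := by rw [hx2]; positivity
  have hx30 : 0 ≤ x3 := by rw [hx3]; positivity
  rw [← hx1, ← hx2, ← hx3]
  have hgoal : x1 + (2 * M + 1) * ((2 * x2 + 2 * x2) + x3) ≤
      2 * (x1 + (2 * M + 1) * (2 * x2 + x3)) := by
    have hM : (0 : ℝ) ≤ 2 * M + 1 := by positivity
    have h1 := mul_nonneg hM hx30
    have h2 : (2 * (M : ℝ) + 1) * ((2 * x2 + 2 * x2) + x3) =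
        2 * ((2 * M + 1) * (2 * x2 + x3)) - (2 * M + 1) * x3 := by ring
    linarith
  refine le_trans ?_ hgoal
  refine (measureReal_mono hsub).trans ((measureReal_union_le _ _).trans (add_le_add ?_ ?_))
  · rw [hx1]
    exact hSU d L μ β θ τ hβ hμ h0 hτ
  · refine (measureReal_biUnion_finset_le _ _).trans ?_
    have h1 : ∀ i ∈ (Finset.Icc (-(M : ℤ)) M).filter fun i : ℤ => B (ζ * i),
        (PP (T d L) μ).real (({V | 4 * g < FS (ζ * i) δ θ η (Pi.single 0 1) (fun _ => 0) V} ∪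
          {V | 4 * g < FS (ζ * i) δ θ η fr fi V}) ∪
        ⋃ P0 ∈ (Finset.univ : Finset (T d L)),
          {V | 2 * ω1 < ‖FPo (ζ * i) δ θ η P0 o (fun k => (starRingEnd ℂ) (o k)) V -
            ∫ U, FPo (ζ * i) δ θ η P0 o (fun k => (starRingEnd ℂ) (o k)) U
              ∂(PP (T d L) μ)‖}) ≤ (2 * x2 + 2 * x2) + x3 := by
      intro i hi
      have hBi := (Finset.mem_filter.1 hi).2
      refine (measureReal_union_le _ _).trans (add_le_add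
        ((measureReal_union_le _ _).trans (add_le_add ?_ ?_)) ?_)
      · rw [hx2]
        exact FS_prob hES hTH hFL hIN (ζ * i) δ θ η a v2 Q β s2 g ε e1 D2 hδ hη hη1
          (hadm _ hBi) μ hβ hμ h0 h2 hs2.le hβa0 hβv hε0 hε1 he0 he1 hεa hg hlow
          (by rw [← hc0]; exact hc01) hD2 hD21 hD22 hDD2 _ _ (fun k => by
            rw [fc_single, norm_one])
      · rw [hx2]
        exact FS_prob hES hTH hFL hIN (ζ * i) δ θ η a v2 Q β s2 g ε e1 D2 hδ hη hη1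
          (hadm _ hBi) μ hβ hμ h0 h2 hs2.le hβa0 hβv hε0 hε1 he0 he1 hεa hg hlow
          (by rw [← hc0]; exact hc01) hD2 hD21 hD22 hDD2 _ _ hfc
      · refine (measureReal_biUnion_finset_le _ _).trans ?_
        have h6 : ∀ P0 ∈ (Finset.univ : Finset (T d L)), (PP (T d L) μ).real
            {V | 2 * ω1 < ‖FPo (ζ * i) δ θ η P0 o (fun k => (starRingEnd ℂ) (o k)) V -
              ∫ U, FPo (ζ * i) δ θ η P0 o (fun k => (starRingEnd ℂ) (o k)) U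
                ∂(PP (T d L) μ)‖} ≤
            8 * Real.exp (-(ω1 / (2 * D1))) := by
          intro P0 _
          exact concO hES (ζ * i) δ θ η a v2 Q β D1 P0 o _ ho
            (fun k => by rw [Complex.norm_conj]; exact ho k) hδ hη hη1 (hadm _ hBi) μ hβ hμ hβv
            hD1 g1 (hgg _) hDD1 ω1
        refine (Finset.sum_le_sum h6).trans ?_
        rw [Finset.sum_const, nsmul_eq_mul, hx3]
        have h7 : ((Finset.univ : Finset (T d L)).card : ℝ) = NN d L := by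
          rw [Finset.card_univ, ← Pool.Agent.W788.MFP.Four.card_T]
        rw [h7]
    refine (Finset.sum_le_sum h1).trans ?_
    rw [Finset.sum_const, nsmul_eq_mul]
    apply mul_le_mul_of_nonneg_right _ (by positivity)
    have h2 : ((Finset.Icc (-(M : ℤ)) M).filter fun i : ℤ => B (ζ * i)).card ≤
        (Finset.Icc (-(M : ℤ)) M).card := Finset.card_filter_le _ _
    have e1 : ((M : ℤ) + 1 - -(M : ℤ)).toNat = 2 * M + 1 := by omega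
    rw [Int.card_Icc, e1] at h2
    exact_mod_cast h2

/-- one source: change of the energy and of the imaginary part -/
theorem tor1 (δ θ η κ g1 ρ τ Kf ζ t' E E1 : ℝ)
    (hδ : 0 < δ) (hη : 0 < η) (hη1 : η ≤ 1) (hκ : 0 < κ) (hκ2 : κ ≤ 1 / 2)
    (hζ : 0 < ζ) (V fr fi : T d L → ℝ) (hfc : ∀ k, ‖fc fr fi k‖ ≤ 1)
    (hVU : ∀ x, |UU θ V x| ≤ τ) (hFK : FS E1 δ θ η fr fi V ≤ Kf)
    (hf : ∀ w : T d L → ℝ, |∑ x, V x * w x ^ 2| ≤ κ * q (JJ E1 δ) w)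
    (hg : ∑ k : T d L, (JJ E1 δ k)⁻¹ ≤ g1 * NN d L) (hg0 : 0 ≤ g1)
    (hρ0 : 0 ≤ ρ) (hτ : 0 ≤ τ) (hKf : 0 ≤ Kf)
    (ρ' : ℝ) (hρ' : ρ' = 2 * (ρ + ζ * (η * δ)⁻¹) + 2 * (ζ * (η * δ)⁻¹))
    (h1 : 2 * (τ / (η * δ) + 2 * (κ + η)) * (Kf + ρ' / (η * δ)) +
      2 * Real.sqrt Kf * (2 * (Real.sqrt η * Real.sqrt g1) +
        3 * (ρ' / Real.sqrt (η * δ))) + ρ' / (η * δ) ≤ 1)
    (hκ' : τ / (η * δ) + 2 * (κ + η) ≤ 1)
    (hEi : |E - E1| ≤ ζ) (htt : |t' - η * δ| ≤ ζ)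
    (vr vi rr ri : T d L → ℝ)
    (h : Sol3 E t' V fr fi vr vi rr ri)
    (hρ : Real.sqrt (Bq rr ri) ≤ ρ) (hBv : Real.sqrt (Bq vr vi) ≤ (η * δ)⁻¹) :
    ∃ r1 r2 : T d L → ℝ, Sol3 E1 (η * δ) V fr fi vr vi r1 r2 ∧ Real.sqrt (Bq r1 r2) ≤ ρ' ∧
      Bq vr vi ≤ (Kf + 1) / (η * δ) := by
  have ht0 : 0 < η * δ := by positivity
  have hN := NN_pos (d := d) (L := L)
  have hsh := (Sol3.shiftT h (η * δ)).shift E1
  obtain ⟨r1, hr1⟩ : ∃ r1 : T d L → ℝ, r1 = fun x => rr x + (η * δ - t') * vi x +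
    (E - E1) * vr x := ⟨_, rfl⟩
  obtain ⟨r2, hr2⟩ : ∃ r2 : T d L → ℝ, r2 = fun x => ri x + (t' - η * δ) * vr x +
    (E - E1) * vi x := ⟨_, rfl⟩
  have hsh' : Sol3 E1 (η * δ) V fr fi vr vi r1 r2 := by
    rw [hr1, hr2]
    exact hsh
  have hρs : Real.sqrt (Bq r1 r2) ≤ ρ' := by
    have hBs : Real.sqrt (Bq vi vr) = Real.sqrt (Bq vr vi) := by
      unfold Bq
      rw [add_comm]
    have g1' : Bq r1 r2 ≤ 4 * Bq rr ri + 4 * (ζ ^ 2 * Bq vr vi) + 4 * (ζ ^ 2 * Bq vr vi) := by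
      have a1 : (η * δ - t') ^ 2 ≤ ζ ^ 2 := by
        rw [← sq_abs, abs_sub_comm]
        exact pow_le_pow_left₀ (abs_nonneg _) htt 2
      have a2 : (t' - η * δ) ^ 2 ≤ ζ ^ 2 := by
        rw [← sq_abs]
        exact pow_le_pow_left₀ (abs_nonneg _) htt 2
      have a3 : (E - E1) ^ 2 ≤ ζ ^ 2 := by
        rw [← sq_abs]
        exact pow_le_pow_left₀ (abs_nonneg _) hEi 2
      have pt : ∀ (x y z c1 c2 : ℝ), c1 ^ 2 ≤ ζ ^ 2 → c2 ^ 2 ≤ ζ ^ 2 →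
          (x + c1 * y + c2 * z) ^ 2 ≤ 4 * x ^ 2 + 4 * (ζ ^ 2 * y ^ 2) + 4 * (ζ ^ 2 * z ^ 2) := by
        intro x y z c1 c2 h1 h2
        have b1 := mul_le_mul_of_nonneg_right h1 (sq_nonneg y)
        have b2 := mul_le_mul_of_nonneg_right h2 (sq_nonneg z)
        nlinarith [sq_nonneg (x - c1 * y), sq_nonneg (x - c2 * z), sq_nonneg (c1 * y - c2 * z),
          sq_nonneg x, sq_nonneg (c1 * y), sq_nonneg (c2 * z)]
      have s1 : ∑ x, r1 x ^ 2 ≤ 4 * ∑ x, rr x ^ 2 + 4 * (ζ ^ 2 * ∑ x, vi x ^ 2) +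
          4 * (ζ ^ 2 * ∑ x, vr x ^ 2) := by
        rw [Finset.mul_sum, Finset.mul_sum, Finset.mul_sum, Finset.mul_sum, Finset.mul_sum,
          ← Finset.sum_add_distrib, ← Finset.sum_add_distrib]
        refine Finset.sum_le_sum fun x _ => ?_
        rw [hr1]
        exact pt _ _ _ _ _ a1 a3
      have s2 : ∑ x, r2 x ^ 2 ≤ 4 * ∑ x, ri x ^ 2 + 4 * (ζ ^ 2 * ∑ x, vr x ^ 2) +
          4 * (ζ ^ 2 * ∑ x, vi x ^ 2) := by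
        rw [Finset.mul_sum, Finset.mul_sum, Finset.mul_sum, Finset.mul_sum, Finset.mul_sum,
          ← Finset.sum_add_distrib, ← Finset.sum_add_distrib]
        refine Finset.sum_le_sum fun x _ => ?_
        rw [hr2]
        exact pt _ _ _ _ _ a2 a3
      unfold Bq
      have e9 : 4 * (∑ x, rr x ^ 2 + ∑ x, ri x ^ 2) +
          4 * (ζ ^ 2 * (∑ x, vr x ^ 2 + ∑ x, vi x ^ 2)) +
          4 * (ζ ^ 2 * (∑ x, vr x ^ 2 + ∑ x, vi x ^ 2)) =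
          (4 * ∑ x, rr x ^ 2 + 4 * (ζ ^ 2 * ∑ x, vi x ^ 2) + 4 * (ζ ^ 2 * ∑ x, vr x ^ 2)) +
          (4 * ∑ x, ri x ^ 2 + 4 * (ζ ^ 2 * ∑ x, vr x ^ 2) + 4 * (ζ ^ 2 * ∑ x, vi x ^ 2)) := by
        ring
      rw [e9]
      exact add_le_add s1 s2
    have hρn : Bq rr ri ≤ ρ ^ 2 := by
      have := Real.sqrt_le_left hρ0 |>.1 hρ
      exact this
    have hvn : Bq vr vi ≤ ((η * δ)⁻¹) ^ 2 :=
      (Real.sqrt_le_left (inv_nonneg.2 ht0.le)).1 hBv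
    have hζi : 0 ≤ ζ * (η * δ)⁻¹ := by positivity
    rw [Real.sqrt_le_left (by rw [hρ']; positivity), hρ']
    have e10 : ζ ^ 2 * Bq vr vi ≤ (ζ * (η * δ)⁻¹) ^ 2 := by
      rw [mul_pow]
      gcongr
    nlinarith [mul_nonneg hρ0 hζi, sq_nonneg (ζ * (η * δ)⁻¹)]
  have hρ'0 : 0 ≤ ρ' := (Real.sqrt_nonneg _).trans hρs
  have hX := Pool.Agent.W363.BK.D0_herm (d := d) (L := L) E1 δ
  have hA := fun y => Pool.Agent.W363.BK.AA_herm (d := d) (L := L) E1 δ θ y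
  have hF0 : 0 ≤ FS E1 δ θ η fr fi V := by
    have e1 := (ward hX hA hη V
      (wf (d := d) (L := L) E1 δ fr fi)).1
    change FS E1 δ θ η fr fi V = _ at e1
    rw [e1]
    exact mul_nonneg hη.le (nsq_nonneg _)
  have hgS : ∑ k : T d L, (JJ E1 δ k)⁻¹ * ‖fc fr fi k‖ ^ 2 ≤
      g1 * NN d L := by
    refine le_trans (Finset.sum_le_sum fun k _ => ?_) hg
    exact mul_le_of_le_one_right (inv_nonneg.2 (Pool.Agent.W788.BK.JJ_pos E1 δ hδ k).le)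
      (pow_le_one₀ (norm_nonneg _) (hfc k))
  have hn := tor_near3 E1 δ θ η κ g1 ρ' τ Kf hδ hη hη1 hκ hκ2
    hsh' hgS hg0 hKf hf hρ'0 hρs hτ hVU hBv hF0 hFK hκ'
  have hw := ward3 hsh'
  have hBr : Real.sqrt (Bq vr vi) * Real.sqrt (Bq r1 r2) ≤ ρ' / (η * δ) := by
    calc _ ≤ (η * δ)⁻¹ * ρ' := mul_le_mul hBv hρs (Real.sqrt_nonneg _) (by positivity)
      _ = ρ' / (η * δ) := by rw [div_eq_mul_inv, mul_comm]
  have hBq : Bq vr vi ≤ (Kf + 1) / (η * δ) := by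
    rw [le_div_iff₀ ht0]
    have a1 := (abs_le.1 hw).2
    have a2 := (abs_le.1 hn).2
    linarith
  exact ⟨r1, r2, hsh', hρs, hBq⟩

/-- the pairing is bounded by the masses -/
theorem chiO_le (P0 : T d L) (o : T d L → ℂ) (ho : ∀ k, ‖o k‖ ≤ 1) (vr vi vr' vi' : T d L → ℝ)
    (w : T d L → ℂ) (hw : ∀ k, o k * fc vr' vi' k = ∑ x, w x * e k x) (X : ℝ)
    (h1 : Bq vr vi ≤ X) (h2 : Bq vr' vi' ≤ X) : ‖chiO P0 vr vi w‖ ≤ X := by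
  have hN := NN_pos (d := d) (L := L)
  have e1 : ∑ x, ‖w x‖ ^ 2 ≤ X := by
    have h3 := pars w w
    have h4 : ((∑ k : T d L, ‖∑ x, w x * e k x‖ ^ 2 : ℝ) : ℂ) =
        ((NN d L * ∑ x, ‖w x‖ ^ 2 : ℝ) : ℂ) := by
      push_cast
      have h5 : ∀ z : ℂ, (starRingEnd ℂ) z * z = ((‖z‖ : ℝ) : ℂ) ^ 2 := fun z => by
        rw [Complex.conj_mul']
      simp only [h5] at h3
      exact h3
    have h5 : ∑ k : T d L, ‖∑ x, w x * e k x‖ ^ 2 = NN d L * ∑ x, ‖w x‖ ^ 2 := by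
      exact_mod_cast h4
    have h6 : ∑ k : T d L, ‖∑ x, w x * e k x‖ ^ 2 ≤ ∑ k : T d L, ‖fc vr' vi' k‖ ^ 2 := by
      refine Finset.sum_le_sum fun k _ => ?_
      rw [← hw k, norm_mul]
      exact pow_le_pow_left₀ (by positivity) (mul_le_of_le_one_left (norm_nonneg _) (ho k)) 2
    rw [h5, sum_fc_one] at h6
    exact (le_of_mul_le_mul_left h6 hN).trans h2
  have e2 : ∑ x, (vr x ^ 2 + vi x ^ 2) ≤ X := by
    rw [Finset.sum_add_distrib]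
    exact h1
  have e3 : ‖chiO P0 vr vi w‖ ≤ ∑ x, (1 / 2 * (vr x ^ 2 + vi x ^ 2) + 1 / 2 * ‖w x‖ ^ 2) := by
    unfold chiO
    refine (norm_sum_le _ _).trans (Finset.sum_le_sum fun x _ => ?_)
    have hen : ‖Pool.Agent.W788.MFP.Four.e P0 x‖ = 1 := by
      unfold Pool.Agent.W788.MFP.Four.e
      rw [ZMod.stdAddChar_apply]
      exact Circle.norm_coe _
    rw [norm_mul, hen, one_mul, norm_mul, Complex.norm_conj]
    have h3 : vr x ^ 2 + vi x ^ 2 = ‖(vr x : ℂ) + Complex.I * (vi x : ℂ)‖ ^ 2 := by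
      rw [← Complex.normSq_eq_norm_sq, Complex.normSq_apply]
      simp
      ring
    rw [h3]
    nlinarith [sq_nonneg (‖(vr x : ℂ) + Complex.I * (vi x : ℂ)‖ - ‖w x‖)]
  rw [Finset.sum_add_distrib, ← Finset.mul_sum, ← Finset.mul_sum] at e3
  linarith

/-- **the energies of a set** -/
theorem torO (B : ℝ → Prop) (μ : Measure ℝ) (δ θ η κ g1 ρ τ Kf ζ ω1 W t' : ℝ) (M : ℕ)
    (hδ : 0 < δ) (hη : 0 < η) (hη1 : η ≤ 1) (hκ : 0 < κ) (hκ2 : κ ≤ 1 / 2)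
    (hζ : 0 < ζ) (hM : W + ζ ≤ ζ * M) (o : T d L → ℂ) (ho : ∀ k, ‖o k‖ ≤ 1)
    (fr fi : T d L → ℝ) (hfc : ∀ k, fc fr fi k = (starRingEnd ℂ) (o k))
    (V : T d L → ℝ) (hV : V ∈ GoodO (d := d) (L := L) B μ δ θ η τ ζ Kf ω1 M o fr fi)
    (hf : ∀ (E : ℝ) (w : T d L → ℝ), |∑ x, V x * w x ^ 2| ≤ κ * q (JJ E δ) w)
    (hg : ∀ E, ∑ k : T d L, (JJ E δ k)⁻¹ ≤ g1 * NN d L) (hg0 : 0 ≤ g1)
    (hρ0 : 0 ≤ ρ) (hτ : 0 ≤ τ) (hKf : 0 ≤ Kf)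
    (ρ' : ℝ) (hρ' : ρ' = 2 * (ρ + ζ * (η * δ)⁻¹) + 2 * (ζ * (η * δ)⁻¹))
    (h1 : 2 * (τ / (η * δ) + 2 * (κ + η)) * (Kf + ρ' / (η * δ)) +
      2 * Real.sqrt Kf * (2 * (Real.sqrt η * Real.sqrt g1) +
        3 * (ρ' / Real.sqrt (η * δ))) + ρ' / (η * δ) ≤ 1)
    (hκ' : τ / (η * δ) + 2 * (κ + η) ≤ 1)
    (Bb s e3 : ℝ) (hB : Bb = Real.sqrt ((Kf + 1) / (η * δ)))
    (hs : s = (Real.sqrt η)⁻¹ * ((Real.sqrt δ)⁻¹ * (ρ' + τ * Bb) + η * (2 * Real.sqrt g1 +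
      2 * (κ + η) * (Real.sqrt δ * Bb) + 2 * ((Real.sqrt δ)⁻¹ * ρ'))))
    (he3 : 2 * Real.sqrt Kf * s + s ^ 2 + 2 * ω1 + ζ * ((Kf + 1) / (η * δ)) ≤ e3)
    (E : ℝ) (hE : |E| ≤ W) (hBj : ∀ j : ℤ, |E - ζ * j| ≤ ζ → B (ζ * j))
    (htt : |t' - η * δ| ≤ ζ)
    (vr vi rr ri vr' vi' rr' ri' : T d L → ℝ)
    (h : Sol3 E t' V (Pi.single 0 1) (fun _ => 0) vr vi rr ri)
    (h' : Sol3 E t' V fr fi vr' vi' rr' ri')
    (hρ : Real.sqrt (Bq rr ri) ≤ ρ) (hBv : Real.sqrt (Bq vr vi) ≤ (η * δ)⁻¹)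
    (hρq : Real.sqrt (Bq rr' ri') ≤ ρ) (hBq' : Real.sqrt (Bq vr' vi') ≤ (η * δ)⁻¹)
    (w : T d L → ℂ) (hw : ∀ k, o k * fc vr' vi' k = ∑ x, w x * e k x) :
    ∃ i : ℤ, |E - ζ * i| ≤ ζ ∧ B (ζ * i) ∧ Bq vr vi ≤ (Kf + 1) / (η * δ) ∧
      Bq vr' vi' ≤ (Kf + 1) / (η * δ) ∧
      ∀ P0 : T d L, ‖((t' : ℝ) : ℂ) * chiO P0 vr vi w -
        ∫ U, FPo (ζ * i) δ θ η P0 o (fun k => (starRingEnd ℂ) (o k)) U
          ∂(PP (T d L) μ)‖ ≤ e3 := by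
  have ht0 : 0 < η * δ := by positivity
  obtain ⟨i, hi⟩ : ∃ i : ℤ, i = ⌊E / ζ⌋ := ⟨_, rfl⟩
  have f3 := Int.floor_le (E / ζ)
  have f4 := Int.lt_floor_add_one (E / ζ)
  rw [← hi] at f3 f4
  have f5 : ζ * (i : ℝ) ≤ E := by
    calc ζ * (i : ℝ) ≤ ζ * (E / ζ) := by gcongr
      _ = E := by field_simp
  have f6 : E ≤ ζ * (i : ℝ) + ζ := by
    calc E = ζ * (E / ζ) := by field_simp
      _ ≤ ζ * ((i : ℝ) + 1) := by gcongr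
      _ = _ := by ring
  have hEi : |E - ζ * i| ≤ ζ := by
    rw [abs_le]
    constructor <;> linarith
  have hiI : i ∈ Finset.Icc (-(M : ℤ)) M := by
    have e1 := abs_le.1 hE
    rw [Finset.mem_Icc]
    constructor
    · rw [hi, Int.le_floor, le_div_iff₀ hζ]
      push_cast
      linarith [e1.1]
    · have e2 : ζ * (i : ℝ) ≤ ζ * M := by linarith [e1.2]
      have e3 : (i : ℝ) ≤ M := le_of_mul_le_mul_left e2 hζ
      exact_mod_cast e3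
  have hBi : B (ζ * i) := hBj i hEi
  obtain ⟨⟨hFK, hFK'⟩, hQ⟩ := hV.2 i hiI hBi
  have hfn : ∀ k, ‖fc fr fi k‖ ≤ 1 := fun k => by
    rw [hfc, Complex.norm_conj]
    exact ho k
  obtain ⟨r1, r2, s1, s2, s3⟩ := tor1 δ θ η κ g1 ρ τ Kf ζ t' E (ζ * i) hδ hη hη1 hκ hκ2 hζ V _ _
    (fun k => by rw [fc_single, norm_one]) hV.1 hFK (hf _) (hg _) hg0 hρ0 hτ hKf ρ' hρ' h1 hκ' hEi
    htt vr vi rr ri h hρ hBv
  obtain ⟨q1, q2, u1, u2, u3⟩ := tor1 δ θ η κ g1 ρ τ Kf ζ t' E (ζ * i) hδ hη hη1 hκ hκ2 hζ V fr fi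
    hfn hV.1 hFK' (hf _) (hg _) hg0 hρ0 hτ hKf ρ' hρ' h1 hκ' hEi
    htt vr' vi' rr' ri' h' hρq hBq'
  have hρ'0 : 0 ≤ ρ' := (Real.sqrt_nonneg _).trans s2
  have hBb : Real.sqrt (Bq vr vi) ≤ Bb := by
    rw [hB]
    exact Real.sqrt_le_sqrt s3
  have hBb' : Real.sqrt (Bq vr' vi') ≤ Bb := by
    rw [hB]
    exact Real.sqrt_le_sqrt u3
  refine ⟨i, hEi, hBi, s3, u3, fun P0 => ?_⟩
  have hc := compO (ζ * i) δ θ η κ g1 ρ' τ P0 o ho hδ hη hκ hκ2 s1 u1 hfc (hg _) hg0 (hf _) s2 u2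
    hτ hV.1 Bb Kf s hρ'0 hBb hBb' hFK hFK' hs w hw
  have hQP := hQ P0
  have hch : ‖((t' - η * δ : ℝ) : ℂ) * chiO P0 vr vi w‖ ≤ ζ * ((Kf + 1) / (η * δ)) := by
    rw [norm_mul, Complex.norm_real, Real.norm_eq_abs]
    exact mul_le_mul htt (chiO_le P0 o ho vr vi vr' vi' w hw _ s3 u3) (norm_nonneg _) hζ.le
  have e7 : ((t' : ℝ) : ℂ) * chiO P0 vr vi w -
        ∫ U, FPo (ζ * i) δ θ η P0 o (fun k => (starRingEnd ℂ) (o k)) U ∂(PP (T d L) μ) =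
      ((t' - η * δ : ℝ) : ℂ) * chiO P0 vr vi w +
      (((η * δ : ℝ) : ℂ) * chiO P0 vr vi w -
        FPo (ζ * i) δ θ η P0 o (fun k => (starRingEnd ℂ) (o k)) V) +
      (FPo (ζ * i) δ θ η P0 o (fun k => (starRingEnd ℂ) (o k)) V -
        ∫ U, FPo (ζ * i) δ θ η P0 o (fun k => (starRingEnd ℂ) (o k)) U ∂(PP (T d L) μ)) := by
    push_cast
    ring
  rw [e7]
  refine (norm_add_le _ _).trans ((add_le_add ((norm_add_le _ _).trans (add_le_add hch hc))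
    hQP).trans ?_)
  linarith

end Pool.Agent.Q218.WE
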