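import Pool.Agent.TH794.HK.MeanK
import Pool.Agent.Q218.WE.Core

/-! The chain with a momentum transfer and a symbol: covariance and the block equation. -/

set_option autoImplicit false
set_option linter.unusedSectionVars false

open scoped BigOperators Matrix
open MeasureTheory

namespace Pool.Agent.Q218.WE

open Pool.Agent.TH794.HK
open Pool.Agent.TH794.QD
open Pool.Agent.W788.BK
open Pool.Agent.TH794.LL2
open Pool.Agent.W788.MFP.Four (T e NN adj K ft Op q NN_pos e_zero e_comm e_add_left e_add e_neg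
  e_neg_left e_normSq sum_e)

variable {d L : ℕ} [NeZero L]

/-- the twist with a symbol -/
noncomputable def TSo (E δ : ℝ) (P0 : T d L) (o : T d L → ℂ) : Matrix (T d L) (T d L) ℂ :=
  Matrix.of fun k p => if p = k + P0 then ((δ * wt E δ P0 k : ℝ) : ℂ) * o p else 0

theorem TSo_mulVec (E δ : ℝ) (P0 : T d L) (o : T d L → ℂ) (w : T d L → ℂ) (k : T d L) :
    (TSo E δ P0 o *ᵥ w) k = ((δ * wt E δ P0 k : ℝ) : ℂ) * o (k + P0) * w (k + P0) := by
  unfold Matrix.mulVec dotProduct TSo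
  rw [Finset.sum_eq_single (k + P0)]
  · simp only [Matrix.of_apply, if_true]
  · intro l _ hl
    simp only [Matrix.of_apply]
    rw [if_neg hl, zero_mul]
  · intro h
    exact absurd (Finset.mem_univ _) h

theorem TSo_nsq (E δ : ℝ) (hδ : 0 < δ) (P0 : T d L) (o : T d L → ℂ) (ho : ∀ k, ‖o k‖ ≤ 1)
    (w : T d L → ℂ) : nsq (TSo E δ P0 o *ᵥ w) ≤ nsq w := by
  unfold nsq
  rw [← Equiv.sum_comp (Equiv.addRight P0) fun k => ‖w k‖ ^ 2]
  refine Finset.sum_le_sum fun k _ => ?_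
  rw [TSo_mulVec, norm_mul, mul_pow, norm_mul, Complex.norm_real, Real.norm_eq_abs]
  apply mul_le_of_le_one_left (sq_nonneg _)
  apply pow_le_one₀ (by positivity)
  rw [abs_of_nonneg (mul_nonneg hδ.le (wt_nonneg _ _ _ _))]
  exact mul_le_one₀ (wt_le E δ hδ P0 k) (norm_nonneg _) (ho _)

theorem TCov.constO (E δ : ℝ) (c : ℂ) (P0 : T d L) (o : T d L → ℂ) :
    TCov P0 fun _ : T d L → ℝ => (c • TSo E δ P0 o : Matrix (T d L) (T d L) ℂ) := by
  intro V z k p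
  beta_reduce
  rw [Matrix.smul_apply]
  unfold TSo
  simp only [Matrix.of_apply]
  by_cases h : p = k + P0
  · rw [if_pos h, h]
    have h2 : k - (k + P0) + P0 = 0 := by abel
    have h3 : e (0 : T d L) z = 1 := by rw [e_comm, e_zero]
    rw [h2, h3, one_mul]
  · rw [if_neg h, smul_zero, mul_zero]

/-- the blocks of the inverse -/
noncomputable def BTo (E δ θ η : ℝ) (P0 : T d L) (o : T d L → ℂ) (V : T d L → ℝ) (i j : Fin 3) :
    Matrix (T d L) (T d L) ℂ :=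
  sel (sel (RR (D0 E δ) (AA E δ θ) η V)ᴴ
      ((RR (D0 E δ) (AA E δ θ) η V)ᴴ * ((η : ℂ) • TSo E δ P0 o) * RR (D0 E δ) (AA E δ θ) η V)
      ((RR (D0 E δ) (AA E δ θ) η V)ᴴ * ((η : ℂ) • TSo E δ P0 o) * RR (D0 E δ) (AA E δ θ) η V *
        ((η : ℂ) • TSo E δ P0 o) * RR (D0 E δ) (AA E δ θ) η V))
    (sel 0 (RR (D0 E δ) (AA E δ θ) η V)
      (RR (D0 E δ) (AA E δ θ) η V * ((η : ℂ) • TSo E δ P0 o) * RR (D0 E δ) (AA E δ θ) η V))
    (sel 0 0 (RR (D0 E δ) (AA E δ θ) η V)) i j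

/-- the unperturbed blocks -/
noncomputable def ZTo (E δ η : ℝ) (P0 : T d L) (o : T d L → ℂ) (i j : Fin 3) :
    Matrix (T d L) (T d L) ℂ :=
  sel (sel (D0 E δ + ((η : ℂ) * Complex.I) • 1) (-((η : ℂ) • TSo E δ P0 o)) 0)
    (sel 0 (D0 E δ - ((η : ℂ) * Complex.I) • 1) (-((η : ℂ) • TSo E δ P0 o)))
    (sel 0 0 (D0 E δ - ((η : ℂ) * Complex.I) • 1)) i j

theorem GG_BTo (E δ θ η : ℝ) (P0 : T d L) (o : T d L → ℂ) (V : T d L → ℝ) (hη : 0 < η)
    (h0 : (D0 (d := d) (L := L) E δ).IsHermitian)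
    (hA : ∀ y, (AA (d := d) (L := L) E δ θ y).IsHermitian) :
    GG (Z3 (D0 E δ) ((η : ℂ) • TSo E δ P0 o) η) (A3 (AA (d := d) (L := L) E δ θ)) V =
      blk (BTo E δ θ η P0 o V) := GG3 _ _ _ η h0 hA hη V

theorem sel_ZTo (E δ η : ℝ) (P0 : T d L) (o : T d L → ℂ) :
    Z3 (D0 (d := d) (L := L) E δ) ((η : ℂ) • TSo E δ P0 o) η = blk (ZTo E δ η P0 o) := rfl

theorem cov01o (E δ θ η : ℝ) (P0 : T d L) (o : T d L → ℂ) :
    TCov P0 fun V : T d L → ℝ => BTo E δ θ η P0 o V 0 1 := by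
  have hR := Cov.res (d := d) (L := L) E δ θ η
  have h1 := ((TCov.of_cov hR.conj).mul (TCov.constO E δ (η : ℂ) P0 o)).mul (TCov.of_cov hR)
  rw [zero_add, add_zero] at h1
  exact h1

/-- **the equation of the twisted two-resolvent average** -/
theorem tw_eqO (hES : S_ES) (hFA : S_FAC) (E δ θ η a v2 Q β s2 ε : ℝ) (P0 : T d L)
    (o : T d L → ℂ) (ho : ∀ k, ‖o k‖ ≤ 1) (hδ : 0 < δ) (hη : 0 < η) (hη1 : η ≤ 1)
    (hadm : Adm (D0 E δ) (AA (d := d) (L := L) E δ θ) a v2 Q)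
    (μ : Measure ℝ) [IsProbabilityMeasure μ] (hβ : 0 < β) (hμ : ∀ᵐ s ∂μ, |s| ≤ β)
    (h0 : ∫ s, s ∂μ = 0) (h2 : ∫ s, s ^ 2 ∂μ = s2) (hs2 : 0 ≤ s2)
    (hβa : β * a * (3 / η) ≤ 1) (hβv : β ^ 2 * v2 ≤ 1)
    (hε : 4 * β ^ 3 * a * v2 * (3 / η) ^ 3 +
      s2 * (2 * β * (3 * Q) * Real.sqrt v2 * (3 / η) ^ 4) ≤ ε) (M Y : T d L → ℂ)
    (hM : ∀ k, M k = ∫ V, RR (D0 E δ) (AA E δ θ) η V k k ∂(PP (T d L) μ))
    (hY : ∀ k, Y k = ∫ V, BTo E δ θ η P0 o V 0 1 k (k + P0) ∂(PP (T d L) μ)) (k : T d L) :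
    ‖((((adj k - E) / JJ E δ k : ℝ) : ℂ) + (η : ℂ) * Complex.I) * Y k -
      ((η * δ * wt E δ P0 k : ℝ) : ℂ) * o (k + P0) * M (k + P0) -
      (s2 : ℂ) * ((starRingEnd ℂ) (Ps E δ θ M k) * Y k +
        (wt E δ P0 k : ℂ) * (∑ p, (((NN d L)⁻¹ * hi θ (k - p) * wt E δ P0 p : ℝ) : ℂ) * Y p) *
          M (k + P0))‖ ≤ ε := by
  have hH := adG3 hadm (TSo E δ P0 o) η hη hη1 (TSo_nsq E δ hδ P0 o ho)
  have hXh := hadm.hX0
  have hAh := hadm.hA
  obtain ⟨MB, hMB⟩ : ∃ MB : Fin 3 → Fin 3 → Matrix (T d L) (T d L) ℂ, MB = fun i j =>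
    Matrix.of fun k p => MG (Z3 (D0 E δ) ((η : ℂ) • TSo E δ P0 o) η) (A3 (AA E δ θ)) μ (i, k) (j, p) :=
    ⟨_, rfl⟩
  have hMG : MG (Z3 (D0 E δ) ((η : ℂ) • TSo E δ P0 o) η) (A3 (AA (d := d) (L := L) E δ θ)) μ =
      blk MB := by
    rw [hMB]
    ext ⟨i, k⟩ ⟨j, p⟩
    rfl
  have hMBi : ∀ i j k p, MB i j k p = ∫ V, BTo E δ θ η P0 o V i j k p ∂(PP (T d L) μ) := by
    intro i j k p
    rw [hMB]
    simp only [Matrix.of_apply]
    unfold MG
    rw [Matrix.of_apply]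
    refine integral_congr_ae (Filter.Eventually.of_forall fun V => ?_)
    simp only
    rw [GG_BTo E δ θ η P0 o V hη hXh hAh]
    rfl
  have d11 : ∀ k p, k ≠ p → MB 1 1 k p = 0 := by
    intro k p hkp
    rw [hMBi]
    exact (Cov.res (d := d) (L := L) E δ θ η).off μ k p hkp
  have d00 : ∀ k p, k ≠ p → MB 0 0 k p = 0 := by
    intro k p hkp
    rw [hMBi]
    exact (Cov.res (d := d) (L := L) E δ θ η).conj.off μ k p hkp
  have d01 : ∀ k p, p ≠ k + P0 → MB 0 1 k p = 0 := by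
    intro k p hkp
    rw [hMBi]
    exact (cov01o E δ θ η P0 o).off μ k p hkp
  have d21 : MB 2 1 = 0 := by
    ext k p
    rw [hMBi, Matrix.zero_apply]
    have h1 : ∀ V, BTo E δ θ η P0 o V 2 1 k p = 0 := fun V => rfl
    simp [h1]
  have m11 : ∀ k, MB 1 1 k k = M k := by
    intro k
    rw [hMBi, hM]
    rfl
  have m00 : ∀ k, MB 0 0 k k = (starRingEnd ℂ) (M k) := by
    intro k
    rw [hMBi, hM, ← integral_conj]
    rfl
  have m01 : ∀ k, MB 0 1 k (k + P0) = Y k := by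
    intro k
    rw [hMBi, hY]
  have e1 := thirdG hFA hH μ β s2 hβ hμ h0 h2 hβa (Pi.single (0, k) 1) (Pi.single (1, k + P0) 1)
    (nsq_single _) (nsq_single _)
  have e2 := fluctG hES hH μ β hβ hμ hβv (Pi.single (0, k) 1) (Pi.single (1, k + P0) 1)
    (nsq_single _) (nsq_single _)
  rw [form_single] at e1 e2
  rw [hMG, sel_ZTo] at e1
  rw [hMG, psi_blk] at e2
  rw [Matrix.sub_apply, Matrix.sub_apply, Matrix.smul_apply, smul_eq_mul,
    blk_mul_app, Fin.sum_univ_three, d21, mul_zero, Matrix.zero_apply, add_zero] at e1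
  rw [Matrix.sub_apply, blk_mul_app, Fin.sum_univ_three, d21, mul_zero, Matrix.zero_apply,
    add_zero] at e2
  have z0 : (ZTo E δ η P0 o 0 0 * MB 0 1) k (k + P0) =
      ((((adj k - E) / JJ E δ k : ℝ) : ℂ) + (η : ℂ) * Complex.I) * Y k := by
    have h1 : ZTo E δ η P0 o 0 0 = Matrix.diagonal fun k => ((((adj k - E) / JJ E δ k : ℝ) : ℂ) +
        (η : ℂ) * Complex.I) := by
      change (D0 E δ + ((η : ℂ) * Complex.I) • (1 : Matrix (T d L) (T d L) ℂ)) = _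
      unfold D0
      rw [Matrix.smul_one_eq_diagonal, Matrix.diagonal_add]
    rw [h1, Matrix.diagonal_mul, m01]
  have z1 : (ZTo E δ η P0 o 0 1 * MB 1 1) k (k + P0) =
      -(((η * δ * wt E δ P0 k : ℝ) : ℂ) * o (k + P0) * M (k + P0)) := by
    have h1 : ZTo E δ η P0 o 0 1 = -((η : ℂ) • TSo E δ P0 o) := rfl
    rw [h1, Matrix.mul_apply, Finset.sum_eq_single (k + P0)]
    · rw [Matrix.neg_apply, Matrix.smul_apply, m11]
      unfold TSo
      simp only [Matrix.of_apply, if_true, smul_eq_mul]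
      push_cast
      ring
    · intro l _ hl
      rw [d11 _ _ hl, mul_zero]
    · intro h
      exact absurd (Finset.mem_univ _) h
  have p0 : (Psi (AA (d := d) (L := L) E δ θ) (MB 0 0) * MB 0 1) k (k + P0) =
      (starRingEnd ℂ) (Ps E δ θ M k) * Y k := by
    rw [Matrix.mul_apply, Finset.sum_eq_single k]
    · rw [Psi_diag E δ θ hδ (MB 0 0) d00 k, m01]
      congr 1
      unfold Ps
      rw [map_sum]
      refine Finset.sum_congr rfl fun p _ => ?_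
      rw [map_mul, Complex.conj_ofReal, m00]
    · intro l _ hl
      rw [d01 l (k + P0) (fun h => hl (add_right_cancel h).symm), mul_zero]
    · intro h
      exact absurd (Finset.mem_univ _) h
  have p1 : (Psi (AA (d := d) (L := L) E δ θ) (MB 0 1) * MB 1 1) k (k + P0) =
      (wt E δ P0 k : ℂ) * (∑ p, (((NN d L)⁻¹ * hi θ (k - p) * wt E δ P0 p : ℝ) : ℂ) * Y p) *
          M (k + P0) := by
    rw [Matrix.mul_apply, Finset.sum_eq_single (k + P0)]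
    · rw [Psi_tw E δ θ P0 (MB 0 1) d01 k, m11]
      simp only [m01]
    · intro l _ hl
      rw [d11 _ _ hl, mul_zero]
    · intro h
      exact absurd (Finset.mem_univ _) h
  have o2 : (1 : Matrix (Fin 3 × T d L) (Fin 3 × T d L) ℂ) (0, k) (1, k + P0) = 0 :=
    Matrix.one_apply_ne fun h3 => absurd (Prod.ext_iff.1 h3).1
      (show ¬((0 : Fin 3) = 1) by decide)
  rw [z0, z1, o2] at e1
  rw [p0, p1] at e2
  obtain ⟨X, hX⟩ : ∃ X, X = SG (Z3 (D0 E δ) ((η : ℂ) • TSo E δ P0 o) η)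
    (A3 (AA (d := d) (L := L) E δ θ)) μ (0, k) (1, k + P0) := ⟨_, rfl⟩
  rw [sel_ZTo] at hX
  rw [← hX] at e1
  rw [sel_ZTo, ← hX] at e2
  obtain ⟨YY, hYY⟩ : ∃ YY, YY = (starRingEnd ℂ) (Ps E δ θ M k) * Y k +
      (wt E δ P0 k : ℂ) * (∑ p, (((NN d L)⁻¹ * hi θ (k - p) * wt E δ P0 p : ℝ) : ℂ) * Y p) *
          M (k + P0) := ⟨_, rfl⟩
  rw [← hYY] at e2 ⊢
  have e4 : ((((adj k - E) / JJ E δ k : ℝ) : ℂ) + (η : ℂ) * Complex.I) * Y k -
      ((η * δ * wt E δ P0 k : ℝ) : ℂ) * o (k + P0) * M (k + P0) - (s2 : ℂ) * YY =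
      (((((adj k - E) / JJ E δ k : ℝ) : ℂ) + (η : ℂ) * Complex.I) * Y k +
        -(((η * δ * wt E δ P0 k : ℝ) : ℂ) * o (k + P0) * M (k + P0)) - (s2 : ℂ) * X - 0) +
        (s2 : ℂ) * (X - YY) := by
    ring
  rw [e4]
  refine (norm_add_le _ _).trans (le_trans (add_le_add e1 ?_) hε)
  rw [norm_mul, Complex.norm_real, Real.norm_of_nonneg hs2]
  exact mul_le_mul_of_nonneg_left e2 hs2

end Pool.Agent.Q218.WE
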